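import Pool.Agent.W_MP_0bf392_lc.Defs

/-!
# Frames and functors

A *frame* is a type `X` with a well-founded extensional relation `E` (membership) and a
family `Cl` of relations of arity `ω` on `X` (the internal relations) which is closed under
countable first-order operations and satisfies separation and collection.  A *functor* is the
abstract version of the ultrapower embedding by a countably complete ultrafilter.
-/

universe u v

namespace IM

variable {X : Type v}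

/-- Relations of arity `ω`. -/
abbrev Rel (X : Type v) := (ℕ → X) → Prop

@[simp] theorem cons_zero (x : X) (v : ℕ → X) : cons x v 0 = x := rfl

@[simp] theorem cons_succ (x : X) (v : ℕ → X) (n : ℕ) : cons x v (n + 1) = v n := rfl

theorem cons_eta (v : ℕ → X) : cons (v 0) (fun n => v (n + 1)) = v := by
  funext n; cases n <;> rfl

theorem comp_cons {Y : Type*} (f : X → Y) (x : X) (v : ℕ → X) :
    (fun n => f (cons x v n)) = cons (f x) (fun n => f (v n)) := by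
  funext n; cases n <;> rfl

theorem forall_cons {p : X → Prop} {x : X} {v : ℕ → X} :
    (∀ n, p (cons x v n)) ↔ p x ∧ ∀ n, p (v n) :=
  ⟨fun h => ⟨h 0, fun n => h (n + 1)⟩, fun h n => by cases n <;> [exact h.1; exact h.2 _]⟩

section pairs

variable (E : X → X → Prop)

/-- `p = {x, y}`. -/
def IsUp (p x y : X) : Prop := ∀ z, E z p ↔ z = x ∨ z = y

/-- `p = (x, y)` (Kuratowski). -/
def IsPr (p x y : X) : Prop := ∃ a b, IsUp E a x x ∧ IsUp E b x y ∧ IsUp E p a b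

/-- `f(x) = y`: the pair `(x, y)` is in `f` and no other pair `(x, y')` is. -/
def Ap (f x y : X) : Prop :=
  (∃ p, IsPr E p x y ∧ E p f) ∧ ∀ y' p, IsPr E p x y' → E p f → y' = y

end pairs

/-- A frame. -/
structure Frame (X : Type v) where
  E : X → X → Prop
  W : X → X → Prop
  P : X → X → Prop
  Cl : Rel X → Prop
  wf : WellFounded E
  P_iff : ∀ x y, P x y ↔ ∃ z, E z y ∧ ¬ P z x
  cl_not : ∀ {R : Rel X}, Cl R → Cl (fun v => ¬ R v)
  cl_all : ∀ {R : ℕ → Rel X}, (∀ n, Cl (R n)) → Cl (fun v => ∀ n, R n v)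
  cl_ex : ∀ {R : Rel X}, Cl R → Cl (fun v => ∃ x, R (cons x v))
  cl_re : ∀ {R : Rel X}, Cl R → ∀ σ : ℕ → ℕ, Cl (fun v => R (fun n => v (σ n)))
  cl_par : ∀ {R : Rel X}, Cl R → ∀ p, Cl (fun v => R (cons p v))
  cl_eq : Cl (fun v => v 0 = v 1)
  cl_mem : Cl (fun v => E (v 0) (v 1))
  cl_W : Cl (fun v => W (v 0) (v 1))
  cl_P : Cl (fun v => P (v 0) (v 1))
  ext : ∀ x y, (∀ z, E z x ↔ E z y) → x = y
  sep : ∀ {R : Rel X}, Cl R → ∀ v x, ∃ y, ∀ z, E z y ↔ E z x ∧ R (cons z v)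
  rk : ∀ x, ∃ y, ∀ z, P z x → E z y
  coll : ∀ {R : Rel X}, Cl R → ∀ v x, ∃ y, ∀ z, E z x →
    (∃ w, R (cons z (cons w v))) → ∃ w, E w y ∧ R (cons z (cons w v))
  ctbl : ∀ f : ℕ → X, ∃ y, ∀ z, E z y ↔ ∃ n, z = f n
  W_wo : IsWellOrder X W

/-- The sequence `a, b, c, c, c, …`. -/
def seq3 (a b c : X) : ℕ → X := cons a (cons b fun _ => c)

/-- A functor on a frame. -/
structure Functor' (F : Frame X) where
  J : Rel X → Rel X
  j : X → X
  s : X
  JN : X → Prop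
  cl_J : ∀ {R : Rel X}, F.Cl R → F.Cl (J R)
  cl_jsub : ∀ {R : Rel X}, F.Cl R → ∀ A : ℕ → Bool,
    F.Cl (fun v => R (fun n => if A n then j (v n) else v n))
  supp : ∀ {R : Rel X} {v}, F.Cl R → J R v → ∀ n, JN (v n)
  j_JN : ∀ x, JN (j x)
  s_JN : JN s
  trans : ∀ {x z}, JN x → F.E z x → JN z
  J_not : ∀ {R : Rel X} {v}, F.Cl R → (∀ n, JN (v n)) → (J (fun v => ¬ R v) v ↔ ¬ J R v)
  J_all : ∀ {R : ℕ → Rel X} {v}, (∀ n, F.Cl (R n)) → (∀ n, JN (v n)) →
    (J (fun v => ∀ n, R n v) v ↔ ∀ n, J (R n) v)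
  J_ex : ∀ {R : Rel X} {v}, F.Cl R → (∀ n, JN (v n)) →
    (J (fun v => ∃ x, R (cons x v)) v ↔ ∃ x, JN x ∧ J R (cons x v))
  J_re : ∀ {R : Rel X} {v}, F.Cl R → ∀ σ : ℕ → ℕ, (∀ n, JN (v n)) →
    (J (fun v => R (fun n => v (σ n))) v ↔ J R (fun n => v (σ n)))
  J_par : ∀ {R : Rel X} {v}, F.Cl R → ∀ p, (∀ n, JN (v n)) →
    (J (fun v => R (cons p v)) v ↔ J R (cons (j p) v))
  J_emb : ∀ {R : Rel X} {v}, F.Cl R → (R v ↔ J R (fun n => j (v n)))
  J_eq : ∀ {v}, (∀ n, JN (v n)) → (J (fun v => v 0 = v 1) v ↔ v 0 = v 1)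
  J_mem : ∀ {v}, (∀ n, JN (v n)) → (J (fun v => F.E (v 0) (v 1)) v ↔ F.E (v 0) (v 1))
  gen : ∀ {y}, JN y → ∃ f, J (fun v => Ap F.E (v 0) (v 1) (v 2)) (seq3 (j f) s y)

end IM
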