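import Pool.Agent.W_MP_0bf392_lc.BWO

/-!
# The quotient is a frame
-/

universe u v

namespace IM

open BSet

variable {D : Type u} [CompleteBooleanAlgebra D] {lam : D → Prop} {hl : IsUlt lam}

/-! ### Auxiliary facts -/

theorem bf_ult_inf {lam : D → Prop} (hl : IsUlt lam) {a b : D} : lam (a ⊓ b) ↔ lam a ∧ lam b := by
  constructor
  · intro h
    exact ⟨hl.mono inf_le_left h, hl.mono inf_le_right h⟩
  · rintro ⟨ha, hb⟩
    have h := hl.iInf (fun n : ℕ => if n = 0 then a else b) (by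
      intro n
      by_cases hn : n = 0
      · simpa [hn] using ha
      · simpa [hn] using hb)
    refine hl.mono ?_ h
    refine le_inf ?_ ?_
    · exact (iInf_le _ 0).trans (by simp)
    · exact (iInf_le _ 1).trans (by simp)

theorem bf_ult_compl {lam : D → Prop} (hl : IsUlt lam) {a : D} : lam aᶜ ↔ ¬ lam a := by
  constructor
  · intro h h'
    exact hl.bot (by simpa using (bf_ult_inf hl).2 ⟨h', h⟩)
  · intro h
    exact (hl.compl a).resolve_left h

theorem bf_ult_sup {lam : D → Prop} (hl : IsUlt lam) {a b : D} : lam (a ⊔ b) ↔ lam a ∨ lam b := by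
  constructor
  · intro h
    by_contra hc
    push Not at hc
    have h1 := (bf_ult_inf hl).2 ⟨(bf_ult_compl hl).2 hc.1, (bf_ult_compl hl).2 hc.2⟩
    rw [← compl_sup] at h1
    exact (bf_ult_compl hl).1 h1 h
  · rintro (h | h)
    · exact hl.mono le_sup_left h
    · exact hl.mono le_sup_right h

theorem bf_ult_iSup {lam : D → Prop} (hl : IsUlt lam) (a : ℕ → D) :
    lam (⨆ n, a n) ↔ ∃ n, lam (a n) := by
  constructor
  · intro h
    by_contra hc
    push Not at hc
    have h1 := hl.iInf (fun n => (a n)ᶜ) fun n => (bf_ult_compl hl).2 (hc n)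
    rw [← compl_iSup] at h1
    exact (bf_ult_compl hl).1 h1 h
  · rintro ⟨n, h⟩
    exact hl.mono (le_iSup a n) h

theorem bf_rep_toX {hl : IsUlt lam} (x : BSet D) : lam (beq (toX hl x).rep x) :=
  toX_eq.1 (toX_rep (toX hl x))

theorem bf_BE_rep_left {hl : IsUlt lam} {z : BX hl} {y : BSet D} :
    BE hl z (toX hl y) ↔ lam (bmem z.rep y) := by
  conv_lhs => rw [← toX_rep z]
  exact BE_toX

/-- `R ∧ z ∈ x` is extensional in `z`. -/
theorem bf_ext1_bmem_inf (x : BSet D) {R : BSet D → D} (hR : Ext1 R) :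
    Ext1 fun z => bmem z x ⊓ R z := by
  intro z z'
  refine le_inf ?_ ?_
  · exact (inf_le_inf_left _ inf_le_left).trans (bmem_congr_left z z' x)
  · exact (inf_le_inf_left _ inf_le_right).trans (hR z z')

theorem bf_ext1_compl {R : BSet D → D} (hR : Ext1 R) : Ext1 fun z => (R z)ᶜ := by
  intro z z'
  rw [le_compl_iff_disjoint_right, disjoint_iff]
  refine le_bot_iff.1 ?_
  have h := hR z' z
  rw [beq_symm] at h
  calc beq z z' ⊓ (R z)ᶜ ⊓ R z' = (beq z z' ⊓ R z') ⊓ (R z)ᶜ := by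
        rw [inf_assoc, inf_assoc, inf_comm (R z)ᶜ]
    _ ≤ R z ⊓ (R z)ᶜ := inf_le_inf_right _ h
    _ = ⊥ := inf_compl_eq_bot

theorem bf_ext1_bmem_right (y : BSet D) : Ext1 fun z => bmem z y :=
  fun z z' => bmem_congr_left z z' y

theorem bf_ext1_rkl (y : BSet D) : Ext1 fun z => rkl z y :=
  fun z z' => rkl_congr_left z z' y

theorem bf_bmem_inf (z x : BSet D) {R : BSet D → D} (hR : Ext1 R) :
    bmem z x ⊓ R z = ⨆ a : x.ty, x.wt a ⊓ R (x.fn a) ⊓ beq z (x.fn a) := by
  apply le_antisymm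
  · rw [bmem, iSup_inf_eq]
    refine iSup_le fun a => le_iSup_of_le a ?_
    refine le_inf (le_inf (inf_le_left.trans inf_le_left) ?_) (inf_le_left.trans inf_le_right)
    exact (inf_le_inf_right _ inf_le_right).trans (hR z (x.fn a))
  · refine iSup_le fun a => le_inf ?_ ?_
    · rw [bmem]
      refine le_iSup_of_le a ?_
      exact le_inf (inf_le_left.trans inf_le_left) inf_le_right
    · have h := hR (x.fn a) z
      rw [beq_symm] at h
      refine le_trans ?_ h
      exact le_inf inf_le_right (inf_le_left.trans inf_le_right)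

theorem bf_iSup_wt_le (x : BSet D) {R : BSet D → D} :
    (⨆ a : x.ty, x.wt a ⊓ R (x.fn a)) ≤ ⨆ z, bmem z x ⊓ R z := by
  refine iSup_le fun a => le_iSup_of_le (x.fn a) ?_
  exact inf_le_inf_right _ (wt_le_bmem x a)

/-- A witness for a bounded existential statement which is true modulo the ultrafilter. -/
theorem bf_exists_bmem {hl : IsUlt lam} (x : BSet D) {R : BSet D → D} (hR : Ext1 R)
    (h : lam (⨆ a : x.ty, x.wt a ⊓ R (x.fn a))) : ∃ z : BSet D, lam (bmem z x) ∧ lam (R z) := by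
  obtain ⟨z, hz⟩ := full1 _ (bf_ext1_bmem_inf x hR)
  have h1 := hl.mono (bf_iSup_wt_le x) h
  rw [hz] at h1
  exact ⟨z, (bf_ult_inf hl).1 h1⟩

/-! ### The axioms of a frame -/

theorem bwf : WellFounded (BE hl) := by
  rw [wellFounded_iff_isEmpty_descending_chain]
  constructor
  rintro ⟨f, hf⟩
  have h := hl.iInf (fun n => bmem (f (n + 1)).rep (f n).rep) hf
  rw [no_descending (fun n => (f n).rep)] at h
  exact hl.bot h

theorem bP_iff (x y : BX hl) : BP hl x y ↔ ∃ z, BE hl z y ∧ ¬ BP hl z x := by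
  constructor
  · intro h
    rw [BP, rkl_eq] at h
    obtain ⟨z, hz1, hz2⟩ := bf_exists_bmem (hl := hl) y.rep (bf_ext1_compl (bf_ext1_rkl x.rep)) h
    refine ⟨toX hl z, ?_, ?_⟩
    · rw [← toX_rep y]
      exact BE_toX.2 hz1
    · rw [← toX_rep x, BP_toX]
      exact (bf_ult_compl hl).1 hz2
  · rintro ⟨z, hz1, hz2⟩
    have h1 := (bf_ult_inf hl).2 ⟨hz1, (bf_ult_compl hl).2 hz2⟩
    rw [bf_bmem_inf z.rep y.rep (bf_ext1_compl (bf_ext1_rkl x.rep))] at h1
    rw [BP, rkl_eq]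
    exact hl.mono (iSup_mono fun b => inf_le_left) h1

theorem bf_bext_aux (x y : BSet D) (h : lam (⨅ a : x.ty, (x.wt a)ᶜ ⊔ bmem (x.fn a) y)ᶜ) :
    ∃ z : BX hl, BE hl z (toX hl x) ∧ ¬ BE hl z (toX hl y) := by
  have he : (⨅ a : x.ty, (x.wt a)ᶜ ⊔ bmem (x.fn a) y)ᶜ =
      ⨆ a : x.ty, x.wt a ⊓ (bmem (x.fn a) y)ᶜ := by
    rw [compl_iInf]
    refine iSup_congr fun a => ?_
    rw [compl_sup, compl_compl]
  rw [he] at h
  obtain ⟨z, hz1, hz2⟩ := bf_exists_bmem (hl := hl) x (bf_ext1_compl (bf_ext1_bmem_right y)) h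
  exact ⟨toX hl z, BE_toX.2 hz1, fun h' => (bf_ult_compl hl).1 hz2 (BE_toX.1 h')⟩

theorem bext (x y : BX hl) (h : ∀ z, BE hl z x ↔ BE hl z y) : x = y := by
  by_contra hne
  have h1 : ¬ lam (beq x.rep y.rep) := by
    intro h'
    apply hne
    rw [← toX_rep x, ← toX_rep y]
    exact toX_eq.2 h'
  have h2 := (bf_ult_compl hl).2 h1
  rw [beq_def, compl_inf] at h2
  rcases (bf_ult_sup hl).1 h2 with h3 | h3
  · obtain ⟨z, hz1, hz2⟩ := bf_bext_aux (hl := hl) x.rep y.rep h3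
    rw [toX_rep] at hz1 hz2
    exact hz2 ((h z).1 hz1)
  · obtain ⟨z, hz1, hz2⟩ := bf_bext_aux (hl := hl) y.rep x.rep h3
    rw [toX_rep] at hz1 hz2
    exact hz2 ((h z).2 hz1)

theorem bf_extR_cons {R : (ℕ → BSet D) → D} (hR : ExtR R) (w : ℕ → BSet D) :
    Ext1 fun z => R (cons z w) := by
  intro z z'
  refine le_trans (inf_le_inf_right _ ?_) (hR (cons z w) (cons z' w))
  refine le_iInf fun n => ?_
  cases n with
  | zero => exact le_rfl
  | succ n => exact le_top.trans (beq_refl _).ge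

theorem bf_extR_cons2 {R : (ℕ → BSet D) → D} (hR : ExtR R) (z : BSet D) (w : ℕ → BSet D) :
    Ext1 fun y => R (cons z (cons y w)) := by
  intro y y'
  refine le_trans (inf_le_inf_right _ ?_) (hR (cons z (cons y w)) (cons z (cons y' w)))
  refine le_iInf fun n => ?_
  cases n with
  | zero => exact le_top.trans (beq_refl _).ge
  | succ n =>
    cases n with
    | zero => exact le_rfl
    | succ n => exact le_top.trans (beq_refl _).ge

theorem bsep {S : Rel (BX hl)} (h : BCl hl S) (v : ℕ → BX hl) (x : BX hl) :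
    ∃ y, ∀ z, BE hl z y ↔ BE hl z x ∧ S (cons z v) := by
  obtain ⟨R, hR, rfl⟩ := h
  have hE := bf_extR_cons hR fun n => (v n).rep
  refine ⟨toX hl (mk x.rep.ty x.rep.fn fun a =>
    x.rep.wt a ⊓ R (cons (x.rep.fn a) fun n => (v n).rep)), fun z => ?_⟩
  rw [bf_BE_rep_left]
  have h1 : bmem z.rep (mk x.rep.ty x.rep.fn fun a =>
      x.rep.wt a ⊓ R (cons (x.rep.fn a) fun n => (v n).rep)) =
      bmem z.rep x.rep ⊓ R (cons z.rep fun n => (v n).rep) := (bf_bmem_inf z.rep x.rep hE).symm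
  rw [h1, bf_ult_inf hl]
  have h2 : rel hl R (cons z v) ↔ lam (R (cons z.rep fun n => (v n).rep)) := by
    rw [rel, comp_cons]
  rw [h2]
  rfl

/-- A name for a set which contains all sets of rank less than the rank of `x`. -/
def bf_rkV : BSet D → BSet D
  | mk α A _ => mk (Σ a : α, (bf_rkV (A a)).ty → D)
      (fun p => mk (bf_rkV (A p.1)).ty (bf_rkV (A p.1)).fn p.2) fun _ => ⊤

theorem bf_subset_le_beq (z V : BSet D) : (⨅ c : z.ty, (z.wt c)ᶜ ⊔ bmem (z.fn c) V) ≤
    beq z (mk V.ty V.fn fun d => bmem (V.fn d) z) := by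
  rw [beq_def]
  have hm : ∀ w : BSet D, bmem w (mk V.ty V.fn fun d => bmem (V.fn d) z) =
      ⨆ d : V.ty, bmem (V.fn d) z ⊓ beq w (V.fn d) := fun w => rfl
  refine le_inf (iInf_mono fun c => ?_) ?_
  · rw [sup_comm (z.wt c)ᶜ, sup_comm (z.wt c)ᶜ, ← himp_eq, ← himp_eq, le_himp_iff, himp_inf_self]
    rw [hm, bmem, iSup_inf_eq]
    refine iSup_le fun d => le_iSup_of_le d ?_
    refine le_inf ?_ (inf_le_left.trans inf_le_right)
    have h1 := bmem_congr_left (z.fn c) (V.fn d) z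
    refine le_trans ?_ h1
    exact le_inf (inf_le_left.trans inf_le_right) (inf_le_right.trans (wt_le_bmem z c))
  · refine le_top.trans ?_
    rw [top_le_iff, iInf_eq_top]
    intro d
    change (bmem (V.fn d) z)ᶜ ⊔ bmem (V.fn d) z = ⊤
    exact compl_sup_eq_top

theorem bf_rkl_le_rkV (x : BSet D) : ∀ z, rkl z x ≤ bmem z (bf_rkV x) := by
  induction x with
  | mk α A B ih =>
    intro z
    rw [rkl_eq]
    refine iSup_le fun b => ?_
    change B b ⊓ (rkl (A b) z)ᶜ ≤ _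
    refine inf_le_right.trans ?_
    rw [rkl_eq, compl_iSup]
    have h1 : (⨅ c : z.ty, (z.wt c ⊓ (rkl (z.fn c) (A b))ᶜ)ᶜ) ≤
        ⨅ c : z.ty, (z.wt c)ᶜ ⊔ bmem (z.fn c) (bf_rkV (A b)) := by
      refine iInf_mono fun c => ?_
      rw [compl_inf, compl_compl]
      exact sup_le_sup_left (ih b (z.fn c)) _
    refine (h1.trans (bf_subset_le_beq z (bf_rkV (A b)))).trans ?_
    refine le_iSup_of_le (⟨b, fun d => bmem ((bf_rkV (A b)).fn d) z⟩ :
      Σ a : α, (bf_rkV (A a)).ty → D) ?_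
    exact le_inf le_top le_rfl

theorem brk (x : BX hl) : ∃ y, ∀ z, BP hl z x → BE hl z y := by
  refine ⟨toX hl (bf_rkV x.rep), fun z hz => ?_⟩
  rw [bf_BE_rep_left]
  exact hl.mono (bf_rkl_le_rkV x.rep z.rep) hz

theorem bcoll {S : Rel (BX hl)} (h : BCl hl S) (v : ℕ → BX hl) (x : BX hl) :
    ∃ y, ∀ z, BE hl z x → (∃ w, S (cons z (cons w v))) →
      ∃ w, BE hl w y ∧ S (cons z (cons w v)) := by
  obtain ⟨R, hR, rfl⟩ := h
  have hrel : ∀ z w : BX hl, rel hl R (cons z (cons w v)) ↔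
      lam (R (cons z.rep (cons w.rep fun n => (v n).rep))) := by
    intro z w
    rw [rel, comp_cons]
    have : (fun n => (cons w v n).rep) = cons w.rep fun n => (v n).rep := comp_cons _ _ _
    rw [this]
  choose W hW using fun a : x.rep.ty =>
    full1 _ (bf_extR_cons2 hR (x.rep.fn a) fun n => (v n).rep)
  have hmem : ∀ a : x.rep.ty, bmem (W a) (mk x.rep.ty W fun _ => ⊤) = ⊤ := by
    intro a
    rw [← top_le_iff]
    exact wt_le_bmem (mk x.rep.ty W fun _ => ⊤) a
  refine ⟨toX hl (mk x.rep.ty W fun _ => ⊤), ?_⟩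
  rintro z hz ⟨w, hw⟩
  have h1 := (bf_ult_inf hl).2 ⟨hz, (hrel z w).1 hw⟩
  have hE := bf_ext1_bmem_inf (mk x.rep.ty W fun _ => ⊤)
    (bf_extR_cons2 hR z.rep fun n => (v n).rep)
  obtain ⟨t, ht⟩ := full1 _ hE
  have h2 : bmem z.rep x.rep ⊓ R (cons z.rep (cons w.rep fun n => (v n).rep)) ≤
      ⨆ t, bmem t (mk x.rep.ty W fun _ => ⊤) ⊓ R (cons z.rep (cons t fun n => (v n).rep)) := by
    rw [bmem, iSup_inf_eq]
    refine iSup_le fun a => le_iSup_of_le (W a) ?_
    rw [hmem a, top_inf_eq]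
    have h3 := bf_extR_cons hR (cons w.rep fun n => (v n).rep) z.rep (x.rep.fn a)
    have h4 : R (cons (x.rep.fn a) (cons w.rep fun n => (v n).rep)) ≤
        R (cons (x.rep.fn a) (cons (W a) fun n => (v n).rep)) := by
      rw [← hW a]
      exact le_iSup (fun y => R (cons (x.rep.fn a) (cons y fun n => (v n).rep))) w.rep
    have h5 := bf_extR_cons hR (cons (W a) fun n => (v n).rep) (x.rep.fn a) z.rep
    rw [beq_symm] at h5
    refine le_trans (le_inf (inf_le_left.trans inf_le_right) ?_) h5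
    refine le_trans ?_ h4
    exact le_trans (le_inf (inf_le_left.trans inf_le_right) inf_le_right) h3
  have h6 := hl.mono h2 h1
  rw [ht] at h6
  obtain ⟨h7, h8⟩ := (bf_ult_inf hl).1 h6
  refine ⟨toX hl t, BE_toX.2 h7, (hrel z (toX hl t)).2 ?_⟩
  have h9 := bf_extR_cons2 hR z.rep (fun n => (v n).rep) t (toX hl t).rep
  refine hl.mono h9 ((bf_ult_inf hl).2 ⟨?_, h8⟩)
  rw [beq_symm]
  exact bf_rep_toX t

theorem bctbl (f : ℕ → BX hl) : ∃ y, ∀ z, BE hl z y ↔ ∃ n, z = f n := by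
  refine ⟨toX hl (mk (ULift.{u} ℕ) (fun n => (f n.down).rep) fun _ => ⊤), fun z => ?_⟩
  rw [bf_BE_rep_left]
  have h1 : bmem z.rep (mk (ULift.{u} ℕ) (fun n => (f n.down).rep) fun _ => ⊤) =
      ⨆ n : ℕ, beq z.rep (f n).rep := by
    apply le_antisymm
    · refine iSup_le fun n => le_iSup_of_le n.down ?_
      exact inf_le_right
    · refine iSup_le fun n => le_iSup_of_le (ULift.up n) ?_
      exact le_inf le_top le_rfl
  rw [h1, bf_ult_iSup hl]
  refine exists_congr fun n => ?_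
  rw [← toX_eq (hl := hl), toX_rep, toX_rep]

/-- The elements of an element of the quotient form a small set. -/
theorem bsmall (x : BX hl) : Small.{u} {z // BE hl z x} := by
  refine small_of_injective (f := fun z : {z // BE hl z x} =>
    fun a : x.rep.ty => beq z.1.rep (x.rep.fn a)) ?_
  intro z z' h
  have h0 : ∀ a, beq z.1.rep (x.rep.fn a) = beq z'.1.rep (x.rep.fn a) := fun a => congrFun h a
  apply Subtype.ext
  rw [← toX_rep z.1, ← toX_rep z'.1]
  refine toX_eq.2 ?_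
  refine hl.mono ?_ z.2
  rw [bmem]
  refine iSup_le fun a => inf_le_right.trans ?_
  have h1 : beq z.1.rep (x.rep.fn a) ≤ beq z.1.rep (x.rep.fn a) ⊓ beq (x.rep.fn a) z'.1.rep := by
    refine le_inf le_rfl ?_
    rw [beq_symm (x.rep.fn a)]
    exact (h0 a).le
  exact h1.trans (beq_trans _ _ _)

/-- The frame. -/
noncomputable def bframe (hl : IsUlt lam) : Frame (BX hl) where
  E := BE hl
  W := BW hl
  P := BP hl
  Cl := BCl hl
  wf := bwf
  P_iff := bP_iff
  cl_not := bcl_not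
  cl_all := bcl_all
  cl_ex := bcl_ex
  cl_re := bcl_re
  cl_par := bcl_par
  cl_eq := bcl_eq
  cl_mem := bcl_mem
  cl_W := bcl_W
  cl_P := bcl_P
  ext := bext
  sep := bsep
  rk := brk
  coll := bcoll
  ctbl := bctbl
  W_wo := bW_wo

end IM
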