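import Pool.Agent.W_MP_0bf392_lc.Defs

/-!
# The regular open algebra of a preorder
-/

universe u v

namespace IM

/-- `u` is regular open: `p ∈ u` iff `u` is dense below `p`. -/
def IsRO {P : Type u} [Preorder P] (u : Set P) : Prop :=
  ∀ p, p ∈ u ↔ ∀ q ≤ p, ∃ r ≤ q, r ∈ u

/-- The regular open algebra. -/
def RO (P : Type u) [Preorder P] : Type u := {u : Set P // IsRO u}

namespace RO

variable {P : Type u} [Preorder P]

theorem isRO_lower {u : Set P} (hu : IsRO u) {p q : P} (hp : p ∈ u) (hq : q ≤ p) : q ∈ u :=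
  (hu q).2 fun r hr => (hu p).1 hp r (hr.trans hq)

/-- The set of the elements below which a lower set is dense is regular open. -/
theorem isRO_dens (s : Set P) (hs : ∀ p ∈ s, ∀ q ≤ p, q ∈ s) :
    IsRO {p | ∀ q ≤ p, ∃ r ≤ q, r ∈ s} := by
  intro p
  constructor
  · intro h q hq
    exact ⟨q, le_refl q, fun r hr => h r (hr.trans hq)⟩
  · intro h q hq
    obtain ⟨r, hr, hr'⟩ := h q hq
    obtain ⟨t, ht, ht'⟩ := hr' r (le_refl r)
    exact ⟨t, ht.trans hr, ht'⟩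

/-- The regular open set generated by a set. -/
def cl (s : Set P) : RO P := ⟨{p | ∀ q ≤ p, ∃ r ≤ q, ∃ t ∈ s, r ≤ t}, by
  have h := isRO_dens {r : P | ∃ t ∈ s, r ≤ t} (by
    rintro p ⟨t, ht, hp⟩ q hq
    exact ⟨t, ht, hq.trans hp⟩)
  exact h⟩

instance instPO : PartialOrder (RO P) :=
  inferInstanceAs (PartialOrder {u : Set P // IsRO u})

theorem le_def (u v : RO P) : u ≤ v ↔ ∀ p ∈ u.1, p ∈ v.1 := Iff.rfl

/-- binary union -/
def sup' (u v : RO P) : RO P := ⟨{p | ∀ q ≤ p, ∃ r ≤ q, r ∈ u.1 ∪ v.1}, isRO_dens _ (by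
  rintro p (hp | hp) q hq
  · exact Or.inl (isRO_lower u.2 hp hq)
  · exact Or.inr (isRO_lower v.2 hp hq))⟩

/-- binary intersection -/
def inf' (u v : RO P) : RO P := ⟨u.1 ∩ v.1, by
  intro p
  constructor
  · rintro ⟨h1, h2⟩ q hq
    exact ⟨q, le_refl q, isRO_lower u.2 h1 hq, isRO_lower v.2 h2 hq⟩
  · intro h
    exact ⟨(u.2 p).2 fun q hq => (h q hq).imp fun r hr => ⟨hr.1, hr.2.1⟩,
      (v.2 p).2 fun q hq => (h q hq).imp fun r hr => ⟨hr.1, hr.2.2⟩⟩⟩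

/-- union -/
def sSup' (S : Set (RO P)) : RO P := ⟨{p | ∀ q ≤ p, ∃ r ≤ q, r ∈ {t : P | ∃ u ∈ S, t ∈ u.1}},
  isRO_dens _ (by
    rintro p ⟨u, hu, hp⟩ q hq
    exact ⟨u, hu, isRO_lower u.2 hp hq⟩)⟩

/-- intersection -/
def sInf' (S : Set (RO P)) : RO P := ⟨{p | ∀ u ∈ S, p ∈ u.1}, by
  intro p
  constructor
  · intro h q hq
    exact ⟨q, le_refl q, fun u hu => isRO_lower u.2 (h u hu) hq⟩
  · intro h u hu
    exact (u.2 p).2 fun q hq => (h q hq).imp fun r hr => ⟨hr.1, hr.2 u hu⟩⟩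

/-- everything -/
def top' : RO P := ⟨Set.univ, by
  intro p
  constructor
  · intro _ q _
    exact ⟨q, le_refl q, trivial⟩
  · intro _
    trivial⟩

/-- nothing -/
def bot' : RO P := ⟨∅, by
  intro p
  constructor
  · intro h
    exact absurd h (Set.notMem_empty p)
  · intro h
    obtain ⟨r, _, hr⟩ := h p (le_refl p)
    exact absurd hr (Set.notMem_empty r)⟩

/-- complement -/
def compl' (u : RO P) : RO P := ⟨{p | ∀ q ≤ p, q ∉ u.1}, by
  intro p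
  constructor
  · intro h q hq
    exact ⟨q, le_refl q, fun r hr => h r (hr.trans hq)⟩
  · intro h q hq hqu
    obtain ⟨r, hr, hr'⟩ := h q hq
    exact hr' r (le_refl r) (isRO_lower u.2 hqu hr)⟩

noncomputable instance : CompleteBooleanAlgebra (RO P) where
  __ := (instPO : PartialOrder (RO P))
  sup := sup'
  inf := inf'
  sSup := sSup'
  sInf := sInf'
  top := top'
  bot := bot'
  compl := compl'
  le_sup_left := by
    intro u v p hp q hq
    exact ⟨q, le_refl q, Or.inl (isRO_lower u.2 hp hq)⟩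
  le_sup_right := by
    intro u v p hp q hq
    exact ⟨q, le_refl q, Or.inr (isRO_lower v.2 hp hq)⟩
  sup_le := by
    intro u v w h1 h2 p hp
    refine (w.2 p).2 fun q hq => ?_
    obtain ⟨r, hr, hr' | hr'⟩ := hp q hq
    · exact ⟨r, hr, h1 hr'⟩
    · exact ⟨r, hr, h2 hr'⟩
  inf_le_left := by
    intro u v p hp
    exact hp.1
  inf_le_right := by
    intro u v p hp
    exact hp.2
  le_inf := by
    intro u v w h1 h2 p hp
    exact ⟨h1 hp, h2 hp⟩
  le_top := by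
    intro u p _
    trivial
  bot_le := by
    intro u p hp
    exact absurd hp (Set.notMem_empty p)
  isLUB_sSup := by
    intro S
    constructor
    · intro u hu p hp q hq
      exact ⟨q, le_refl q, u, hu, isRO_lower u.2 hp hq⟩
    · intro w hw p hp
      refine (w.2 p).2 fun q hq => ?_
      obtain ⟨r, hr, u, hu, hr'⟩ := hp q hq
      exact ⟨r, hr, hw hu hr'⟩
  isGLB_sInf := by
    intro S
    constructor
    · intro u hu p hp
      exact hp u hu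
    · intro w hw p hp u hu
      exact hw hu hp
  le_sup_inf := by
    intro u v w p hp q hq
    obtain ⟨r, hr, hr' | hr'⟩ := hp.1 q hq
    · exact ⟨r, hr, Or.inl hr'⟩
    · obtain ⟨t, ht, ht' | ht'⟩ := hp.2 r (hr.trans hq)
      · exact ⟨t, ht.trans hr, Or.inl ht'⟩
      · exact ⟨t, ht.trans hr, Or.inr ⟨isRO_lower v.2 hr' ht, ht'⟩⟩
  inf_compl_le_bot := by
    intro u p hp
    exact absurd hp.1 (hp.2 p (le_refl p))
  top_le_sup_compl := by
    intro u p _ q hq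
    by_cases h : ∃ r ≤ q, r ∈ u.1
    · obtain ⟨r, hr, hr'⟩ := h
      exact ⟨r, hr, Or.inl hr'⟩
    · exact ⟨q, le_refl q, Or.inr fun r hr hr' => h ⟨r, hr, hr'⟩⟩

theorem le_iff (u v : RO P) : u ≤ v ↔ ∀ p ∈ u.1, p ∈ v.1 := Iff.rfl

theorem mem_top (p : P) : p ∈ (⊤ : RO P).1 := trivial

theorem mem_bot (p : P) : p ∉ (⊥ : RO P).1 := Set.notMem_empty p

theorem mem_inf (u v : RO P) (p : P) : p ∈ (u ⊓ v).1 ↔ p ∈ u.1 ∧ p ∈ v.1 := Iff.rfl

theorem mem_compl (u : RO P) (p : P) : p ∈ (uᶜ).1 ↔ ∀ q ≤ p, q ∉ u.1 := Iff.rfl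

theorem mem_iInf {ι : Type v} (u : ι → RO P) (p : P) : p ∈ (⨅ i, u i).1 ↔ ∀ i, p ∈ (u i).1 := by
  constructor
  · intro h i
    exact h (u i) ⟨i, rfl⟩
  · rintro h _ ⟨i, rfl⟩
    exact h i

theorem mem_iSup {ι : Type v} (u : ι → RO P) (p : P) :
    p ∈ (⨆ i, u i).1 ↔ ∀ q ≤ p, ∃ r ≤ q, ∃ i, r ∈ (u i).1 := by
  constructor
  · intro h q hq
    obtain ⟨r, hr, _, ⟨i, rfl⟩, hr'⟩ := h q hq
    exact ⟨r, hr, i, hr'⟩
  · intro h q hq
    obtain ⟨r, hr, i, hr'⟩ := h q hq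
    exact ⟨r, hr, u i, ⟨i, rfl⟩, hr'⟩

theorem mem_lower {u : RO P} {p q : P} (hp : p ∈ u.1) (hq : q ≤ p) : q ∈ u.1 :=
  isRO_lower u.2 hp hq

theorem mem_of_dense {u : RO P} {p : P} (h : ∀ q ≤ p, ∃ r ≤ q, r ∈ u.1) : p ∈ u.1 :=
  (u.2 p).2 h

theorem mem_cl {s : Set P} {p : P} :
    p ∈ (cl s).1 ↔ ∀ q ≤ p, ∃ r ≤ q, ∃ t ∈ s, r ≤ t := Iff.rfl

end RO

end IM
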