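import Pool.Agent.W_MP_0bf392_lc.BFrame

/-!
# Pairs and functions in the Boolean-valued universe
-/

universe u v

namespace IM

open BSet

variable {D : Type u} [CompleteBooleanAlgebra D] {lam : D → Prop} {hl : IsUlt lam}

namespace BSet

/-- The unordered pair. -/
def upB (x y : BSet D) : BSet D := mk (ULift.{u} Bool) (fun b => if b.down then x else y) fun _ => ⊤

/-- The ordered pair. -/
def prB (x y : BSet D) : BSet D := upB (upB x x) (upB x y)

/-- The truth value of `f(x) = y`. -/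
noncomputable def apB (f x y : BSet D) : D :=
  bmem (prB x y) f ⊓ ⨅ y' : BSet D, (bmem (prB x y') f)ᶜ ⊔ beq y' y

/-! #### Reasoning below an element -/

theorem bp_cases {a b c d : D} (h : a ≤ c ⊔ d) (h1 : a ⊓ c ≤ b) (h2 : a ⊓ d ≤ b) : a ≤ b := by
  have h3 : a ⊓ (c ⊔ d) = a := inf_eq_left.2 h
  rw [← h3, inf_sup_left]
  exact sup_le h1 h2

theorem bp_imp {a c d : D} : a ≤ cᶜ ⊔ d ↔ a ⊓ c ≤ d := by
  constructor
  · intro h
    refine bp_cases (c := cᶜ) (d := d) (inf_le_left.trans h) ?_ inf_le_right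
    have : a ⊓ c ⊓ cᶜ ≤ (⊥ : D) := by
      rw [inf_assoc, inf_compl_eq_bot, inf_bot_eq]
    exact this.trans bot_le
  · intro h
    refine bp_cases (c := c) (d := cᶜ) (by rw [sup_compl_eq_top]; exact le_top) ?_ ?_
    · exact h.trans le_sup_right
    · exact inf_le_right.trans le_sup_left

theorem bp_refl {a : D} (x : BSet D) : a ≤ beq x x := by
  rw [beq_refl]; exact le_top

theorem bp_symm {a : D} {x y : BSet D} (h : a ≤ beq x y) : a ≤ beq y x := by
  rwa [beq_symm]

theorem bp_trans {a : D} {x y z : BSet D} (h : a ≤ beq x y) (h' : a ≤ beq y z) : a ≤ beq x z :=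
  (le_inf h h').trans (beq_trans x y z)

theorem bp_left {a : D} {x x' y : BSet D} (h : a ≤ beq x x') (h' : a ≤ bmem x y) :
    a ≤ bmem x' y :=
  (le_inf h h').trans (bmem_congr_left x x' y)

theorem bp_right {a : D} {x y y' : BSet D} (h : a ≤ beq y y') (h' : a ≤ bmem x y) :
    a ≤ bmem x y' :=
  (le_inf h h').trans (bmem_congr_right x y y')

theorem bmem_upB (z x y : BSet D) : bmem z (upB x y) = beq z x ⊔ beq z y := by
  apply le_antisymm
  · refine iSup_le fun b => ?_
    obtain ⟨b⟩ := b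
    cases b
    · exact inf_le_right.trans le_sup_right
    · exact inf_le_right.trans le_sup_left
  · refine sup_le ?_ ?_
    · exact le_iSup_of_le (ULift.up true) (le_inf le_top le_rfl)
    · exact le_iSup_of_le (ULift.up false) (le_inf le_top le_rfl)

theorem bp_up_left {a : D} (x y : BSet D) : a ≤ bmem x (upB x y) := by
  rw [bmem_upB]; exact (bp_refl x).trans le_sup_left

theorem bp_up_right {a : D} (x y : BSet D) : a ≤ bmem y (upB x y) := by
  rw [bmem_upB]; exact (bp_refl y).trans le_sup_right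

theorem bp_up_cases {a b : D} {z x y : BSet D} (h : a ≤ bmem z (upB x y))
    (h1 : a ⊓ beq z x ≤ b) (h2 : a ⊓ beq z y ≤ b) : a ≤ b := by
  rw [bmem_upB] at h
  exact bp_cases h h1 h2

theorem bp_up_self {a : D} {z x : BSet D} (h : a ≤ bmem z (upB x x)) : a ≤ beq z x := by
  rwa [bmem_upB, sup_idem] at h

theorem beq_prB (x y x' y' : BSet D) : beq (prB x y) (prB x' y') ≤ beq x x' ⊓ beq y y' := by
  have key : ∀ a : D, a ≤ beq (prB x y) (prB x' y') → a ≤ beq x x' := by
    intro a ha
    have h1 : a ≤ bmem (upB x x) (prB x' y') := bp_right ha (bp_up_left _ _)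
    refine bp_up_cases h1 ?_ ?_
    · refine bp_symm (bp_up_self ?_)
      exact bp_right (bp_symm inf_le_right) (bp_up_left _ _)
    · refine bp_symm (bp_up_self ?_)
      exact bp_right (bp_symm inf_le_right) (bp_up_left _ _)
  refine le_inf (key _ le_rfl) ?_
  have hx : beq (prB x y) (prB x' y') ≤ beq x x' := key _ le_rfl
  have h1 : beq (prB x y) (prB x' y') ≤ bmem (upB x y) (prB x' y') :=
    bp_right le_rfl (bp_up_right _ _)
  refine bp_up_cases h1 ?_ ?_
  · -- `{x, y} = {x', x'}`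
    have hyx' : beq (prB x y) (prB x' y') ⊓ beq (upB x y) (upB x' x') ≤ beq y x' :=
      bp_up_self (bp_right inf_le_right (bp_up_right _ _))
    have h2 : beq (prB x y) (prB x' y') ⊓ beq (upB x y) (upB x' x') ≤
        bmem (upB x' y') (prB x y) :=
      bp_right (bp_symm inf_le_left) (bp_up_right _ _)
    refine bp_up_cases h2 ?_ ?_
    · have h3 : beq (prB x y) (prB x' y') ⊓ beq (upB x y) (upB x' x') ⊓
          beq (upB x' y') (upB x x) ≤ beq y' x :=
        bp_up_self (bp_right inf_le_right (bp_up_right _ _))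
      exact bp_trans (inf_le_left.trans hyx') (bp_trans
        (bp_symm ((inf_le_left.trans inf_le_left).trans hx)) (bp_symm h3))
    · have h3 : beq (prB x y) (prB x' y') ⊓ beq (upB x y) (upB x' x') ⊓
          beq (upB x' y') (upB x y) ≤ bmem y' (upB x y) :=
        bp_right inf_le_right (bp_up_right _ _)
      refine bp_up_cases h3 ?_ ?_
      · exact bp_trans ((inf_le_left.trans inf_le_left).trans hyx') (bp_trans
          (bp_symm (((inf_le_left.trans inf_le_left).trans inf_le_left).trans hx))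
          (bp_symm inf_le_right))
      · exact bp_symm inf_le_right
  · -- `{x, y} = {x', y'}`
    have h2 : beq (prB x y) (prB x' y') ⊓ beq (upB x y) (upB x' y') ≤ bmem y (upB x' y') :=
      bp_right inf_le_right (bp_up_right _ _)
    refine bp_up_cases h2 ?_ inf_le_right
    have h3 : beq (prB x y) (prB x' y') ⊓ beq (upB x y) (upB x' y') ⊓ beq y x' ≤
        bmem y' (upB x y) :=
      bp_right (bp_symm (inf_le_left.trans inf_le_right)) (bp_up_right _ _)
    refine bp_up_cases h3 ?_ (bp_symm inf_le_right)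
    exact bp_trans (inf_le_left.trans inf_le_right) (bp_trans
      (bp_symm (((inf_le_left.trans inf_le_left).trans inf_le_left).trans hx))
      (bp_symm inf_le_right))

theorem bp_in_left {a : D} {z x y : BSet D} (h : a ≤ beq z x) : a ≤ bmem z (upB x y) := by
  rw [bmem_upB]; exact h.trans le_sup_left

theorem bp_in_right {a : D} {z x y : BSet D} (h : a ≤ beq z y) : a ≤ bmem z (upB x y) := by
  rw [bmem_upB]; exact h.trans le_sup_right

theorem upB_congr {a : D} {x y x' y' : BSet D} (hx : a ≤ beq x x') (hy : a ≤ beq y y') :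
    a ≤ beq (upB x y) (upB x' y') := by
  rw [le_beq_iff]
  constructor
  · intro z
    refine bp_up_cases (z := z) (x := x) (y := y) inf_le_right ?_ ?_
    · exact bp_in_left (bp_trans inf_le_right ((inf_le_left.trans inf_le_left).trans hx))
    · exact bp_in_right (bp_trans inf_le_right ((inf_le_left.trans inf_le_left).trans hy))
  · intro z
    refine bp_up_cases (z := z) (x := x') (y := y') inf_le_right ?_ ?_
    · exact bp_in_left (bp_trans inf_le_right (bp_symm ((inf_le_left.trans inf_le_left).trans hx)))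
    · exact bp_in_right (bp_trans inf_le_right (bp_symm ((inf_le_left.trans inf_le_left).trans hy)))

theorem bp_compl {a c : D} : a ≤ cᶜ ↔ a ⊓ c ≤ ⊥ := by
  rw [← bp_imp, sup_bot_eq]

theorem prB_congr' {a : D} {x y x' y' : BSet D} (hx : a ≤ beq x x') (hy : a ≤ beq y y') :
    a ≤ beq (prB x y) (prB x' y') :=
  upB_congr (upB_congr hx hx) (upB_congr hx hy)

theorem prB_congr (x y x' y' : BSet D) : beq x x' ⊓ beq y y' ≤ beq (prB x y) (prB x' y') :=
  prB_congr' inf_le_left inf_le_right

theorem apB_ext : ExtR (fun v : ℕ → BSet D => apB (v 0) (v 1) (v 2)) := by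
  intro v w
  have h0 : (⨅ n, beq (v n) (w n)) ⊓ apB (v 0) (v 1) (v 2) ≤ beq (v 0) (w 0) :=
    inf_le_left.trans (iInf_le _ 0)
  have h1 : (⨅ n, beq (v n) (w n)) ⊓ apB (v 0) (v 1) (v 2) ≤ beq (v 1) (w 1) :=
    inf_le_left.trans (iInf_le _ 1)
  have h2 : (⨅ n, beq (v n) (w n)) ⊓ apB (v 0) (v 1) (v 2) ≤ beq (v 2) (w 2) :=
    inf_le_left.trans (iInf_le _ 2)
  have h3 : (⨅ n, beq (v n) (w n)) ⊓ apB (v 0) (v 1) (v 2) ≤ bmem (prB (v 1) (v 2)) (v 0) :=
    inf_le_right.trans inf_le_left
  have h4 : ∀ t, (⨅ n, beq (v n) (w n)) ⊓ apB (v 0) (v 1) (v 2) ≤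
      (bmem (prB (v 1) t) (v 0))ᶜ ⊔ beq t (v 2) :=
    fun t => (inf_le_right.trans inf_le_right).trans (iInf_le _ t)
  show (⨅ n, beq (v n) (w n)) ⊓ apB (v 0) (v 1) (v 2) ≤ apB (w 0) (w 1) (w 2)
  generalize (⨅ n, beq (v n) (w n)) ⊓ apB (v 0) (v 1) (v 2) = a at h0 h1 h2 h3 h4 ⊢
  refine le_inf ?_ (le_iInf fun t => ?_)
  · exact bp_right h0 (bp_left (prB_congr' h1 h2) h3)
  · rw [bp_imp]
    have h5 : a ⊓ bmem (prB (w 1) t) (w 0) ≤ bmem (prB (v 1) t) (v 0) :=
      bp_right (bp_symm (inf_le_left.trans h0)) (bp_left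
        (prB_congr' (bp_symm (inf_le_left.trans h1)) (bp_refl t)) inf_le_right)
    have h6 := bp_imp.1 (h4 t)
    exact bp_trans ((le_inf inf_le_left h5).trans h6) (inf_le_left.trans h2)

/-- A name for the function which maps `c i` to `t i`. -/
def funB {I : Type u} (c t : I → BSet D) : BSet D := mk I (fun i => prB (c i) (t i)) fun _ => ⊤

theorem apB_funB {I : Type u} (c t : I → BSet D) (hc : ∀ i k, i ≠ k → beq (c i) (c k) = ⊥)
    (i : I) : apB (funB c t) (c i) (t i) = ⊤ := by
  refine top_le_iff.1 (le_inf ?_ (le_iInf fun y' => ?_))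
  · exact wt_le_bmem (funB c t) i
  · rw [bp_imp]
    refine inf_le_right.trans (iSup_le fun k => inf_le_right.trans ?_)
    show beq (prB (c i) y') (prB (c k) (t k)) ≤ beq y' (t i)
    by_cases hik : i = k
    · subst hik
      exact (beq_prB _ _ _ _).trans inf_le_right
    · refine (beq_prB _ _ _ _).trans (inf_le_left.trans ?_)
      rw [hc i k hik]
      exact bot_le

end BSet

theorem ult_inf (hl : IsUlt lam) {a b : D} (ha : lam a) (hb : lam b) : lam (a ⊓ b) := by
  have h := hl.iInf (fun n : ℕ => if n = 0 then a else b) (by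
    intro n
    by_cases hn : n = 0
    · simpa [hn] using ha
    · simpa [hn] using hb)
  refine hl.mono (le_inf ?_ ?_) h
  · exact (iInf_le _ 0).trans (by simp)
  · exact (iInf_le _ 1).trans (by simp)

theorem ult_compl (hl : IsUlt lam) {a : D} (h : lam aᶜ) : ¬ lam a := by
  intro ha
  have := ult_inf hl ha h
  rw [inf_compl_eq_bot] at this
  exact hl.bot this

theorem ult_sup (hl : IsUlt lam) {a b : D} : lam (a ⊔ b) ↔ lam a ∨ lam b := by
  constructor
  · intro h
    rcases hl.compl a with ha | ha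
    · exact Or.inl ha
    · refine Or.inr (hl.mono ?_ (ult_inf hl h ha))
      rw [inf_sup_right, inf_compl_eq_bot, bot_sup_eq]
      exact inf_le_left
  · rintro (h | h)
    · exact hl.mono le_sup_left h
    · exact hl.mono le_sup_right h

theorem exists_rep (hl : IsUlt lam) (z : BX hl) : ∃ z' : BSet D, z = toX hl z' :=
  ⟨z.rep, (toX_rep z).symm⟩

theorem BE_up (x y : BSet D) (z : BX hl) :
    BE hl z (toX hl (upB x y)) ↔ z = toX hl x ∨ z = toX hl y := by
  obtain ⟨z', rfl⟩ := exists_rep hl z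
  rw [BE_toX, bmem_upB, ult_sup hl, toX_eq, toX_eq]

theorem isUp_upB (x y : BSet D) :
    IsUp (BE hl) (toX hl (upB x y)) (toX hl x) (toX hl y) := fun z => BE_up x y z

theorem isUp_toX {p x y : BSet D} : IsUp (BE hl) (toX hl p) (toX hl x) (toX hl y) ↔
    lam (beq p (upB x y)) := by
  rw [← toX_eq (hl := hl)]
  constructor
  · intro h
    apply bext
    intro z
    rw [h z, BE_up]
  · intro h
    rw [h]
    exact isUp_upB x y

theorem isPr_toX {p x y : BSet D} : IsPr (BE hl) (toX hl p) (toX hl x) (toX hl y) ↔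
    lam (beq p (prB x y)) := by
  constructor
  · rintro ⟨a, b, ha, hb, hp⟩
    obtain ⟨a', rfl⟩ := exists_rep hl a
    obtain ⟨b', rfl⟩ := exists_rep hl b
    rw [toX_eq.2 (isUp_toX.1 ha), toX_eq.2 (isUp_toX.1 hb)] at hp
    exact isUp_toX.1 hp
  · intro h
    exact ⟨toX hl (upB x x), toX hl (upB x y), isUp_upB x x, isUp_upB x y, isUp_toX.2 h⟩

theorem ap_toX {f x y : BSet D} : Ap (BE hl) (toX hl f) (toX hl x) (toX hl y) ↔
    lam (apB f x y) := by
  constructor
  · rintro ⟨⟨p, hp, hpf⟩, huniq⟩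
    obtain ⟨p', rfl⟩ := exists_rep hl p
    rw [toX_eq.2 (isPr_toX.1 hp)] at hpf
    refine ult_inf hl (BE_toX.1 hpf) ?_
    by_contra hcon
    have h1 : lam (⨆ t : BSet D, bmem (prB x t) f ⊓ (beq t y)ᶜ) := by
      rcases hl.compl (⨅ y' : BSet D, (bmem (prB x y') f)ᶜ ⊔ beq y' y) with h | h
      · exact absurd h hcon
      · rw [compl_iInf] at h
        refine hl.mono (iSup_mono fun t => ?_) h
        rw [compl_sup, compl_compl]
    obtain ⟨t, ht⟩ := full1 (fun t : BSet D => bmem (prB x t) f ⊓ (beq t y)ᶜ) (by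
      intro t t'
      refine le_inf ?_ ?_
      · exact bp_left (prB_congr' (bp_refl x) inf_le_left) (inf_le_right.trans inf_le_left)
      · rw [bp_compl]
        have h3 : beq t t' ⊓ (bmem (prB x t) f ⊓ (beq t y)ᶜ) ⊓ beq t' y ≤ beq t y :=
          bp_trans (inf_le_left.trans inf_le_left) inf_le_right
        have h4 : beq t t' ⊓ (bmem (prB x t) f ⊓ (beq t y)ᶜ) ⊓ beq t' y ≤ (beq t y)ᶜ :=
          (inf_le_left.trans inf_le_right).trans inf_le_right
        exact (le_inf h3 h4).trans (inf_compl_eq_bot (a := beq t y)).le)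
    rw [ht] at h1
    have h5 : lam (bmem (prB x t) f) := hl.mono inf_le_left h1
    have h6 : lam (beq t y)ᶜ := hl.mono inf_le_right h1
    have h7 := huniq (toX hl t) (toX hl (prB x t)) (isPr_toX.2 (hl.mono (bp_refl _) hl.top))
      (BE_toX.2 h5)
    exact ult_compl hl h6 (toX_eq.1 h7)
  · intro h
    refine ⟨⟨toX hl (prB x y), isPr_toX.2 (hl.mono (bp_refl _) hl.top),
      BE_toX.2 (hl.mono inf_le_left h)⟩, ?_⟩
    intro y' p hp hpf
    obtain ⟨t, rfl⟩ := exists_rep hl y'
    obtain ⟨p', rfl⟩ := exists_rep hl p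
    rw [toX_eq.2 (isPr_toX.1 hp)] at hpf
    rw [toX_eq]
    have h1 : lam ((bmem (prB x t) f)ᶜ ⊔ beq t y) :=
      hl.mono (inf_le_right.trans (iInf_le _ t)) h
    rcases (ult_sup hl).1 h1 with h2 | h2
    · exact absurd (BE_toX.1 hpf) (ult_compl hl h2)
    · exact h2

theorem ap_rel : (fun v : ℕ → BX hl => Ap (BE hl) (v 0) (v 1) (v 2)) =
    rel hl (fun v => apB (v 0) (v 1) (v 2)) := by
  funext v
  have h := ap_toX (hl := hl) (f := (v 0).rep) (x := (v 1).rep) (y := (v 2).rep)
  rw [toX_rep, toX_rep, toX_rep] at h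
  exact propext h

end IM
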