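import Pool.Agent.W_MP_0bf392_lc.Levels

/-!
# The classes `M_b` satisfy ZF
-/

universe u v

namespace IM

open Functor'

variable {X : Type v} {F : Frame X} {T : Bool → Functor' F}

/-- Satisfaction relativised to a class. -/
def SatOn (E : X → X → Prop) (C : X → Prop) : Fml → (ℕ → X) → Prop
  | .mem i k, v => E (v i) (v k)
  | .eq i k, v => v i = v k
  | .neg φ, v => ¬ SatOn E C φ v
  | .and φ ψ, v => SatOn E C φ v ∧ SatOn E C ψ v
  | .all φ, v => ∀ x : X, C x → SatOn E C φ (cons x v)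

theorem sat_iff (E : X → X → Prop) (C : X → Prop) (φ : Fml) (v : ℕ → {x // C x}) :
    φ.Sat (fun x y : {x // C x} => E x.1 y.1) v ↔ SatOn E C φ (fun n => (v n).1) := by
  induction φ generalizing v with
  | mem i k => rfl
  | eq i k => exact Subtype.ext_iff
  | neg φ ih => exact not_congr (ih v)
  | and φ ψ ih1 ih2 => exact and_congr (ih1 v) (ih2 v)
  | all φ ih =>
    constructor
    · intro h x hx
      have := (ih _).1 (h ⟨x, hx⟩)
      rwa [comp_cons (fun x : {x // C x} => x.1)] at this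
    · intro h x
      refine (ih _).2 ?_
      rw [comp_cons (fun x : {x // C x} => x.1)]
      exact h x.1 x.2

theorem tr_SatOn {T : Functor' F} {C : X → Prop} (hC : F.Cl1 C) (φ : Fml) :
    Tr T (SatOn F.E C φ) (SatOn F.E (T.J1 C) φ) := by
  induction φ with
  | mem i k => exact Tr.mem i k
  | eq i k => exact Tr.eq i k
  | neg φ ih => exact ih.not
  | and φ ψ ih1 ih2 => exact ih1.and ih2
  | all φ ih =>
    refine (Tr.allx (R := fun x v => C x → SatOn F.E C φ (cons x v))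
      (R' := fun x v => T.J1 C x → SatOn F.E (T.J1 C) φ (cons x v))
      ((Tr.at1 hC 0).imp (ih.re_cons 0 (fun n => n + 1)))).congr fun v _ => ?_
    exact ⟨fun h x hx => h x (J1_JN hC hx) hx, fun h x _ hx => h x hx⟩

theorem inv_SatOn (φ : Fml) : Inv T (fun b => SatOn F.E (Mc T b) φ) := by
  intro b
  have := tr_SatOn (T := T (b 0)) (cl_Mc (T := T) (sh b)) φ
  rwa [J1_Mc] at this

theorem trM (b : Word) (i : ℕ) : Tr (T (b 0)) (fun v => Mc T (sh b) (v i))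
    (fun v => Mc T b (v i)) := by
  have := Tr.at1 (T := T (b 0)) (cl_Mc (T := T) (sh b)) i
  rwa [J1_Mc] at this

theorem exM {b : Word} {R R' : X → Rel X}
    (h : Tr (T (b 0)) (fun v => R (v 0) (fun n => v (n + 1)))
      (fun v => R' (v 0) (fun n => v (n + 1)))) :
    Tr (T (b 0)) (fun v => ∃ x, Mc T (sh b) x ∧ R x v) (fun v => ∃ x, Mc T b x ∧ R' x v) :=
  (Tr.exx (R := fun x v => Mc T (sh b) x ∧ R x v) (R' := fun x v => Mc T b x ∧ R' x v)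
    ((trM b 0).and h)).congr fun _ _ =>
      ⟨fun ⟨x, _, h⟩ => ⟨x, h⟩, fun ⟨x, h⟩ => ⟨x, Mc_JN h.1, h⟩⟩

theorem Mc_pair (b : Word) {x y : X} (hx : Mc T b x) (hy : Mc T b y) :
    ∃ p, Mc T b p ∧ IsUp F.E p x y := by
  obtain ⟨p, hp, h⟩ := Mc_ctbl (T := T) b (fun n => if n = 0 then x else y)
    (fun n => by by_cases hn : n = 0 <;> simp [hn, hx, hy])
  refine ⟨p, hp, fun z => (h z).trans ?_⟩
  constructor
  · rintro ⟨n, rfl⟩
    by_cases hn : n = 0 <;> simp [hn]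
  · rintro (rfl | rfl)
    · exact ⟨0, by simp⟩
    · exact ⟨1, by simp⟩

theorem Mc_succ (b : Word) {x : X} (hx : Mc T b x) :
    ∃ y, Mc T b y ∧ ∀ z, F.E z y ↔ F.E z x ∨ z = x := by
  obtain ⟨u, _, hu⟩ := Mc_pair b hx hx
  obtain ⟨w, hw, hw'⟩ := rkM (T := T) b u
  have hinv : Inv T (fun _ v => F.E (v 0) (v 1) ∨ v 0 = v 1) :=
    fun b => (Tr.mem 0 1).or (Tr.eq 0 1)
  obtain ⟨y, hy, hy'⟩ := sepM hinv b (fun _ => x) w (fun _ => hx) hw
  refine ⟨y, hy, fun z => (hy' z).trans ⟨fun h => h.2, fun h => ⟨(hw' z).2 ?_, h⟩⟩⟩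
  have hxu : F.E x u := (hu x).2 (Or.inl rfl)
  rcases h with h | h
  · exact ⟨Mc_trans b hx h, (P_rnk _ _).2 ((rnk_lt h).trans (rnk_lt hxu))⟩
  · have h' : z = x := h
    subst h'
    exact ⟨hx, (P_rnk _ _).2 (rnk_lt hxu)⟩

theorem Mc_empty (b : Word) : ∃ e, Mc T b e ∧ ∀ z, ¬ F.E z e := by
  obtain ⟨x⟩ : Nonempty X := ⟨(T true).s⟩
  obtain ⟨w, hw, _⟩ := rkM (T := T) b x
  have hinv : Inv T (fun _ (_ : ℕ → X) => False) := fun b => Tr.const False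
  obtain ⟨y, hy, hy'⟩ := sepM hinv b (fun _ => w) w (fun _ => hw) hw
  exact ⟨y, hy, fun z hz => ((hy' z).1 hz).2⟩

/-- The natural numbers of `M_b`. -/
noncomputable def nat (T : Bool → Functor' F) (b : Word) : ℕ → {x // Mc T b x}
  | 0 => ⟨_, (Mc_empty (T := T) b).choose_spec.1⟩
  | n + 1 => ⟨_, (Mc_succ b (nat T b n).2).choose_spec.1⟩

theorem nat_succ (b : Word) (n : ℕ) (z : X) :
    F.E z (nat T b (n + 1)).1 ↔ F.E z (nat T b n).1 ∨ z = (nat T b n).1 :=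
  (Mc_succ b (nat T b n).2).choose_spec.2 z

theorem Mc_infinity (b : Word) : ∃ a, Mc T b a ∧ (∃ e, F.E e a ∧ ∀ x, ¬ F.E x e) ∧
    ∀ x, F.E x a → ∃ y, F.E y a ∧ ∀ z, F.E z y ↔ F.E z x ∨ z = x := by
  obtain ⟨a, ha, h⟩ := Mc_ctbl b (fun n => (nat T b n).1) (fun n => (nat T b n).2)
  refine ⟨a, ha, ⟨(nat T b 0).1, (h _).2 ⟨0, rfl⟩, (Mc_empty (T := T) b).choose_spec.2⟩, ?_⟩
  intro x hx
  obtain ⟨n, rfl⟩ := (h x).1 hx
  exact ⟨(nat T b (n + 1)).1, (h _).2 ⟨n + 1, rfl⟩, nat_succ b n⟩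

/-- `M_b` is a model of ZF; AC is a hypothesis here. -/
theorem zfc_of_choice (b : Word)
    (hAC : ∀ a, Mc T b a → (∀ x, F.E x a → ∃ y, F.E y x) →
      (∀ x y, F.E x a → F.E y a → (∃ z, F.E z x ∧ F.E z y) → x = y) →
      ∃ c, Mc T b c ∧ ∀ x, F.E x a → ∃! y, F.E y x ∧ F.E y c) :
    IsZFC (fun x y : {x // Mc T b x} => F.E x.1 y.1) where
  ext a c h := by
    refine Subtype.ext (F.ext _ _ fun z => ?_)
    constructor
    · intro hz
      exact (h ⟨z, Mc_trans b a.2 hz⟩).1 hz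
    · intro hz
      exact (h ⟨z, Mc_trans b c.2 hz⟩).2 hz
  foundation a h := by
    obtain ⟨x, hx⟩ := h
    have hwf : WellFounded (fun x y : {x // Mc T b x} => F.E x.1 y.1) :=
      InvImage.wf (fun x : {x // Mc T b x} => x.1) F.wf
    obtain ⟨m, hm, hm'⟩ := hwf.has_min {x | F.E x.1 a.1} ⟨x, hx⟩
    exact ⟨m, hm, fun y hy hya => hm' y hya hy⟩
  pairing a c := by
    obtain ⟨p, hp, h⟩ := Mc_pair b a.2 c.2
    refine ⟨⟨p, hp⟩, fun x => (h x.1).trans ?_⟩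
    simp [Subtype.ext_iff]
  union a := by
    obtain ⟨w, hw, hw'⟩ := rkM (T := T) b a.1
    have hinv : Inv T (fun b v => ∃ w, Mc T b w ∧ F.E w (v 1) ∧ F.E (v 0) w) :=
      fun b => exM ((Tr.mem 0 2).and (Tr.mem 1 0))
    obtain ⟨y, hy, hy'⟩ := sepM hinv b (fun _ => a.1) w (fun _ => a.2) hw
    refine ⟨⟨y, hy⟩, fun x => (hy' x.1).trans ?_⟩
    constructor
    · rintro ⟨_, t, ht, h1, h2⟩
      exact ⟨⟨t, ht⟩, h1, h2⟩
    · rintro ⟨t, h1, h2⟩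
      exact ⟨(hw' _).2 ⟨x.2, (P_rnk _ _).2 ((rnk_lt h2).trans (rnk_lt h1))⟩, t.1, t.2, h1, h2⟩
  powerset a := by
    obtain ⟨u, _, hu⟩ := Mc_pair b a.2 a.2
    obtain ⟨w, hw, hw'⟩ := rkM (T := T) b u
    have hinv : Inv T (fun _ v => ∀ w, F.E w (v 0) → F.E w (v 1)) := fun b =>
      (Tr.allx (R := fun w v => F.E w (v 0) → F.E w (v 1))
        (R' := fun w v => F.E w (v 0) → F.E w (v 1)) ((Tr.mem 0 1).imp (Tr.mem 0 2))).congr
        fun v hv => ⟨fun h w hw => h w ((T (b 0)).trans (hv 0) hw) hw, fun h w _ hw => h w hw⟩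
    obtain ⟨y, hy, hy'⟩ := sepM hinv b (fun _ => a.1) w (fun _ => a.2) hw
    refine ⟨⟨y, hy⟩, fun x => (hy' x.1).trans ?_⟩
    constructor
    · rintro ⟨_, h⟩ t ht
      exact h t.1 ht
    · intro h
      have h' : ∀ t, F.E t x.1 → F.E t a.1 := fun t ht => h ⟨t, Mc_trans b x.2 ht⟩ ht
      refine ⟨(hw' _).2 ⟨x.2, (P_rnk _ _).2 ?_⟩, h'⟩
      refine lt_of_le_of_lt (rnk_le.2 fun z hz => rnk_lt (h' z hz)) (rnk_lt ((hu a.1).2 (Or.inl rfl)))
  infinity := by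
    obtain ⟨a, ha, ⟨e, he, he'⟩, h⟩ := Mc_infinity (T := T) b
    refine ⟨⟨a, ha⟩, ⟨⟨e, Mc_trans b ha he⟩, he, fun x => he' x.1⟩, fun x hx => ?_⟩
    obtain ⟨y, hy, hy'⟩ := h x.1 hx
    refine ⟨⟨y, Mc_trans b ha hy⟩, hy, fun z => (hy' z.1).trans ?_⟩
    simp [Subtype.ext_iff]
  separation φ v a := by
    obtain ⟨y, hy, hy'⟩ := sepM (inv_SatOn (T := T) φ) b (fun n => (v n).1) a.1
      (fun n => (v n).2) a.2
    refine ⟨⟨y, hy⟩, fun x => (hy' x.1).trans (and_congr_right fun _ => ?_)⟩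
    rw [sat_iff, comp_cons (fun x : {x // Mc T b x} => x.1)]
  replacement φ v a hφ := by
    have hv : ∀ n, Mc T b (v n).1 := fun n => (v n).2
    obtain ⟨y0, hy0⟩ := F.coll (R := fun w => Mc T b (w 1) ∧ SatOn F.E (Mc T b) φ w)
      (F.cl_and ((cl_Mc b).at 1) (tr_SatOn (T := T true) (cl_Mc b) φ).cl) (fun n => (v n).1) a.1
    obtain ⟨y1, hy1, hy1'⟩ := cover (T := T) b y0
    have hinv : Inv T (fun b v => ∃ x, Mc T b x ∧ F.E x (v 1) ∧
        SatOn F.E (Mc T b) φ (cons x (cons (v 0) (fun n => v (n + 2))))) :=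
      fun b => exM (R := fun x v => F.E x (v 1) ∧
        SatOn F.E (Mc T (sh b)) φ (cons x (cons (v 0) (fun n => v (n + 2)))))
        (R' := fun x v => F.E x (v 1) ∧
        SatOn F.E (Mc T b) φ (cons x (cons (v 0) (fun n => v (n + 2)))))
        ((Tr.mem 0 2).and ((inv_SatOn (T := T) φ b).re_cons2 0 1 (fun n => n + 3)))
    obtain ⟨y, hy, hy'⟩ := sepM hinv b (cons a.1 fun n => (v n).1) y1
      (forall_cons.2 ⟨a.2, hv⟩) hy1
    refine ⟨⟨y, hy⟩, fun x => (hy' x.1).trans ?_⟩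
    have hs : ∀ s t : {x // Mc T b x}, SatOn F.E (Mc T b) φ
        (cons s.1 (cons t.1 fun n => (v n).1)) ↔ φ.Sat (fun x y : {x // Mc T b x} => F.E x.1 y.1)
          (cons s (cons t v)) := by
      intro s t
      rw [sat_iff, comp_cons (fun x : {x // Mc T b x} => x.1),
        comp_cons (fun x : {x // Mc T b x} => x.1)]
    constructor
    · rintro ⟨_, t, ht, h1, h2⟩
      exact ⟨⟨t, ht⟩, h1, (hs ⟨t, ht⟩ x).1 h2⟩
    · rintro ⟨t, h1, h2⟩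
      refine ⟨?_, t.1, t.2, h1, (hs t x).2 h2⟩
      obtain ⟨w, hw1, hw2, hw3⟩ := hy0 t.1 h1 ⟨x.1, x.2, (hs t x).2 h2⟩
      have : (⟨w, hw2⟩ : {x // Mc T b x}) = x :=
        (hφ t h1).unique ((hs t ⟨w, hw2⟩).1 hw3) h2
      rw [← this]
      exact hy1' w hw1 hw2
  choice a h1 h2 := by
    obtain ⟨c, hc, h⟩ := hAC a.1 a.2 (fun x hx => by
      obtain ⟨y, hy⟩ := h1 ⟨x, Mc_trans b a.2 hx⟩ hx
      exact ⟨y.1, hy⟩) (fun x y hx hy hz => by
      obtain ⟨z, hz1, hz2⟩ := hz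
      exact congrArg Subtype.val (h2 ⟨x, Mc_trans b a.2 hx⟩ ⟨y, Mc_trans b a.2 hy⟩ hx hy
        ⟨⟨z, Mc_trans b (Mc_trans b a.2 hx) hz1⟩, hz1, hz2⟩))
    refine ⟨⟨c, hc⟩, fun x hx => ?_⟩
    obtain ⟨y, hy, hy'⟩ := h x.1 hx
    refine ⟨⟨y, Mc_trans b x.2 hy.1⟩, hy, fun z hz => Subtype.ext (hy' z.1 hz)⟩

end IM
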