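import Pool.Agent.W_MP_0bf392_lc.Ord
import Pool.Agent.W_MP_0bf392_lc.ZF

/-!
# Collapsing a frame to a transitive class of sets
-/

universe u v

namespace IM

open Functor'

/-! ### Transfer of ZFC along an isomorphism of structures -/

theorem sat_equiv {A B : Type v} {E : A → A → Prop} {E' : B → B → Prop} (e : A ≃ B)
    (he : ∀ a b, E' (e a) (e b) ↔ E a b) (φ : Fml) (w : ℕ → A) :
    φ.Sat E' (fun n => e (w n)) ↔ φ.Sat E w := by
  induction φ generalizing w with
  | mem i k => exact he _ _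
  | eq i k => exact e.apply_eq_iff_eq
  | neg φ ih => exact not_congr (ih w)
  | and φ ψ ih1 ih2 => exact and_congr (ih1 w) (ih2 w)
  | all φ ih =>
    refine e.surjective.forall.trans (forall_congr' fun x => ?_)
    rw [← ih (cons x w), comp_cons e]

theorem zfc_equiv {A B : Type v} {E : A → A → Prop} {E' : B → B → Prop} (e : A ≃ B)
    (he : ∀ a b, E' (e a) (e b) ↔ E a b) (h : IsZFC E) : IsZFC E' where
  ext := by
    simp only [e.surjective.forall, he, e.apply_eq_iff_eq]
    exact h.ext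
  foundation := by
    simp only [e.surjective.forall, e.surjective.exists, he]
    exact h.foundation
  pairing := by
    simp only [e.surjective.forall, e.surjective.exists, he, e.apply_eq_iff_eq]
    exact h.pairing
  union := by
    simp only [e.surjective.forall, e.surjective.exists, he]
    exact h.union
  powerset := by
    simp only [e.surjective.forall, e.surjective.exists, he]
    exact h.powerset
  infinity := by
    simp only [e.surjective.forall, e.surjective.exists, he, e.apply_eq_iff_eq]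
    exact h.infinity
  separation φ v a := by
    obtain ⟨w, rfl⟩ : ∃ w : ℕ → A, v = fun n => e (w n) :=
      ⟨fun n => e.symm (v n), by funext n; simp⟩
    obtain ⟨a, rfl⟩ := e.surjective a
    obtain ⟨b, hb⟩ := h.separation φ w a
    refine ⟨e b, e.surjective.forall.2 fun x => ?_⟩
    rw [he, he, hb, ← comp_cons e, sat_equiv e he]
  replacement φ v a hv := by
    obtain ⟨w, rfl⟩ : ∃ w : ℕ → A, v = fun n => e (w n) :=
      ⟨fun n => e.symm (v n), by funext n; simp⟩
    obtain ⟨a, rfl⟩ := e.surjective a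
    have hs : ∀ x y, φ.Sat E' (cons (e x) (cons (e y) fun n => e (w n))) ↔
        φ.Sat E (cons x (cons y w)) := by
      intro x y
      rw [← comp_cons e y w, ← comp_cons e, sat_equiv e he]
    obtain ⟨b, hb⟩ := h.replacement φ w a (fun x hx => by
      obtain ⟨y, hy, hy'⟩ := hv (e x) ((he _ _).2 hx)
      obtain ⟨y, rfl⟩ := e.surjective y
      exact ⟨y, (hs x y).1 hy, fun z hz => e.injective (hy' (e z) ((hs x z).2 hz))⟩)
    refine ⟨e b, e.surjective.forall.2 fun y => ?_⟩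
    rw [he, hb, e.surjective.exists]
    exact exists_congr fun x => by rw [he, hs]
  choice := by
    simp only [ExistsUnique, e.surjective.forall, e.surjective.exists, he, e.apply_eq_iff_eq]
    exact h.choice

variable {X : Type (u + 1)} {F : Frame X}

/-- The Mostowski collapse. -/
noncomputable def mos (F : Frame X) : X → ZFSet.{u} :=
  WellFounded.fix (C := fun _ => ZFSet.{u}) F.wf (fun x ih =>
    open Classical in
    if h : Small.{u} {z // F.E z x} then
      haveI := h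
      ZFSet.range (fun z : {z // F.E z x} => ih z.1 z.2)
    else ∅)

variable (hs : ∀ x : X, Small.{u} {z // F.E z x})

include hs

theorem mem_mos (x : X) (y : ZFSet.{u}) : y ∈ mos F x ↔ ∃ z, F.E z x ∧ y = mos F z := by
  have h := WellFounded.fix_eq (C := fun _ => ZFSet.{u}) F.wf (fun x ih =>
    open Classical in
    if h : Small.{u} {z // F.E z x} then
      haveI := h
      ZFSet.range (fun z : {z // F.E z x} => ih z.1 z.2)
    else ∅) x
  have h' : mos F x = (haveI := hs x; ZFSet.range (fun z : {z // F.E z x} => mos F z.1)) := by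
    refine (h : mos F x = _).trans ?_
    rw [dif_pos (hs x)]
    rfl
  rw [h']
  have := hs x
  rw [ZFSet.mem_range]
  constructor
  · rintro ⟨z, rfl⟩
    exact ⟨z.1, z.2, rfl⟩
  · rintro ⟨z, hz, rfl⟩
    exact ⟨⟨z, hz⟩, rfl⟩

theorem mos_inj {x y : X} (h : mos F x = mos F y) : x = y := by
  induction x using F.wf.induction generalizing y with
  | _ x ih =>
    refine F.ext _ _ fun z => ?_
    constructor
    · intro hz
      have h1 : mos F z ∈ mos F y := by
        rw [← h]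
        exact (mem_mos hs _ _).2 ⟨z, hz, rfl⟩
      obtain ⟨z', hz', e⟩ := (mem_mos hs _ _).1 h1
      rw [ih z hz e]
      exact hz'
    · intro hz
      have h1 : mos F z ∈ mos F x := by
        rw [h]
        exact (mem_mos hs _ _).2 ⟨z, hz, rfl⟩
      obtain ⟨z', hz', e⟩ := (mem_mos hs _ _).1 h1
      rw [← ih z' hz' e.symm]
      exact hz'

theorem mos_mem_mos {x y : X} : mos F x ∈ mos F y ↔ F.E x y := by
  rw [mem_mos hs]
  constructor
  · rintro ⟨z, hz, e⟩
    rw [mos_inj hs e]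
    exact hz
  · intro h
    exact ⟨x, h, rfl⟩

theorem isTransitive_mos {x : X} :
    (mos F x).IsTransitive ↔ ∀ y z, F.E y x → F.E z y → F.E z x := by
  constructor
  · intro h y z hy hz
    have h1 := h _ ((mos_mem_mos hs).2 hy) ((mos_mem_mos hs).2 hz)
    exact (mos_mem_mos hs).1 h1
  · intro h y hy z hz
    obtain ⟨a, ha, rfl⟩ := (mem_mos hs _ _).1 hy
    obtain ⟨c, hc, rfl⟩ := (mem_mos hs _ _).1 hz
    exact (mos_mem_mos hs).2 (h a c ha hc)

theorem isOrdinal_mos {x : X} : (mos F x).IsOrdinal ↔ IsOrd F.E x := by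
  rw [ZFSet.isOrdinal_iff_forall_mem_isTransitive, isTransitive_mos hs]
  refine and_congr Iff.rfl ?_
  constructor
  · intro h y hy
    exact (isTransitive_mos hs).1 (h _ ((mos_mem_mos hs).2 hy))
  · intro h y hy
    obtain ⟨a, ha, rfl⟩ := (mem_mos hs _ _).1 hy
    exact (isTransitive_mos hs).2 (h a ha)

theorem rnk_mos (x : X) : rnk F x = Ordinal.lift.{u + 1} (mos F x).rank := by
  induction x using F.wf.induction with
  | _ x ih =>
    apply le_antisymm
    · rw [rnk_le]
      intro z hz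
      rw [ih z hz, Ordinal.lift_lt]
      exact ZFSet.rank_lt_of_mem ((mos_mem_mos hs).2 hz)
    · rw [← not_lt]
      intro hlt
      obtain ⟨o, ho⟩ := Ordinal.mem_range_lift_of_le hlt.le
      rw [← ho, Ordinal.lift_lt, ZFSet.lt_rank_iff] at hlt
      obtain ⟨y, hy, hoy⟩ := hlt
      obtain ⟨z, hz, rfl⟩ := (mem_mos hs _ _).1 hy
      have h1 := rnk_lt hz
      rw [ih z hz, ← ho, Ordinal.lift_lt] at h1
      exact absurd h1 (not_lt.2 hoy)

omit hs in
theorem cl_isOrd (F : Frame X) : F.Cl (fun v => IsOrd F.E (v 0)) := by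
  have h1 : F.Cl (fun v : ℕ → X => ∀ y z, F.E y (v 0) → F.E z y → F.E z (v 0)) := by
    refine F.cl_allx (R := fun y v => ∀ z, F.E y (v 0) → F.E z y → F.E z (v 0)) ?_
    refine F.cl_allx (R := fun z v => F.E (v 0) (v 1) → F.E z (v 0) → F.E z (v 1)) ?_
    exact F.cl_imp (F.cl2_mem.at 1 2) (F.cl_imp (F.cl2_mem.at 0 1) (F.cl2_mem.at 0 2))
  have h2 : F.Cl (fun v : ℕ → X => ∀ y, F.E y (v 0) → ∀ z w, F.E z y → F.E w z → F.E w y) := by
    refine F.cl_allx (R := fun y v => F.E y (v 0) → ∀ z w, F.E z y → F.E w z → F.E w y) ?_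
    refine F.cl_imp (F.cl2_mem.at 0 1) ?_
    refine F.cl_allx (R := fun z v => ∀ w, F.E z (v 0) → F.E w z → F.E w (v 0)) ?_
    refine F.cl_allx (R := fun w v => F.E (v 0) (v 1) → F.E w (v 0) → F.E w (v 1)) ?_
    exact F.cl_imp (F.cl2_mem.at 1 2) (F.cl_imp (F.cl2_mem.at 0 1) (F.cl2_mem.at 0 2))
  exact F.cl_and h1 h2

/-- If the frame has elements of arbitrarily large rank then all ordinals are in the image. -/
theorem exists_ord_mos (hbig : ∀ o : Ordinal.{u}, ∃ x : X, o ≤ (mos F x).rank)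
    (o : Ordinal.{u}) : ∃ x : X, IsOrd F.E x ∧ mos F x = o.toZFSet := by
  induction o using WellFoundedLT.induction with
  | _ o ih =>
    obtain ⟨x, hx⟩ := hbig o
    have hx' : Ordinal.lift.{u + 1} o ≤ rnk F x := by
      rw [rnk_mos hs, Ordinal.lift_le]
      exact hx
    obtain ⟨x', -, hr⟩ := exists_rank (F := F) (C := fun _ => True) (fun _ _ _ _ => trivial) x
      trivial _ hx'
    obtain ⟨y, hy⟩ := F.rk x'
    obtain ⟨y', hy'⟩ := F.sep (R := fun v => IsOrd F.E (v 0) ∧ F.P (v 0) (v 1))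
      (F.cl_and (cl_isOrd F) F.cl_P) (fun _ => x') y
    have hmem : ∀ z, F.E z y' ↔ IsOrd F.E z ∧ rnk F z < Ordinal.lift.{u + 1} o := by
      intro z
      rw [hy']
      simp only [cons_zero, cons_succ]
      rw [P_rnk, hr]
      refine ⟨fun h => h.2, fun h => ⟨hy z ((P_rnk _ _).2 (hr ▸ h.2)), h⟩⟩
    have hm : mos F y' = o.toZFSet := by
      ext w
      rw [mem_mos hs, Ordinal.mem_toZFSet_iff]
      constructor
      · rintro ⟨z, hz, rfl⟩
        obtain ⟨h1, h2⟩ := (hmem z).1 hz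
        rw [rnk_mos hs, Ordinal.lift_lt] at h2
        exact ⟨_, h2, ((isOrdinal_mos hs).2 h1).toZFSet_rank_eq⟩
      · rintro ⟨a, ha, rfl⟩
        obtain ⟨z, hz1, hz2⟩ := ih a ha
        refine ⟨z, (hmem z).2 ⟨hz1, ?_⟩, hz2.symm⟩
        rw [rnk_mos hs, hz2, Ordinal.rank_toZFSet, Ordinal.lift_lt]
        exact ha
    refine ⟨y', (isOrdinal_mos hs).1 ?_, hm⟩
    rw [hm]
    exact ZFSet.isOrdinal_toZFSet o

omit hs in
theorem isOrdinal_of_mem_omega {x : ZFSet.{u}} (hx : x ∈ ZFSet.omega) : x.IsOrdinal := by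
  have h : ∃ n : ℕ, x = ZFSet.mk (PSet.ofNat n) := by
    induction x using Quotient.inductionOn with
    | _ x =>
      obtain ⟨n, hn⟩ := (hx : x ∈ PSet.omega)
      exact ⟨n.down, Quotient.sound hn⟩
  obtain ⟨n, rfl⟩ := h
  clear hx
  induction n with
  | zero => exact ZFSet.isOrdinal_empty
  | succ n ih => exact ZFSet.isOrdinal_succ ih

/-- The elements of `ω`, enumerated. -/
noncomputable def omegaSeq (n : ℕ) : ZFSet.{u} := ZFSet.mk (PSet.ofNat n)

omit hs in
theorem mem_omega_iff {x : ZFSet.{u}} : x ∈ ZFSet.omega ↔ ∃ n : ℕ, x = omegaSeq n := by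
  constructor
  · intro hx
    induction x using Quotient.inductionOn with
    | _ x =>
      obtain ⟨n, hn⟩ := (hx : x ∈ PSet.omega)
      exact ⟨n.down, Quotient.sound hn⟩
  · rintro ⟨n, rfl⟩
    exact ⟨⟨n⟩, PSet.Equiv.refl _⟩

theorem exists_pair_mos {C : X → Prop}
    (hct : ∀ f : ℕ → X, (∀ n, C (f n)) → ∃ y, C y ∧ ∀ z, F.E z y ↔ ∃ n, z = f n)
    {x y : X} (hx : C x) (hy : C y) : ∃ p, C p ∧ mos F p = {mos F x, mos F y} := by
  obtain ⟨p, hp, h⟩ := hct (fun n => if n = 0 then x else y)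
    (fun n => by by_cases hn : n = 0 <;> simp [hn, hx, hy])
  refine ⟨p, hp, ?_⟩
  ext w
  rw [mem_mos hs, ZFSet.mem_pair]
  constructor
  · rintro ⟨z, hz, rfl⟩
    obtain ⟨n, rfl⟩ := (h z).1 hz
    by_cases hn : n = 0 <;> simp [hn]
  · rintro (rfl | rfl)
    · exact ⟨x, (h x).2 ⟨0, by simp⟩, rfl⟩
    · exact ⟨y, (h y).2 ⟨1, by simp⟩, rfl⟩

theorem exists_opair_mos {C : X → Prop}
    (hct : ∀ f : ℕ → X, (∀ n, C (f n)) → ∃ y, C y ∧ ∀ z, F.E z y ↔ ∃ n, z = f n)
    {x y : X} (hx : C x) (hy : C y) : ∃ p, C p ∧ mos F p = ZFSet.pair (mos F x) (mos F y) := by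
  obtain ⟨a, ha, ha'⟩ := exists_pair_mos hs hct hx hx
  obtain ⟨b, hb, hb'⟩ := exists_pair_mos hs hct hx hy
  obtain ⟨p, hp, hp'⟩ := exists_pair_mos hs hct ha hb
  refine ⟨p, hp, ?_⟩
  rw [hp', ha', hb', ZFSet.pair_eq_singleton, ZFSet.pair]

/-- If `C` is a transitive class of the frame whose structure is a model of ZFC, which is
countably closed and contains elements of arbitrarily large rank, then its image is a countably
closed inner model. -/
theorem innerModel_of_class (C : X → Prop) (hC : ∀ x z, C x → F.E z x → C z)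
    (hzfc : IsZFC (fun x y : {x // C x} => F.E x.1 y.1))
    (hord : ∀ x : X, IsOrd F.E x → C x)
    (hbig : ∀ o : Ordinal.{u}, ∃ x : X, o ≤ (mos F x).rank)
    (hct : ∀ f : ℕ → X, (∀ n, C (f n)) → ∃ y, C y ∧ ∀ z, F.E z y ↔ ∃ n, z = f n) :
    InnerModel (fun y => ∃ x, C x ∧ y = mos F x) ∧
      CtblClosed (fun y => ∃ x, C x ∧ y = mos F x) := by
  have hOrd : ∀ α : ZFSet.{u}, α.IsOrdinal → ∃ x, C x ∧ α = mos F x := by
    intro α hα
    obtain ⟨x, hx, hx'⟩ := exists_ord_mos hs hbig α.rank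
    exact ⟨x, hord x hx, by rw [hx', hα.toZFSet_rank_eq]⟩
  refine ⟨⟨?_, hOrd, ?_⟩, ?_⟩
  · rintro _ y ⟨x, hx, rfl⟩ hy
    obtain ⟨z, hz, rfl⟩ := (mem_mos hs _ _).1 hy
    exact ⟨z, hC x z hx hz, rfl⟩
  · let e : {x // C x} ≃ {y : ZFSet.{u} // ∃ x, C x ∧ y = mos F x} :=
      Equiv.ofBijective (fun x => ⟨mos F x.1, x.1, x.2, rfl⟩) (by
        constructor
        · intro x y h
          exact Subtype.ext (mos_inj hs (congrArg Subtype.val h))
        · rintro ⟨y, x, hx, rfl⟩
          exact ⟨⟨x, hx⟩, rfl⟩)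
    exact zfc_equiv e (fun a b => mos_mem_mos hs) hzfc
  · intro f hf1 hf2
    have h1 : ∀ n : ℕ, ∃ y : X, C y ∧ ZFSet.pair (omegaSeq n) (mos F y) ∈ f := by
      intro n
      obtain ⟨y, hy, -⟩ := hf2 (omegaSeq n) (mem_omega_iff.2 ⟨n, rfl⟩)
      obtain ⟨m, -, y', ⟨x, hx, rfl⟩, e⟩ := hf1 _ hy
      rw [ZFSet.pair_inj] at e
      exact ⟨x, hx, by rw [← e.2]; exact hy⟩
    choose g hg1 hg2 using h1
    have h2 : ∀ n : ℕ, ∃ p : X, C p ∧ mos F p = ZFSet.pair (omegaSeq n) (mos F (g n)) := by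
      intro n
      obtain ⟨x, hx, e⟩ := hOrd (omegaSeq n)
        (isOrdinal_of_mem_omega (mem_omega_iff.2 ⟨n, rfl⟩))
      rw [e]
      exact exists_opair_mos hs hct hx (hg1 n)
    choose p hp1 hp2 using h2
    obtain ⟨y, hy, hy'⟩ := hct p hp1
    refine ⟨y, hy, ?_⟩
    ext w
    rw [mem_mos hs]
    constructor
    · intro hw
      obtain ⟨m, hm, y', hy1, rfl⟩ := hf1 w hw
      obtain ⟨n, rfl⟩ := mem_omega_iff.1 hm
      have : y' = mos F (g n) := (hf2 _ hm).unique hw (hg2 n)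
      exact ⟨p n, (hy' _).2 ⟨n, rfl⟩, by rw [hp2, this]⟩
    · rintro ⟨z, hz, rfl⟩
      obtain ⟨n, rfl⟩ := (hy' z).1 hz
      rw [hp2]
      exact hg2 n

theorem sat_mos (C : X → Prop) (φ : Fml)
    (v : ℕ → {y : ZFSet.{u} // ∃ x, C x ∧ y = mos F x}) (w : ℕ → X)
    (hw : ∀ n, (v n).1 = mos F (w n)) :
    φ.Sat (MemOn (fun y => ∃ x, C x ∧ y = mos F x)) v ↔ SatOn F.E C φ w := by
  induction φ generalizing v w with
  | mem i k =>
    show (v i).1 ∈ (v k).1 ↔ F.E (w i) (w k)
    rw [hw, hw, mos_mem_mos hs]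
  | eq i k =>
    show v i = v k ↔ w i = w k
    rw [Subtype.ext_iff, hw, hw]
    exact ⟨fun h => mos_inj hs h, fun h => by rw [h]⟩
  | neg φ ih => exact not_congr (ih v w hw)
  | and φ ψ ih1 ih2 => exact and_congr (ih1 v w hw) (ih2 v w hw)
  | all φ ih =>
    constructor
    · intro h x hx
      refine (ih (cons ⟨mos F x, x, hx, rfl⟩ v) (cons x w) ?_).1 (h _)
      intro n
      cases n with
      | zero => rfl
      | succ n => exact hw n
    · rintro h ⟨_, x, hx, rfl⟩
      refine (ih (cons ⟨mos F x, x, hx, rfl⟩ v) (cons x w) ?_).2 (h x hx)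
      intro n
      cases n with
      | zero => rfl
      | succ n => exact hw n

/-- Elementary maps between classes of the frame give elementary embeddings of the images. -/
theorem embedding_of_class (C C' : X → Prop) (i : X → X) (hi : ∀ x, C x → C' (i x))
    (hel : ∀ (φ : Fml) (v : ℕ → X), (∀ n, C (v n)) →
      (SatOn F.E C φ v ↔ SatOn F.E C' φ (fun n => i (v n)))) :
    ∃ i' : {y : ZFSet.{u} // ∃ x, C x ∧ y = mos F x} → {y : ZFSet.{u} // ∃ x, C' x ∧ y = mos F x},
      IsEmbedding _ _ i' ∧ ∀ (x : X) (hx : C x), (i' ⟨mos F x, x, hx, rfl⟩).1 = mos F (i x) := by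
  refine ⟨fun y => ⟨mos F (i y.2.choose), i y.2.choose, hi _ y.2.choose_spec.1, rfl⟩, ?_, ?_⟩
  · intro φ v
    rw [sat_mos hs C φ v (fun n => (v n).2.choose) (fun n => (v n).2.choose_spec.2),
      hel φ _ (fun n => (v n).2.choose_spec.1)]
    exact (sat_mos hs C' φ _ _ (fun n => rfl)).symm
  · intro x hx
    have h : ∃ x', C x' ∧ mos F x = mos F x' := ⟨x, hx, rfl⟩
    have e : h.choose = x := (mos_inj hs h.choose_spec.2).symm
    show mos F (i h.choose) = mos F (i x)
    rw [e]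

end IM
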