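import Pool.Agent.W_MP_0bf392_lc.Choice
import Pool.Agent.W_MP_0bf392_lc.Collapse

/-!
# The abstract theorem
-/

universe u v

namespace IM

open Functor'

/-- The word `0101…`. -/
def wa : Word := fun n => n % 2 == 1

/-- The word `1010…`. -/
def wb : Word := fun n => n % 2 == 0

theorem sh_wa : sh wa = wb := by
  funext n
  simp only [sh, wa, wb]
  rcases Nat.mod_two_eq_zero_or_one n with h | h <;> simp [Nat.add_mod, h]

theorem sh_wb : sh wb = wa := by
  funext n
  simp only [sh, wa, wb]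
  rcases Nat.mod_two_eq_zero_or_one n with h | h <;> simp [Nat.add_mod, h]

section

variable {X : Type v} {F : Frame X} {T : Bool → Functor' F}

theorem Mc_j (b : Word) (x : X) : Mc T b ((T (b 0)).j x) ↔ Mc T (sh b) x := by
  rw [← J1_Mc b]
  exact J1_j (cl_Mc _) x

theorem sat_j (b : Word) (φ : Fml) (v : ℕ → X) :
    SatOn F.E (Mc T (sh b)) φ v ↔ SatOn F.E (Mc T b) φ (fun n => (T (b 0)).j (v n)) :=
  (inv_SatOn (T := T) φ b).emb v

theorem mem_all {z k : X} (hk : IsOrd F.E k)
    (hz : ∀ (i : Bool) (t : X), F.E t z ↔ F.E t ((T i).j z) ∧ F.E t k) :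
    ∀ (m : ℕ) (b : Word), Lv T m b z
  | 0, _ => trivial
  | m + 1, b => by
    have h1 : Lv T (m + 1) b ((T (b 0)).j z) := (J1_j (cl_Lv _ _) z).2 (mem_all hk hz m (sh b))
    have h2 : Lv T (m + 1) b k := ord_Mc b hk (m + 1)
    have hinv : Inv T (fun _ v => F.E (v 0) (v 1)) := fun b => Tr.mem 0 1
    obtain ⟨y, hy, hy'⟩ := amen hinv (m + 1) b (fun _ => k) ((T (b 0)).j z) (fun _ => h2) h1
    have : z = y := F.ext _ _ fun t => (hz (b 0) t).trans (hy' t).symm
    rw [this]
    exact hy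

theorem distinct {z k : X} (hk : IsOrd F.E k)
    (hz : ∀ (i : Bool) (t : X), F.E t z ↔ F.E t ((T i).j z) ∧ F.E t k)
    (hd : ¬ (T true).JN ((T false).j z)) :
    Mc T wa ((T false).j z) ∧ ¬ Mc T wb ((T false).j z) := by
  constructor
  · have h := (Mc_j (T := T) wa z).2
    rw [sh_wa] at h
    exact h fun m => mem_all hk hz m wb
  · intro h
    exact hd (Mc_JN h)

end

/-- **The abstract theorem.** -/
theorem statement_of_frame {X : Type (u + 1)} (F : Frame X) (T : Bool → Functor' F)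
    (hs : ∀ x : X, Small.{u} {z // F.E z x})
    (hbig : ∀ o : Ordinal.{u}, ∃ x : X, o ≤ (mos F x).rank)
    (hord : ∀ x, IsOrd F.E x → (T false).j x = (T true).j x)
    (z k : X) (hk : IsOrd F.E k)
    (hz : ∀ (i : Bool) (t : X), F.E t z ↔ F.E t ((T i).j z) ∧ F.E t k)
    (hd : ¬ (T true).JN ((T false).j z)) : Statement.{u} := by
  have hin : ∀ b : Word, InnerModel (fun y => ∃ x, Mc T b x ∧ y = mos F x) ∧
      CtblClosed (fun y => ∃ x, Mc T b x ∧ y = mos F x) := fun b =>
    innerModel_of_class hs (Mc T b) (fun x z hx hz => Mc_trans b hx hz) (zfc_Mc b)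
      (fun x hx => ord_Mc b hx) hbig (fun f hf => Mc_ctbl b f hf)
  -- the embeddings
  have h1 : ∀ x, Mc T wa x → Mc T wb ((T true).j x) := by
    intro x hx
    have h := (Mc_j (T := T) wb x).2
    rw [sh_wb] at h
    exact h hx
  have h2 : ∀ x, Mc T wb x → Mc T wa ((T false).j x) := by
    intro x hx
    have h := (Mc_j (T := T) wa x).2
    rw [sh_wa] at h
    exact h hx
  obtain ⟨i, hi, hi'⟩ := embedding_of_class hs (Mc T wa) (Mc T wb) (T true).j h1
    (fun φ v _ => by
      have h := sat_j (T := T) wb φ v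
      rw [sh_wb] at h
      exact h)
  obtain ⟨j, hj, hj'⟩ := embedding_of_class hs (Mc T wb) (Mc T wa) (T false).j h2
    (fun φ v _ => by
      have h := sat_j (T := T) wa φ v
      rw [sh_wa] at h
      exact h)
  refine ⟨_, _, i, j, (hin wa).1, (hin wb).1, (hin wa).2, (hin wb).2, ?_, hi, hj, ?_⟩
  · intro he
    obtain ⟨d1, d2⟩ := distinct hk hz hd
    have : (fun y => ∃ x, Mc T wb x ∧ y = mos F x) (mos F ((T false).j z)) := by
      rw [← he]
      exact ⟨_, d1, rfl⟩
    obtain ⟨x, hx, hx'⟩ := this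
    rw [mos_inj hs hx'] at d2
    exact d2 hx
  · rintro α ⟨x, hx, rfl⟩ ⟨x', hx', e⟩ hα
    obtain rfl := mos_inj hs e
    rw [hi' x hx, hj' x hx', hord x ((isOrdinal_mos hs).1 hα)]

end IM
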