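import Pool.Agent.W_MP_0bf392_lc.BOrd
import Pool.Agent.W_MP_0bf392_lc.Collapse

/-!
# The quotient has elements of arbitrarily large rank
-/

universe u v

namespace IM

open BSet

variable {D : Type u} [CompleteBooleanAlgebra D] {lam : D → Prop}

theorem bbig_bmem {a o : Ordinal.{u}} (h : a < o) :
    bmem (ordB a : BSet D) (ordB o) = ⊤ := by
  rw [ordB_eq o]
  have h1 := wt_le_bmem (mk o.ToType (fun k => (ordB k.toOrd.1 : BSet D)) fun _ => ⊤)
    (Ordinal.ToType.mk ⟨a, h⟩ : o.ToType)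
  have h2 : ((Ordinal.ToType.mk ⟨a, h⟩ : o.ToType).toOrd : Set.Iio o).1 = a := by
    simp [Ordinal.ToType.toOrd]
  simp only [wt, fn, h2] at h1
  exact top_le_iff.1 h1

theorem bbig_BE (hl : IsUlt lam) {a o : Ordinal.{u}} (h : a < o) :
    BE hl (toX hl (ordB a)) (toX hl (ordB o)) := by
  rw [BE_toX, bbig_bmem h]
  exact hl.top

theorem bbig (hl : IsUlt lam) (o : Ordinal.{u}) :
    ∃ x : BX hl, o ≤ (mos (bframe hl) x).rank := by
  refine ⟨toX hl (ordB o), ?_⟩
  induction o using WellFoundedLT.induction with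
  | ind o ih =>
    refine le_of_forall_lt fun a ha => ?_
    have h1 : mos (bframe hl) (toX hl (ordB a)) ∈ mos (bframe hl) (toX hl (ordB o)) :=
      (mem_mos (F := bframe hl) bsmall _ _).2 ⟨_, bbig_BE hl ha, rfl⟩
    exact (ih a ha).trans_lt (ZFSet.rank_lt_of_mem h1)

end IM
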