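import Pool.Agent.W_MP_0bf392_lc.Mix

/-!
# The ultrapower of the Boolean-valued universe, collapsed

For a homomorphism `e : (I → D) → D` and a family `t : I → BSet D`, `col e t` is the
Boolean-valued set which is the collapse of the class of `t` in the ultrapower by `e`.
-/

universe u v

namespace IM

namespace BSet

variable {D : Type u} {I : Type u}

/-- `x` is one of the elements of `y`. -/
def child (x y : BSet D) : Prop := ∃ a, x = y.fn a

theorem child_wf : WellFounded (child : BSet D → BSet D → Prop) := by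
  refine ⟨fun x => ?_⟩
  induction x with
  | mk α A B ih =>
    refine Acc.intro _ ?_
    rintro y ⟨a, rfl⟩
    exact ih a

variable {U : Ultrafilter I}

open Filter

/-- The relation `for almost all i, s i is one of the elements of t i`. -/
def chAE (U : Ultrafilter I) (s t : I → BSet D) : Prop := ∀ᶠ i in U, child (s i) (t i)

/-- The empty name. -/
def emp (D : Type u) : BSet D := mk PEmpty (fun a => a.elim) (fun a => a.elim)

variable [CompleteBooleanAlgebra D]

/-- The index type of the collapse: the choices of elements almost everywhere. -/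
def Idx (U : Ultrafilter I) (t : I → BSet D) : Type u :=
  {f : ∀ i, Option (t i).ty // ∀ᶠ i in U, (f i).isSome = true}

/-- The family chosen by an index. -/
def sel {t : I → BSet D} (f : Idx U t) : I → BSet D := fun i => (f.1 i).elim (emp D) (t i).fn

/-- The weight of an index. -/
def selwt {t : I → BSet D} (f : Idx U t) : I → D := fun i => (f.1 i).elim ⊥ (t i).wt

omit [CompleteBooleanAlgebra D] in
theorem chAE_wf (hU : ∀ A : ℕ → Set I, (∀ n, A n ∈ U) → {i | ∀ n, i ∈ A n} ∈ U) :
    WellFounded (chAE (D := D) U) := by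
  rw [wellFounded_iff_isEmpty_descending_chain]
  refine ⟨fun ⟨f, hf⟩ => ?_⟩
  have h1 := hU (fun n => {i | child (f (n + 1) i) (f n i)}) (fun n => hf n)
  obtain ⟨i, hi⟩ := U.nonempty_of_mem h1
  have h2 := (wellFounded_iff_isEmpty_descending_chain.1 (child_wf (D := D)))
  exact h2.false ⟨fun n => f n i, fun n => hi n⟩

theorem chAE_sel {t : I → BSet D} (f : Idx U t) : chAE U (sel f) t := by
  refine f.2.mono fun i hi => ?_
  obtain ⟨a, ha⟩ := Option.isSome_iff_exists.1 hi
  refine ⟨a, ?_⟩
  simp only [sel, ha, Option.elim_some]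

open Classical in
/-- The collapse of the class of a family in the ultrapower by `e`. -/
noncomputable def col (U : Ultrafilter I) (e : (I → D) → D) : (I → BSet D) → BSet D :=
  if h : WellFounded (chAE (D := D) U) then
    WellFounded.fix (C := fun _ => BSet D) h
      (fun t ih => mk (Idx U t) (fun f => ih (sel f) (chAE_sel f)) (fun f => e (selwt f)))
  else fun _ => emp D

theorem col_eq (hU : ∀ A : ℕ → Set I, (∀ n, A n ∈ U) → {i | ∀ n, i ∈ A n} ∈ U)
    (e : (I → D) → D) (t : I → BSet D) :
    col U e t = mk (Idx U t) (fun f => col U e (sel f)) (fun f => e (selwt f)) := by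
  unfold col
  rw [dif_pos (chAE_wf hU), WellFounded.fix_eq]

variable {e : (I → D) → D}

theorem bcol_hom_mono (he : IsHom U e) {u v : I → D} (h : ∀ i, u i ≤ v i) : e u ≤ e v := by
  have h1 : e u = e u ⊓ e v := by
    rw [← he.inf]
    congr 1
    funext i
    exact (inf_eq_left.2 (h i)).symm
  rw [h1]
  exact inf_le_right

theorem bcol_hom_iSup (he : IsHom U e) (t : I → BSet D) (u : ∀ i, (t i).ty → D) :
    e (fun i => ⨆ a, u i a) = ⨆ f : Idx U t, e (fun i => (f.1 i).elim ⊥ (u i)) := by
  rw [he.sup]
  apply le_antisymm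
  · refine iSup_le fun f => ?_
    by_cases hf : ∀ᶠ i in U, (f i).isSome = true
    · exact le_iSup (fun f : Idx U t => e (fun i => (f.1 i).elim ⊥ (u i))) ⟨f, hf⟩
    · have h1 : ∀ᶠ i in U, (f i).elim ⊥ (u i) = (fun _ => (⊥ : D)) i := by
        refine (U.eventually_not.2 hf).mono fun i hi => ?_
        have h2 : f i = none := by simpa using hi
        simp [h2]
      rw [he.ae _ _ h1, he.const]
      exact bot_le
  · exact iSup_le fun f => le_iSup (fun f : ∀ i, Option (t i).ty =>
      e (fun i => (f i).elim ⊥ (u i))) f.1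

theorem bcol_hom_ex (he : IsHom U e) (t : I → BSet D) (c : I → BSet D → D) :
    e (fun i => ⨆ b : (t i).ty, (t i).wt b ⊓ c i ((t i).fn b)) =
      ⨆ g : Idx U t, e (selwt g) ⊓ e (fun i => c i (sel g i)) := by
  rw [bcol_hom_iSup he t]
  refine iSup_congr fun g => ?_
  rw [← he.inf]
  congr 1
  funext i
  simp only [selwt, sel]
  cases g.1 i <;> simp

theorem bcol_hom_all (he : IsHom U e) (s : I → BSet D) (c : I → BSet D → D) :
    e (fun i => ⨅ a : (s i).ty, ((s i).wt a)ᶜ ⊔ c i ((s i).fn a)) =
      ⨅ f : Idx U s, (e (selwt f))ᶜ ⊔ e (fun i => c i (sel f i)) := by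
  have h1 : (fun i => ⨅ a : (s i).ty, ((s i).wt a)ᶜ ⊔ c i ((s i).fn a)) =
      fun i => (⨆ a : (s i).ty, (s i).wt a ⊓ (c i ((s i).fn a))ᶜ)ᶜ := by
    funext i
    rw [compl_iSup]
    refine iInf_congr fun a => ?_
    rw [compl_inf, compl_compl]
  rw [h1, he.compl, bcol_hom_ex he s (fun i x => (c i x)ᶜ), compl_iSup]
  refine iInf_congr fun f => ?_
  rw [compl_inf, he.compl, compl_compl]

theorem bcol_beq_eq (x y : BSet D) : beq x y =
    (⨅ a : x.ty, (x.wt a)ᶜ ⊔ ⨆ b : y.ty, y.wt b ⊓ beq (x.fn a) (y.fn b)) ⊓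
      (⨅ b : y.ty, (y.wt b)ᶜ ⊔ ⨆ a : x.ty, x.wt a ⊓ beq (x.fn a) (y.fn b)) := by
  cases x with
  | mk α A B =>
    cases y with
    | mk β A' B' =>
      rw [beq]
      rfl

theorem beq_col (he : IsHom U e) (s t : I → BSet D) :
    beq (col U e s) (col U e t) = e (fun i => beq (s i) (t i)) := by
  induction s using (chAE_wf (D := D) he.sigma).induction generalizing t with
  | _ s ih =>
    have h1 : beq (col U e s) (col U e t) =
        (⨅ f : Idx U s, (e (selwt f))ᶜ ⊔ ⨆ g : Idx U t, e (selwt g) ⊓
          e (fun i => beq (sel f i) (sel g i))) ⊓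
        (⨅ g : Idx U t, (e (selwt g))ᶜ ⊔ ⨆ f : Idx U s, e (selwt f) ⊓
          e (fun i => beq (sel f i) (sel g i))) := by
      rw [col_eq he.sigma e s, col_eq he.sigma e t, bcol_beq_eq]
      congr 1
      · refine iInf_congr fun f => ?_
        congr 1
        refine iSup_congr fun g => ?_
        congr 1
        exact ih (sel f) (chAE_sel f) (sel g)
      · refine iInf_congr fun g => ?_
        congr 1
        refine iSup_congr fun f => ?_
        congr 1
        exact ih (sel f) (chAE_sel f) (sel g)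
    have h2 : (fun i => beq (s i) (t i)) = fun i =>
        (⨅ a : (s i).ty, ((s i).wt a)ᶜ ⊔
          (fun i x => ⨆ b : (t i).ty, (t i).wt b ⊓ beq x ((t i).fn b)) i ((s i).fn a)) ⊓
        (⨅ b : (t i).ty, ((t i).wt b)ᶜ ⊔
          (fun i x => ⨆ a : (s i).ty, (s i).wt a ⊓ beq ((s i).fn a) x) i ((t i).fn b)) := by
      funext i
      rw [bcol_beq_eq]
    rw [h1, h2, he.inf]
    refine congrArg₂ _ (Eq.trans ?_ (bcol_hom_all he s
      (fun i x => ⨆ b : (t i).ty, (t i).wt b ⊓ beq x ((t i).fn b))).symm)
      (Eq.trans ?_ (bcol_hom_all he t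
        (fun i x => ⨆ a : (s i).ty, (s i).wt a ⊓ beq ((s i).fn a) x)).symm)
    · refine iInf_congr fun f => ?_
      congr 1
      exact (bcol_hom_ex he t (fun i x => beq (sel f i) x)).symm
    · refine iInf_congr fun g => ?_
      congr 1
      exact (bcol_hom_ex he s (fun i x => beq x (sel g i))).symm

theorem bmem_col (he : IsHom U e) (s t : I → BSet D) :
    bmem (col U e s) (col U e t) = e (fun i => bmem (s i) (t i)) := by
  have h1 : bmem (col U e s) (col U e t) =
      ⨆ g : Idx U t, e (selwt g) ⊓ beq (col U e s) (col U e (sel g)) := by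
    rw [col_eq he.sigma e t]
    rfl
  rw [h1]
  refine Eq.trans ?_ (bcol_hom_ex he t (fun i x => beq (s i) x)).symm
  refine iSup_congr fun g => ?_
  rw [beq_col he]

/-- The image of a `D`-valued relation. -/
noncomputable def JR (U : Ultrafilter I) (e : (I → D) → D) (R : (ℕ → BSet D) → D) (v : ℕ → BSet D) : D :=
  ⨆ t : ℕ → I → BSet D, (⨅ n, beq (v n) (col U e (t n))) ⊓ e (fun i => R (fun n => t n i))

theorem JR_ext (U : Ultrafilter I) (e : (I → D) → D) (R : (ℕ → BSet D) → D) : ExtR (JR U e R) := by
  intro v w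
  unfold JR
  rw [inf_iSup_eq]
  refine iSup_le fun t => le_iSup_of_le t ?_
  rw [← inf_assoc]
  refine inf_le_inf_right _ (le_iInf fun n => ?_)
  refine le_trans ?_ (beq_trans (w n) (v n) (col U e (t n)))
  rw [beq_symm (w n) (v n)]
  exact inf_le_inf (iInf_le _ n) (iInf_le _ n)

theorem JR_col (he : IsHom U e) {R : (ℕ → BSet D) → D} (hR : ExtR R) (t : ℕ → I → BSet D) :
    JR U e R (fun n => col U e (t n)) = e (fun i => R (fun n => t n i)) := by
  apply le_antisymm
  · refine iSup_le fun t' => ?_
    have h1 : (⨅ n, beq (col U e (t n)) (col U e (t' n))) =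
        e (fun i => ⨅ n, beq (t n i) (t' n i)) := by
      rw [he.iInf]
      exact iInf_congr fun n => beq_col he _ _
    rw [h1, ← he.inf]
    refine bcol_hom_mono he fun i => ?_
    refine le_trans ?_ (hR (fun n => t' n i) (fun n => t n i))
    refine inf_le_inf_right _ (le_of_eq ?_)
    exact iInf_congr fun n => beq_symm _ _
  · refine le_iSup_of_le t ?_
    refine le_inf ?_ le_rfl
    refine le_iInf fun n => ?_
    rw [beq_refl]
    exact le_top

/-- `JR` respects equivalence of relations with value `a`. -/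
theorem JR_congr (he : IsHom U e) {R S : (ℕ → BSet D) → D} (a : D)
    (h : ∀ v, a ⊓ R v ≤ S v) (v : ℕ → BSet D) : a ⊓ JR U e R v ≤ JR U e S v := by
  unfold JR
  rw [inf_iSup_eq]
  refine iSup_le fun t => le_iSup_of_le t ?_
  rw [inf_left_comm]
  refine inf_le_inf_left _ ?_
  have h1 : a ⊓ e (fun i => R (fun n => t n i)) = e (fun i => a ⊓ R (fun n => t n i)) := by
    rw [he.inf, he.const]
  rw [h1]
  exact bcol_hom_mono he fun i => h _

/-- The truth value of `x is in the ultrapower`. -/
noncomputable def inJ (U : Ultrafilter I) (e : (I → D) → D) (x : BSet D) : D :=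
  ⨆ t : I → BSet D, beq x (col U e t)

theorem inJ_ext (U : Ultrafilter I) (e : (I → D) → D) : Ext1 (inJ U e) := by
  intro x y
  unfold inJ
  rw [inf_iSup_eq]
  refine iSup_le fun t => le_iSup_of_le t ?_
  rw [beq_symm x y]
  exact beq_trans y x (col U e t)

/-- The ultrapower is transitive. -/
theorem bmem_col_le (he : IsHom U e) (x : BSet D) (t : I → BSet D) :
    bmem x (col U e t) ≤ inJ U e x := by
  rw [col_eq he.sigma e t]
  refine iSup_le fun g => ?_
  exact le_trans inf_le_right (le_iSup (fun t => beq x (col U e t)) (sel g))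

end BSet

end IM
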