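import Pool.Agent.W_MP_0bf392_lc.Levels

/-!
# Ordinals of a frame
-/

universe u v

namespace IM

open Functor'

variable {X : Type v}

/-- `x` is an ordinal: `x` and its elements are transitive. -/
def IsOrd (E : X → X → Prop) (x : X) : Prop :=
  (∀ y z, E y x → E z y → E z x) ∧ ∀ y, E y x → ∀ z w, E z y → E w z → E w y

variable {F : Frame X} {T : Bool → Functor' F}

theorem IsOrd.mem {x y : X} (hx : IsOrd F.E x) (hy : F.E y x) : IsOrd F.E y :=
  ⟨fun z w hz hw => hx.2 y hy z w hz hw, fun z hz => hx.2 z (hx.1 y z hy hz)⟩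

/-- Ordinals are comparable. -/
theorem IsOrd.tri (F : Frame X) : ∀ x, IsOrd F.E x → ∀ y, IsOrd F.E y →
    F.E x y ∨ x = y ∨ F.E y x := by
  intro x
  induction x using F.wf.induction with
  | _ x ihx =>
    intro hx y
    induction y using F.wf.induction with
    | _ y ihy =>
      intro hy
      by_cases h1 : ∀ z, F.E z x → F.E z y
      · by_cases h2 : ∀ w, F.E w y → F.E w x
        · exact Or.inr (Or.inl (F.ext _ _ fun z => ⟨h1 z, h2 z⟩))
        · push Not at h2
          obtain ⟨w, hw, hwx⟩ := h2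
          rcases ihy w hw (hy.mem hw) with h | h | h
          · exact Or.inl (hy.1 w x hw h)
          · exact Or.inl (h ▸ hw)
          · exact absurd h hwx
      · push Not at h1
        obtain ⟨z, hz, hzy⟩ := h1
        rcases ihx z hz (hx.mem hz) y hy with h | h | h
        · exact absurd h hzy
        · exact Or.inr (Or.inr (h ▸ hz))
        · exact Or.inr (Or.inr (hx.1 z y hz h))

theorem IsOrd.mem_iff {x y : X} (hx : IsOrd F.E x) (hy : IsOrd F.E y) :
    F.E x y ↔ rnk F x < rnk F y := by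
  refine ⟨rnk_lt, fun h => ?_⟩
  rcases IsOrd.tri F x hx y hy with h' | h' | h'
  · exact h'
  · exact absurd h (h' ▸ lt_irrefl _)
  · exact absurd (rnk_lt h') h.asymm

theorem IsOrd.ext {x y : X} (hx : IsOrd F.E x) (hy : IsOrd F.E y) (h : rnk F x = rnk F y) :
    x = y := by
  rcases IsOrd.tri F x hx y hy with h' | h' | h'
  · exact absurd (rnk_lt h') (h ▸ lt_irrefl _)
  · exact h'
  · exact absurd (rnk_lt h') (h ▸ lt_irrefl _)

/-- Being an ordinal is absolute for the functors. -/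
theorem inv_IsOrd : Inv T (fun _ v => IsOrd F.E (v 0)) := by
  intro b
  have h1 : Tr (T (b 0)) (fun v => ∀ y z, F.E y (v 0) → F.E z y → F.E z (v 0))
      (fun v => ∀ y, (T (b 0)).JN y → ∀ z, (T (b 0)).JN z →
        F.E y (v 0) → F.E z y → F.E z (v 0)) :=
    Tr.allx (R := fun y v => ∀ z, F.E y (v 0) → F.E z y → F.E z (v 0))
      (R' := fun y v => ∀ z, (T (b 0)).JN z → F.E y (v 0) → F.E z y → F.E z (v 0))
      (Tr.allx (R := fun z v => F.E (v 0) (v 1) → F.E z (v 0) → F.E z (v 1))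
        (R' := fun z v => F.E (v 0) (v 1) → F.E z (v 0) → F.E z (v 1))
        ((Tr.mem 1 2).imp ((Tr.mem 0 1).imp (Tr.mem 0 2))))
  have h2 : Tr (T (b 0)) (fun v => ∀ y, F.E y (v 0) → ∀ z w, F.E z y → F.E w z → F.E w y)
      (fun v => ∀ y, (T (b 0)).JN y → F.E y (v 0) → ∀ z, (T (b 0)).JN z →
        ∀ w, (T (b 0)).JN w → F.E z y → F.E w z → F.E w y) :=
    Tr.allx (R := fun y v => F.E y (v 0) → ∀ z w, F.E z y → F.E w z → F.E w y)
      (R' := fun y v => F.E y (v 0) → ∀ z, (T (b 0)).JN z →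
        ∀ w, (T (b 0)).JN w → F.E z y → F.E w z → F.E w y)
      ((Tr.mem 0 1).imp (Tr.allx (R := fun z v => ∀ w, F.E z (v 0) → F.E w z → F.E w (v 0))
        (R' := fun z v => ∀ w, (T (b 0)).JN w → F.E z (v 0) → F.E w z → F.E w (v 0))
        (Tr.allx (R := fun w v => F.E (v 0) (v 1) → F.E w (v 0) → F.E w (v 1))
          (R' := fun w v => F.E (v 0) (v 1) → F.E w (v 0) → F.E w (v 1))
          ((Tr.mem 1 2).imp ((Tr.mem 0 1).imp (Tr.mem 0 2))))))
  refine (h1.and h2).congr fun v hv => ?_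
  have hJ : ∀ {x z : X}, (T (b 0)).JN x → F.E z x → (T (b 0)).JN z :=
    fun hx hz => (T (b 0)).trans hx hz
  constructor
  · rintro ⟨k1, k2⟩
    refine ⟨fun y z hy hz => ?_, fun y hy z w hz hw => ?_⟩
    · have hyJ := hJ (hv 0) hy
      exact k1 y hyJ z (hJ hyJ hz) hy hz
    · have hyJ := hJ (hv 0) hy
      have hzJ := hJ hyJ hz
      exact k2 y hyJ hy z hzJ w (hJ hzJ hw) hz hw
  · rintro ⟨k1, k2⟩
    exact ⟨fun y _ z _ hy hz => k1 y z hy hz, fun y _ hy z _ w _ hz hw => k2 y hy z w hz hw⟩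

/-- Each `M_b` contains all ordinals. -/
theorem ord_Mc (b : Word) {x : X} (hx : IsOrd F.E x) : Mc T b x := by
  induction x using F.wf.induction with
  | _ x ih =>
    obtain ⟨w, hw, hw'⟩ := rkM (T := T) b x
    obtain ⟨y, hy, hy'⟩ := sepM inv_IsOrd b (fun _ => w) w (fun _ => hw) hw
    have : x = y := by
      refine F.ext _ _ fun z => ?_
      rw [hy' z, hw' z, P_rnk]
      constructor
      · intro hz
        exact ⟨⟨ih z hz (hx.mem hz), rnk_lt hz⟩, hx.mem hz⟩
      · rintro ⟨⟨_, h⟩, h'⟩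
        have h'' : IsOrd F.E z := h'
        exact (h''.mem_iff hx).2 h
    rw [this]
    exact hy

end IM
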