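import Pool.Agent.W_MP_0bf392_lc.BFun
import Pool.Agent.W_MP_0bf392_lc.Ord

/-!
# The two ultrapowers are different
-/

universe u v

namespace IM

open BSet

variable {D : Type u} [CompleteBooleanAlgebra D] {lam : D → Prop}
variable {I : Type u} [LinearOrder I] [WellFoundedLT I] {U : Ultrafilter I}
variable {e : Bool → (I → D) → D}

theorem IsUlt.inf2 (hl : IsUlt lam) {a b : D} (ha : lam a) (hb : lam b) : lam (a ⊓ b) := by
  have h1 : lam (⨅ n : ℕ, if n = 0 then a else b) := by
    refine hl.iInf _ fun n => ?_
    split <;> assumption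
  refine hl.mono (le_inf ?_ ?_) h1
  · exact (iInf_le _ 0).trans (le_of_eq (if_pos rfl))
  · exact (iInf_le _ 1).trans (le_of_eq (if_neg one_ne_zero))

namespace BSet

/-- The name of `I`. -/
noncomputable def allB (D : Type u) [CompleteBooleanAlgebra D] (I : Type u) [LinearOrder I]
    [WellFoundedLT I] : BSet D := mk I chk fun _ => ⊤

/-- The name of the subset of `I` with truth values `G`. -/
noncomputable def subB (G : I → D) : BSet D := mk I chk G

/-- The children of the name of `i`. -/
theorem child_chk {x : BSet D} {i : I} (h : child x (chk i)) : ∃ k < i, x = chk k := by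
  rw [chk_eq] at h
  obtain ⟨a, ha⟩ := h
  exact ⟨a.1, a.2, ha⟩

/-- The homomorphisms fix the names of the elements of `I`. -/
theorem col_chk (h : Data U lam e) (b : Bool) (i : I) :
    beq (col U (e b) fun _ => chk i) (chk i) = ⊤ := by
  have he := h.hom b
  induction i using WellFoundedLT.induction with
  | ind i ih =>
    rw [eq_top_iff, le_beq_iff]
    have hb : ∀ k < i, bmem (col U (e b) fun _ => chk k) (col U (e b) fun _ => (chk i : BSet D))
        = ⊤ := by
      intro k hk
      rw [bmem_col he, he.const, bmem_chk]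
      rw [eq_top_iff]
      refine le_iSup_of_le ⟨k, hk⟩ ?_
      rw [beq_refl]
    constructor
    · intro z
      rw [top_inf_eq, col_eq he.sigma (e b)]
      refine iSup_le fun f => ?_
      refine inf_le_right.trans ?_
      -- the selection is almost everywhere constant
      have h1 : ∀ᶠ j in (U : Filter I), ∃ k < i, sel f j = chk k := by
        have := chAE_sel f
        refine Filter.Eventually.mono this fun j hj => ?_
        exact child_chk hj
      obtain ⟨j₀, k₀, hk₀, -⟩ := h1.exists
      have h2 : ∀ j, ∃ k < i, (∃ k < i, sel f j = chk k) → sel f j = chk k := by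
        intro j
        by_cases hj : ∃ k < i, sel f j = chk k
        · obtain ⟨k, hk, hk'⟩ := hj
          exact ⟨k, hk, fun _ => hk'⟩
        · exact ⟨k₀, hk₀, fun h' => absurd h' hj⟩
      choose g hg hg' using h2
      obtain ⟨k, hk⟩ := h.crit i g hg
      have h3 : ∀ᶠ j in (U : Filter I), sel f j = chk k := by
        filter_upwards [h1, hk] with j h4 h5
        rw [hg' j h4, h5]
      have hki : k < i := by
        obtain ⟨j, hj⟩ := hk.exists
        rw [← hj]
        exact hg j
      have h6 : beq (col U (e b) (sel f)) (col U (e b) fun _ => chk k) = ⊤ := by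
        rw [beq_col he]
        rw [he.ae (fun i => beq (sel f i) (chk k)) (fun _ => ⊤), he.const]
        filter_upwards [h3] with j hj
        rw [hj, beq_refl]
      have h7 : beq z (col U (e b) (sel f)) ≤ beq z (chk k) := by
        refine le_trans ?_ (beq_trans z (col U (e b) fun _ => chk k) (chk k))
        rw [ih k hki, inf_top_eq]
        refine le_trans ?_ (beq_trans z (col U (e b) (sel f)) _)
        rw [h6, inf_top_eq]
      refine h7.trans ?_
      rw [bmem_chk]
      exact le_iSup (fun k : {k : I // k < i} => beq z (chk k.1)) ⟨k, hki⟩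
    · intro z
      rw [top_inf_eq, bmem_chk]
      refine iSup_le fun k => ?_
      have h1 := bmem_congr_left (col U (e b) fun _ => chk k.1) z
        (col U (e b) fun _ => (chk i : BSet D))
      rw [hb k.1 k.2, inf_top_eq] at h1
      refine le_trans ?_ h1
      refine le_trans ?_ (beq_trans (col U (e b) fun _ => chk k.1) (chk k.1) z)
      rw [ih k.1 k.2, top_inf_eq, beq_symm]

theorem bmem_subB (G : I → D) (i : I) : bmem (chk i) (subB G) = G i := by
  show (⨆ k : I, G k ⊓ beq (chk i) (chk k)) = G i
  apply le_antisymm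
  · refine iSup_le fun k => ?_
    by_cases hk : i = k
    · rw [hk]
      exact inf_le_left
    · rw [chk_ne i k hk, inf_bot_eq]
      exact bot_le
  · refine le_iSup_of_le i ?_
    rw [beq_refl, inf_top_eq]

theorem bmem_subB' (G : I → D) (x : BSet D) : bmem x (subB G) = ⨆ k, G k ⊓ beq x (chk k) := rfl

theorem bmem_allB (x : BSet D) : bmem x (allB D I) = ⨆ k : I, beq x (chk k) := by
  show (⨆ k : I, ⊤ ⊓ beq x (chk k)) = _
  simp only [top_inf_eq]

theorem bmem_chk_le (x : BSet D) (i : I) : bmem x (chk i) ≤ bmem x (allB D I) := by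
  rw [bmem_chk, bmem_allB]
  exact iSup_le fun k => le_iSup (fun k : I => beq x (chk k)) k.1

theorem trans_chk (w z : BSet D) (i : I) : bmem z (chk i) ⊓ bmem w z ≤ bmem w (chk i) := by
  rw [bmem_chk z i, iSup_inf_eq]
  refine iSup_le fun k => ?_
  refine (bmem_congr_right w z (chk k.1)).trans ?_
  rw [bmem_chk, bmem_chk]
  refine iSup_le fun l => ?_
  exact le_iSup (fun l : {l : I // l < i} => beq w (chk l.1)) ⟨l.1, l.2.trans k.2⟩

/-- All weights are hereditarily `⊤`. -/
inductive HT : BSet D → Prop
  | intro (x : BSet D) (hw : ∀ a, x.wt a = ⊤) (hx : ∀ a, HT (x.fn a)) : HT x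

theorem HT_emp : HT (emp D) := HT.intro _ (fun a => PEmpty.elim a) (fun a => PEmpty.elim a)

theorem HT_chk (i : I) : HT (chk i : BSet D) := by
  induction i using WellFoundedLT.induction with
  | ind i ih =>
    rw [chk_eq]
    exact HT.intro _ (fun _ => rfl) (fun k => ih k.1 k.2)

theorem col_HT (h : Data U lam e) (t : I → BSet D) (ht : ∀ i, HT (t i)) :
    col U (e false) t = col U (e true) t := by
  obtain ⟨D0, h1, h0, hd, -⟩ := h.dec
  induction t using (chAE_wf (D := D) (h.hom true).sigma).induction with
  | _ t ih =>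
    rw [col_eq (h.hom true).sigma (e false) t, col_eq (h.hom true).sigma (e true) t]
    congr 1
    · funext f
      refine ih (sel f) (chAE_sel f) fun i => ?_
      unfold sel
      cases hf : f.1 i with
      | none => exact HT_emp
      | some a =>
        obtain ⟨_, _, hx⟩ := ht i
        exact hx a
    · funext f
      refine hd _ fun i => ?_
      unfold selwt
      cases hf : f.1 i with
      | none => exact h0
      | some a =>
        obtain ⟨_, hw, _⟩ := ht i
        show (t i).wt a ∈ D0
        rw [hw a]
        exact h1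

end BSet

theorem isOrd_allB (hl : IsUlt lam) : IsOrd (BE hl) (toX hl (allB D I)) := by
  constructor
  · intro y z hy hz
    rw [← toX_rep y] at hy hz
    rw [← toX_rep z] at hz ⊢
    rw [BE_toX] at hy hz ⊢
    refine hl.mono ?_ (hl.inf2 hy hz)
    rw [bmem_allB y.rep, iSup_inf_eq]
    refine iSup_le fun i => ?_
    exact (bmem_congr_right z.rep y.rep (chk i)).trans (bmem_chk_le _ _)
  · intro y hy z w hz hw
    rw [← toX_rep y] at hy hz ⊢
    rw [← toX_rep z] at hz hw
    rw [← toX_rep w] at hw ⊢
    rw [BE_toX] at hy hz hw ⊢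
    refine hl.mono ?_ (hl.inf2 hy (hl.inf2 hz hw))
    rw [bmem_allB y.rep, iSup_inf_eq]
    refine iSup_le fun i => ?_
    have h1 : beq y.rep (chk i) ⊓ (bmem z.rep y.rep ⊓ bmem w.rep z.rep) ≤ bmem w.rep (chk i) := by
      refine le_trans ?_ (trans_chk w.rep z.rep i)
      rw [← inf_assoc]
      exact inf_le_inf_right _ (bmem_congr_right z.rep y.rep (chk i))
    refine le_trans (le_inf (inf_le_left.trans (le_of_eq (beq_symm _ _))) h1) ?_
    exact bmem_congr_right w.rep (chk i) y.rep

theorem bmem_subB_eq (h : Data U lam e) (G : I → D) (b : Bool) (x : BSet D) :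
    bmem x (subB G) = bmem x (col U (e b) fun _ => subB G) ⊓ bmem x (allB D I) := by
  have he := h.hom b
  have h1 : ∀ i : I, bmem (chk i) (col U (e b) fun _ => subB G) = G i := by
    intro i
    have h2 : bmem (col U (e b) fun _ => (chk i : BSet D)) (col U (e b) fun _ => subB G) = G i := by
      rw [bmem_col he, he.const, bmem_subB]
    apply le_antisymm
    · rw [← h2]
      have := bmem_congr_left (chk i) (col U (e b) fun _ => chk i) (col U (e b) fun _ => subB G)
      rw [beq_symm, col_chk h b i, top_inf_eq] at this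
      exact this
    · rw [← h2]
      have := bmem_congr_left (col U (e b) fun _ => chk i) (chk i) (col U (e b) fun _ => subB G)
      rw [col_chk h b i, top_inf_eq] at this
      exact this
  rw [bmem_allB, inf_iSup_eq, bmem_subB']
  refine iSup_congr fun i => ?_
  rw [← h1 i]
  apply le_antisymm
  · refine le_inf ?_ inf_le_right
    rw [inf_comm, beq_symm]
    exact bmem_congr_left _ _ _
  · refine le_inf ?_ inf_le_right
    rw [inf_comm]
    exact bmem_congr_left _ _ _

/-- `G = j(G) ∩ I`. -/
theorem subB_inter (h : Data U lam e) (G : I → D) (b : Bool) (t : BX h.ult) :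
    BE h.ult t (toX h.ult (subB G)) ↔
      BE h.ult t (bj h.ult U (e b) (toX h.ult (subB G))) ∧ BE h.ult t (toX h.ult (allB D I)) := by
  rw [bj_toX (h.hom b)]
  rw [← toX_rep t, BE_toX, BE_toX, BE_toX, bmem_subB_eq h G b]
  constructor
  · intro h1
    exact ⟨h.ult.mono inf_le_left h1, h.ult.mono inf_le_right h1⟩
  · rintro ⟨h1, h2⟩
    exact h.ult.inf2 h1 h2

theorem bdist (h : Data U lam e) : ∃ z k : BX h.ult, IsOrd (BE h.ult) k ∧
    (∀ (b : Bool) (t : BX h.ult), BE h.ult t z ↔ BE h.ult t (bj h.ult U (e b) z) ∧ BE h.ult t k) ∧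
    ¬ bJN h.ult U (e true) (bj h.ult U (e false) z) := by
  obtain ⟨G, hG⟩ := h.dist
  refine ⟨toX h.ult (subB G), toX h.ult (allB D I), isOrd_allB h.ult,
    fun b t => subB_inter h G b t, ?_⟩
  rw [bj_toX (h.hom false)]
  rintro ⟨t, ht⟩
  rw [toX_eq] at ht
  refine hG (fun i k => bmem (chk k) (t i)) (h.ult.mono (le_iInf fun f => ?_) ht)
  have hν : col U (e false) (fun i => (chk (f i) : BSet D)) = col U (e true) fun i => chk (f i) :=
    col_HT h _ fun i => HT_chk (f i)
  have h1 : bmem (col U (e false) fun i => (chk (f i) : BSet D))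
      (col U (e false) fun _ => subB G) = e false (fun i => G (f i)) := by
    rw [bmem_col (h.hom false)]
    congr 1
    funext i
    exact bmem_subB G (f i)
  have h2 : bmem (col U (e false) fun i => (chk (f i) : BSet D)) (col U (e true) t) =
      e true (fun i => bmem (chk (f i)) (t i)) := by
    rw [hν, bmem_col (h.hom true)]
  rw [← h1, ← h2]
  unfold biimp
  set ν := col U (e false) fun i => (chk (f i) : BSet D)
  set x := col U (e false) fun _ => subB G
  set y := col U (e true) t
  refine le_inf ?_ ?_
  · rw [sup_comm, ← himp_eq, le_himp_iff]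
    exact bmem_congr_right ν x y
  · rw [sup_comm, ← himp_eq, le_himp_iff, beq_symm]
    exact bmem_congr_right ν y x

end IM
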