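import Pool.Agent.W_MP_0bf392_lc.BPair
import Pool.Agent.W_MP_0bf392_lc.BCol

/-!
# The functor given by a generic homomorphism
-/

universe u v

namespace IM

open BSet

variable {D : Type u} [CompleteBooleanAlgebra D] {lam : D → Prop} {hl : IsUlt lam}
variable {I : Type u} [LinearOrder I] [WellFoundedLT I]

namespace BSet

/-- The name of the ordinal number `i`. -/
noncomputable def chk : I → BSet D :=
  WellFounded.fix (C := fun _ => BSet D) (wellFounded_lt (α := I))
    (fun i ih => mk {k : I // k < i} (fun k => ih k.1 k.2) fun _ => ⊤)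

theorem chk_eq (i : I) : (chk i : BSet D) = mk {k : I // k < i} (fun k => chk k.1) fun _ => ⊤ := by
  unfold chk
  rw [WellFounded.fix_eq]

theorem bmem_irr (x : BSet D) : bmem x x = ⊥ := by
  have h := no_descending (fun _ : ℕ => x)
  rw [iInf_const] at h
  exact h

theorem bmem_chk_aux (x : BSet D) (i : I) :
    bmem x (chk i) = ⨆ k : {k : I // k < i}, beq x (chk k.1) := by
  rw [chk_eq i]
  show (⨆ b : {k : I // k < i}, ((fun _ => ⊤ : {k : I // k < i} → D) b) ⊓ beq x (chk b.1)) = _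
  refine iSup_congr fun b => ?_
  exact top_inf_eq _

theorem bmem_chk_lt {i k : I} (h : i < k) : bmem (chk i : BSet D) (chk k) = ⊤ := by
  rw [bmem_chk_aux, eq_top_iff]
  refine le_trans ?_ (le_iSup (fun k' : {k' : I // k' < k} => beq (chk i : BSet D) (chk k'.1)) ⟨i, h⟩)
  rw [beq_refl]

theorem chk_ne_aux {i k : I} (h : i < k) : beq (chk i : BSet D) (chk k) = ⊥ := by
  rw [eq_bot_iff, ← bmem_irr (chk i : BSet D)]
  have h1 := bmem_congr_right (chk i : BSet D) (chk k) (chk i)
  rw [bmem_chk_lt h, inf_top_eq, beq_symm] at h1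
  exact h1

theorem chk_ne (i k : I) (h : i ≠ k) : beq (chk i : BSet D) (chk k) = ⊥ := by
  rcases lt_or_gt_of_ne h with h | h
  · exact chk_ne_aux h
  · rw [beq_symm]
    exact chk_ne_aux h

theorem bmem_chk (x : BSet D) (i : I) : bmem x (chk i) = ⨆ k : {k : I // k < i}, beq x (chk k.1) :=
  bmem_chk_aux x i

end BSet

variable {U : Ultrafilter I}

/-- The image of an internal relation. -/
def bJ (hl : IsUlt lam) (U : Ultrafilter I) (e : (I → D) → D) (S : Rel (BX hl)) : Rel (BX hl) :=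
  fun v => ∃ R, ExtR R ∧ S = rel hl R ∧ rel hl (JR U e R) v

/-- The embedding. -/
noncomputable def bj (hl : IsUlt lam) (U : Ultrafilter I) (e : (I → D) → D) (x : BX hl) : BX hl :=
  toX hl (col U e fun _ => x.rep)

/-- The target of the embedding. -/
def bJN (hl : IsUlt lam) (U : Ultrafilter I) (e : (I → D) → D) (x : BX hl) : Prop :=
  ∃ t : I → BSet D, x = toX hl (col U e t)

variable {e : (I → D) → D}

/-! ### Auxiliary facts on the ultrafilter and the homomorphism -/

section aux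

variable {D : Type u} [CompleteBooleanAlgebra D] {lam : D → Prop}

theorem bf_lam_inf (hl : IsUlt lam) {a b : D} (ha : lam a) (hb : lam b) : lam (a ⊓ b) := by
  have h := hl.iInf (fun n => if n = 0 then a else b) (fun n => by
    by_cases h : n = 0
    · simp only [h, if_true]; exact ha
    · simp only [h, if_false]; exact hb)
  refine hl.mono (le_inf ?_ ?_) h
  · have := iInf_le (fun n : ℕ => if n = 0 then a else b) 0
    simpa using this
  · have := iInf_le (fun n : ℕ => if n = 0 then a else b) 1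
    simpa using this

theorem bf_lam_compl (hl : IsUlt lam) {a : D} : lam aᶜ ↔ ¬ lam a := by
  constructor
  · intro h h'
    have := bf_lam_inf hl h' h
    rw [inf_compl_self] at this
    exact hl.bot this
  · intro h
    exact (hl.compl a).resolve_left h

theorem bf_lam_iInf (hl : IsUlt lam) {a : ℕ → D} : lam (⨅ n, a n) ↔ ∀ n, lam (a n) :=
  ⟨fun h n => hl.mono (iInf_le _ n) h, hl.iInf a⟩

theorem bf_lam_biimp (hl : IsUlt lam) {a b : D} (h : lam a ↔ lam b) : lam (biimp a b) := by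
  unfold biimp
  by_cases ha : lam a
  · exact bf_lam_inf hl (hl.mono le_sup_right (h.1 ha)) (hl.mono le_sup_right ha)
  · have hb : ¬ lam b := fun hb => ha (h.2 hb)
    exact bf_lam_inf hl (hl.mono le_sup_left ((bf_lam_compl hl).2 ha))
      (hl.mono le_sup_left ((bf_lam_compl hl).2 hb))

theorem bf_biimp_inf_le (a b : D) : biimp a b ⊓ a ≤ b := by
  unfold biimp
  calc (aᶜ ⊔ b) ⊓ (bᶜ ⊔ a) ⊓ a ≤ (aᶜ ⊔ b) ⊓ a := inf_le_inf_right _ inf_le_left
    _ = (aᶜ ⊓ a) ⊔ (b ⊓ a) := inf_sup_right _ _ _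
    _ ≤ b := by rw [compl_inf_self, bot_sup_eq]; exact inf_le_left

theorem bf_biimp_symm (a b : D) : biimp a b = biimp b a := by
  unfold biimp
  exact inf_comm _ _

theorem bf_iInf_beq_symm (v w : ℕ → BSet D) : (⨅ n, beq (v n) (w n)) = ⨅ n, beq (w n) (v n) :=
  iInf_congr fun n => beq_symm _ _

theorem bf_ext_compl {R : (ℕ → BSet D) → D} (hR : ExtR R) : ExtR (fun v => (R v)ᶜ) := by
  intro v w
  rw [le_compl_iff_disjoint_right, disjoint_iff_inf_le]
  have h := hR w v
  rw [← bf_iInf_beq_symm] at h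
  calc (⨅ n, beq (v n) (w n)) ⊓ (R v)ᶜ ⊓ R w = ((⨅ n, beq (v n) (w n)) ⊓ R w) ⊓ (R v)ᶜ := by
        rw [inf_assoc, inf_comm (R v)ᶜ, ← inf_assoc]
    _ ≤ R v ⊓ (R v)ᶜ := inf_le_inf_right _ h
    _ ≤ ⊥ := by rw [inf_compl_self]

theorem bf_ext_sup {R S : (ℕ → BSet D) → D} (hR : ExtR R) (hS : ExtR S) :
    ExtR (fun v => R v ⊔ S v) := by
  intro v w
  show _ ⊓ (R v ⊔ S v) ≤ R w ⊔ S w
  rw [inf_sup_left]
  exact sup_le_sup (hR v w) (hS v w)

theorem bf_ext_inf {R S : (ℕ → BSet D) → D} (hR : ExtR R) (hS : ExtR S) :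
    ExtR (fun v => R v ⊓ S v) := by
  intro v w
  show _ ⊓ (R v ⊓ S v) ≤ R w ⊓ S w
  refine le_inf (le_trans (inf_le_inf_left _ inf_le_left) (hR v w))
    (le_trans (inf_le_inf_left _ inf_le_right) (hS v w))

theorem bf_ext_iInf {R : ℕ → (ℕ → BSet D) → D} (hR : ∀ n, ExtR (R n)) :
    ExtR (fun v => ⨅ n, R n v) := by
  intro v w
  exact le_iInf fun n => le_trans (inf_le_inf_left _ (iInf_le _ n)) (hR n v w)

theorem bf_ext_biimp {R S : (ℕ → BSet D) → D} (hR : ExtR R) (hS : ExtR S) :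
    ExtR (fun v => biimp (R v) (S v)) :=
  bf_ext_inf (bf_ext_sup (bf_ext_compl hR) hS) (bf_ext_sup (bf_ext_compl hS) hR)

theorem bf_le_cons (x : BSet D) (v w : ℕ → BSet D) :
    (⨅ n, beq (v n) (w n)) ≤ ⨅ n, beq (cons x v n) (cons x w n) := by
  refine le_iInf fun n => ?_
  cases n with
  | zero => rw [cons_zero, cons_zero, beq_refl]; exact le_top
  | succ n => exact iInf_le (fun n => beq (v n) (w n)) n

theorem bf_ext_cons {R : (ℕ → BSet D) → D} (hR : ExtR R) (x : BSet D) :
    ExtR (fun v => R (cons x v)) := by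
  intro v w
  exact le_trans (inf_le_inf_right _ (bf_le_cons x v w)) (hR _ _)

theorem bf_ext_ex {R : (ℕ → BSet D) → D} (hR : ExtR R) : ExtR (fun v => ⨆ x, R (cons x v)) := by
  intro v w
  show _ ⊓ (⨆ x, R (cons x v)) ≤ ⨆ x, R (cons x w)
  rw [inf_iSup_eq]
  exact iSup_mono fun x => bf_ext_cons hR x v w

theorem bf_ext1_cons {R : (ℕ → BSet D) → D} (hR : ExtR R) (v : ℕ → BSet D) :
    Ext1 (fun x => R (cons x v)) := by
  intro x y
  refine le_trans (inf_le_inf_right _ ?_) (hR (cons x v) (cons y v))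
  refine le_iInf fun n => ?_
  cases n with
  | zero => exact le_rfl
  | succ n => rw [cons_succ, cons_succ, beq_refl]; exact le_top

theorem bf_ext_re {R : (ℕ → BSet D) → D} (hR : ExtR R) (σ : ℕ → ℕ) :
    ExtR (fun v => R fun n => v (σ n)) := by
  intro v w
  refine le_trans (inf_le_inf_right _ ?_) (hR _ _)
  exact le_iInf fun n => iInf_le (fun n => beq (v n) (w n)) (σ n)

theorem bf_ext_beq : ExtR (fun v : ℕ → BSet D => beq (v 0) (v 1)) := by
  intro v w
  show _ ⊓ beq (v 0) (v 1) ≤ beq (w 0) (w 1)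
  have h0 : (⨅ n, beq (v n) (w n)) ≤ beq (w 0) (v 0) := by
    rw [beq_symm]; exact iInf_le (fun n => beq (v n) (w n)) 0
  have h1 : (⨅ n, beq (v n) (w n)) ≤ beq (v 1) (w 1) := iInf_le (fun n => beq (v n) (w n)) 1
  refine le_trans (le_inf (le_trans (le_inf (le_trans inf_le_left h0) inf_le_right)
    (beq_trans (w 0) (v 0) (v 1))) (le_trans inf_le_left h1)) (beq_trans (w 0) (v 1) (w 1))

theorem bf_ext_bmem : ExtR (fun v : ℕ → BSet D => bmem (v 0) (v 1)) := by
  intro v w
  show _ ⊓ bmem (v 0) (v 1) ≤ bmem (w 0) (w 1)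
  have h0 : (⨅ n, beq (v n) (w n)) ≤ beq (v 0) (w 0) := iInf_le (fun n => beq (v n) (w n)) 0
  have h1 : (⨅ n, beq (v n) (w n)) ≤ beq (v 1) (w 1) := iInf_le (fun n => beq (v n) (w n)) 1
  refine le_trans (le_inf (le_trans inf_le_left h1) (le_trans (inf_le_inf_right _ h0)
    (bmem_congr_left (v 0) (w 0) (v 1)))) (bmem_congr_right (w 0) (v 1) (w 1))

end aux

section aux2

variable {D : Type u} [CompleteBooleanAlgebra D] {I : Type u} {U : Ultrafilter I}
  {e : (I → D) → D}

theorem bf_mono (he : IsHom U e) {u v : I → D} (h : ∀ i, u i ≤ v i) : e u ≤ e v := by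
  have h1 : (fun i => u i ⊓ v i) = u := funext fun i => inf_eq_left.2 (h i)
  have h2 := he.inf u v
  rw [h1] at h2
  rw [h2]
  exact inf_le_right

theorem bf_beq_const (he : IsHom U e) (x y : BSet D) :
    beq (col U e fun _ => x) (col U e fun _ => y) = beq x y := by
  rw [beq_col he, he.const]

theorem bf_inJ_full (he : IsHom U e) (x : BSet D) :
    ∃ t : I → BSet D, inJ U e x ≤ beq x (col U e t) := by
  obtain ⟨κ, z, f, hz, hf, hs⟩ := refine_family (fun t : I → BSet D => beq x (col U e t))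
  have h1 : ∀ i : I, ∃ y : BSet D, ∀ a, z a ≤ beq y (f a i) := fun i =>
    mixing z hz (fun a => f a i)
  choose y hy using h1
  refine ⟨y, ?_⟩
  unfold inJ
  rw [hs]
  refine iSup_le fun a => ?_
  have h2 : z a ≤ beq (col U e (f a)) (col U e y) := by
    rw [beq_col he]
    calc z a = e (fun _ => z a) := (he.const _).symm
      _ ≤ _ := bf_mono he fun i => by rw [beq_symm]; exact hy i a
  exact le_trans (le_inf (hf a) h2) (beq_trans _ _ _)

end aux2

theorem rel_JR_congr (he : IsHom U e) {R S : (ℕ → BSet D) → D} (hR : ExtR R) (hS : ExtR S)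
    (h : rel hl R = rel hl S) : rel hl (JR U e R) = rel hl (JR U e S) := by
  obtain ⟨v0, hv0⟩ := fullR (fun v => (biimp (R v) (S v))ᶜ) (bf_ext_compl (bf_ext_biimp hR hS))
  have h0 : lam (biimp (R v0) (S v0)) := by
    refine bf_lam_biimp hl ?_
    rw [← rel_toX (hl := hl) hR v0, ← rel_toX (hl := hl) hS v0, h]
  have hle : ∀ v, biimp (R v0) (S v0) ≤ biimp (R v) (S v) := by
    intro v
    have h1 := le_iSup (fun v => (biimp (R v) (S v))ᶜ) v
    rw [hv0] at h1
    exact compl_le_compl_iff_le.1 h1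
  have h1 : ∀ v, biimp (R v0) (S v0) ⊓ R v ≤ S v := fun v =>
    le_trans (inf_le_inf_right _ (hle v)) (bf_biimp_inf_le _ _)
  have h2 : ∀ v, biimp (R v0) (S v0) ⊓ S v ≤ R v := fun v =>
    le_trans (inf_le_inf_right _ (hle v)) (by rw [bf_biimp_symm]; exact bf_biimp_inf_le _ _)
  funext v
  refine propext ⟨fun hv => ?_, fun hv => ?_⟩
  · exact hl.mono (JR_congr he _ h1 _) (bf_lam_inf hl h0 hv)
  · exact hl.mono (JR_congr he _ h2 _) (bf_lam_inf hl h0 hv)

theorem bJ_rel (he : IsHom U e) {R : (ℕ → BSet D) → D} (hR : ExtR R) :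
    bJ hl U e (rel hl R) = rel hl (JR U e R) := by
  funext v
  refine propext ⟨?_, fun hv => ⟨R, hR, rfl, hv⟩⟩
  rintro ⟨S, hS, hRS, hv⟩
  rw [rel_JR_congr he hR hS hRS]
  exact hv

theorem bJ_col (he : IsHom U e) {R : (ℕ → BSet D) → D} (hR : ExtR R) (t : ℕ → I → BSet D) :
    bJ hl U e (rel hl R) (fun n => toX hl (col U e (t n))) ↔ lam (e fun i => R fun n => t n i) := by
  rw [bJ_rel he hR, rel_toX (JR_ext U e R), JR_col he hR]

theorem bj_toX (he : IsHom U e) (x : BSet D) : bj hl U e (toX hl x) = toX hl (col U e fun _ => x) := by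
  unfold bj
  rw [toX_eq, bf_beq_const he]
  exact toX_eq.1 (toX_rep (toX hl x))

theorem bJN_toX (he : IsHom U e) (x : BSet D) : bJN hl U e (toX hl x) ↔ lam (inJ U e x) := by
  constructor
  · rintro ⟨t, ht⟩
    refine hl.mono ?_ (toX_eq.1 ht)
    exact le_iSup (fun t : I → BSet D => beq x (col U e t)) t
  · intro h
    obtain ⟨t, ht⟩ := bf_inJ_full he x
    exact ⟨t, toX_eq.2 (hl.mono ht h)⟩

/-! ### The fields of the functor -/

theorem bf_supp {S : Rel (BX hl)} {v : ℕ → BX hl} (he : IsHom U e) (hS : BCl hl S)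
    (hv : bJ hl U e S v) (n : ℕ) : bJN hl U e (v n) := by
  obtain ⟨R, hR, rfl⟩ := hS
  rw [bJ_rel he hR] at hv
  rw [← toX_rep (v n), bJN_toX he]
  refine hl.mono ?_ hv
  unfold JR
  refine iSup_le fun t => le_trans inf_le_left (le_trans (iInf_le _ n) ?_)
  exact le_iSup (fun t : I → BSet D => beq (v n).rep (col U e t)) (t n)

theorem bf_trans (he : IsHom U e) {x z : BX hl} (hx : bJN hl U e x) (hz : BE hl z x) :
    bJN hl U e z := by
  obtain ⟨t, rfl⟩ := hx
  rw [← toX_rep z] at hz ⊢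
  rw [bJN_toX he]
  exact hl.mono (bmem_col_le he _ _) (BE_toX.1 hz)

theorem bf_rep {v : ℕ → BX hl} (hv : ∀ n, bJN hl U e (v n)) :
    ∃ t : ℕ → I → BSet D, v = fun n => toX hl (col U e (t n)) := by
  choose t ht using hv
  exact ⟨t, funext ht⟩

theorem bf_rel_not (hl : IsUlt lam) (R : (ℕ → BSet D) → D) :
    (fun v => ¬ rel hl R v) = rel hl (fun v => (R v)ᶜ) :=
  funext fun v => propext (bf_lam_compl hl).symm

theorem bf_rel_all (hl : IsUlt lam) (R : ℕ → (ℕ → BSet D) → D) :
    (fun v => ∀ n, rel hl (R n) v) = rel hl (fun v => ⨅ n, R n v) :=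
  funext fun v => propext (bf_lam_iInf hl).symm

theorem bf_rel_cons (R : (ℕ → BSet D) → D) (x : BX hl) (v : ℕ → BX hl) :
    rel hl R (cons x v) ↔ lam (R (cons x.rep fun n => (v n).rep)) := by
  unfold rel
  rw [comp_cons BX.rep x v]

theorem bf_rel_ex (hl : IsUlt lam) {R : (ℕ → BSet D) → D} (hR : ExtR R) :
    (fun v => ∃ x, rel hl R (cons x v)) = rel hl (fun v => ⨆ x, R (cons x v)) := by
  funext v
  refine propext ⟨?_, fun h => ?_⟩
  · rintro ⟨x, hx⟩
    rw [bf_rel_cons] at hx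
    exact hl.mono (le_iSup (fun x => R (cons x fun n => (v n).rep)) _) hx
  · obtain ⟨x, hx⟩ := full1 _ (bf_ext1_cons hR fun n => (v n).rep)
    refine ⟨toX hl x, ?_⟩
    have h1 : lam (R (cons x fun n => (v n).rep)) := by
      rw [← hx]; exact h
    have h2 : (cons (toX hl x) v) = fun n => toX hl (cons x (fun n => (v n).rep) n) := by
      rw [comp_cons (toX hl)]
      congr 1
      funext n
      exact (toX_rep _).symm
    rw [h2, rel_toX hR]
    exact h1

theorem bf_cons_col (x : I → BSet D) (t : ℕ → I → BSet D) :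
    (cons (toX hl (col U e x)) fun n => toX hl (col U e (t n))) =
      fun n => toX hl (col U e (cons x t n)) :=
  (comp_cons (fun y => toX hl (col U e y)) x t).symm

theorem bf_cons_app (x : I → BSet D) (t : ℕ → I → BSet D) (i : I) :
    (fun n => cons x t n i) = cons (x i) fun n => t n i :=
  comp_cons (fun y : I → BSet D => y i) x t

theorem bf_J_not {S : Rel (BX hl)} {v : ℕ → BX hl} (he : IsHom U e) (hS : BCl hl S)
    (hv : ∀ n, bJN hl U e (v n)) : bJ hl U e (fun v => ¬ S v) v ↔ ¬ bJ hl U e S v := by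
  obtain ⟨R, hR, rfl⟩ := hS
  obtain ⟨t, rfl⟩ := bf_rep hv
  rw [bf_rel_not hl R, bJ_col he (bf_ext_compl hR), bJ_col he hR, ← bf_lam_compl hl, he.compl]

theorem bf_J_all {S : ℕ → Rel (BX hl)} {v : ℕ → BX hl} (he : IsHom U e)
    (hS : ∀ n, BCl hl (S n)) (hv : ∀ n, bJN hl U e (v n)) :
    bJ hl U e (fun v => ∀ n, S n v) v ↔ ∀ n, bJ hl U e (S n) v := by
  choose R hR hRS using hS
  obtain rfl : S = fun n => rel hl (R n) := funext hRS
  obtain ⟨t, rfl⟩ := bf_rep hv
  rw [bf_rel_all hl R, bJ_col he (bf_ext_iInf hR), he.iInf, bf_lam_iInf hl]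
  exact forall_congr' fun n => (bJ_col he (hR n) t).symm

theorem bf_J_ex {S : Rel (BX hl)} {v : ℕ → BX hl} (he : IsHom U e) (hS : BCl hl S)
    (hv : ∀ n, bJN hl U e (v n)) : bJ hl U e (fun v => ∃ x, S (cons x v)) v ↔
      ∃ x, bJN hl U e x ∧ bJ hl U e S (cons x v) := by
  obtain ⟨R, hR, rfl⟩ := hS
  obtain ⟨t, rfl⟩ := bf_rep hv
  rw [bf_rel_ex hl hR, bJ_col he (bf_ext_ex hR)]
  constructor
  · intro h
    have h1 : ∀ i : I, ∃ x, (⨆ y, R (cons y fun n => t n i)) = R (cons x fun n => t n i) :=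
      fun i => full1 _ (bf_ext1_cons hR fun n => t n i)
    choose x hx using h1
    refine ⟨toX hl (col U e x), ⟨x, rfl⟩, ?_⟩
    rw [bf_cons_col, bJ_col he hR]
    have h2 : (fun i => ⨆ y, R (cons y fun n => t n i)) = fun i => R fun n => cons x t n i := by
      funext i
      rw [hx i, bf_cons_app]
    rw [← h2]
    exact h
  · rintro ⟨_, ⟨x, rfl⟩, h⟩
    rw [bf_cons_col, bJ_col he hR] at h
    refine hl.mono (bf_mono he fun i => ?_) h
    rw [bf_cons_app]
    exact le_iSup (fun y => R (cons y fun n => t n i)) (x i)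

theorem bf_J_re {S : Rel (BX hl)} {v : ℕ → BX hl} (he : IsHom U e) (hS : BCl hl S) (σ : ℕ → ℕ)
    (hv : ∀ n, bJN hl U e (v n)) : bJ hl U e (fun v => S (fun n => v (σ n))) v ↔
      bJ hl U e S (fun n => v (σ n)) := by
  obtain ⟨R, hR, rfl⟩ := hS
  obtain ⟨t, rfl⟩ := bf_rep hv
  have h1 : (fun v : ℕ → BX hl => rel hl R fun n => v (σ n)) =
      rel hl (fun v => R fun n => v (σ n)) := rfl
  rw [h1, bJ_col he (bf_ext_re hR σ), bJ_col he hR (fun n => t (σ n))]

theorem bf_J_par {S : Rel (BX hl)} {v : ℕ → BX hl} (he : IsHom U e) (hS : BCl hl S) (p : BX hl)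
    (hv : ∀ n, bJN hl U e (v n)) : bJ hl U e (fun v => S (cons p v)) v ↔
      bJ hl U e S (cons (bj hl U e p) v) := by
  obtain ⟨R, hR, rfl⟩ := hS
  obtain ⟨t, rfl⟩ := bf_rep hv
  have h1 : (fun v : ℕ → BX hl => rel hl R (cons p v)) =
      rel hl (fun v => R (cons p.rep v)) := by
    funext v
    exact propext (bf_rel_cons R p v)
  unfold bj
  rw [h1, bJ_col he (bf_ext_cons hR _), bf_cons_col, bJ_col he hR]
  simp only [bf_cons_app]

theorem bf_J_emb {S : Rel (BX hl)} {v : ℕ → BX hl} (he : IsHom U e) (hS : BCl hl S) :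
    S v ↔ bJ hl U e S (fun n => bj hl U e (v n)) := by
  obtain ⟨R, hR, rfl⟩ := hS
  unfold bj
  rw [bJ_col he hR (fun n _ => (v n).rep), he.const]
  rfl

theorem bf_rel_eq (hl : IsUlt lam) :
    (fun v : ℕ → BX hl => v 0 = v 1) = rel hl (fun v => beq (v 0) (v 1)) := by
  funext v
  refine propext ?_
  have h : (v 0 = v 1) ↔ lam (beq (v 0).rep (v 1).rep) := by
    rw [← toX_eq (hl := hl), toX_rep, toX_rep]
  exact h

theorem bf_J_eq {v : ℕ → BX hl} (he : IsHom U e) (hv : ∀ n, bJN hl U e (v n)) :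
    bJ hl U e (fun v => v 0 = v 1) v ↔ v 0 = v 1 := by
  obtain ⟨t, rfl⟩ := bf_rep hv
  rw [bf_rel_eq hl, bJ_col he bf_ext_beq]
  rw [toX_eq, beq_col he]

theorem bf_J_mem {v : ℕ → BX hl} (he : IsHom U e) (hv : ∀ n, bJN hl U e (v n)) :
    bJ hl U e (fun v => BE hl (v 0) (v 1)) v ↔ BE hl (v 0) (v 1) := by
  obtain ⟨t, rfl⟩ := bf_rep hv
  have h1 : (fun v : ℕ → BX hl => BE hl (v 0) (v 1)) = rel hl (fun v => bmem (v 0) (v 1)) := rfl
  rw [h1, bJ_col he bf_ext_bmem]
  rw [BE_toX, bmem_col he]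

theorem bf_cl_jsub {S : Rel (BX hl)} (he : IsHom U e) (hS : BCl hl S) (A : ℕ → Bool) :
    BCl hl (fun v => S (fun n => if A n then bj hl U e (v n) else v n)) := by
  obtain ⟨R, hR, rfl⟩ := hS
  refine ⟨fun v => R fun n => if A n then col U e (fun _ => v n) else v n, ?_, ?_⟩
  · intro v w
    refine le_trans (inf_le_inf_right _ ?_) (hR _ _)
    refine le_iInf fun n => le_trans (iInf_le _ n) ?_
    by_cases h : A n = true
    · simp only [h, if_true]
      rw [bf_beq_const he]
    · simp only [h, if_false]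
      exact le_rfl
  · funext v
    refine propext ?_
    have h1 : (fun n => if A n then bj hl U e (v n) else v n) =
        fun n => toX hl (if A n then col U e (fun _ => (v n).rep) else (v n).rep) := by
      funext n
      by_cases h : A n = true
      · simp only [h, if_true]
        rfl
      · simp only [h, if_false]
        exact (toX_rep _).symm
    rw [h1, rel_toX hR]
    rfl

theorem bf_gen {y : BX hl} (he : IsHom U e) (hy : bJN hl U e y) :
    ∃ f, bJ hl U e (fun v => Ap (BE hl) (v 0) (v 1) (v 2))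
      (seq3 (bj hl U e f) (toX hl (col U e chk)) y) := by
  obtain ⟨t, rfl⟩ := hy
  refine ⟨toX hl (funB chk t), ?_⟩
  have h1 : seq3 (bj hl U e (toX hl (funB chk t))) (toX hl (col U e chk)) (toX hl (col U e t)) =
      fun n => toX hl (col U e (cons (fun _ => funB chk t) (cons chk fun _ => t) n)) := by
    rw [bj_toX he]
    unfold seq3
    rw [← bf_cons_col, ← bf_cons_col]
  rw [ap_rel, h1, bJ_col he apB_ext]
  have h2 : (fun i => apB (cons (fun _ => funB chk t) (cons chk fun _ => t) 0 i)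
      (cons (fun _ => funB chk t) (cons chk fun _ => t) 1 i)
      (cons (fun _ : I => funB chk t) (cons chk fun _ => t) 2 i)) = fun _ => (⊤ : D) := by
    funext i
    exact apB_funB chk t (fun i k h => chk_ne i k h) i
  have h3 : lam (e fun i => apB (cons (fun _ => funB chk t) (cons chk fun _ => t) 0 i)
      (cons (fun _ => funB chk t) (cons chk fun _ => t) 1 i)
      (cons (fun _ : I => funB chk t) (cons chk fun _ => t) 2 i)) := by
    rw [h2, he.const]
    exact hl.top
  exact h3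

/-- The functor. -/
noncomputable def bfun (hl : IsUlt lam) (he : IsHom U e) : Functor' (bframe hl) where
  J := bJ hl U e
  j := bj hl U e
  s := toX hl (col U e chk)
  JN := bJN hl U e
  cl_J := by
    rintro _ ⟨R, hR, rfl⟩
    exact ⟨JR U e R, JR_ext U e R, bJ_rel he hR⟩
  cl_jsub := by
    intro R hR A
    exact bf_cl_jsub he hR A
  supp := by
    intro R v hR hv n
    exact bf_supp he hR hv n
  j_JN := by
    intro x
    exact ⟨_, rfl⟩
  s_JN := by
    exact ⟨_, rfl⟩
  trans := by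
    intro x z hx hz
    exact bf_trans he hx hz
  J_not := by
    intro R v hR hv
    exact bf_J_not he hR hv
  J_all := by
    intro R v hR hv
    exact bf_J_all he hR hv
  J_ex := by
    intro R v hR hv
    exact bf_J_ex he hR hv
  J_re := by
    intro R v hR σ hv
    exact bf_J_re he hR σ hv
  J_par := by
    intro R v hR p hv
    exact bf_J_par he hR p hv
  J_emb := by
    intro R v hR
    exact bf_J_emb he hR
  J_eq := by
    intro v hv
    exact bf_J_eq he hv
  J_mem := by
    intro v hv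
    exact bf_J_mem he hv
  gen := by
    intro y hy
    exact bf_gen he hy

end IM
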