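import Pool.Agent.W_MP_0bf392_lc.BFun
import Pool.Agent.W_MP_0bf392_lc.Ord

/-!
# The two embeddings agree on the ordinals
-/

universe u v

namespace IM

open BSet

variable {D : Type u} [CompleteBooleanAlgebra D] {lam : D → Prop} {hl : IsUlt lam}
variable {I : Type u} [LinearOrder I] [WellFoundedLT I] {U : Ultrafilter I}
variable {e : Bool → (I → D) → D}

namespace BSet

/-- The name of the ordinal `o`. -/
noncomputable def ordB : Ordinal.{u} → BSet D :=
  WellFounded.fix (C := fun _ => BSet D) (wellFounded_lt (α := Ordinal.{u}))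
    (fun o ih => mk o.ToType (fun k => ih k.toOrd.1 k.toOrd.2) fun _ => ⊤)

theorem ordB_eq (o : Ordinal.{u}) : (ordB o : BSet D) =
    mk o.ToType (fun k => ordB k.toOrd.1) fun _ => ⊤ := by
  unfold ordB
  rw [WellFounded.fix_eq]

/-! ### Membership and rank comparison for the names of ordinals -/

theorem bo_toOrd {o l : Ordinal.{u}} (h : l < o) :
    ((Ordinal.ToType.mk ⟨l, h⟩ : o.ToType).toOrd : Set.Iio o).1 = l := by
  simp [Ordinal.ToType.toOrd]

theorem bo_bmem (x : BSet D) (o : Ordinal.{u}) :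
    bmem x (ordB o) = ⨆ k : o.ToType, beq x (ordB k.toOrd.1) := by
  rw [ordB_eq o]
  apply le_antisymm
  · exact iSup_mono fun k => inf_le_right
  · exact iSup_mono fun k => le_inf le_top le_rfl

theorem bo_bmem_mono (x : BSet D) {k o : Ordinal.{u}} (h : k ≤ o) :
    bmem x (ordB k) ≤ bmem x (ordB o) := by
  rw [bo_bmem, bo_bmem]
  refine iSup_le fun l => ?_
  have hl : (l.toOrd : Set.Iio k).1 < o := lt_of_lt_of_le l.toOrd.2 h
  refine le_iSup_of_le (Ordinal.ToType.mk ⟨(l.toOrd : Set.Iio k).1, hl⟩ : o.ToType) ?_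
  rw [bo_toOrd]

theorem bo_rkl (x : BSet D) (o : Ordinal.{u}) :
    rkl x (ordB o) = ⨆ k : o.ToType, (rkl (ordB k.toOrd.1) x)ᶜ := by
  rw [rkl_eq, ordB_eq o]
  change (⨆ b : o.ToType, (⊤ : D) ⊓ (rkl (ordB b.toOrd.1) x)ᶜ) = _
  exact iSup_congr fun k => top_inf_eq _

theorem bo_compl_le_rkl (x : BSet D) {k o : Ordinal.{u}} (h : k < o) :
    (rkl (ordB k) x)ᶜ ≤ rkl x (ordB o) := by
  rw [bo_rkl]
  refine le_iSup_of_le (Ordinal.ToType.mk ⟨k, h⟩ : o.ToType) ?_
  rw [bo_toOrd]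

/-- Every Boolean-valued set has rank at most some check ordinal, with truth value `⊤`. -/
theorem bo_bound (x : BSet D) : ∃ θ : Ordinal.{u}, rkl (ordB θ) x = ⊥ := by
  induction x with
  | mk α A B ih =>
    choose θ hθ using ih
    refine ⟨⨆ a : α, Order.succ (θ a), ?_⟩
    rw [rkl_eq, iSup_eq_bot]
    intro a
    change B a ⊓ (rkl (A a) (ordB (⨆ a : α, Order.succ (θ a))))ᶜ = ⊥
    have h1 : θ a < ⨆ a : α, Order.succ (θ a) :=
      lt_of_lt_of_le (Order.lt_succ (θ a)) (Ordinal.le_iSup (fun a => Order.succ (θ a)) a)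
    have h2 := bo_compl_le_rkl (A a) h1
    rw [hθ a, compl_bot, top_le_iff] at h2
    rw [h2, compl_top, inf_bot_eq]

/-- Every Boolean-valued set has the rank of a check ordinal with truth value `⊤`. -/
theorem rank_ordB (x : BSet D) : ∃ θ : Ordinal.{u},
    (⨆ k : θ.ToType, (rkl x (ordB k.toOrd.1))ᶜ ⊓ (rkl (ordB k.toOrd.1) x)ᶜ) = ⊤ := by
  obtain ⟨θ, hθ⟩ := bo_bound x
  refine ⟨Order.succ θ, ?_⟩
  set s : D := ⨆ k : (Order.succ θ).ToType, (rkl x (ordB k.toOrd.1))ᶜ ⊓ (rkl (ordB k.toOrd.1) x)ᶜ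
    with hs
  have key : ∀ k : Ordinal.{u}, k ≤ θ → sᶜ ≤ rkl (ordB k) x := by
    intro k
    induction k using WellFoundedLT.induction with
    | ind k ih =>
      intro hk
      have h1 : (rkl x (ordB k))ᶜ ⊓ (rkl (ordB k) x)ᶜ ≤ s := by
        have hk' : k < Order.succ θ := Order.lt_succ_of_le hk
        rw [hs]
        refine le_iSup_of_le (Ordinal.ToType.mk ⟨k, hk'⟩ : (Order.succ θ).ToType) ?_
        rw [bo_toOrd]
      have h2 : sᶜ ⊓ rkl x (ordB k) = ⊥ := by
        rw [bo_rkl, inf_iSup_eq, iSup_eq_bot]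
        intro l
        have h3 := ih l.toOrd.1 l.toOrd.2 (le_trans (le_of_lt l.toOrd.2) hk)
        exact le_bot_iff.1 ((inf_le_inf_right _ h3).trans inf_compl_eq_bot.le)
      have h4 : sᶜ ≤ rkl x (ordB k) ⊔ rkl (ordB k) x := by
        have h5 := compl_le_compl h1
        rwa [compl_inf, compl_compl, compl_compl] at h5
      have h6 : sᶜ ≤ sᶜ ⊓ (rkl x (ordB k) ⊔ rkl (ordB k) x) := le_inf le_rfl h4
      rw [inf_sup_left, h2, bot_sup_eq] at h6
      exact h6.trans inf_le_right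
  have h := key θ le_rfl
  rw [hθ, le_bot_iff, compl_eq_bot] at h
  exact h

/-- All weights are hereditarily in `D0`. -/
inductive HD (D0 : Set D) : BSet D → Prop
  | intro (x : BSet D) (hw : ∀ a, x.wt a ∈ D0) (hx : ∀ a, HD D0 (x.fn a)) : HD D0 x

theorem HD_ordB {D0 : Set D} (h : ⊤ ∈ D0) (o : Ordinal.{u}) : HD D0 (ordB o) := by
  induction o using WellFoundedLT.induction with
  | ind o ih =>
    rw [ordB_eq o]
    exact HD.intro _ (fun _ => h) fun k => ih k.toOrd.1 k.toOrd.2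

theorem bo_HD_emp {D0 : Set D} : HD D0 (emp D) :=
  HD.intro _ (fun a => PEmpty.elim a) fun a => PEmpty.elim a

theorem bo_HD_wt {D0 : Set D} {x : BSet D} (h : HD D0 x) (a : x.ty) : x.wt a ∈ D0 := by
  cases h with
  | intro _ hw _ => exact hw a

theorem bo_HD_fn {D0 : Set D} {x : BSet D} (h : HD D0 x) (a : x.ty) : HD D0 (x.fn a) := by
  cases h with
  | intro _ _ hx => exact hx a

theorem col_HD {D0 : Set D} (h0 : ⊥ ∈ D0)
    (h : ∀ u : I → D, (∀ i, u i ∈ D0) → e false u = e true u)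
    (hU : ∀ A : ℕ → Set I, (∀ n, A n ∈ U) → {i | ∀ n, i ∈ A n} ∈ U)
    (t : I → BSet D) (ht : ∀ i, HD D0 (t i)) : col U (e false) t = col U (e true) t := by
  induction t using (chAE_wf (D := D) hU).induction with
  | _ t ih =>
    rw [col_eq hU (e false) t, col_eq hU (e true) t]
    congr 1
    · funext f
      refine ih (sel f) (chAE_sel f) fun i => ?_
      unfold sel
      cases f.1 i with
      | none => exact bo_HD_emp
      | some a => exact bo_HD_fn (ht i) a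
    · funext f
      refine h _ fun i => ?_
      unfold selwt
      cases f.1 i with
      | none => exact h0
      | some a => exact bo_HD_wt (ht i) a

theorem bo_trans1 (y a b : BSet D) (k : Ordinal.{u}) :
    beq y (ordB k) ⊓ (bmem a y ⊓ bmem b a) ≤ bmem b y := by
  have h1 : beq y (ordB k) ⊓ (bmem a y ⊓ bmem b a) ≤ bmem a (ordB k) :=
    (inf_le_inf_left _ inf_le_left).trans (bmem_congr_right a y (ordB k))
  have h2 : bmem a (ordB k) ⊓ bmem b a ≤ bmem b (ordB k) := by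
    rw [bo_bmem a, iSup_inf_eq]
    refine iSup_le fun l => ?_
    exact (bmem_congr_right b a _).trans (bo_bmem_mono b (le_of_lt l.toOrd.2))
  have h3 : beq y (ordB k) ⊓ (bmem a y ⊓ bmem b a) ≤ bmem b (ordB k) :=
    (le_inf h1 (inf_le_right.trans inf_le_right)).trans h2
  have h4 := bmem_congr_right b (ordB k) y
  rw [beq_symm] at h4
  exact (le_inf inf_le_left h3).trans h4

theorem bo_trans2 (y a b c : BSet D) (k : Ordinal.{u}) :
    beq y (ordB k) ⊓ (bmem a y ⊓ (bmem b a ⊓ bmem c b)) ≤ bmem c a := by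
  have h1 : beq y (ordB k) ⊓ (bmem a y ⊓ (bmem b a ⊓ bmem c b)) ≤ bmem a (ordB k) :=
    (inf_le_inf_left _ inf_le_left).trans (bmem_congr_right a y (ordB k))
  have h2 : bmem a (ordB k) ⊓ (bmem b a ⊓ bmem c b) ≤ bmem c a := by
    rw [bo_bmem a, iSup_inf_eq]
    exact iSup_le fun l => bo_trans1 a b c _
  exact (le_inf h1 (inf_le_right.trans inf_le_right)).trans h2

end BSet

theorem bo_isOrd {A : Type u} (o : A → Ordinal.{u}) (y : BSet D)
    (h : lam (⨆ k, beq y (ordB (o k)))) : IsOrd (BE hl) (toX hl y) := by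
  constructor
  · intro a b ha hb
    rw [← toX_rep a] at ha hb
    rw [← toX_rep b] at hb ⊢
    rw [BE_toX] at ha hb ⊢
    refine hl.mono ?_ ((bf_ult_inf hl).2 ⟨h, (bf_ult_inf hl).2 ⟨ha, hb⟩⟩)
    rw [iSup_inf_eq]
    exact iSup_le fun k => bo_trans1 y _ _ _
  · intro a ha b c hb hc
    rw [← toX_rep a] at ha hb ⊢
    rw [← toX_rep b] at hb hc
    rw [← toX_rep c] at hc ⊢
    rw [BE_toX] at ha hb hc ⊢
    refine hl.mono ?_ ((bf_ult_inf hl).2 ⟨h, (bf_ult_inf hl).2 ⟨ha, (bf_ult_inf hl).2 ⟨hb, hc⟩⟩⟩)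
    rw [iSup_inf_eq]
    exact iSup_le fun k => bo_trans2 y _ _ _ _

theorem isOrd_ordB (o : Ordinal.{u}) : IsOrd (BE hl) (toX hl (ordB o)) := by
  refine bo_isOrd (A := PUnit.{u+1}) (fun _ => o) (ordB o) ?_
  refine hl.mono ?_ hl.top
  refine le_iSup_of_le PUnit.unit ?_
  rw [beq_refl]

/-- The mixture of the names of ordinals. -/
noncomputable def bo_mix {A : Type u} (o : A → Ordinal.{u}) (z : A → D) : BSet D :=
  mk (Σ k : A, (o k).ToType) (fun p => ordB p.2.toOrd.1) fun p => z p.1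

theorem bo_mix_le {A : Type u} (o : A → Ordinal.{u}) (z : A → D)
    (hz : ∀ a b, a ≠ b → z a ⊓ z b = ⊥) (k : A) : z k ≤ beq (bo_mix o z) (ordB (o k)) := by
  rw [le_beq_iff]
  constructor
  · intro x
    have h1 : bmem x (bo_mix o z) = ⨆ p : (Σ k : A, (o k).ToType), z p.1 ⊓ beq x (ordB p.2.toOrd.1) :=
      rfl
    rw [h1, inf_iSup_eq]
    refine iSup_le fun p => ?_
    by_cases hp : p.1 = k
    · obtain ⟨k', l⟩ := p
      simp only at hp
      subst hp
      rw [bo_bmem]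
      exact le_iSup_of_le l (inf_le_right.trans inf_le_right)
    · rw [← inf_assoc, hz k p.1 fun h => hp h.symm, bot_inf_eq]
      exact bot_le
  · intro x
    have h1 : bmem x (bo_mix o z) = ⨆ p : (Σ k : A, (o k).ToType), z p.1 ⊓ beq x (ordB p.2.toOrd.1) :=
      rfl
    rw [h1, bo_bmem, inf_iSup_eq]
    refine iSup_le fun l => ?_
    exact le_iSup_of_le (⟨k, l⟩ : Σ k : A, (o k).ToType) le_rfl

/-- Each ordinal of the quotient has a name with weights in `D0`. -/
theorem exists_HD {D0 : Set D} (h1 : ⊤ ∈ D0)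
    (h2 : ∀ (A : Type u) (u : A → D), lam (⨆ a, u a) → ∃ z : A → D, (∀ a, z a ∈ D0) ∧
      (∀ a b, a ≠ b → z a ⊓ z b = ⊥) ∧ lam (⨆ a, z a ⊓ u a))
    (x : BX hl) (hx : IsOrd (BE hl) x) : ∃ y : BSet D, HD D0 y ∧ x = toX hl y := by
  obtain ⟨θ, hθ⟩ := rank_ordB x.rep
  obtain ⟨z, hz0, hz1, hz2⟩ := h2 θ.ToType
    (fun k => (rkl x.rep (ordB k.toOrd.1))ᶜ ⊓ (rkl (ordB k.toOrd.1) x.rep)ᶜ)
    (by rw [hθ]; exact hl.top)
  set o : θ.ToType → Ordinal.{u} := fun k => k.toOrd.1 with ho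
  have hmix := bo_mix_le o z hz1
  have hHD : HD D0 (bo_mix o z) :=
    HD.intro _ (fun p => hz0 p.1) fun p => HD_ordB h1 _
  refine ⟨bo_mix o z, hHD, ?_⟩
  have hord : IsOrd (BE hl) (toX hl (bo_mix o z)) := by
    refine bo_isOrd o _ (hl.mono ?_ hz2)
    exact iSup_mono fun k => inf_le_left.trans (hmix k)
  have hr : lam ((rkl x.rep (bo_mix o z))ᶜ ⊓ (rkl (bo_mix o z) x.rep)ᶜ) := by
    refine hl.mono ?_ hz2
    refine iSup_le fun k => le_inf ?_ ?_
    · rw [le_compl_iff_disjoint_right, disjoint_iff]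
      refine le_bot_iff.1 ?_
      have h3 := rkl_congr_right x.rep (bo_mix o z) (ordB (o k))
      have h4 : z k ⊓ ((rkl x.rep (ordB k.toOrd.1))ᶜ ⊓ (rkl (ordB k.toOrd.1) x.rep)ᶜ) ⊓
          rkl x.rep (bo_mix o z) ≤ rkl x.rep (ordB (o k)) ⊓ (rkl x.rep (ordB (o k)))ᶜ := by
        refine le_inf (le_trans (le_inf ?_ inf_le_right) h3) ?_
        · exact (inf_le_left.trans inf_le_left).trans (hmix k)
        · exact inf_le_left.trans (inf_le_right.trans inf_le_left)
      exact h4.trans inf_compl_eq_bot.le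
    · rw [le_compl_iff_disjoint_right, disjoint_iff]
      refine le_bot_iff.1 ?_
      have h3 := rkl_congr_left (bo_mix o z) (ordB (o k)) x.rep
      have h4 : z k ⊓ ((rkl x.rep (ordB k.toOrd.1))ᶜ ⊓ (rkl (ordB k.toOrd.1) x.rep)ᶜ) ⊓
          rkl (bo_mix o z) x.rep ≤ rkl (ordB (o k)) x.rep ⊓ (rkl (ordB (o k)) x.rep)ᶜ := by
        refine le_inf (le_trans (le_inf ?_ inf_le_right) h3) ?_
        · exact (inf_le_left.trans inf_le_left).trans (hmix k)
        · exact inf_le_left.trans (inf_le_right.trans inf_le_right)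
      exact h4.trans inf_compl_eq_bot.le
  obtain ⟨hr1, hr2⟩ := (bf_ult_inf hl).1 hr
  have hr1' : ¬ BP hl x (toX hl (bo_mix o z)) := by
    rw [← toX_rep x, BP_toX]
    exact (bf_ult_compl hl).1 hr1
  have hr2' : ¬ BP hl (toX hl (bo_mix o z)) x := by
    rw [← toX_rep x, BP_toX]
    exact (bf_ult_compl hl).1 hr2
  have e1 : ¬ rnk (bframe hl) x < rnk (bframe hl) (toX hl (bo_mix o z)) := fun h =>
    hr1' ((P_rnk (F := bframe hl) _ _).2 h)
  have e2 : ¬ rnk (bframe hl) (toX hl (bo_mix o z)) < rnk (bframe hl) x := fun h =>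
    hr2' ((P_rnk (F := bframe hl) _ _).2 h)
  exact IsOrd.ext (F := bframe hl) hx hord (le_antisymm (not_lt.1 e2) (not_lt.1 e1))

theorem bj_ord (h : Data U lam e) (x : BX h.ult) (hx : IsOrd (BE h.ult) x) :
    bj h.ult U (e false) x = bj h.ult U (e true) x := by
  obtain ⟨D0, h1, h0, hD, h2⟩ := h.dec
  obtain ⟨y, hy, rfl⟩ := exists_HD (hl := h.ult) h1 h2 x hx
  rw [bj_toX (h.hom false), bj_toX (h.hom true)]
  rw [col_HD h0 hD (h.hom false).sigma (fun _ => y) fun _ => hy]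

end IM
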