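import Pool.Agent.W_MP_0bf392_lc.Mix
import Pool.Agent.W_MP_0bf392_lc.Frame

/-!
# The quotient of the Boolean-valued sets by a countably complete ultrafilter
-/

universe u v

namespace IM

open BSet

variable {D : Type u} [CompleteBooleanAlgebra D] {lam : D → Prop}

theorem IsUlt.iInf_iff (hl : IsUlt lam) (a : ℕ → D) : lam (⨅ n, a n) ↔ ∀ n, lam (a n) :=
  ⟨fun h n => hl.mono (iInf_le _ n) h, hl.iInf a⟩

theorem IsUlt.inf (hl : IsUlt lam) {a b : D} (ha : lam a) (hb : lam b) : lam (a ⊓ b) := by
  refine hl.mono ?_ (hl.iInf (fun n => if n = 0 then a else b) ?_)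
  · refine le_inf ?_ ?_
    · exact le_trans (iInf_le _ 0) (by simp)
    · exact le_trans (iInf_le _ 1) (by simp)
  · intro n
    by_cases hn : n = 0 <;> simp [hn, ha, hb]

theorem IsUlt.compl_iff (hl : IsUlt lam) (a : D) : lam aᶜ ↔ ¬ lam a := by
  constructor
  · intro h h'
    refine hl.bot (hl.mono ?_ (hl.inf h' h))
    rw [inf_compl_eq_bot]
  · intro h
    exact (hl.compl a).resolve_left h

/-- Equality modulo the ultrafilter. -/
def bsetoid (hl : IsUlt lam) : Setoid (BSet D) where
  r x y := lam (beq x y)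
  iseqv := by
    refine ⟨fun x => ?_, fun {x y} h => ?_, fun {x y z} h1 h2 => ?_⟩
    · rw [beq_refl]
      exact hl.top
    · rw [beq_symm]
      exact h
    · exact hl.mono (beq_trans x y z) (hl.inf h1 h2)

/-- The quotient. -/
def BX (hl : IsUlt lam) : Type (u + 1) := Quotient (bsetoid hl)

variable {hl : IsUlt lam}

/-- The class of a Boolean-valued set. -/
def toX (hl : IsUlt lam) (x : BSet D) : BX hl := Quotient.mk (bsetoid hl) x

/-- A representative. -/
noncomputable def BX.rep (x : BX hl) : BSet D := Quotient.out x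

theorem toX_rep (x : BX hl) : toX hl x.rep = x := Quotient.out_eq x

theorem toX_eq {x y : BSet D} : toX hl x = toX hl y ↔ lam (beq x y) := by
  constructor
  · intro h
    exact Quotient.exact (s := bsetoid hl) h
  · intro h
    exact Quotient.sound (s := bsetoid hl) h

theorem lam_rep (x : BSet D) : lam (beq (toX hl x).rep x) := by
  rw [← toX_eq (hl := hl)]
  exact toX_rep _

/-- The relation on the quotient given by a `D`-valued relation. -/
def rel (hl : IsUlt lam) (R : (ℕ → BSet D) → D) : Rel (BX hl) :=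
  fun v => lam (R fun n => (v n).rep)

theorem lam_ext (hl : IsUlt lam) {R : (ℕ → BSet D) → D} (hR : ExtR R) {v w : ℕ → BSet D}
    (h : ∀ n, lam (beq (v n) (w n))) (hv : lam (R v)) : lam (R w) :=
  hl.mono (hR v w) (hl.inf (hl.iInf _ h) hv)

theorem rel_toX {R : (ℕ → BSet D) → D} (hR : ExtR R) (v : ℕ → BSet D) :
    rel hl R (fun n => toX hl (v n)) ↔ lam (R v) := by
  constructor
  · intro h
    exact lam_ext hl hR (fun n => lam_rep (v n)) h
  · intro h
    refine lam_ext hl hR (fun n => ?_) h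
    rw [beq_symm]
    exact lam_rep (v n)

/-- Membership in the quotient. -/
def BE (hl : IsUlt lam) (x y : BX hl) : Prop := lam (bmem x.rep y.rep)

theorem extR_two {F : BSet D → BSet D → D} (h1 : ∀ x x' y, beq x x' ⊓ F x y ≤ F x' y)
    (h2 : ∀ x y y', beq y y' ⊓ F x y ≤ F x y') : ExtR (fun v => F (v 0) (v 1)) := by
  intro v w
  have e1 : (⨅ n, beq (v n) (w n)) ⊓ F (v 0) (v 1) ≤ F (w 0) (v 1) :=
    le_trans (inf_le_inf_right _ (iInf_le _ 0)) (h1 _ _ _)
  exact le_trans (le_inf (le_trans inf_le_left (iInf_le _ 1)) e1) (h2 _ _ _)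

theorem extR_mem : ExtR (fun v : ℕ → BSet D => bmem (v 0) (v 1)) :=
  extR_two bmem_congr_left bmem_congr_right

theorem extR_rkl : ExtR (fun v : ℕ → BSet D => rkl (v 0) (v 1)) :=
  extR_two rkl_congr_left rkl_congr_right

theorem extR_eq : ExtR (fun v : ℕ → BSet D => beq (v 0) (v 1)) := by
  refine extR_two (fun x x' y => ?_) (fun x y y' => ?_)
  · rw [beq_symm x x']
    exact beq_trans _ _ _
  · rw [inf_comm]
    exact beq_trans _ _ _

theorem BE_toX {x y : BSet D} : BE hl (toX hl x) (toX hl y) ↔ lam (bmem x y) :=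
  rel_toX extR_mem (cons x fun _ => y)

/-- Rank comparison in the quotient. -/
noncomputable def BP (hl : IsUlt lam) (x y : BX hl) : Prop := lam (rkl x.rep y.rep)

theorem BP_toX {x y : BSet D} : BP hl (toX hl x) (toX hl y) ↔ lam (rkl x y) :=
  rel_toX extR_rkl (cons x fun _ => y)

/-- The internal relations of the quotient. -/
def BCl (hl : IsUlt lam) (S : Rel (BX hl)) : Prop := ∃ R, ExtR R ∧ S = rel hl R

/-! ### Closure of the internal relations -/

theorem bcl_not {S : Rel (BX hl)} (h : BCl hl S) : BCl hl (fun v => ¬ S v) := by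
  obtain ⟨R, hR, rfl⟩ := h
  refine ⟨fun v => (R v)ᶜ, fun v w => ?_, ?_⟩
  · refine compl_step ?_
    have e : (⨅ n, beq (v n) (w n)) = ⨅ n, beq (w n) (v n) :=
      iInf_congr fun n => beq_symm _ _
    rw [e]
    exact hR w v
  · funext v
    exact propext (hl.compl_iff _).symm

theorem bcl_all {S : ℕ → Rel (BX hl)} (h : ∀ n, BCl hl (S n)) : BCl hl (fun v => ∀ n, S n v) := by
  choose R hR hS using h
  refine ⟨fun v => ⨅ n, R n v, fun v w => ?_, ?_⟩
  · refine le_iInf fun n => ?_
    exact le_trans (inf_le_inf_left _ (iInf_le _ n)) (hR n v w)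
  · funext v
    refine propext ?_
    rw [show rel hl (fun v => ⨅ n, R n v) v ↔ ∀ n, rel hl (R n) v from hl.iInf_iff _]
    simp only [hS]

theorem bcl_ex {S : Rel (BX hl)} (h : BCl hl S) : BCl hl (fun v => ∃ x, S (cons x v)) := by
  obtain ⟨R, hR, rfl⟩ := h
  have hcons : ∀ (x y : BSet D) (v w : ℕ → BSet D),
      beq x y ⊓ (⨅ n, beq (v n) (w n)) ≤ ⨅ n, beq (cons x v n) (cons y w n) := by
    intro x y v w
    refine le_iInf fun n => ?_
    rcases n with _ | n
    · exact inf_le_left
    · exact le_trans inf_le_right (iInf_le _ n)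
  refine ⟨fun v => ⨆ x, R (cons x v), fun v w => ?_, ?_⟩
  · rw [inf_iSup_eq]
    refine iSup_mono fun x => ?_
    refine le_trans (inf_le_inf_right _ ?_) (hR (cons x v) (cons x w))
    refine le_trans (le_inf ?_ le_rfl) (hcons x x v w)
    rw [beq_refl]
    exact le_top
  · funext v
    refine propext ⟨?_, ?_⟩
    · rintro ⟨x, hx⟩
      refine hl.mono (le_iSup _ x.rep) ?_
      have hx' : lam (R fun n => (cons x v n).rep) := hx
      rwa [comp_cons (fun z : BX hl => z.rep)] at hx'
    · intro hx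
      obtain ⟨x, hx'⟩ := full1 (fun x => R (cons x fun n => (v n).rep)) (by
        intro x y
        refine le_trans (inf_le_inf_right _ ?_) (hR (cons x _) (cons y _))
        refine le_trans (le_inf le_rfl ?_) (hcons x y _ _)
        refine le_iInf fun n => ?_
        rw [beq_refl]
        exact le_top)
      have hx2 : lam (⨆ x, R (cons x fun n => (v n).rep)) := hx
      rw [hx'] at hx2
      refine ⟨toX hl x, ?_⟩
      have h3 := (rel_toX (hl := hl) hR (cons x fun n => (v n).rep)).2 hx2
      rw [comp_cons (toX hl)] at h3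
      simpa only [toX_rep] using h3

theorem bcl_re {S : Rel (BX hl)} (h : BCl hl S) (σ : ℕ → ℕ) :
    BCl hl (fun v => S (fun n => v (σ n))) := by
  obtain ⟨R, hR, rfl⟩ := h
  refine ⟨fun v => R (fun n => v (σ n)), fun v w => ?_, rfl⟩
  refine le_trans (inf_le_inf_right _ ?_) (hR _ _)
  exact le_iInf fun n => iInf_le _ (σ n)

theorem bcl_par {S : Rel (BX hl)} (h : BCl hl S) (p : BX hl) :
    BCl hl (fun v => S (cons p v)) := by
  obtain ⟨R, hR, rfl⟩ := h
  refine ⟨fun v => R (cons p.rep v), fun v w => ?_, ?_⟩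
  · refine le_trans (inf_le_inf_right _ ?_) (hR _ _)
    refine le_iInf fun n => ?_
    rcases n with _ | n
    · simp only [cons_zero]
      rw [beq_refl]
      exact le_top
    · exact iInf_le _ n
  · funext v
    refine propext ?_
    show lam (R fun n => (cons p v n).rep) ↔ lam (R (cons p.rep fun n => (v n).rep))
    rw [comp_cons (fun z : BX hl => z.rep)]

theorem bcl_eq : BCl hl (fun v => v 0 = v 1) := by
  refine ⟨_, extR_eq, ?_⟩
  funext v
  refine propext ?_
  show v 0 = v 1 ↔ lam (beq (v 0).rep (v 1).rep)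
  rw [← toX_eq (hl := hl), toX_rep, toX_rep]

theorem bcl_mem : BCl hl (fun v => BE hl (v 0) (v 1)) :=
  ⟨_, extR_mem, rfl⟩

theorem bcl_P : BCl hl (fun v => BP hl (v 0) (v 1)) :=
  ⟨_, extR_rkl, rfl⟩

end IM
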