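import Pool.Agent.W_MP_0bf392_lc.Data

/-!
# Boolean-valued sets
-/

universe u v

namespace IM

/-- Boolean-valued sets over `D`. -/
inductive BSet (D : Type u) : Type (u + 1)
  | mk (α : Type u) (A : α → BSet D) (B : α → D) : BSet D

namespace BSet

variable {D : Type u}

/-- The index type. -/
def ty : BSet D → Type u
  | mk α _ _ => α

/-- The elements. -/
def fn : (x : BSet D) → x.ty → BSet D
  | mk _ A _ => A

/-- The weights. -/
def wt : (x : BSet D) → x.ty → D
  | mk _ _ B => B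

theorem eta (x : BSet D) : mk x.ty x.fn x.wt = x := by
  cases x; rfl

variable [CompleteBooleanAlgebra D]

/-- Boolean-valued equality. -/
def beq : BSet D → BSet D → D
  | mk α A B, mk β A' B' =>
    (⨅ a : α, (B a)ᶜ ⊔ ⨆ b : β, B' b ⊓ beq (A a) (A' b)) ⊓
      (⨅ b : β, (B' b)ᶜ ⊔ ⨆ a : α, B a ⊓ beq (A a) (A' b))

/-- Boolean-valued membership. -/
def bmem (x y : BSet D) : D := ⨆ b : y.ty, y.wt b ⊓ beq x (y.fn b)

theorem le_compl_sup_iff {a b c : D} : a ≤ bᶜ ⊔ c ↔ a ⊓ b ≤ c := by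
  rw [sup_comm, ← himp_eq, le_himp_iff]

theorem beq_refl (x : BSet D) : beq x x = ⊤ := by
  induction x with
  | mk α A B ih =>
    rw [beq, eq_top_iff]
    refine le_inf (le_iInf fun a => ?_) (le_iInf fun a => ?_)
    · rw [le_compl_sup_iff, top_inf_eq]
      refine le_trans ?_ (le_iSup _ a)
      rw [ih a, inf_top_eq]
    · rw [le_compl_sup_iff, top_inf_eq]
      refine le_trans ?_ (le_iSup _ a)
      rw [ih a, inf_top_eq]

theorem beq_symm (x y : BSet D) : beq x y = beq y x := by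
  induction x generalizing y with
  | mk α A B ih =>
    cases y with
    | mk β A' B' =>
      rw [beq, beq, inf_comm]
      simp only [ih]

theorem beq_trans (x y z : BSet D) : beq x y ⊓ beq y z ≤ beq x z := by
  induction x generalizing y z with
  | mk α A B ih =>
    rcases y with ⟨β, A', B'⟩
    rcases z with ⟨γ, A'', B''⟩
    have h1 : ∀ a, B a ⊓ beq (mk α A B) (mk β A' B') ≤ ⨆ b, B' b ⊓ beq (A a) (A' b) := by
      intro a
      rw [inf_comm, ← le_compl_sup_iff, beq]
      exact le_trans inf_le_left (iInf_le _ a)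
    have h2 : ∀ b, B' b ⊓ beq (mk α A B) (mk β A' B') ≤ ⨆ a, B a ⊓ beq (A a) (A' b) := by
      intro b
      rw [inf_comm, ← le_compl_sup_iff, beq]
      exact le_trans inf_le_right (iInf_le _ b)
    have h3 : ∀ b, B' b ⊓ beq (mk β A' B') (mk γ A'' B'') ≤ ⨆ c, B'' c ⊓ beq (A' b) (A'' c) := by
      intro b
      rw [inf_comm, ← le_compl_sup_iff, beq]
      exact le_trans inf_le_left (iInf_le _ b)
    have h4 : ∀ c, B'' c ⊓ beq (mk β A' B') (mk γ A'' B'') ≤ ⨆ b, B' b ⊓ beq (A' b) (A'' c) := by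
      intro c
      rw [inf_comm, ← le_compl_sup_iff, beq]
      exact le_trans inf_le_right (iInf_le _ c)
    conv_rhs => rw [beq]
    refine le_inf (le_iInf fun a => ?_) (le_iInf fun c => ?_)
    · rw [le_compl_sup_iff]
      calc beq (mk α A B) (mk β A' B') ⊓ beq (mk β A' B') (mk γ A'' B'') ⊓ B a
          = (B a ⊓ beq (mk α A B) (mk β A' B')) ⊓ beq (mk β A' B') (mk γ A'' B'') := by
            rw [inf_comm, inf_assoc]
        _ ≤ (⨆ b, B' b ⊓ beq (A a) (A' b)) ⊓ beq (mk β A' B') (mk γ A'' B'') :=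
            inf_le_inf_right _ (h1 a)
        _ = ⨆ b, B' b ⊓ beq (A a) (A' b) ⊓ beq (mk β A' B') (mk γ A'' B'') := iSup_inf_eq _ _
        _ ≤ ⨆ c, B'' c ⊓ beq (A a) (A'' c) := by
            refine iSup_le fun b => ?_
            calc B' b ⊓ beq (A a) (A' b) ⊓ beq (mk β A' B') (mk γ A'' B'')
                = beq (A a) (A' b) ⊓ (B' b ⊓ beq (mk β A' B') (mk γ A'' B'')) := by
                  rw [inf_comm (B' b), inf_assoc]
              _ ≤ beq (A a) (A' b) ⊓ ⨆ c, B'' c ⊓ beq (A' b) (A'' c) := inf_le_inf_left _ (h3 b)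
              _ = ⨆ c, beq (A a) (A' b) ⊓ (B'' c ⊓ beq (A' b) (A'' c)) := inf_iSup_eq _ _
              _ ≤ ⨆ c, B'' c ⊓ beq (A a) (A'' c) := by
                  refine iSup_mono fun c => ?_
                  rw [inf_left_comm]
                  exact inf_le_inf_left _ (ih a _ _)
    · rw [le_compl_sup_iff]
      calc beq (mk α A B) (mk β A' B') ⊓ beq (mk β A' B') (mk γ A'' B'') ⊓ B'' c
          = (B'' c ⊓ beq (mk β A' B') (mk γ A'' B'')) ⊓ beq (mk α A B) (mk β A' B') := by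
            rw [inf_comm (beq (mk α A B) (mk β A' B')), inf_right_comm,
              inf_comm (beq (mk β A' B') (mk γ A'' B'')) (B'' c)]
        _ ≤ (⨆ b, B' b ⊓ beq (A' b) (A'' c)) ⊓ beq (mk α A B) (mk β A' B') :=
            inf_le_inf_right _ (h4 c)
        _ = ⨆ b, B' b ⊓ beq (A' b) (A'' c) ⊓ beq (mk α A B) (mk β A' B') := iSup_inf_eq _ _
        _ ≤ ⨆ a, B a ⊓ beq (A a) (A'' c) := by
            refine iSup_le fun b => ?_
            calc B' b ⊓ beq (A' b) (A'' c) ⊓ beq (mk α A B) (mk β A' B')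
                = beq (A' b) (A'' c) ⊓ (B' b ⊓ beq (mk α A B) (mk β A' B')) := by
                  rw [inf_comm (B' b), inf_assoc]
              _ ≤ beq (A' b) (A'' c) ⊓ ⨆ a, B a ⊓ beq (A a) (A' b) := inf_le_inf_left _ (h2 b)
              _ = ⨆ a, beq (A' b) (A'' c) ⊓ (B a ⊓ beq (A a) (A' b)) := inf_iSup_eq _ _
              _ ≤ ⨆ a, B a ⊓ beq (A a) (A'' c) := by
                  refine iSup_mono fun a => ?_
                  rw [inf_left_comm, inf_comm (beq (A' b) (A'' c))]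
                  exact inf_le_inf_left _ (ih a _ _)

theorem beq_def (x y : BSet D) : beq x y =
    (⨅ a : x.ty, (x.wt a)ᶜ ⊔ bmem (x.fn a) y) ⊓ (⨅ b : y.ty, (y.wt b)ᶜ ⊔ bmem (y.fn b) x) := by
  rcases x with ⟨α, A, B⟩
  rcases y with ⟨β, A', B'⟩
  rw [beq]
  simp only [bmem, ty, fn, wt]
  congr 1
  refine iInf_congr fun b => ?_
  congr 1
  refine iSup_congr fun a => ?_
  rw [beq_symm]

theorem wt_le_bmem (y : BSet D) (b : y.ty) : y.wt b ≤ bmem (y.fn b) y := by
  refine le_trans ?_ (le_iSup _ b)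
  rw [beq_refl, inf_top_eq]

theorem bmem_congr_left (x x' y : BSet D) : beq x x' ⊓ bmem x y ≤ bmem x' y := by
  rw [bmem, bmem, inf_iSup_eq]
  refine iSup_mono fun b => ?_
  rw [inf_left_comm]
  refine inf_le_inf_left _ ?_
  rw [beq_symm x x']
  exact beq_trans _ _ _

theorem bmem_congr_right (x y y' : BSet D) : beq y y' ⊓ bmem x y ≤ bmem x y' := by
  have h : ∀ b : y.ty, beq y y' ⊓ y.wt b ≤ bmem (y.fn b) y' := by
    intro b
    rw [← le_compl_sup_iff, beq_def]
    exact le_trans inf_le_left (iInf_le _ b)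
  conv_lhs => rw [bmem, inf_iSup_eq]
  refine iSup_le fun b => ?_
  rw [← inf_assoc, inf_comm]
  refine le_trans (inf_le_inf_left _ (h b)) ?_
  rw [beq_symm x]
  exact bmem_congr_left _ _ _

/-- Extensionality: `a` is below the equality iff it is below both inclusions. -/
theorem le_beq_iff (x y : BSet D) (a : D) : a ≤ beq x y ↔
    (∀ z, a ⊓ bmem z x ≤ bmem z y) ∧ (∀ z, a ⊓ bmem z y ≤ bmem z x) := by
  constructor
  · intro h
    refine ⟨fun z => le_trans (inf_le_inf_right _ h) (bmem_congr_right _ _ _), fun z => ?_⟩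
    rw [beq_symm] at h
    exact le_trans (inf_le_inf_right _ h) (bmem_congr_right _ _ _)
  · rintro ⟨h1, h2⟩
    rw [beq_def]
    refine le_inf (le_iInf fun b => ?_) (le_iInf fun b => ?_)
    · rw [le_compl_sup_iff]
      exact le_trans (inf_le_inf_left _ (wt_le_bmem x b)) (h1 _)
    · rw [le_compl_sup_iff]
      exact le_trans (inf_le_inf_left _ (wt_le_bmem y b)) (h2 _)

/-- Foundation: there is no descending sequence. -/
theorem no_descending (v : ℕ → BSet D) : (⨅ n, bmem (v (n + 1)) (v n)) = ⊥ := by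
  suffices h : ∀ (x : BSet D) (v : ℕ → BSet D), v 0 = x → (⨅ n, bmem (v (n + 1)) (v n)) = ⊥ from
    h _ v rfl
  intro x
  induction x with
  | mk α A B ih =>
    intro v hv
    rw [eq_bot_iff]
    have h1 : (⨅ n, bmem (v (n + 1)) (v n)) ≤ ⨆ a, B a ⊓ beq (v 1) (A a) := by
      refine le_trans (iInf_le _ 0) ?_
      rw [hv, bmem]
      exact le_rfl
    have h2 : (⨅ n, bmem (v (n + 1)) (v n)) ≤
        (⨆ a, B a ⊓ beq (v 1) (A a)) ⊓ (⨅ n, bmem (v (n + 1)) (v n)) := le_inf h1 le_rfl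
    refine le_trans h2 ?_
    rw [iSup_inf_eq]
    refine iSup_le fun a => ?_
    have h3 := ih a (fun n => if n = 0 then A a else v (n + 1)) (by simp)
    rw [← h3]
    refine le_iInf fun n => ?_
    rcases n with _ | n
    · simp only [zero_add, one_ne_zero, if_false, if_true]
      refine le_trans ?_ (bmem_congr_right (v 2) (v 1) (A a))
      exact le_inf (le_trans inf_le_left inf_le_right) (le_trans inf_le_right (iInf_le _ 1))
    · simp only [Nat.succ_ne_zero, if_false]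
      exact le_trans inf_le_right (iInf_le _ (n + 2))

/-- Boolean-valued comparison of ranks, in both directions. -/
noncomputable def rk2 (x : BSet D) : BSet D → D × D :=
  BSet.rec (motive := fun _ => BSet D → D × D)
    (fun α A B ihx y => BSet.rec (motive := fun _ => D × D)
      (fun β A' B' ihy => (⨆ b : β, B' b ⊓ (ihy b).2ᶜ, ⨆ a : α, B a ⊓ (ihx a (mk β A' B')).1ᶜ))
      y) x

/-- The truth value of `rank x < rank y`. -/
noncomputable def rkl (x y : BSet D) : D := (rk2 x y).1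

theorem rk2_fst (x : BSet D) (β : Type u) (A' : β → BSet D) (B' : β → D) :
    (rk2 x (mk β A' B')).1 = ⨆ b : β, B' b ⊓ ((rk2 x (A' b)).2)ᶜ := by
  cases x; rfl

theorem rk2_snd (y : BSet D) (α : Type u) (A : α → BSet D) (B : α → D) :
    (rk2 (mk α A B) y).2 = ⨆ a : α, B a ⊓ ((rk2 (A a) y).1)ᶜ := by
  cases y; rfl

theorem rk2_swap (x y : BSet D) :
    (rk2 x y).2 = (rk2 y x).1 ∧ (rk2 y x).2 = (rk2 x y).1 := by
  induction x generalizing y with
  | mk α A B ih =>
    have h1 : ∀ y, (rk2 (mk α A B) y).2 = (rk2 y (mk α A B)).1 := by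
      intro y
      rw [rk2_snd, rk2_fst]
      simp only [(ih _ y).2]
    refine ⟨h1 y, ?_⟩
    rcases y with ⟨β, A', B'⟩
    rw [rk2_snd, rk2_fst]
    simp only [h1]

theorem rkl_eq (x y : BSet D) : rkl x y = ⨆ b : y.ty, y.wt b ⊓ (rkl (y.fn b) x)ᶜ := by
  rcases y with ⟨β, A', B'⟩
  rw [rkl, rk2_fst]
  simp only [(rk2_swap x _).1]
  rfl

theorem compl_step {a b c : D} (h : a ⊓ b ≤ c) : a ⊓ cᶜ ≤ bᶜ := by
  rw [le_compl_iff_disjoint_right, disjoint_iff_inf_le]
  calc a ⊓ cᶜ ⊓ b = (a ⊓ b) ⊓ cᶜ := by rw [inf_right_comm]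
    _ ≤ c ⊓ cᶜ := inf_le_inf_right _ h
    _ = ⊥ := inf_compl_eq_bot

theorem rkl_right_of_left (x y y' : BSet D)
    (h : ∀ b b', beq (y.fn b) (y'.fn b') ⊓ rkl (y'.fn b') x ≤ rkl (y.fn b) x) :
    beq y y' ⊓ rkl x y ≤ rkl x y' := by
  have h0 : ∀ b : y.ty, beq y y' ⊓ y.wt b ≤ bmem (y.fn b) y' := by
    intro b
    rw [← le_compl_sup_iff, beq_def]
    exact le_trans inf_le_left (iInf_le _ b)
  rw [rkl_eq x y, rkl_eq x y', inf_iSup_eq]
  refine iSup_le fun b => ?_
  rw [← inf_assoc]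
  refine le_trans (inf_le_inf_right _ (h0 b)) ?_
  rw [bmem, iSup_inf_eq]
  refine iSup_mono fun b' => ?_
  rw [inf_assoc]
  exact inf_le_inf_left _ (compl_step (h b b'))

theorem rkl_left_of_right (x x' y : BSet D)
    (h : ∀ b, beq x' x ⊓ rkl (y.fn b) x' ≤ rkl (y.fn b) x) :
    beq x x' ⊓ rkl x y ≤ rkl x' y := by
  rw [rkl_eq x y, rkl_eq x' y, inf_iSup_eq]
  refine iSup_mono fun b => ?_
  rw [inf_left_comm]
  refine inf_le_inf_left _ (compl_step ?_)
  rw [beq_symm x x']
  exact h b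

theorem rkl_congr_left_aux (x : BSet D) : ∀ x' y : BSet D,
    beq x x' ⊓ rkl x y ≤ rkl x' y ∧ beq x' x ⊓ rkl x' y ≤ rkl x y := by
  induction x with
  | mk α A B ih =>
    intro x' y
    constructor
    · refine rkl_left_of_right _ _ _ fun b => rkl_right_of_left _ _ _ fun a' a => ?_
      rw [beq_symm]
      exact (ih a _ _).1
    · refine rkl_left_of_right _ _ _ fun b => rkl_right_of_left _ _ _ fun a a' => ?_
      rw [beq_symm]
      exact (ih a _ _).2

theorem rkl_congr_left (x x' y : BSet D) : beq x x' ⊓ rkl x y ≤ rkl x' y := by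
  exact (rkl_congr_left_aux x x' y).1

theorem rkl_congr_right (x y y' : BSet D) : beq y y' ⊓ rkl x y ≤ rkl x y' := by
  refine rkl_right_of_left _ _ _ fun b b' => ?_
  rw [beq_symm]
  exact rkl_congr_left _ _ _

end BSet

end IM
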