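import Pool.Agent.W_MP_0bf392_lc.BQuot

/-!
# The well-order of the quotient
-/

universe u v

namespace IM

open BSet

variable {D : Type u} [CompleteBooleanAlgebra D] {lam : D → Prop} {hl : IsUlt lam}

/-- The truth value of `a is the least name of x`. -/
noncomputable def lname (x a : BSet D) : D :=
  beq x a ⊓ ⨅ (b : BSet D) (_ : WellOrderingRel b a), (beq x b)ᶜ

/-- The `D`-valued well-order. -/
noncomputable def wlt (x y : BSet D) : D :=
  ⨆ (a : BSet D) (b : BSet D) (_ : WellOrderingRel a b), lname x a ⊓ lname y b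

/-- The well-order of the quotient. -/
noncomputable def BW (hl : IsUlt lam) (x y : BX hl) : Prop := lam (wlt x.rep y.rep)

theorem lname_le_beq (x a : BSet D) : lname x a ≤ beq x a := inf_le_left

theorem lname_le_compl (x : BSet D) {a b : BSet D} (h : WellOrderingRel b a) :
    lname x a ≤ (beq x b)ᶜ :=
  inf_le_right.trans (iInf₂_le b h)

theorem lname_congr (x x' a : BSet D) : beq x x' ⊓ lname x a ≤ lname x' a := by
  refine le_inf ?_ (le_iInf₂ fun b hb => ?_)
  · refine (inf_le_inf le_rfl (lname_le_beq x a)).trans ?_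
    rw [beq_symm x x']
    exact beq_trans x' x a
  · rw [le_compl_iff_disjoint_right, disjoint_iff]
    have h1 : beq x x' ⊓ lname x a ⊓ beq x' b ≤ beq x b ⊓ (beq x b)ᶜ := by
      refine le_inf ?_ ?_
      · refine le_trans ?_ (beq_trans x x' b)
        exact inf_le_inf inf_le_left le_rfl
      · exact (inf_le_left.trans inf_le_right).trans (lname_le_compl x hb)
    rw [inf_compl_eq_bot] at h1
    exact le_bot_iff.1 h1

theorem lname_disjoint (x : BSet D) {a b : BSet D} (h : a ≠ b) : lname x a ⊓ lname x b = ⊥ := by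
  have key : ∀ {a b : BSet D}, WellOrderingRel b a → lname x a ⊓ lname x b = ⊥ := by
    intro a b h
    have h1 : lname x a ⊓ lname x b ≤ (beq x b)ᶜ ⊓ beq x b :=
      inf_le_inf (lname_le_compl x h) (lname_le_beq x b)
    rw [compl_inf_eq_bot] at h1
    exact le_bot_iff.1 h1
  rcases trichotomous_of (WellOrderingRel (α := BSet D)) a b with h' | h' | h'
  · rw [inf_comm]
    exact key h'
  · exact absurd h' h
  · exact key h'

theorem iSup_lname (x : BSet D) : (⨆ a, lname x a) = ⊤ := by
  have key : ∀ a, beq x a ≤ ⨆ b, lname x b := by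
    intro a
    induction a using (WellOrderingRel.isWellOrder (α := BSet D)).wf.induction with
    | _ a ih =>
      have h1 : (⨅ (b : BSet D) (_ : WellOrderingRel b a), (beq x b)ᶜ) ⊔
          (⨆ (b : BSet D) (_ : WellOrderingRel b a), beq x b) = ⊤ := by
        have : (⨆ (b : BSet D) (_ : WellOrderingRel b a), beq x b) =
            (⨅ (b : BSet D) (_ : WellOrderingRel b a), (beq x b)ᶜ)ᶜ := by
          simp only [compl_iInf, compl_compl]
        rw [this, sup_compl_eq_top]
      calc beq x a = beq x a ⊓ ((⨅ (b : BSet D) (_ : WellOrderingRel b a), (beq x b)ᶜ) ⊔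
            (⨆ (b : BSet D) (_ : WellOrderingRel b a), beq x b)) := by rw [h1, inf_top_eq]
        _ = lname x a ⊔ beq x a ⊓ (⨆ (b : BSet D) (_ : WellOrderingRel b a), beq x b) :=
            inf_sup_left _ _ _
        _ ≤ ⨆ b, lname x b := by
            refine sup_le (le_iSup (fun b => lname x b) a) (inf_le_right.trans ?_)
            exact iSup₂_le fun b hb => ih b hb
  refine top_le_iff.1 ?_
  rw [← beq_refl x]
  exact key x

theorem wlt_congr (x x' y y' : BSet D) : beq x x' ⊓ beq y y' ⊓ wlt x y ≤ wlt x' y' := by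
  unfold wlt
  simp only [inf_iSup_eq]
  refine iSup_le fun a => iSup_le fun b => iSup_le fun h => ?_
  refine le_trans ?_ (le_iSup_of_le a (le_iSup_of_le b (le_iSup_of_le h le_rfl)))
  refine le_inf ?_ ?_
  · exact (inf_le_inf inf_le_left inf_le_left).trans (lname_congr x x' a)
  · exact (inf_le_inf inf_le_right inf_le_right).trans (lname_congr y y' b)

theorem wlt_inf_lname (x y a : BSet D) :
    wlt x y ⊓ lname y a ≤ ⨆ (b : BSet D) (_ : WellOrderingRel b a), lname x b := by
  unfold wlt
  simp only [iSup_inf_eq]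
  refine iSup_le fun c => iSup_le fun b => iSup_le fun h => ?_
  by_cases hb : b = a
  · subst hb
    exact (inf_le_left.trans inf_le_left).trans (le_iSup₂_of_le c h le_rfl)
  · have h1 : lname x c ⊓ lname y b ⊓ lname y a = ⊥ := by
      rw [inf_assoc, lname_disjoint y hb, inf_bot_eq]
    rw [h1]
    exact bot_le

theorem iInf_wlt (v : ℕ → BSet D) : (⨅ n, wlt (v (n + 1)) (v n)) = ⊥ := by
  by_contra hu
  set w : D := ⨅ n, wlt (v (n + 1)) (v n) with hw
  have hex : ∃ a, ∃ n, w ⊓ lname (v n) a ≠ ⊥ := by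
    by_contra hcon
    push Not at hcon
    apply hu
    calc w = w ⊓ ⨆ a, lname (v 0) a := by rw [iSup_lname, inf_top_eq]
      _ = ⨆ a, w ⊓ lname (v 0) a := inf_iSup_eq _ _
      _ = ⊥ := by simp only [hcon, iSup_bot]
  have hwf := (WellOrderingRel.isWellOrder (α := BSet D)).wf
  obtain ⟨a, ⟨n, hn⟩, hmin⟩ := hwf.has_min {a | ∃ n, w ⊓ lname (v n) a ≠ ⊥} hex
  apply hn
  have h1 : w ⊓ lname (v n) a ≤
      w ⊓ ⨆ (b : BSet D) (_ : WellOrderingRel b a), lname (v (n + 1)) b := by
    refine le_inf inf_le_left (le_trans ?_ (wlt_inf_lname (v (n + 1)) (v n) a))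
    exact inf_le_inf (iInf_le _ n) le_rfl
  refine le_bot_iff.1 (h1.trans ?_)
  simp only [inf_iSup_eq]
  refine iSup₂_le fun b hb => ?_
  by_contra hcon
  exact hmin b ⟨n + 1, fun h => hcon (le_of_eq h)⟩ hb

theorem wlt_tri (x y : BSet D) : wlt x y ⊔ beq x y ⊔ wlt y x = ⊤ := by
  refine top_le_iff.1 ?_
  have h1 : (⊤ : D) = (⨆ a, lname x a) ⊓ ⨆ b, lname y b := by
    rw [iSup_lname, iSup_lname, inf_top_eq]
  rw [h1]
  rw [iSup_inf_eq]
  refine iSup_le fun a => ?_
  rw [inf_iSup_eq]
  refine iSup_le fun b => ?_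
  rcases trichotomous_of (WellOrderingRel (α := BSet D)) a b with h | h | h
  · refine le_trans ?_ (le_sup_left.trans le_sup_left)
    exact le_iSup_of_le a (le_iSup_of_le b (le_iSup_of_le h le_rfl))
  · subst h
    refine le_trans ?_ (le_sup_right.trans le_sup_left)
    refine (inf_le_inf (lname_le_beq x a) (lname_le_beq y a)).trans ?_
    rw [beq_symm y a]
    exact beq_trans x a y
  · refine le_trans ?_ le_sup_right
    rw [inf_comm]
    exact le_iSup_of_le b (le_iSup_of_le a (le_iSup_of_le h le_rfl))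

theorem bwo_lam_inf (hl : IsUlt lam) {a b : D} (ha : lam a) (hb : lam b) : lam (a ⊓ b) := by
  refine hl.mono ?_ (hl.iInf (fun n => if n = 0 then a else b) (fun n => ?_))
  · exact le_inf ((iInf_le _ 0).trans (by simp)) ((iInf_le _ 1).trans (by simp))
  · by_cases hn : n = 0 <;> simp [hn, ha, hb]

theorem bwo_lam_or (hl : IsUlt lam) {a b : D} (h : lam (a ⊔ b)) : lam a ∨ lam b := by
  by_contra hcon
  push Not at hcon
  have ha := (hl.compl a).resolve_left hcon.1
  have hb := (hl.compl b).resolve_left hcon.2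
  have h1 := bwo_lam_inf hl h (bwo_lam_inf hl ha hb)
  rw [← compl_sup, inf_compl_eq_bot] at h1
  exact hl.bot h1

theorem bcl_W : BCl hl (fun v => BW hl (v 0) (v 1)) := by
  refine ⟨fun v => wlt (v 0) (v 1), fun v w => ?_, rfl⟩
  refine le_trans (inf_le_inf (le_inf (iInf_le _ 0) (iInf_le _ 1)) le_rfl) ?_
  exact wlt_congr _ _ _ _

theorem bW_wo : IsWellOrder (BX hl) (BW hl) := by
  refine @IsWellOrder.mk _ _ ⟨?_⟩ ⟨?_⟩
  · rw [wellFounded_iff_isEmpty_descending_chain]
    refine ⟨fun ⟨f, hf⟩ => ?_⟩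
    have h1 := hl.iInf (fun n => wlt (f (n + 1)).rep (f n).rep) hf
    rw [iInf_wlt (fun n => (f n).rep)] at h1
    exact hl.bot h1
  · intro a b h1 h2
    have h3 : lam (wlt a.rep b.rep ⊔ beq a.rep b.rep ⊔ wlt b.rep a.rep) := by
      rw [wlt_tri]
      exact hl.top
    rcases bwo_lam_or hl h3 with h4 | h4
    · rcases bwo_lam_or hl h4 with h5 | h5
      · exact absurd h5 h1
      · rw [← toX_rep a, ← toX_rep b]
        exact toX_eq.2 h5
    · exact absurd h4 h2

end IM
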