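import Pool.Agent.W_MP_0bf392_lc.CLam

/-!
# Mutually generic filters and the property `dist`
-/

universe u v

namespace IM

open Cardinal Filter

variable {I : Type u} [LinearOrder I] [WellFoundedLT I] {U : Ultrafilter I}

/-- The components of a generic filter for the product. -/
def comp (U : Ultrafilter I) (g : Set (∀ η : I, Cond η × Cond η)) (b : Bool) :
    Set (∀ η : I, Cond η) :=
  {q | ∃ r ∈ g, ∀ᶠ η in U, (if b then (r η).2 else (r η).1) ≤ q η}

theorem fst_mem_comp {g : Set (∀ η : I, Cond η × Cond η)} {r : ∀ η : I, Cond η × Cond η}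
    (hr : r ∈ g) : (fun η => (r η).1) ∈ comp U g false :=
  ⟨r, hr, Eventually.of_forall fun η => by
    simp only [Bool.false_eq_true, if_false]
    exact le_refl _⟩

theorem snd_mem_comp {g : Set (∀ η : I, Cond η × Cond η)} {r : ∀ η : I, Cond η × Cond η}
    (hr : r ∈ g) : (fun η => (r η).2) ∈ comp U g true :=
  ⟨r, hr, Eventually.of_forall fun η => by
    simp only [if_true]
    exact le_refl _⟩

theorem gen_comp {g : Set (∀ η : I, Cond η × Cond η)} (hg : IsGen U g) (b : Bool) :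
    IsGen U (comp U g b) := by
  refine ⟨?_, ?_, ?_⟩
  · rintro q ⟨r, hr, hrq⟩ q' hq'
    exact ⟨r, hr, (hrq.and hq').mono fun η h => h.1.trans h.2⟩
  · rintro q ⟨r, hr, hrq⟩ q' ⟨r', hr', hrq'⟩
    obtain ⟨r'', hr'', h⟩ := hg.dir r hr r' hr'
    cases b
    · refine ⟨fun η => (r'' η).1, fst_mem_comp hr'', ?_⟩
      filter_upwards [hrq, hrq', h] with η h1 h2 h3
      simp only [Bool.false_eq_true, if_false] at h1 h2
      exact ⟨h3.1.1.trans h1, h3.2.1.trans h2⟩
    · refine ⟨fun η => (r'' η).2, snd_mem_comp hr'', ?_⟩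
      filter_upwards [hrq, hrq', h] with η h1 h2 h3
      simp only [if_true] at h1 h2
      exact ⟨h3.1.2.trans h1, h3.2.2.trans h2⟩
  · intro Δ hΔ
    cases b
    · obtain ⟨q, hq, h⟩ := hg.gen (fun η => {x | x.1 ∈ Δ η}) (by
        rintro η ⟨p1, p2⟩
        obtain ⟨q, hq, hqp⟩ := hΔ η p1
        exact ⟨(q, p2), hq, hqp, le_refl _⟩)
      exact ⟨fun η => (q η).1, fst_mem_comp hq, h⟩
    · obtain ⟨q, hq, h⟩ := hg.gen (fun η => {x | x.2 ∈ Δ η}) (by
        rintro η ⟨p1, p2⟩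
        obtain ⟨q, hq, hqp⟩ := hΔ η p2
        exact ⟨(p1, q), hq, le_refl _, hqp⟩)
      exact ⟨fun η => (q η).2, snd_mem_comp hq, h⟩

/-- The truth value of `the generic function has value 1 at j`. -/
noncomputable def GG (j : I) : DD I := fun _ => RO.cl {p | p.1 j = some true}

theorem RO.subset_cl {P : Type u} [Preorder P] {s : Set P} {p : P} (hp : p ∈ s) :
    p ∈ (RO.cl s).1 :=
  RO.mem_cl.2 fun q hq => ⟨q, le_refl q, p, hp, hq⟩

/-- Modus ponens for truth values. -/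
theorem RO.mp {P : Type u} [Preorder P] {a b : RO P} {p : P} (h : p ∈ (aᶜ ⊔ b).1)
    (ha : p ∈ a.1) : p ∈ b.1 := by
  have h1 : p ∈ ((aᶜ ⊔ b) ⊓ a).1 := (RO.mem_inf _ _ _).2 ⟨h, ha⟩
  have h2 : (aᶜ ⊔ b) ⊓ a ≤ b := by
    rw [inf_sup_right, compl_inf_self, bot_sup_eq]
    exact inf_le_left
  exact (RO.le_iff _ _).1 h2 p h1

/-- A condition with parameter `ξ` is undefined on a tail. -/
theorem eventually_none (h : NormalMeasure U) {ξ : I} (t : Cond ξ) :
    ∀ᶠ η in U, ∀ β, η ≤ β → t.1 β = none := by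
  obtain ⟨m, hm⟩ := t.2.bdd
  have h1 : ∀ᶠ η in U, m < η := h.tail m
  filter_upwards [h1] with η hη β hβ
  by_contra hne
  exact absurd (hm β hne) (not_le.2 (hη.trans_le hβ))

/-- The value of a union at a point where the second condition is defined. -/
theorem un_apply (h : NormalMeasure U) {ξ : I} (t : Cond ξ) :
    ∀ᶠ η in U, ∀ (q : Cond η) (β : I) (c : Bool), q.1 β = some c → (un t q).1 β = some c := by
  filter_upwards [un_val h t, eventually_none h t] with η h1 h2 q β c hq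
  have hβ : η ≤ β := q.2.ge β (by rw [hq]; exact Option.some_ne_none c)
  rw [h1 q]
  simp only [join]
  rw [h2 β hβ, hq]
  rfl

/-- A property for the density argument. -/
def Good {ξ : I} (p : Cond ξ) (w : I → I → DD I) (η : I) (x : Cond η × Cond η) (β : I)
    (p1 : Cond ξ) (c : Bool) : Prop :=
  p1 ≤ p ∧ (∃ m < η, Bdd m p1.1) ∧ x.1.1 β = some c ∧
    (c = false → un p1 x.2 ∈ (w η β ξ).1) ∧ (c = true → un p1 x.2 ∈ ((w η β ξ)ᶜ).1)

theorem good_dense (h : NormalMeasure U) {ξ : I} (p : Cond ξ) (w : I → I → DD I) :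
    ∀ᶠ η in U, ∀ x : Cond η × Cond η, ∃ y ≤ x, ∃ β p1 c, Good p w η y β p1 c := by
  have hb : ∀ᶠ η in U, ∃ m < η, Bdd m p.1 := by
    obtain ⟨m, hm⟩ := p.2.bdd
    have h1 : ∀ᶠ η in U, m < η := h.tail m
    exact h1.mono fun η hη => ⟨m, hη, hm⟩
  filter_upwards [un_split h p, hb] with η hs hbη
  rintro ⟨r, s⟩
  obtain ⟨m, hm⟩ := r.2.bdd
  obtain ⟨β, hβ⟩ : ∃ β, max m η < β := by
    have h1 : ∀ᶠ β in U, max m η < β := h.tail (max m η)
    exact h1.exists
  have hrβ : r.1 β = none := by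
    by_contra hne
    exact absurd (hm β hne) (not_le.2 ((le_max_left _ _).trans_lt hβ))
  have hηβ : η ≤ β := (le_max_right _ _).trans hβ.le
  have hle : ∀ c : Bool, ∃ y : Cond η, y ≤ r ∧ y.1 β = some c := by
    intro c
    refine ⟨(⟨_, isCond_update r.2 β hηβ c⟩ : {p : I → Option Bool // IsCond η p}), ?_, ?_⟩
    · intro y hy
      have : y ≠ β := by
        rintro rfl
        exact hy hrβ
      simp only [if_neg this]
    · simp only [if_true]
  by_cases hA : ∃ t ≤ un p s, t ∈ (w η β ξ).1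
  · obtain ⟨t, ht, htw⟩ := hA
    obtain ⟨p', s', hp', hs', hbd, rfl⟩ := hs s t ht
    obtain ⟨r', hr', hrv⟩ := hle false
    exact ⟨(r', s'), ⟨hr', hs'⟩, β, p', false, hp', hbd, hrv, fun _ => htw,
      fun hc => absurd hc (by decide)⟩
  · obtain ⟨r', hr', hrv⟩ := hle true
    refine ⟨(r', s), ⟨hr', le_refl _⟩, β, p, true, le_refl _, hbη, hrv,
      fun hc => absurd hc (by decide), fun _ => ?_⟩
    rw [RO.mem_compl]
    intro q hq hqw
    exact hA ⟨q, hq, hqw⟩

theorem dist_eh (h : NormalMeasure U) {g : Set (∀ η : I, Cond η × Cond η)} (hg : IsGen U g)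
    (w : I → I → DD I) :
    ¬ lamh U (comp U g false) (⨅ f : I → I,
      biimp (eh U (comp U g false) (fun i => GG (f i)))
        (eh U (comp U g true) (fun i => w i (f i)))) := by
  rintro ⟨q0, -, hq0⟩
  obtain ⟨ξ, hξ⟩ := hq0.exists
  rw [iInf_apply, RO.mem_iInf] at hξ
  -- the generic condition
  obtain ⟨x, hx, hxΔ⟩ := hg.gen
    (fun η => {x | (∀ x : Cond η × Cond η, ∃ y ≤ x, ∃ β p1 c, Good (q0 ξ) w η y β p1 c) →
      ∃ β p1 c, Good (q0 ξ) w η x β p1 c}) (by
      intro η x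
      by_cases hd : ∀ x : Cond η × Cond η, ∃ y ≤ x, ∃ β p1 c, Good (q0 ξ) w η y β p1 c
      · obtain ⟨y, hy, hgood⟩ := hd x
        exact ⟨y, fun _ => hgood, hy⟩
      · exact ⟨x, fun hd' => absurd hd' hd, le_refl _⟩)
  have hx1 : ∀ᶠ η in U, ∃ z : I × Cond ξ × Bool, Good (q0 ξ) w η (x η) z.1 z.2.1 z.2.2 := by
    filter_upwards [hxΔ, good_dense h (q0 ξ) w] with η h1 h2
    obtain ⟨β, p1, c, hgood⟩ := h1 h2
    exact ⟨(β, p1, c), hgood⟩
  obtain ⟨F, hF⟩ : ∃ F : I → I × Cond ξ × Bool, ∀ᶠ η in U,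
      Good (q0 ξ) w η (x η) (F η).1 (F η).2.1 (F η).2.2 := by
    classical
    refine ⟨fun η => if hh : ∃ z : I × Cond ξ × Bool,
      Good (q0 ξ) w η (x η) z.1 z.2.1 z.2.2 then hh.choose else (η, q0 ξ, true), ?_⟩
    filter_upwards [hx1] with η hη
    rw [dif_pos hη]
    exact hη.choose_spec
  -- the condition `p1` is constant
  obtain ⟨p₀, hp₀⟩ := h.press_fun (fun η => (F η).2.1.1) (hF.mono fun η hη => hη.2.1)
  obtain ⟨p1, hp1, hp1c⟩ : ∃ p1 ≤ q0 ξ, ∀ᶠ η in U, (F η).2.1 = p1 := by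
    obtain ⟨η₀, h1, h2⟩ := (hp₀.and hF).exists
    refine ⟨(F η₀).2.1, h2.1, ?_⟩
    filter_upwards [hp₀] with η hη
    exact Subtype.ext (hη.trans h1.symm)
  -- the equivalence for `f`
  have hbi := hξ (fun η => (F η).1)
  have hbi1 : p1 ∈ (biimp (eh U (comp U g false) (fun i => GG (F i).1))
      (eh U (comp U g true) (fun i => w i (F i).1)) ξ).1 := RO.mem_lower hbi hp1
  simp only [biimp, Pi.inf_apply, Pi.sup_apply, Pi.compl_apply] at hbi1
  rw [RO.mem_inf] at hbi1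
  -- the case is constant
  have hcase : (∀ᶠ η in U, (F η).2.2 = false) ∨ (∀ᶠ η in U, (F η).2.2 = true) := by
    rw [← Ultrafilter.eventually_or]
    exact Eventually.of_forall fun η => by cases (F η).2.2 <;> simp
  rcases hcase with hc | hc
  · have hE1 : p1 ∈ (eh U (comp U g true) (fun i => w i (F i).1) ξ).1 := by
      apply RO.subset_cl
      refine ⟨fun η => (x η).2, snd_mem_comp hx, ?_⟩
      filter_upwards [hF, hp1c, hc] with η h1 h2 h3
      rw [← h2]
      exact h1.2.2.2.1 h3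
    have hE0 := RO.mp hbi1.2 hE1
    obtain ⟨r0, -, t, ⟨q, hq, hqt⟩, -⟩ := RO.mem_cl.1 hE0 p1 (le_refl _)
    obtain ⟨q', -, hq'⟩ := (gen_comp hg false).dir q hq _ (fst_mem_comp hx)
    obtain ⟨η, h1, h2, h3, h4, h5, h6⟩ := (hF.and (hc.and (hqt.and (hq'.and
      ((un_mono h t t (le_refl _)).and (un_apply h t)))))).exists
    have h7 : (x η).1.1 (F η).1 = some false := by
      rw [h1.2.2.1, h2]
    have h8 : (q' η).1 (F η).1 = some false := by
      rw [h4.2 (F η).1 (by rw [h7]; exact Option.some_ne_none _), h7]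
    have h9 : un t (q' η) ∈ (GG (F η).1 ξ).1 := RO.mem_lower h3 (h5 _ _ h4.1)
    have h10 := h6 (q' η) (F η).1 false h8
    obtain ⟨z, hz, y, hy, hzy⟩ := RO.mem_cl.1 h9 _ (le_refl _)
    have hy' : y.1 (F η).1 = some true := hy
    have h11 : z.1 (F η).1 = some true := by
      rw [hzy (F η).1 (by rw [hy']; exact Option.some_ne_none _), hy']
    have h12 : z.1 (F η).1 = some false := by
      rw [hz (F η).1 (by rw [h10]; exact Option.some_ne_none _), h10]
    rw [h11] at h12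
    exact absurd h12 (by decide)
  · have hE0 : p1 ∈ (eh U (comp U g false) (fun i => GG (F i).1) ξ).1 := by
      apply RO.subset_cl
      refine ⟨fun η => (x η).1, fst_mem_comp hx, ?_⟩
      filter_upwards [hF, hc, un_apply h p1] with η h1 h3 h4
      apply RO.subset_cl
      have h5 : (x η).1.1 (F η).1 = some true := by
        rw [h1.2.2.1, h3]
      exact h4 _ _ _ h5
    have hE1 := RO.mp hbi1.1 hE0
    obtain ⟨r0, hr0, t, ⟨q, hq, hqt⟩, hr0t⟩ := RO.mem_cl.1 hE1 p1 (le_refl _)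
    obtain ⟨q', -, hq'⟩ := (gen_comp hg true).dir q hq _ (snd_mem_comp hx)
    obtain ⟨η, h1, h2, h3, h4, h5, h6, h7⟩ := (hF.and (hc.and (hqt.and (hq'.and
      ((un_mono h r0 t hr0t).and ((un_mono h r0 p1 hr0).and hp1c)))))).exists
    have h8 : un r0 (q' η) ∈ (w η (F η).1 ξ).1 := RO.mem_lower h3 (h5 _ _ h4.1)
    have h9 : un p1 (x η).2 ∈ ((w η (F η).1 ξ)ᶜ).1 := by
      rw [← h7]
      exact h1.2.2.2.2 h2
    exact (RO.mem_compl _ _).1 h9 _ (h6 _ _ h4.2) h8

end IM
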