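import Pool.Agent.W_MP_0bf392_lc.CHom

/-!
# The fusion lemma
-/

universe u v

namespace IM

open Cardinal Filter

variable {I : Type u} [LinearOrder I] [WellFoundedLT I] {U : Ultrafilter I}

/-- A property of conditions which holds almost everywhere holds, for almost all `η`, for all
conditions which are bounded below `η`. -/
theorem diag_cond (h : NormalMeasure U) {ξ : I} (R : Cond ξ → I → Prop)
    (hR : ∀ p, ∀ᶠ η in U, R p η) :
    ∀ᶠ η in U, ∀ p : Cond ξ, (∃ m < η, Bdd m p.1) → R p η := by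
  obtain ⟨E, hE⟩ := h.enum
  have hA : ∀ k : I, {η | ∀ p : Cond ξ, p.1 = E k → R p η} ∈ U := by
    intro k
    by_cases hk : ∃ p : Cond ξ, p.1 = E k
    · obtain ⟨p, hp⟩ := hk
      refine Filter.mem_of_superset (hR p) ?_
      intro η hη p' hp'
      have : p' = p := Subtype.ext (hp'.trans hp.symm)
      rw [this]
      exact hη
    · refine Filter.mem_of_superset Filter.univ_mem ?_
      intro η _ p' hp'
      exact absurd ⟨p', hp'⟩ hk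
  have hd : ∀ᶠ η in U, ∀ k < η, η ∈ {η | ∀ p : Cond ξ, p.1 = E k → R p η} := h.diag _ hA
  filter_upwards [hE, hd] with η h1 h2 p hp
  obtain ⟨j, hj, hjp⟩ := h1 p.1 hp
  exact h2 j hj p hjp.symm

/-- Decreasing sequences meeting the requirements `P j`. -/
theorem exists_seq {X : Type u} [Preorder X] (η : I)
    (hcl : ∀ k ≤ η, ∀ p : I → X, (∀ i < k, ∀ j < k, p i ≤ p j ∨ p j ≤ p i) →
      ∃ q, ∀ j < k, q ≤ p j)
    (P : I → X → Prop) (x0 : X) (hstep : ∀ j < η, ∀ x ≤ x0, ∃ y ≤ x, P j y) :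
    ∃ x ≤ x0, ∀ j < η, ∃ y, x ≤ y ∧ P j y := by
  classical
  let F : (j : I) → ((i : I) → i < j → X) → X := fun j s =>
    if h : ∃ y, y ≤ x0 ∧ (∀ i (hi : i < j), y ≤ s i hi) ∧ P j y then h.choose else x0
  let s : I → X := (wellFounded_lt : WellFounded (· < · : I → I → Prop)).fix F
  have hs : ∀ j, s j = F j (fun i _ => s i) := fun j => WellFounded.fix_eq _ F j
  have lb : ∀ k ≤ η, (∀ j < k, s j ≤ x0 ∧ ∀ i < j, s j ≤ s i) →
      ∃ z ≤ x0, ∀ i < k, z ≤ s i := by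
    intro k hk hj
    by_cases hex : ∃ i, i < k
    · obtain ⟨i0, hi0⟩ := hex
      obtain ⟨z, hz⟩ := hcl k hk s (by
        intro i hi j hj'
        rcases lt_trichotomy i j with hij | hij | hij
        · exact Or.inr ((hj j hj').2 i hij)
        · rw [hij]; exact Or.inl le_rfl
        · exact Or.inl ((hj i hi).2 j hij))
      exact ⟨z, (hz i0 hi0).trans (hj i0 hi0).1, hz⟩
    · push Not at hex
      exact ⟨x0, le_rfl, fun i hi => absurd hi (not_lt.mpr (hex i))⟩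
  have key : ∀ j, j < η → (s j ≤ x0 ∧ ∀ i < j, s j ≤ s i) ∧ P j (s j) := by
    intro j
    induction j using WellFoundedLT.induction with
    | ind j ih =>
      intro hj
      have hex : ∃ y, y ≤ x0 ∧ (∀ i (_ : i < j), y ≤ s i) ∧ P j y := by
        obtain ⟨z, hz0, hz⟩ := lb j hj.le (fun i hi => (ih i hi (hi.trans hj)).1)
        obtain ⟨y, hy, hP⟩ := hstep j hj z hz0
        exact ⟨y, hy.trans hz0, fun i hi => hy.trans (hz i hi), hP⟩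
      have h1 : s j = hex.choose := by
        rw [hs j]
        exact dif_pos hex
      have h2 := hex.choose_spec
      rw [← h1] at h2
      exact ⟨⟨h2.1, h2.2.1⟩, h2.2.2⟩
  obtain ⟨z, hz0, hz⟩ := lb η le_rfl (fun j hj => (key j hj).1)
  exact ⟨z, hz0, fun j hj => ⟨s j, hz j hj, (key j hj).2⟩⟩

/-- The fusion lemma. -/
theorem fusion (h : NormalMeasure U) {g : Set (∀ η : I, Cond η)} (hg : IsGen U g) {ξ : I}
    (p : Cond ξ) (q : ∀ η : I, Cond η) (hq : q ∈ g) (A : I → Type u)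
    (w : ∀ η, A η → RO (Cond ξ)) (hw : ∀ᶠ η in U, un p (q η) ∈ (⨆ a, w η a).1) :
    ∃ p' ≤ p, ∃ q' ∈ g, ∃ f : ∀ η, Option (A η), ∀ᶠ η in U,
      ∃ a, f η = some a ∧ un p' (q' η) ∈ (w η a).1 := by
  classical
  obtain ⟨E, hE⟩ := h.enum
  have f1 : ∀ᶠ η in U, ∀ p1 : Cond ξ, (∃ m < η, Bdd m p1.1) →
      (p1 ≤ p → ∀ q q' : Cond η, q ≤ q' → un p1 q ≤ un p q') := by
    refine diag_cond h (fun p1 η => p1 ≤ p → ∀ q q' : Cond η, q ≤ q' → un p1 q ≤ un p q')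
      (fun p1 => ?_)
    by_cases hp1 : p1 ≤ p
    · filter_upwards [un_mono h p1 p hp1] with η hη _
      exact hη
    · exact Filter.Eventually.of_forall fun η h' => absurd h' hp1
  have f2 : ∀ᶠ η in U, ∀ p1 : Cond ξ, (∃ m < η, Bdd m p1.1) →
      (∀ q q' : Cond η, q ≤ q' → un p1 q ≤ un p1 q') :=
    diag_cond h (fun p1 η => ∀ q q' : Cond η, q ≤ q' → un p1 q ≤ un p1 q')
      (fun p1 => un_mono h p1 p1 le_rfl)
  have f3 : ∀ᶠ η in U, ∀ p1 : Cond ξ, (∃ m < η, Bdd m p1.1) →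
      (∀ q : Cond η, ∀ r : Cond ξ, r ≤ un p1 q →
      ∃ (p' : Cond ξ) (q' : Cond η), p' ≤ p1 ∧ q' ≤ q ∧ (∃ m < η, Bdd m p'.1) ∧ r = un p' q') :=
    diag_cond h (fun p1 η => ∀ q : Cond η, ∀ r : Cond ξ, r ≤ un p1 q →
      ∃ (p' : Cond ξ) (q' : Cond η), p' ≤ p1 ∧ q' ≤ q ∧ (∃ m < η, Bdd m p'.1) ∧ r = un p' q')
      (fun p1 => un_split h p1)
  -- the dense sets
  let Q : ∀ η : I, Cond η → Prop := fun η q' => ∀ p1 : Cond ξ, p1 ≤ p → (∃ m < η, Bdd m p1.1) →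
    ∃ p2 : Cond ξ, p2 ≤ p1 ∧ (∃ m < η, Bdd m p2.1) ∧ ∃ a, un p2 q' ∈ (w η a).1
  let good : I → Prop := fun η => ∀ q0 : Cond η, (∃ r, r ≤ q0 ∧ r ≤ q η) → ∃ q' ≤ q0, Q η q'
  have hgood : ∀ᶠ η in U, good η := by
    filter_upwards [f1, f2, f3, hE, hw] with η h1 h2 h3 h4 h5
    intro q0 hq0
    obtain ⟨r0, hr0, hr0'⟩ := hq0
    obtain ⟨x, hx0, hx⟩ := exists_seq (I := I) (X := Cond η) η
      (fun k hk p hp => Cond.closed h k hk p hp)
      (fun j y => ∀ p1 : Cond ξ, p1 ≤ p → (∃ m < η, Bdd m p1.1) → p1.1 = E j →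
        ∃ p2 : Cond ξ, p2 ≤ p1 ∧ (∃ m < η, Bdd m p2.1) ∧ ∃ a, un p2 y ∈ (w η a).1) r0 (by
      intro j hj x hx
      by_cases hp1 : ∃ p1 : Cond ξ, p1 ≤ p ∧ (∃ m < η, Bdd m p1.1) ∧ p1.1 = E j
      · obtain ⟨p1, hp1, hb, hpE⟩ := hp1
        have h6 : un p1 x ≤ un p (q η) := h1 p1 hb hp1 x (q η) (hx.trans hr0')
        obtain ⟨r, hr, a, hra⟩ := (RO.mem_iSup _ _).mp h5 _ h6
        obtain ⟨p2, y, hp2, hy, hb2, hre⟩ := h3 p1 hb x r hr
        refine ⟨y, hy, ?_⟩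
        intro p1' hp1' hb' hE'
        have : p1' = p1 := Subtype.ext (hE'.trans hpE.symm)
        subst this
        exact ⟨p2, hp2, hb2, a, by rw [← hre]; exact hra⟩
      · refine ⟨x, le_rfl, ?_⟩
        intro p1' hp1' hb' hE'
        exact absurd ⟨p1', hp1', hb', hE'⟩ hp1)
    refine ⟨x, hx0.trans hr0, ?_⟩
    intro p1 hp1 hb
    obtain ⟨j, hj, hEj⟩ := h4 p1.1 hb
    obtain ⟨y, hxy, hy⟩ := hx j hj
    obtain ⟨p2, hp2, hb2, a, ha⟩ := hy p1 hp1 hb hEj.symm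
    exact ⟨p2, hp2, hb2, a, RO.mem_lower ha (h2 p2 hb2 x y hxy)⟩
  let Δ : ∀ η : I, Set (Cond η) := fun η =>
    {q' | good η → ((¬ ∃ r, r ≤ q' ∧ r ≤ q η) ∨ Q η q')}
  obtain ⟨q', hq'g, hq'⟩ := hg.gen Δ (by
    intro η q0
    by_cases hgd : good η
    · by_cases hc : ∃ r, r ≤ q0 ∧ r ≤ q η
      · obtain ⟨q1, hq1, hQ⟩ := hgd q0 hc
        exact ⟨q1, fun _ => Or.inr hQ, hq1⟩
      · exact ⟨q0, fun _ => Or.inl hc, le_rfl⟩
    · exact ⟨q0, fun h' => absurd h' hgd, le_rfl⟩)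
  obtain ⟨r, _, hr⟩ := hg.dir q' hq'g q hq
  have hQ : ∀ᶠ η in U, Q η (q' η) := by
    filter_upwards [hgood, hq', hr] with η h1 h2 h3
    rcases h2 h1 with h4 | h4
    · exact absurd ⟨r η, h3.1, h3.2⟩ h4
    · exact h4
  obtain ⟨m, hm⟩ := p.2.bdd
  have hpb : ∀ᶠ η in U, ∃ m < η, Bdd m p.1 := by
    have : ∀ᶠ η in U, m < η := h.tail m
    filter_upwards [this] with η hη
    exact ⟨m, hη, hm⟩
  have hex : ∀ η, ∃ (p2 : Cond ξ) (f : Option (A η)), Q η (q' η) → (∃ m < η, Bdd m p.1) →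
      p2 ≤ p ∧ (∃ m < η, Bdd m p2.1) ∧ ∃ a, f = some a ∧ un p2 (q' η) ∈ (w η a).1 := by
    intro η
    by_cases hh : Q η (q' η) ∧ ∃ m < η, Bdd m p.1
    · obtain ⟨p2, hp2, hb2, a, ha⟩ := hh.1 p le_rfl hh.2
      exact ⟨p2, some a, fun _ _ => ⟨hp2, hb2, a, rfl, ha⟩⟩
    · exact ⟨p, none, fun h1 h2 => absurd ⟨h1, h2⟩ hh⟩
  choose P f hPf using hex
  obtain ⟨p₀, hp₀⟩ := h.press_fun (fun η => (P η).1) (by
    filter_upwards [hQ, hpb] with η h1 h2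
    exact (hPf η h1 h2).2.1)
  obtain ⟨η₀, h1, h2, h3⟩ := (hQ.and (hpb.and hp₀)).exists
  refine ⟨P η₀, (hPf η₀ h1 h2).1, q', hq'g, f, ?_⟩
  filter_upwards [hQ, hpb, hp₀] with η g1 g2 g3
  obtain ⟨_, _, a, ha, hau⟩ := hPf η g1 g2
  have : P η = P η₀ := Subtype.ext (g3.trans h3.symm)
  rw [this] at hau
  exact ⟨a, ha, hau⟩

end IM
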