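import Pool.Agent.W_MP_0bf392_lc.CNorm

/-!
# Generic filters over the ultrapower
-/

universe u v

namespace IM

open Cardinal Filter

variable {I : Type u} [LinearOrder I] [WellFoundedLT I]

/-- `g` is (a set of representatives of) a filter on the ultraproduct of the preorders `Q η`
which is generic over the ultrapower. -/
structure IsGen (U : Ultrafilter I) {Q : I → Type u} [∀ η, Preorder (Q η)]
    (g : Set (∀ η, Q η)) : Prop where
  up : ∀ q ∈ g, ∀ q', (∀ᶠ η in U, q η ≤ q' η) → q' ∈ g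
  dir : ∀ q ∈ g, ∀ q' ∈ g, ∃ r ∈ g, ∀ᶠ η in U, r η ≤ q η ∧ r η ≤ q' η
  gen : ∀ Δ : ∀ η, Set (Q η), (∀ η, ∀ p, ∃ q ∈ Δ η, q ≤ p) → ∃ q ∈ g, ∀ᶠ η in U, q η ∈ Δ η

/-- A sequence of at most `κ` elements of the product which is decreasing modulo `U` has a lower
bound modulo `U`. -/
theorem lower_bound {U : Ultrafilter I} (h : NormalMeasure U) {Q : I → Type u}
    [∀ η, Preorder (Q η)] (hne : ∀ η, Nonempty (Q η))
    (hcl : ∀ η, ∀ k ≤ η, ∀ p : I → Q η, (∀ i < k, ∀ j < k, p i ≤ p j ∨ p j ≤ p i) →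
      ∃ q, ∀ j < k, q ≤ p j)
    (p : I → ∀ η, Q η)
    (hp : ∀ i j, (∀ᶠ η in U, p i η ≤ p j η) ∨ (∀ᶠ η in U, p j η ≤ p i η)) :
    ∃ q : ∀ η, Q η, ∀ j, ∀ᶠ η in U, q η ≤ p j η := by
  classical
  have h1 : ∀ i j, {η | p i η ≤ p j η ∨ p j η ≤ p i η} ∈ U := by
    intro i j
    rcases hp i j with h2 | h2
    · filter_upwards [h2] with η hη using Or.inl hη
    · filter_upwards [h2] with η hη using Or.inr hη
  have h2 : ∀ i, {η | ∀ j < η, p i η ≤ p j η ∨ p j η ≤ p i η} ∈ U := fun i =>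
    h.diag _ (h1 i)
  have h3 := h.diag _ h2
  let q : ∀ η, Q η := fun η =>
    if hη : ∀ i < η, ∀ j < η, p i η ≤ p j η ∨ p j η ≤ p i η then
      (hcl η η le_rfl (fun i => p i η) hη).choose
    else Classical.choice (hne η)
  refine ⟨q, fun j => ?_⟩
  filter_upwards [h3, h.tail j] with η h4 h5
  have h6 : ∀ i < η, ∀ j < η, p i η ≤ p j η ∨ p j η ≤ p i η := h4
  have h7 : q η = (hcl η η le_rfl (fun i => p i η) h6).choose := dif_pos h6
  rw [h7]
  exact (hcl η η le_rfl (fun i => p i η) h6).choose_spec j h5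

/-- Existence of generic filters. -/
theorem exists_gen {U : Ultrafilter I} (h : NormalMeasure U) (hI : 2 ^ #I = Order.succ #I)
    {Q : I → Type u} [∀ η, Preorder (Q η)] (hne : ∀ η, Nonempty (Q η))
    (hcard : ∀ η, #(Q η) ≤ #I)
    (hcl : ∀ η, ∀ k ≤ η, ∀ p : I → Q η, (∀ i < k, ∀ j < k, p i ≤ p j ∨ p j ≤ p i) →
      ∃ q, ∀ j < k, q ≤ p j) :
    ∃ g : Set (∀ η, Q η), IsGen U g := by
  classical
  have hinf : ℵ₀ ≤ #I := by
    obtain ⟨i, hi⟩ := h.inf
    have h1 : ℵ₀ ≤ #{k | k < i} := Cardinal.aleph0_le_mk_iff.2 (Set.infinite_coe_iff.2 hi)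
    exact h1.trans (Cardinal.mk_set_le _)
  have hT : #(∀ η, Set (Q η)) ≤ Order.succ #I := by
    rw [← hI]
    calc #(∀ η, Set (Q η)) ≤ #(∀ _ : I, Set I) := by
          obtain ⟨f⟩ : Nonempty (∀ η, Q η ↪ I) := by
            exact ⟨fun η => Classical.choice ((Cardinal.le_def _ _).1 (hcard η))⟩
          refine Cardinal.mk_le_of_injective (f := fun Δ η => (f η) '' (Δ η)) ?_
          intro Δ Δ' hΔ
          funext η
          have := congrFun hΔ η
          exact (f η).injective.image_injective this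
      _ = 2 ^ #I := by
          rw [show #(∀ _ : I, Set I) = #(Set I) ^ #I by simp, Cardinal.mk_set, ← Cardinal.power_mul,
            Cardinal.mul_eq_self hinf]
  -- a well-order of the families of order type at most `κ⁺`
  obtain ⟨r, wo, hr⟩ := exists_ord_eq (∀ η, Set (Q η))
  have hini : ∀ Δ : (∀ η, Set (Q η)), #{Δ' // r Δ' Δ} ≤ #I := by
    intro Δ
    have h1 := card_typein_lt Δ hr
    have h2 : (Ordinal.typein r Δ).card = #{Δ' // r Δ' Δ} := rfl
    rw [h2] at h1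
    exact Order.lt_succ_iff.1 (h1.trans_le hT)
  have wf : WellFounded r := wo.wf
  let ok : (∀ η, Set (Q η)) → Prop := fun Δ => ∀ η, ∀ p, ∃ q ∈ Δ η, q ≤ p
  let F : (Δ : ∀ η, Set (Q η)) → ((Δ' : ∀ η, Set (Q η)) → r Δ' Δ → (∀ η, Q η)) → (∀ η, Q η) :=
    fun Δ q =>
      if hx : ∃ x : ∀ η, Q η, (∀ Δ' (h' : r Δ' Δ), ∀ᶠ η in U, x η ≤ q Δ' h' η) ∧
        (ok Δ → ∀ᶠ η in U, x η ∈ Δ η) then hx.choose else fun η => Classical.choice (hne η)
  let q : (Δ : ∀ η, Set (Q η)) → (∀ η, Q η) := wf.fix F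
  have key : ∀ Δ, (∀ Δ', r Δ' Δ → ∀ᶠ η in U, q Δ η ≤ q Δ' η) ∧
      (ok Δ → ∀ᶠ η in U, q Δ η ∈ Δ η) := by
    intro Δ
    induction Δ using wf.induction with
    | _ Δ ih =>
      have hx : ∃ x : ∀ η, Q η, (∀ Δ' (h' : r Δ' Δ), ∀ᶠ η in U, x η ≤ q Δ' η) ∧
        (ok Δ → ∀ᶠ η in U, x η ∈ Δ η) := by
        -- a lower bound of the previous elements
        obtain ⟨y, hy⟩ : ∃ y : ∀ η, Q η, ∀ Δ' (h' : r Δ' Δ), ∀ᶠ η in U, y η ≤ q Δ' η := by
          by_cases hem : Nonempty {Δ' // r Δ' Δ}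
          · obtain ⟨f⟩ : Nonempty ({Δ' // r Δ' Δ} ↪ I) :=
              (Cardinal.le_def _ _).1 (hini Δ)
            let e : I → {Δ' // r Δ' Δ} := Function.invFun f
            have he : ∀ x, e (f x) = x := Function.leftInverse_invFun f.injective
            obtain ⟨y, hy⟩ := lower_bound h hne hcl (fun i => q (e i).1) (by
              intro i j
              rcases trichotomous_of r (e i).1 (e j).1 with h1 | h1 | h1
              · right
                exact (ih _ (e j).2).1 _ h1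
              · left
                rw [h1]
                exact Filter.Eventually.of_forall fun η => le_rfl
              · left
                exact (ih _ (e i).2).1 _ h1)
            refine ⟨y, fun Δ' h' => ?_⟩
            have := hy (f ⟨Δ', h'⟩)
            rw [he] at this
            exact this
          · exact ⟨fun η => Classical.choice (hne η), fun Δ' h' => absurd ⟨⟨Δ', h'⟩⟩ hem⟩
        by_cases hok : ok Δ
        · choose x hx1 hx2 using fun η => hok η (y η)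
          refine ⟨x, fun Δ' h' => ?_, fun _ => Filter.Eventually.of_forall hx1⟩
          filter_upwards [hy Δ' h'] with η hη using (hx2 η).trans hη
        · exact ⟨y, hy, fun h1 => absurd h1 hok⟩
      have hq : q Δ = hx.choose := by
        change wf.fix F Δ = _
        rw [wf.fix_eq]
        exact dif_pos hx
      rw [hq]
      exact hx.choose_spec
  refine ⟨{x | ∃ Δ, ∀ᶠ η in U, q Δ η ≤ x η}, ?_, ?_, ?_⟩
  · rintro x ⟨Δ, hx⟩ x' hxx'
    refine ⟨Δ, ?_⟩
    filter_upwards [hx, hxx'] with η h1 h2 using h1.trans h2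
  · rintro x ⟨Δ, hx⟩ x' ⟨Δ', hx'⟩
    rcases trichotomous_of r Δ Δ' with h1 | h1 | h1
    · refine ⟨q Δ', ⟨Δ', Filter.Eventually.of_forall fun η => le_rfl⟩, ?_⟩
      filter_upwards [hx, hx', (key Δ').1 Δ h1] with η h2 h3 h4 using ⟨h4.trans h2, h3⟩
    · subst h1
      refine ⟨q Δ, ⟨Δ, Filter.Eventually.of_forall fun η => le_rfl⟩, ?_⟩
      filter_upwards [hx, hx'] with η h2 h3 using ⟨h2, h3⟩
    · refine ⟨q Δ, ⟨Δ, Filter.Eventually.of_forall fun η => le_rfl⟩, ?_⟩
      filter_upwards [hx, hx', (key Δ).1 Δ' h1] with η h2 h3 h4 using ⟨h2, h4.trans h3⟩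
  · intro Δ hΔ
    exact ⟨q Δ, ⟨Δ, Filter.Eventually.of_forall fun η => le_rfl⟩, (key Δ).2 hΔ⟩

end IM
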