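import Pool.Agent.W_MP_0bf392_lc.Defs

/-!
# The data from which the two models are built

`D` is a complete Boolean algebra, `lam` a countably complete ultrafilter on `D` and
`e false, e true : (I → D) → D` are two (names for) ultrafilters on `I`.
-/

universe u v

namespace IM

/-- `lam` is a countably complete ultrafilter on `D`. -/
structure IsUlt {D : Type u} [CompleteBooleanAlgebra D] (lam : D → Prop) : Prop where
  top : lam ⊤
  bot : ¬ lam ⊥
  mono : ∀ {a b : D}, a ≤ b → lam a → lam b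
  compl : ∀ a : D, lam a ∨ lam aᶜ
  iInf : ∀ a : ℕ → D, (∀ n, lam (a n)) → lam (⨅ n, a n)

/-- `e : (I → D) → D` is a generic countably complete homomorphism which extends the countably
complete ultrafilter `U`. -/
structure IsHom {I : Type u} (U : Ultrafilter I) {D : Type u} [CompleteBooleanAlgebra D]
    (e : (I → D) → D) : Prop where
  sigma : ∀ A : ℕ → Set I, (∀ n, A n ∈ U) → {i | ∀ n, i ∈ A n} ∈ U
  ae : ∀ u v : I → D, (∀ᶠ i in U, u i = v i) → e u = e v
  const : ∀ a : D, e (fun _ => a) = a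
  inf : ∀ u v : I → D, e (fun i => u i ⊓ v i) = e u ⊓ e v
  compl : ∀ u : I → D, e (fun i => (u i)ᶜ) = (e u)ᶜ
  iInf : ∀ u : ℕ → I → D, e (fun i => ⨅ n, u n i) = ⨅ n, e (u n)
  sup : ∀ (A : I → Type u) (u : ∀ i, A i → D),
    e (fun i => ⨆ a, u i a) = ⨆ f : ∀ i, Option (A i), e (fun i => (f i).elim ⊥ (u i))

/-- The truth value of an equivalence. -/
def biimp {D : Type u} [CompleteBooleanAlgebra D] (a b : D) : D := (aᶜ ⊔ b) ⊓ (bᶜ ⊔ a)

/-- The data. -/
structure Data {I : Type u} [LinearOrder I] [WellFoundedLT I] (U : Ultrafilter I) {D : Type u}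
    [CompleteBooleanAlgebra D] (lam : D → Prop) (e : Bool → (I → D) → D) : Prop where
  ult : IsUlt lam
  hom : ∀ b, IsHom U (e b)
  /-- functions bounded by `j` are almost everywhere constant -/
  crit : ∀ (j : I) (f : I → I), (∀ i, f i < j) → ∃ k, ∀ᶠ i in U, f i = k
  /-- on a set `D0` of truth values which decides everything modulo `lam`, the two
  homomorphisms agree -/
  dec : ∃ D0 : Set D, ⊤ ∈ D0 ∧ ⊥ ∈ D0 ∧
    (∀ u : I → D, (∀ i, u i ∈ D0) → e false u = e true u) ∧
    ∀ (A : Type u) (u : A → D), lam (⨆ a, u a) → ∃ z : A → D, (∀ a, z a ∈ D0) ∧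
      (∀ a b, a ≠ b → z a ⊓ z b = ⊥) ∧ lam (⨆ a, z a ⊓ u a)
  /-- the two ultrapowers are different -/
  dist : ∃ G : I → D, ∀ w : I → I → D,
    ¬ lam (⨅ f : I → I, biimp (e false (fun i => G (f i))) (e true (fun i => w i (f i))))

end IM
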