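import Pool.Agent.W_MP_0bf392_lc.CPoset
import Pool.Agent.W_MP_0bf392_lc.CGen
import Pool.Agent.W_MP_0bf392_lc.RO
import Pool.Agent.W_MP_0bf392_lc.Data

/-!
# The homomorphisms given by generic filters
-/

universe u v

namespace IM

open Cardinal Filter

variable {I : Type u} [LinearOrder I] [WellFoundedLT I]

open Classical in
/-- The union of a condition with parameter `ξ` and a condition with parameter `η`. -/
noncomputable def un {ξ η : I} (p : Cond ξ) (q : Cond η) : Cond ξ :=
  if h : IsCond ξ (join p.1 q.1) then ⟨_, h⟩ else p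

/-- The algebra of truth values. -/
abbrev DD (I : Type u) [LinearOrder I] : Type u := ∀ ξ : I, RO (Cond ξ)

variable {U : Ultrafilter I}

theorem un_join_some {p q : I → Option Bool} {x : I} (hx : p x ≠ none) : join p q x = p x := by
  unfold join
  cases h : p x with
  | none => exact absurd h hx
  | some c => rfl

theorem un_join_none {p q : I → Option Bool} {x : I} (hx : p x = none) : join p q x = q x := by
  unfold join
  rw [hx]
  rfl

theorem un_le_left {ξ η : I} (p : Cond ξ) (q : Cond η) : un p q ≤ p := by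
  unfold un
  split
  · intro x hx
    exact un_join_some hx
  · exact le_refl p

theorem un_eq_of {ξ η : I} (p : Cond ξ) (q : Cond η) (h : IsCond ξ (join p.1 q.1)) :
    (un p q).1 = join p.1 q.1 := by
  unfold un
  rw [dif_pos h]

/-- The tail of `U` above two points. -/
theorem un_ev_tail (h : NormalMeasure U) (ξ m : I) : ∀ᶠ η in U, ξ < η ∧ m < η := by
  filter_upwards [h.tail ξ, h.tail m] with η h1 h2
  exact ⟨h1, h2⟩

/-- For almost all `η` the union is the union. -/
theorem un_val (h : NormalMeasure U) {ξ : I} (p : Cond ξ) :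
    ∀ᶠ η in U, ∀ q : Cond η, (un p q).1 = join p.1 q.1 := by
  obtain ⟨m, hm⟩ := p.2.bdd
  filter_upwards [un_ev_tail h ξ m] with η hη q
  exact un_eq_of p q (isCond_join p.2 q.2 hη.1.le ⟨m, hη.2, hm⟩)

theorem un_mono (h : NormalMeasure U) {ξ : I} (p p' : Cond ξ) (hp : p ≤ p') :
    ∀ᶠ η in U, ∀ q q' : Cond η, q ≤ q' → un p q ≤ un p' q' := by
  obtain ⟨m, hm⟩ := p.2.bdd
  filter_upwards [un_ev_tail h ξ m, un_val h p, un_val h p'] with η hη h1 h2 q q' hq x hx
  rw [h2 q'] at hx ⊢
  rw [h1 q]
  by_cases hx' : p'.1 x = none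
  · rw [un_join_none hx'] at hx ⊢
    have h3 : η ≤ x := q'.2.ge x hx
    have h4 : p.1 x = none := by
      by_contra h5
      exact absurd (hm x h5) (not_le.2 (lt_of_lt_of_le hη.2 h3))
    rw [un_join_none h4]
    exact hq x hx
  · rw [un_join_some hx']
    have h3 := hp x hx'
    rw [un_join_some (by rw [h3]; exact hx'), h3]

/-- For almost all `η`, a condition below a union splits. -/
theorem un_split (h : NormalMeasure U) {ξ : I} (p : Cond ξ) :
    ∀ᶠ η in U, ∀ q : Cond η, ∀ r : Cond ξ, r ≤ un p q →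
      ∃ (p' : Cond ξ) (q' : Cond η), p' ≤ p ∧ q' ≤ q ∧ (∃ m < η, Bdd m p'.1) ∧ r = un p' q' := by
  obtain ⟨m, hm⟩ := p.2.bdd
  filter_upwards [un_ev_tail h ξ m, un_val h p, h.reg] with η hη h1 hreg q r hr
  refine ⟨⟨below η r.1, isCond_below r.2⟩, ⟨above η r.1, isCond_above r.2 hη.1.le⟩, ?_, ?_,
    below_bdd r.2 hη.1 hreg, ?_⟩
  · intro x hx
    have h2 : x < η := lt_of_le_of_lt (hm x hx) hη.2
    have h3 : below η r.1 x = r.1 x := if_pos h2
    have h4 : (un p q).1 x = p.1 x := by rw [h1 q, un_join_some hx]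
    show below η r.1 x = p.1 x
    rw [h3, hr x (by rw [h4]; exact hx), h4]
  · intro x hx
    have h2 : η ≤ x := q.2.ge x hx
    have h3 : above η r.1 x = r.1 x := if_pos h2
    have h5 : p.1 x = none := by
      by_contra h6
      exact absurd (hm x h6) (not_le.2 (lt_of_lt_of_le hη.2 h2))
    have h4 : (un p q).1 x = q.1 x := by rw [h1 q, un_join_none h5]
    show above η r.1 x = q.1 x
    rw [h3, hr x (by rw [h4]; exact hx), h4]
  · apply Subtype.ext
    have h2 := join_below_above η r.1
    rw [un_eq_of _ _ (by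
      show IsCond ξ (join (below η r.1) (above η r.1))
      rw [h2]
      exact r.2)]
    exact h2.symm

end IM
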