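import Pool.Agent.W_MP_0bf392_lc.CFus

/-!
# The homomorphism given by a generic filter
-/

universe u v

namespace IM

open Cardinal Filter

variable {I : Type u} [LinearOrder I] [WellFoundedLT I] {U : Ultrafilter I}

/-- The homomorphism given by `g`. -/
noncomputable def eh (U : Ultrafilter I) (g : Set (∀ η : I, Cond η)) (u : I → DD I) : DD I :=
  fun ξ => RO.cl {p | ∃ q ∈ g, ∀ᶠ η in U, un p (q η) ∈ (u η ξ).1}

/-- The conditions which decide `u` to be true. -/
def ehS (U : Ultrafilter I) (g : Set (∀ η : I, Cond η)) (u : I → DD I) (ξ : I) : Set (Cond ξ) :=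
  {p | ∃ q ∈ g, ∀ᶠ η in U, un p (q η) ∈ (u η ξ).1}

theorem ehS_lower (h : NormalMeasure U) {g : Set (∀ η : I, Cond η)} {u : I → DD I} {ξ : I}
    {p p' : Cond ξ} (hp : p ∈ ehS U g u ξ) (hle : p' ≤ p) : p' ∈ ehS U g u ξ := by
  obtain ⟨q, hq, hp⟩ := hp
  refine ⟨q, hq, ?_⟩
  filter_upwards [hp, un_mono h p' p hle] with η h1 h2
  exact RO.mem_lower h1 (h2 _ _ le_rfl)

theorem mem_eh (h : NormalMeasure U) {g : Set (∀ η : I, Cond η)} {u : I → DD I} {ξ : I}
    {p : Cond ξ} : p ∈ (eh U g u ξ).1 ↔ ∀ q ≤ p, ∃ r ≤ q, r ∈ ehS U g u ξ := by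
  unfold eh
  rw [RO.mem_cl]
  constructor
  · intro hp q hq
    obtain ⟨r, hr, t, ht, hrt⟩ := hp q hq
    exact ⟨r, hr, ehS_lower h ht hrt⟩
  · intro hp q hq
    obtain ⟨r, hr, hr'⟩ := hp q hq
    exact ⟨r, hr, r, hr', le_rfl⟩

theorem mem_eh_of_mem (h : NormalMeasure U) {g : Set (∀ η : I, Cond η)} {u : I → DD I} {ξ : I}
    {p : Cond ξ} (hp : p ∈ ehS U g u ξ) : p ∈ (eh U g u ξ).1 :=
  (mem_eh h).2 fun q hq => ⟨q, le_rfl, ehS_lower h hp hq⟩

theorem eh_mono (h : NormalMeasure U) {g : Set (∀ η : I, Cond η)} {u v : I → DD I}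
    (huv : ∀ᶠ i in U, u i ≤ v i) : eh U g u ≤ eh U g v := by
  intro ξ
  rw [RO.le_iff]
  intro p hp
  rw [mem_eh h] at hp ⊢
  intro q hq
  obtain ⟨r, hr, s, hs, hs'⟩ := hp q hq
  refine ⟨r, hr, s, hs, ?_⟩
  filter_upwards [hs', huv] with η h1 h2
  exact (RO.le_iff _ _).1 (h2 ξ) _ h1

theorem eh_ae (h : NormalMeasure U) {g : Set (∀ η : I, Cond η)} {u v : I → DD I}
    (huv : ∀ᶠ i in U, u i = v i) : eh U g u = eh U g v :=
  le_antisymm (eh_mono h (huv.mono fun _ h => h.le)) (eh_mono h (huv.mono fun _ h => h.ge))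

theorem eh_inf (h : NormalMeasure U) {g : Set (∀ η : I, Cond η)} (hg : IsGen U g)
    (u v : I → DD I) : eh U g (fun i => u i ⊓ v i) = eh U g u ⊓ eh U g v := by
  refine le_antisymm (le_inf (eh_mono h (Eventually.of_forall fun _ => inf_le_left))
    (eh_mono h (Eventually.of_forall fun _ => inf_le_right))) ?_
  intro ξ
  rw [RO.le_iff]
  intro p hp
  rw [Pi.inf_apply, RO.mem_inf, mem_eh h, mem_eh h] at hp
  rw [mem_eh h]
  intro q hq
  obtain ⟨r, hr, hru⟩ := hp.1 q hq
  obtain ⟨t, ht, htv⟩ := hp.2 r (hr.trans hq)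
  obtain ⟨q1, hq1, h1⟩ := ehS_lower h hru ht
  obtain ⟨q2, hq2, h2⟩ := htv
  obtain ⟨q3, hq3, h3⟩ := hg.dir q1 hq1 q2 hq2
  refine ⟨t, ht.trans hr, q3, hq3, ?_⟩
  filter_upwards [h1, h2, h3, un_mono h t t le_rfl] with η a1 a2 a3 a4
  rw [Pi.inf_apply, RO.mem_inf]
  exact ⟨RO.mem_lower a1 (a4 _ _ a3.1), RO.mem_lower a2 (a4 _ _ a3.2)⟩

theorem eh_bot (h : NormalMeasure U) {g : Set (∀ η : I, Cond η)} :
    eh U g (fun _ => ⊥) = ⊥ := by
  rw [eq_bot_iff]
  intro ξ
  rw [RO.le_iff]
  intro p hp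
  rw [mem_eh h] at hp
  obtain ⟨r, -, q, -, hr⟩ := hp p le_rfl
  obtain ⟨η, hη⟩ := hr.exists
  exact absurd hη (RO.mem_bot _)

theorem le_eh_const (h : NormalMeasure U) {g : Set (∀ η : I, Cond η)} (hg : IsGen U g)
    (a : DD I) : a ≤ eh U g (fun _ => a) := by
  obtain ⟨q, hq, -⟩ := hg.gen (fun _ => Set.univ) fun _ p => ⟨p, Set.mem_univ _, le_rfl⟩
  intro ξ
  rw [RO.le_iff]
  intro p hp
  exact mem_eh_of_mem h ⟨q, hq, Eventually.of_forall fun η =>
    RO.mem_lower hp (un_le_left p (q η))⟩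

theorem eh_top (h : NormalMeasure U) {g : Set (∀ η : I, Cond η)} (hg : IsGen U g) :
    eh U g (fun _ => ⊤) = ⊤ := top_le_iff.1 (le_eh_const h hg ⊤)

theorem eh_sup (h : NormalMeasure U) {g : Set (∀ η : I, Cond η)} (hg : IsGen U g)
    (A : I → Type u) (u : ∀ i, A i → DD I) :
    eh U g (fun i => ⨆ a, u i a) =
      ⨆ f : ∀ i, Option (A i), eh U g (fun i => (f i).elim ⊥ (u i)) := by
  refine le_antisymm ?_ (iSup_le fun f => eh_mono h (Eventually.of_forall fun i => ?_))
  · intro ξ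
    rw [RO.le_iff]
    intro p hp
    rw [iSup_apply, RO.mem_iSup]
    rw [mem_eh h] at hp
    intro q hq
    obtain ⟨r, hr, s, hs, hs'⟩ := hp q hq
    have hs'' : ∀ᶠ η in U, un r (s η) ∈ (⨆ a, (fun (η : I) (a : A η) => u η a ξ) η a).1 := by
      filter_upwards [hs'] with η hη
      have := hη
      rw [iSup_apply] at this
      exact this
    obtain ⟨p', hp', q', hq', f, hf⟩ := fusion h hg r s hs A (fun η a => u η a ξ) hs''
    refine ⟨p', hp'.trans hr, f, mem_eh_of_mem h ⟨q', hq', ?_⟩⟩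
    filter_upwards [hf] with η hη
    obtain ⟨a, ha, hmem⟩ := hη
    rw [ha]
    exact hmem
  · rcases f i with _ | a
    · exact bot_le
    · exact le_iSup (u i) a

theorem eh_compl (h : NormalMeasure U) {g : Set (∀ η : I, Cond η)} (hg : IsGen U g)
    (u : I → DD I) : eh U g (fun i => (u i)ᶜ) = (eh U g u)ᶜ := by
  symm
  refine IsCompl.compl_eq ?_
  refine IsCompl.of_eq ?_ ?_
  · rw [← eh_inf h hg, ← eh_bot h (g := g)]
    congr 1
    funext i
    exact inf_compl_self _
  · rw [← top_le_iff, ← eh_top h hg]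
    have h1 : (fun _ : I => (⊤ : DD I)) = fun i => ⨆ b : ULift.{u} Bool,
        (fun (i : I) (b : ULift.{u} Bool) => if b.down then u i else (u i)ᶜ) i b := by
      funext i
      refine le_antisymm ?_ le_top
      rw [← sup_compl_eq_top (x := u i)]
      refine sup_le ?_ ?_
      · exact le_iSup_of_le (ULift.up true) (by simp)
      · exact le_iSup_of_le (ULift.up false) (by simp)
    rw [h1, eh_sup h hg]
    refine iSup_le fun f => ?_
    by_cases h2 : ∀ᶠ i in U, f i = some (ULift.up true)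
    · refine le_sup_of_le_left (eh_mono h ?_)
      filter_upwards [h2] with i hi
      rw [hi]
      simp
    · by_cases h3 : ∀ᶠ i in U, f i = some (ULift.up false)
      · refine le_sup_of_le_right (eh_mono h ?_)
        filter_upwards [h3] with i hi
        rw [hi]
        simp
      · rw [← Ultrafilter.eventually_not] at h2 h3
        refine le_trans (eh_mono h ?_) ((eh_bot h (g := g)).le.trans bot_le)
        filter_upwards [h2, h3] with i hi1 hi2
        rcases hf : f i with _ | ⟨b⟩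
        · simp
        · rcases b with _ | _
          · exact absurd hf hi2
          · exact absurd hf hi1

theorem eh_iInf (h : NormalMeasure U) {g : Set (∀ η : I, Cond η)} (hg : IsGen U g)
    (u : ℕ → I → DD I) : eh U g (fun i => ⨅ n, u n i) = ⨅ n, eh U g (u n) := by
  refine le_antisymm (le_iInf fun n => eh_mono h (Eventually.of_forall fun i => iInf_le _ n)) ?_
  rw [← compl_le_compl_iff_le, ← eh_compl h hg, compl_iInf]
  have h1 : (fun i => (⨅ n, u n i)ᶜ) = fun i => ⨆ b : ULift.{u} ℕ,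
      (fun (i : I) (b : ULift.{u} ℕ) => (u b.down i)ᶜ) i b := by
    funext i
    rw [compl_iInf]
    refine le_antisymm (iSup_le fun n => ?_) (iSup_le fun n => ?_)
    · exact le_iSup (fun b : ULift.{u} ℕ => (u b.down i)ᶜ) (ULift.up n)
    · exact le_iSup (fun n => (u n i)ᶜ) n.down
  rw [h1, eh_sup h hg]
  refine iSup_le fun f => ?_
  obtain ⟨k, hk⟩ := h.const_nat fun i => match f i with
    | none => 0
    | some b => b.down + 1
  rcases k with _ | k
  · refine le_trans (eh_mono h ?_) ((eh_bot h (g := g)).le.trans bot_le)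
    filter_upwards [hk] with i hi
    rcases hf : f i with _ | b
    · simp
    · rw [hf] at hi
      simp at hi
  · refine le_iSup_of_le k ?_
    rw [← eh_compl h hg]
    refine eh_mono h ?_
    filter_upwards [hk] with i hi
    rcases hf : f i with _ | b
    · rw [hf] at hi
      simp at hi
    · rw [hf] at hi
      have : b.down = k := by simpa using hi
      simp only [Option.elim_some]
      rw [this]

theorem hom_eh (h : NormalMeasure U) {g : Set (∀ η : I, Cond η)} (hg : IsGen U g) :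
    IsHom U (eh U g) where
  sigma := h.sigma
  ae _ _ huv := eh_ae h huv
  const a := by
    refine le_antisymm ?_ (le_eh_const h hg a)
    rw [← compl_le_compl_iff_le, ← eh_compl h hg]
    exact le_eh_const h hg aᶜ
  inf := eh_inf h hg
  compl := eh_compl h hg
  iInf := eh_iInf h hg
  sup := eh_sup h hg

end IM
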