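import Pool.Agent.W_MP_0bf392_lc.CHomB

/-!
# The ultrafilter given by a generic filter, and the property `dec`
-/

universe u v

namespace IM

open Cardinal Filter

variable {I : Type u} [LinearOrder I] [WellFoundedLT I] {U : Ultrafilter I}

/-- The ultrafilter given by `g`. -/
def lamh (U : Ultrafilter I) (g : Set (∀ η : I, Cond η)) (u : DD I) : Prop :=
  ∃ q ∈ g, ∀ᶠ ξ in U, q ξ ∈ (u ξ).1

omit [WellFoundedLT I] in
theorem clam_nonempty {g : Set (∀ η : I, Cond η)} (hg : IsGen U g) : ∃ q, q ∈ g := by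
  obtain ⟨q, hq, _⟩ := hg.gen (fun _ => Set.univ) fun _ p => ⟨p, Set.mem_univ p, le_refl p⟩
  exact ⟨q, hq⟩

omit [WellFoundedLT I] in
theorem clam_compl_not {g : Set (∀ η : I, Cond η)} (hg : IsGen U g) {a : DD I}
    (h1 : lamh U g a) (h2 : lamh U g aᶜ) : False := by
  obtain ⟨q, hq, hqa⟩ := h1
  obtain ⟨q', hq', hqa'⟩ := h2
  obtain ⟨r, _, hr⟩ := hg.dir q hq q' hq'
  have h3 : ∀ᶠ ξ in (U : Filter I), False := by
    filter_upwards [hqa, hqa', hr] with ξ h4 h5 h6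
    exact h5 (r ξ) h6.2 (RO.mem_lower h4 h6.1)
  obtain ⟨_, h4⟩ := h3.exists
  exact h4

theorem ult_lamh (h : NormalMeasure U) {g : Set (∀ η : I, Cond η)} (hg : IsGen U g) :
    IsUlt (lamh U g) where
  top := by
    obtain ⟨q, hq⟩ := clam_nonempty hg
    exact ⟨q, hq, Eventually.of_forall fun ξ => RO.mem_top _⟩
  bot := by
    rintro ⟨q, _, hqa⟩
    obtain ⟨ξ, hξ⟩ := hqa.exists
    exact RO.mem_bot _ hξ
  mono := by
    rintro a b hab ⟨q, hq, hqa⟩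
    refine ⟨q, hq, ?_⟩
    filter_upwards [hqa] with ξ hξ
    exact (RO.le_iff _ _).1 (hab ξ) _ hξ
  compl := by
    intro a
    obtain ⟨q, hq, hqa⟩ := hg.gen (fun ξ => {p | p ∈ (a ξ).1 ∨ p ∈ ((a ξ)ᶜ).1}) (by
      intro ξ p
      by_cases h1 : ∃ r ≤ p, r ∈ (a ξ).1
      · obtain ⟨r, hr, hr'⟩ := h1
        exact ⟨r, Or.inl hr', hr⟩
      · exact ⟨p, Or.inr fun r hr hr' => h1 ⟨r, hr, hr'⟩, le_refl p⟩)
    rcases Ultrafilter.eventually_or.1 hqa with h1 | h1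
    · exact Or.inl ⟨q, hq, h1⟩
    · exact Or.inr ⟨q, hq, h1⟩
  iInf := by
    intro a ha
    obtain ⟨q, hq, hqa⟩ := hg.gen
      (fun ξ => {p | (∀ n, p ∈ (a n ξ).1) ∨ ∃ n, p ∈ ((a n ξ)ᶜ).1}) (by
      intro ξ p
      by_cases h1 : ∃ n, ∃ r ≤ p, r ∈ ((a n ξ)ᶜ).1
      · obtain ⟨n, r, hr, hr'⟩ := h1
        exact ⟨r, Or.inr ⟨n, hr'⟩, hr⟩
      · refine ⟨p, Or.inl fun n => RO.mem_of_dense fun r hr => ?_, le_refl p⟩
        by_contra h2
        exact h1 ⟨n, r, hr, fun t ht ht' => h2 ⟨t, ht, ht'⟩⟩)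
    rcases Ultrafilter.eventually_or.1 hqa with h1 | h1
    · refine ⟨q, hq, ?_⟩
      filter_upwards [h1] with ξ hξ
      rw [iInf_apply, RO.mem_iInf]
      exact hξ
    · exfalso
      classical
      obtain ⟨k, hk⟩ := h.const_nat fun ξ => if h2 : ∃ n, q ξ ∈ ((a n ξ)ᶜ).1 then h2.choose else 0
      refine clam_compl_not hg (ha k) ⟨q, hq, ?_⟩
      filter_upwards [h1, hk] with ξ h3 h4
      rw [dif_pos h3] at h4
      rw [← h4]
      exact h3.choose_spec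

omit [WellFoundedLT I] in
theorem clam_eh_const {g : Set (∀ η : I, Cond η)} (hg : IsGen U g) (u : I → DD I)
    (hu : ∀ i ξ, u i ξ = ⊤ ∨ u i ξ = ⊥) (ξ : I) :
    {p | ∃ q ∈ g, ∀ᶠ η in (U : Filter I), un p (q η) ∈ (u η ξ).1} =
      {p : Cond ξ | ∀ᶠ η in (U : Filter I), u η ξ = ⊤} := by
  ext p
  constructor
  · rintro ⟨q, _, hq⟩
    change ∀ᶠ η in (U : Filter I), u η ξ = ⊤
    filter_upwards [hq] with η hη
    rcases hu η ξ with h1 | h1
    · exact h1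
    · rw [h1] at hη
      exact absurd hη (RO.mem_bot _)
  · intro hp
    obtain ⟨q, hq⟩ := clam_nonempty hg
    refine ⟨q, hq, ?_⟩
    filter_upwards [hp] with η hη
    rw [hη]
    exact RO.mem_top _

theorem dec_eh (h : NormalMeasure U) {g : Bool → Set (∀ η : I, Cond η)}
    (hg : ∀ b, IsGen U (g b)) :
    ∃ D0 : Set (DD I), ⊤ ∈ D0 ∧ ⊥ ∈ D0 ∧
      (∀ u : I → DD I, (∀ i, u i ∈ D0) → eh U (g false) u = eh U (g true) u) ∧
      ∀ (A : Type u) (u : A → DD I), lamh U (g false) (⨆ a, u a) →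
        ∃ z : A → DD I, (∀ a, z a ∈ D0) ∧
          (∀ a b, a ≠ b → z a ⊓ z b = ⊥) ∧ lamh U (g false) (⨆ a, z a ⊓ u a) := by
  classical
  refine ⟨{u | ∀ ξ, u ξ = ⊤ ∨ u ξ = ⊥}, fun ξ => Or.inl rfl, fun ξ => Or.inr rfl, ?_, ?_⟩
  · intro u hu
    funext ξ
    unfold eh
    rw [clam_eh_const (hg false) u hu ξ, clam_eh_const (hg true) u hu ξ]
  · rintro A u ⟨q, hq, hqa⟩
    obtain ⟨q', hq', hqa'⟩ := (hg false).gen
      (fun ξ => {p | (∃ a, p ∈ (u a ξ).1) ∨ p ∈ ((⨆ a, u a ξ)ᶜ).1}) (by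
      intro ξ p
      by_cases h1 : ∃ r ≤ p, ∃ a, r ∈ (u a ξ).1
      · obtain ⟨r, hr, a, ha⟩ := h1
        exact ⟨r, Or.inl ⟨a, ha⟩, hr⟩
      · refine ⟨p, Or.inr fun r hr hr' => ?_, le_refl p⟩
        obtain ⟨t, ht, a, ha⟩ := (RO.mem_iSup _ _).1 hr' r (le_refl r)
        exact h1 ⟨t, ht.trans hr, a, ha⟩)
    obtain ⟨r, hr, hrq⟩ := (hg false).dir q hq q' hq'
    have key : ∀ᶠ ξ in (U : Filter I), ∃ a, r ξ ∈ (u a ξ).1 := by
      filter_upwards [hqa, hqa', hrq] with ξ h1 h2 h3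
      rw [iSup_apply] at h1
      rcases h2 with ⟨a, ha⟩ | h2
      · exact ⟨a, RO.mem_lower ha h3.2⟩
      · exact absurd (RO.mem_lower h1 h3.1) (h2 (r ξ) h3.2)
    let z : A → DD I := fun a ξ =>
      if h2 : ∃ a, r ξ ∈ (u a ξ).1 then (if a = h2.choose then ⊤ else ⊥) else ⊥
    refine ⟨z, fun a ξ => ?_, fun a b hab => ?_, r, hr, ?_⟩
    · change z a ξ = ⊤ ∨ z a ξ = ⊥
      simp only [z]
      split_ifs
      · exact Or.inl rfl
      · exact Or.inr rfl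
      · exact Or.inr rfl
    · funext ξ
      change z a ξ ⊓ z b ξ = ⊥
      simp only [z]
      split_ifs with h1 h2 h3
      · exact absurd (h2.trans h3.symm) hab
      · exact inf_bot_eq _
      · exact bot_inf_eq _
      · exact bot_inf_eq _
      · exact bot_inf_eq _
    · filter_upwards [key] with ξ hξ
      rw [iSup_apply, RO.mem_iSup]
      intro t ht
      refine ⟨t, le_refl t, hξ.choose, ?_⟩
      change t ∈ (z hξ.choose ξ ⊓ u hξ.choose ξ).1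
      have h1 : z hξ.choose ξ = ⊤ := by
        simp only [z]
        rw [dif_pos hξ, if_pos trivial]
      rw [h1, RO.mem_inf]
      exact ⟨RO.mem_top _, RO.mem_lower hξ.choose_spec ht⟩

end IM
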