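import Pool.Agent.W_MP_0bf392_lc.CDist

/-!
# The data exist if there is a measurable cardinal `κ` with `2 ^ κ = κ⁺`
-/

universe u v

namespace IM

open Cardinal Filter

theorem exists_data (κ : Cardinal.{u}) (hκ : IsMeasurable κ) (h2 : 2 ^ κ = Order.succ κ) :
    ∃ (I : Type u) (_ : LinearOrder I) (_ : WellFoundedLT I) (U : Ultrafilter I)
      (D : Type u) (_ : CompleteBooleanAlgebra D) (lam : D → Prop) (e : Bool → (I → D) → D),
      Data U lam e := by
  obtain ⟨I, _, _, U, hI, hU⟩ := exists_normal κ hκ
  subst hI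
  obtain ⟨g, hg⟩ := exists_gen (Q := fun η : I => Cond η × Cond η) hU h2
    (fun η => inferInstance) (fun η => by
      have h1 := Cond.card_le hU η
      have hinf : ℵ₀ ≤ #I := hκ.1.le
      calc #(Cond η × Cond η) = #(Cond η) * #(Cond η) := by simp
        _ ≤ #I * #I := mul_le_mul' h1 h1
        _ = #I := mul_eq_self hinf) (fun η k hk p hp => by
      obtain ⟨q1, h1⟩ := Cond.closed hU k hk (fun i => (p i).1) (fun i hi j hj =>
        (hp i hi j hj).imp (fun h => h.1) (fun h => h.1))
      obtain ⟨q2, h2⟩ := Cond.closed hU k hk (fun i => (p i).2) (fun i hi j hj =>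
        (hp i hi j hj).imp (fun h => h.2) (fun h => h.2))
      exact ⟨(q1, q2), fun j hj => ⟨h1 j hj, h2 j hj⟩⟩)
  refine ⟨I, inferInstance, inferInstance, U, DD I, inferInstance,
    lamh U (comp U g false), fun b => eh U (comp U g b), ?_⟩
  exact
    { ult := ult_lamh hU (gen_comp hg false)
      hom := fun b => hom_eh hU (gen_comp hg b)
      crit := fun j f hf => hU.const_of_lt j f (Filter.Eventually.of_forall hf)
      dec := dec_eh hU (fun b => gen_comp hg b)
      dist := ⟨GG, fun w => dist_eh hU hg w⟩ }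

end IM
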