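import Pool.Agent.W_MP_0bf392_lc.Defs

/-!
# Normal measures
-/

universe u v

namespace IM

open Cardinal

/-- A normal measure on a well-ordered type. -/
structure NormalMeasure {I : Type u} [LinearOrder I] [WellFoundedLT I] (U : Ultrafilter I) :
    Prop where
  /-- all final segments have measure one -/
  tail : ∀ i : I, {η | i < η} ∈ U
  /-- diagonal intersections have measure one -/
  diag : ∀ A : I → Set I, (∀ k, A k ∈ U) → {η | ∀ k < η, η ∈ A k} ∈ U
  /-- the order type is greater than `ω` -/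
  inf : ∃ i : I, {k | k < i}.Infinite
  /-- the order type is an initial ordinal -/
  ini : ∀ i : I, #{k : I // k < i} < #I

/-- Indexed form of completeness. -/
theorem complete_iInter {κ : Cardinal.{u}} {A : Type u} {U : Ultrafilter A}
    (hU : ∀ S : Set (Set A), #S < κ → (∀ s ∈ S, s ∈ U) → ⋂₀ S ∈ U)
    {T : Type u} (hT : #T < κ) (B : T → Set A) (hB : ∀ t, B t ∈ U) : {a | ∀ t, a ∈ B t} ∈ U := by
  have h1 : ⋂₀ (Set.range B) ∈ U := by
    apply hU
    · exact lt_of_le_of_lt Cardinal.mk_range_le hT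
    · rintro s ⟨t, rfl⟩
      exact hB t
  have h2 : ⋂₀ (Set.range B) = {a | ∀ t, a ∈ B t} := by
    ext a
    simp
  rw [← h2]
  exact h1

/-- Small sets have measure zero. -/
theorem small_notMem {κ : Cardinal.{u}} {A : Type u} {U : Ultrafilter A}
    (h1 : ∀ x, {x}ᶜ ∈ U)
    (hU : ∀ S : Set (Set A), #S < κ → (∀ s ∈ S, s ∈ U) → ⋂₀ S ∈ U)
    (s : Set A) (hs : #s < κ) : sᶜ ∈ U := by
  have h2 := complete_iInter hU (T := s) hs (fun t => {(t : A)}ᶜ) (fun t => h1 t)
  have h3 : {a | ∀ t : s, a ∈ ({(t : A)} : Set A)ᶜ} = sᶜ := by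
    ext a
    constructor
    · intro h ha
      exact h ⟨a, ha⟩ rfl
    · intro ha t ht
      apply ha
      rw [Set.mem_singleton_iff] at ht
      rw [ht]
      exact t.2
  rw [← h3]
  exact h2

/-- The order `modulo U` is well founded if `U` is countably complete. -/
theorem wf_mod {κ : Cardinal.{u}} (hκ : ℵ₀ < κ) {A : Type u} {U : Ultrafilter A}
    (hU : ∀ S : Set (Set A), #S < κ → (∀ s ∈ S, s ∈ U) → ⋂₀ S ∈ U)
    {I : Type u} [LinearOrder I] [WellFoundedLT I] :
    WellFounded (fun f g : A → I => {a | f a < g a} ∈ U) := by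
  rw [wellFounded_iff_isEmpty_descending_chain]
  constructor
  rintro ⟨F, hF⟩
  have h2 := complete_iInter hU (T := ULift.{u} ℕ)
    (by rw [Cardinal.mk_uLift, Cardinal.mk_nat, Cardinal.lift_aleph0]; exact hκ)
    (fun n => {a | F (n.down + 1) a < F n.down a}) (fun n => hF n.down)
  obtain ⟨a, ha⟩ := U.neBot.nonempty_of_mem h2
  have h3 : ∀ n : ℕ, F (n + 1) a < F n a := fun n => ha ⟨n⟩
  have h4 : WellFounded (fun x y : I => x < y) := wellFounded_lt
  rw [wellFounded_iff_isEmpty_descending_chain] at h4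
  exact h4.false ⟨fun n => F n a, h3⟩

/-- A measurable cardinal carries a normal measure. -/
theorem exists_normal (κ : Cardinal.{u}) (h : IsMeasurable κ) :
    ∃ (I : Type u) (_ : LinearOrder I) (_ : WellFoundedLT I) (U : Ultrafilter I),
      #I = κ ∧ NormalMeasure U := by
  obtain ⟨hκ, A, U, hA, hne, hU⟩ := h
  have hI : #κ.ord.ToType = κ := by simp
  have hini : ∀ i : κ.ord.ToType, #(Set.Iio i) < κ := fun i => Cardinal.mk_Iio_toType_ord_lt i
  have hini' : ∀ i : κ.ord.ToType, #(Set.Iic i) < κ := by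
    intro i
    have h1 : (Set.Iic i) = insert i (Set.Iio i) := by
      ext x
      simp [le_iff_eq_or_lt]
    rw [h1]
    refine lt_of_le_of_lt Cardinal.mk_insert_le ?_
    exact Cardinal.add_lt_of_lt hκ.le (hini i) (lt_trans Cardinal.one_lt_aleph0 hκ)
  -- a bijection is unbounded
  obtain ⟨e⟩ : Nonempty (A ≃ κ.ord.ToType) := Cardinal.eq.1 (by rw [hA, hI])
  let Unb : Set (A → κ.ord.ToType) := {f | ∀ i, {a | i < f a} ∈ U}
  have he : (e : A → κ.ord.ToType) ∈ Unb := by
    intro i
    have h1 : #{a | e a ≤ i} < κ := by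
      refine lt_of_le_of_lt ?_ (hini' i)
      exact Cardinal.mk_le_of_injective (f := fun a : {a | e a ≤ i} =>
        (⟨e a.1, a.2⟩ : Set.Iic i)) (by
          rintro ⟨a, ha⟩ ⟨b, hb⟩ hab
          have h7 : e a = e b := congrArg Subtype.val hab
          exact Subtype.ext (e.injective h7))
    have h2 := small_notMem hne hU _ h1
    have h3 : {a | e a ≤ i}ᶜ = {a | i < e a} := by
      ext a
      simp
    rw [← h3]
    exact h2
  have hwf := wf_mod hκ hU (I := κ.ord.ToType)
  obtain ⟨f, hf, hmin⟩ := hwf.has_min Unb ⟨_, he⟩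
  refine ⟨κ.ord.ToType, inferInstance, inferInstance, U.map f, hI, ?_⟩
  refine ⟨?_, ?_, ?_, ?_⟩
  · intro i
    rw [Ultrafilter.mem_map]
    exact hf i
  · intro B hB
    by_contra hD
    rw [← Ultrafilter.compl_mem_iff_notMem, Ultrafilter.mem_map] at hD
    have hbad : ∀ a ∈ f ⁻¹' {η | ∀ k < η, η ∈ B k}ᶜ, ∃ k, k < f a ∧ f a ∉ B k := by
      intro a ha
      simp only [Set.mem_preimage, Set.mem_compl_iff, Set.mem_ofPred_eq, not_forall] at ha
      obtain ⟨k, hk, hk'⟩ := ha
      exact ⟨k, hk, hk'⟩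
    classical
    let g : A → κ.ord.ToType := fun a => if h : ∃ k, k < f a ∧ f a ∉ B k then h.choose else f a
    have hg : ∀ a ∈ f ⁻¹' {η | ∀ k < η, η ∈ B k}ᶜ, g a < f a ∧ f a ∉ B (g a) := by
      intro a ha
      have h1 := hbad a ha
      have h2 : g a = h1.choose := dif_pos h1
      rw [h2]
      exact h1.choose_spec
    have hgf : {a | g a < f a} ∈ U := by
      filter_upwards [hD] with a ha
      exact (hg a ha).1
    have hgn : g ∉ Unb := fun hg' => hmin g hg' hgf
    simp only [Unb, Set.mem_ofPred_eq, not_forall] at hgn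
    obtain ⟨i, hi⟩ := hgn
    rw [← Ultrafilter.compl_mem_iff_notMem] at hi
    have h5 := complete_iInter hU (T := Set.Iic i) (hini' i) (fun k => f ⁻¹' (B k))
      (fun k => hB k)
    have h6 := Filter.inter_mem (Filter.inter_mem hi h5) hD
    obtain ⟨a, ⟨ha1, ha2⟩, ha3⟩ := U.neBot.nonempty_of_mem h6
    simp only [Set.mem_compl_iff, Set.mem_ofPred_eq, not_lt] at ha1
    exact (hg a ha3).2 (ha2 ⟨g a, ha1⟩)
  · by_contra hfin
    push Not at hfin
    have hfin' : ∀ i : κ.ord.ToType, {k | k < i}.Finite := fun i => hfin i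
    have hinj : Function.Injective (fun i : κ.ord.ToType => ({k | k < i} : Set _).ncard) := by
      intro i j hij
      rcases lt_trichotomy i j with h1 | h1 | h1
      · exfalso
        have : ({k | k < i} : Set κ.ord.ToType) ⊂ {k | k < j} :=
          ⟨fun k hk => lt_trans hk h1, fun h2 => lt_irrefl i (h2 h1)⟩
        have := Set.ncard_lt_ncard this (hfin' j)
        simp only at hij
        omega
      · exact h1
      · exfalso
        have : ({k | k < j} : Set κ.ord.ToType) ⊂ {k | k < i} :=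
          ⟨fun k hk => lt_trans hk h1, fun h2 => lt_irrefl j (h2 h1)⟩
        have := Set.ncard_lt_ncard this (hfin' i)
        simp only at hij
        omega
    have hc : #κ.ord.ToType ≤ ℵ₀ := by
      have := Cardinal.mk_le_of_injective (f := fun i : κ.ord.ToType =>
        (ULift.up.{u} (({k | k < i} : Set _).ncard))) (fun i j hij => hinj (by simpa using hij))
      simpa using this
    rw [hI] at hc
    exact absurd hκ (not_lt.2 hc)
  · intro i
    rw [hI]
    exact hini i

end IM
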