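import Pool.Agent.W_MP_0bf392_lc.CMeas

/-!
# Consequences of normality
-/

universe u v

namespace IM

open Cardinal Filter

variable {I : Type u} [LinearOrder I] [WellFoundedLT I] {U : Ultrafilter I}

theorem NormalMeasure.complete (h : NormalMeasure U) (i : I) (A : I → Set I)
    (hA : ∀ k < i, A k ∈ U) : {η | ∀ k < i, η ∈ A k} ∈ U := by
  classical
  have h1 := h.diag (fun k => if k < i then A k else Set.univ) (by
    intro k
    by_cases hk : k < i
    · simp only [hk, if_true]
      exact hA k hk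
    · simp only [hk, if_false]
      exact Filter.univ_mem)
  filter_upwards [h1, h.tail i] with η h2 h3 k hk
  have h4 := h2 k (lt_trans hk h3)
  simp only [hk, if_true] at h4
  exact h4

theorem NormalMeasure.sigma (h : NormalMeasure U) (A : ℕ → Set I) (hA : ∀ n, A n ∈ U) :
    {η | ∀ n, η ∈ A n} ∈ U := by
  classical
  obtain ⟨i, hi⟩ := h.inf
  let e : ℕ ↪ {k | k < i} := hi.natEmbedding
  let B : I → Set I := fun k => if hk : ∃ n, (e n : I) = k then A hk.choose else Set.univ
  have hB : ∀ k < i, B k ∈ U := by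
    intro k _
    by_cases hk : ∃ n, (e n : I) = k
    · have : B k = A hk.choose := dif_pos hk
      rw [this]
      exact hA _
    · have : B k = Set.univ := dif_neg hk
      rw [this]
      exact Filter.univ_mem
  filter_upwards [h.complete i B hB] with η h2 n
  have h3 := h2 (e n) (e n).2
  have h4 : ∃ m, (e m : I) = (e n : I) := ⟨n, rfl⟩
  have h5 : B (e n) = A h4.choose := dif_pos h4
  have h6 : h4.choose = n := e.injective (Subtype.ext h4.choose_spec)
  rw [h5, h6] at h3
  exact h3

/-- Pressing down. -/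
theorem NormalMeasure.press (h : NormalMeasure U) (f : I → I) (hf : ∀ᶠ η in U, f η < η) :
    ∃ k, ∀ᶠ η in U, f η = k := by
  by_contra hc
  push Not at hc
  have h1 : ∀ k, {η | f η ≠ k} ∈ U := by
    intro k
    have h2 := hc k
    filter_upwards [h2] with η h3
    exact h3
  have h2 := h.diag _ h1
  obtain ⟨η, h3, h4⟩ := U.neBot.nonempty_of_mem (Filter.inter_mem h2 hf)
  exact h3 (f η) h4 rfl

/-- Functions with few values are almost everywhere constant. -/
theorem NormalMeasure.const_of_lt (h : NormalMeasure U) (j : I) (f : I → I)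
    (hf : ∀ᶠ η in U, f η < j) : ∃ k, ∀ᶠ η in U, f η = k := by
  apply h.press
  filter_upwards [hf, h.tail j] with η h1 h2
  exact lt_trans h1 h2

theorem NormalMeasure.const_nat (h : NormalMeasure U) (f : I → ℕ) :
    ∃ k, ∀ᶠ η in U, f η = k := by
  by_contra hc
  push Not at hc
  have h1 : ∀ k, {η | f η ≠ k} ∈ U := by
    intro k
    have h2 := hc k
    filter_upwards [h2] with η h3
    exact h3
  obtain ⟨η, h3⟩ := U.neBot.nonempty_of_mem (h.sigma _ h1)
  exact h3 (f η) rfl

/-- `α` is regular (or a successor, or minimal). -/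
def Reg (α : I) : Prop :=
  ∀ k < α, ∀ f : I → I, (∀ j < k, f j < α) → ∃ m < α, ∀ j < k, f j ≤ m

theorem NormalMeasure.reg (h : NormalMeasure U) : ∀ᶠ η : I in (U : Filter I), Reg η := by
  classical
  by_contra hc
  have h0 : {η : I | ¬ Reg η} ∈ U := by
    have h3 : ¬ ({η : I | Reg η} ∈ U) := hc
    rw [← Ultrafilter.compl_mem_iff_notMem] at h3
    exact h3
  have h1 : ∀ η ∈ {η : I | ¬ Reg η}, ∃ k < η, ∃ f : I → I, (∀ j < k, f j < η) ∧
      ∀ m < η, ∃ j < k, m < f j := by
    intro η hη
    simp only [Set.mem_ofPred_eq, Reg, not_forall, not_exists, not_and, not_le] at hη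
    obtain ⟨k, hk, f, hf, hm⟩ := hη
    refine ⟨k, hk, f, hf, ?_⟩
    intro m hm'
    obtain ⟨j, hj, hj'⟩ := hm m hm'
    exact ⟨j, hj, hj'⟩
  choose! k hk f hf hm using h1
  obtain ⟨k0, hk0⟩ := h.press k (by
    filter_upwards [h0] with η hη
    exact hk η hη)
  have h2 : ∀ j < k0, ∃ c, ∀ᶠ η in U, f η j = c := by
    intro j hj
    apply h.press
    filter_upwards [h0, hk0] with η hη h3
    exact hf η hη j (by rw [h3]; exact hj)
  choose! g hg using h2
  have h3 := h.complete k0 (fun j => {η | f η j = g j}) hg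
  have h4 := Filter.inter_mem (Filter.inter_mem h0 hk0) h3
  obtain ⟨a, ⟨ha1, ha2⟩, ha3⟩ := U.neBot.nonempty_of_mem h4
  obtain ⟨b, ⟨⟨hb1, hb2⟩, hb3⟩, hb4⟩ := U.neBot.nonempty_of_mem (Filter.inter_mem h4 (h.tail a))
  have ha2' : k a = k0 := ha2
  have hb2' : k b = k0 := hb2
  have hb4' : a < b := hb4
  obtain ⟨j, hj, hj'⟩ := hm b hb1 a hb4'
  rw [hb2'] at hj
  have h5 : f b j = g j := hb3 j hj
  have h6 : f a j = g j := ha3 j hj
  have h7 := hf a ha1 j (by rw [ha2']; exact hj)
  rw [h5, ← h6] at hj'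
  exact lt_asymm h7 hj'

theorem NormalMeasure.reg_top (h : NormalMeasure U) (k : I) (f : I → I) :
    ∃ m, ∀ j < k, f j ≤ m := by
  obtain ⟨m, hm⟩ := U.neBot.nonempty_of_mem
    (h.complete k (fun j => {η | f j < η}) (fun j _ => h.tail (f j)))
  exact ⟨m, fun j hj => le_of_lt (hm j hj)⟩

/-- The order type is a strong limit cardinal. -/
theorem NormalMeasure.strong (h : NormalMeasure U) (i : I) :
    #({k : I // k < i} → Bool) < #I := by
  classical
  by_contra hc
  rw [not_lt] at hc
  obtain ⟨F⟩ := hc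
  have h1 : ∀ k : I, ∃ c : Bool, ∀ᶠ η in U, ∀ hk : k < i, F η ⟨k, hk⟩ = c := by
    intro k
    by_cases hk : k < i
    · by_cases h2 : {η | F η ⟨k, hk⟩ = true} ∈ U
      · refine ⟨true, ?_⟩
        filter_upwards [h2] with η h3 _
        exact h3
      · refine ⟨false, ?_⟩
        rw [← Ultrafilter.compl_mem_iff_notMem] at h2
        filter_upwards [h2] with η h3 _
        simpa using h3
    · refine ⟨true, ?_⟩
      filter_upwards with η hk'
      exact absurd hk' hk
  choose c hc using h1
  have h2 := h.complete i (fun k => {η | ∀ hk : k < i, F η ⟨k, hk⟩ = c k}) (fun k _ => hc k)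
  have h3 : {η | ∀ k : {k : I // k < i}, F η k = c k} ∈ U := by
    filter_upwards [h2] with η h4 k
    exact h4 k.1 k.2 k.2
  obtain ⟨a, ha⟩ := U.neBot.nonempty_of_mem h3
  obtain ⟨b, hb1, hb2⟩ := U.neBot.nonempty_of_mem (Filter.inter_mem h3 (h.tail a))
  have h4 : F a = F b := by
    funext k
    rw [ha k, hb1 k]
  have h5 : a = b := F.injective h4
  have h6 : a < b := hb2
  exact (ne_of_lt h6) h5

/-- A partial function `p : I → Option Bool` is bounded by `m`. -/
def Bdd (m : I) (p : I → Option Bool) : Prop := ∀ x, p x ≠ none → x ≤ m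

theorem NormalMeasure.aleph0_le (h : NormalMeasure U) : ℵ₀ ≤ #I := by
  obtain ⟨i, hi⟩ := h.inf
  have h1 : Infinite {k | k < i} := hi.to_subtype
  have h2 : Infinite I :=
    Infinite.of_injective (fun x : {k | k < i} => (x : I)) Subtype.val_injective
  exact Cardinal.aleph0_le_mk I

/-- There are only `#I` bounded partial functions. -/
theorem NormalMeasure.card_bdd (h : NormalMeasure U) :
    #{p : I → Option Bool // ∃ m, Bdd m p} ≤ #I := by
  classical
  have h0 := h.aleph0_le
  have h1 : ∀ m : I, #{p : I → Option Bool // Bdd m p} ≤ #I := by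
    intro m
    obtain ⟨i, hi⟩ := U.neBot.nonempty_of_mem (h.tail m)
    have hi' : m < i := hi
    let G : {p : I → Option Bool // Bdd m p} →
        (({k : I // k < i} → Bool) × ({k : I // k < i} → Bool)) :=
      fun p => (fun k => decide (p.1 k.1 = none), fun k => decide (p.1 k.1 = some true))
    have hG : Function.Injective G := by
      rintro ⟨p, hp⟩ ⟨q, hq⟩ hpq
      apply Subtype.ext
      funext x
      show p x = q x
      by_cases hx : x < i
      · have h2 := congrFun (congrArg Prod.fst hpq) ⟨x, hx⟩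
        have h3 := congrFun (congrArg Prod.snd hpq) ⟨x, hx⟩
        simp only [G] at h2 h3
        rcases hpx : p x with _ | _ | _ <;> rcases hqx : q x with _ | _ | _ <;>
          simp [hpx, hqx] at h2 h3 ⊢
      · have hmx : ¬ x ≤ m := fun h4 => hx (lt_of_le_of_lt h4 hi')
        have h5 : p x = none := by
          by_contra h6
          exact hmx (hp x h6)
        have h6 : q x = none := by
          by_contra h6
          exact hmx (hq x h6)
        rw [h5, h6]
    refine (Cardinal.mk_le_of_injective hG).trans ?_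
    rw [Cardinal.mk_prod, Cardinal.lift_id]
    exact le_of_lt (Cardinal.mul_lt_of_lt h0 (h.strong i) (h.strong i))
  have h2 : Function.Surjective (fun x : (Σ m : I, {p : I → Option Bool // Bdd m p}) =>
      (⟨x.2.1, x.1, x.2.2⟩ : {p : I → Option Bool // ∃ m, Bdd m p})) := by
    rintro ⟨p, m, hp⟩
    exact ⟨⟨m, p, hp⟩, rfl⟩
  refine (Cardinal.mk_le_of_surjective h2).trans ?_
  rw [Cardinal.mk_sigma]
  refine (Cardinal.sum_le_sum _ (fun _ => #I) h1).trans ?_
  rw [Cardinal.sum_const', Cardinal.mul_eq_self h0]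

/-- If for almost all `η` we have a partial function which is bounded below `η` then it is
almost everywhere the same. -/
theorem NormalMeasure.press_fun (h : NormalMeasure U) (p : I → I → Option Bool)
    (hp : ∀ᶠ η in U, ∃ m < η, Bdd m (p η)) : ∃ p₀, ∀ᶠ η in U, p η = p₀ := by
  classical
  have h0 : {η | ∃ m < η, Bdd m (p η)} ∈ U := hp
  have h1 : ∀ η ∈ {η | ∃ m < η, Bdd m (p η)}, ∃ m < η, Bdd m (p η) := fun η hη => hη
  choose! m hm hb using h1
  obtain ⟨m0, hm0⟩ := h.press m (by
    filter_upwards [h0] with η hη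
    exact hm η hη)
  obtain ⟨i, hi⟩ := U.neBot.nonempty_of_mem (h.tail m0)
  have hi' : m0 < i := hi
  have h2 : ∀ x : I, ∃ c : Option Bool, ∀ᶠ η in U, p η x = c := by
    intro x
    by_cases h3 : {η | p η x = none} ∈ U
    · exact ⟨none, h3⟩
    · by_cases h4 : {η | p η x = some true} ∈ U
      · exact ⟨some true, h4⟩
      · rw [← Ultrafilter.compl_mem_iff_notMem] at h3 h4
        refine ⟨some false, ?_⟩
        filter_upwards [h3, h4] with η h5 h6
        simp only [Set.mem_compl_iff, Set.mem_ofPred_eq] at h5 h6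
        rcases hpx : p η x with _ | _ | _
        · exact absurd hpx h5
        · rfl
        · exact absurd hpx h6
  choose c hc using h2
  have h3 := h.complete i (fun x => {η | p η x = c x}) (fun x _ => hc x)
  refine ⟨fun x => if x < i then c x else none, ?_⟩
  filter_upwards [h0, hm0, h3] with η h4 h5 h6
  funext x
  by_cases hx : x < i
  · rw [if_pos hx]
    exact h6 x hx
  · rw [if_neg hx]
    by_contra h7
    have h8 := hb η h4 x h7
    rw [h5] at h8
    exact hx (lt_of_le_of_lt h8 hi')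

/-- Almost all `η` enumerate, with indices below `η`, the partial functions bounded below `η`. -/
theorem NormalMeasure.enum (h : NormalMeasure U) : ∃ E : I → I → Option Bool,
    ∀ᶠ η in U, ∀ p, (∃ m < η, Bdd m p) → ∃ j < η, E j = p := by
  classical
  obtain ⟨Φ⟩ := h.card_bdd
  let E : I → I → Option Bool := fun j =>
    if hj : ∃ q : {p : I → Option Bool // ∃ m, Bdd m p}, Φ q = j then hj.choose.1
    else fun _ => none
  have hE : ∀ q : {p : I → Option Bool // ∃ m, Bdd m p}, E (Φ q) = q.1 := by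
    intro q
    have h1 : ∃ q' : {p : I → Option Bool // ∃ m, Bdd m p}, Φ q' = Φ q := ⟨q, rfl⟩
    have h2 : E (Φ q) = h1.choose.1 := dif_pos h1
    rw [h2, Φ.injective h1.choose_spec]
  refine ⟨E, ?_⟩
  by_contra hc
  have h0 : {η | ¬ ∀ p, (∃ m < η, Bdd m p) → ∃ j < η, E j = p} ∈ U := by
    have h3 : ¬ ({η | ∀ p, (∃ m < η, Bdd m p) → ∃ j < η, E j = p} ∈ U) := hc
    rw [← Ultrafilter.compl_mem_iff_notMem] at h3
    exact h3
  have h1 : ∀ η ∈ {η | ¬ ∀ p, (∃ m < η, Bdd m p) → ∃ j < η, E j = p},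
      ∃ p : I → Option Bool, (∃ m < η, Bdd m p) ∧ ∀ j < η, E j ≠ p := by
    intro η hη
    simp only [Set.mem_ofPred_eq, not_forall] at hη
    obtain ⟨p, hp, hp'⟩ := hη
    exact ⟨p, hp, fun j hj hj' => hp' ⟨j, hj, hj'⟩⟩
  choose! p hp hp' using h1
  obtain ⟨p0, hp0⟩ := h.press_fun p (by
    filter_upwards [h0] with η hη
    exact hp η hη)
  have h2 := Filter.inter_mem h0 hp0
  obtain ⟨a, ha1, ha2⟩ := U.neBot.nonempty_of_mem h2
  have ha2' : p a = p0 := ha2
  obtain ⟨m, _, hm'⟩ := hp a ha1
  rw [ha2'] at hm'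
  obtain ⟨b, ⟨hb1, hb2⟩, hb3⟩ := U.neBot.nonempty_of_mem
    (Filter.inter_mem h2 (h.tail (Φ ⟨p0, m, hm'⟩)))
  have hb2' : p b = p0 := hb2
  refine hp' b hb1 (Φ ⟨p0, m, hm'⟩) hb3 ?_
  rw [hE, hb2']

end IM
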