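import Pool.Agent.W_MP_0bf392_lc.CNorm

/-!
# The posets

`Cond ξ` is the poset of bounded partial functions from `[ξ, ∞)` to `{0, 1}` whose domain is
bounded below each regular `α > ξ`.
-/

universe u v

namespace IM

open Cardinal Filter

variable {I : Type u} [LinearOrder I] [WellFoundedLT I]

/-- `p` is a condition of the poset with parameter `ξ`. -/
structure IsCond (ξ : I) (p : I → Option Bool) : Prop where
  ge : ∀ x, p x ≠ none → ξ ≤ x
  bdd : ∃ m, Bdd m p
  reg : ∀ α, ξ < α → Reg α → ∃ m < α, ∀ x, p x ≠ none → x < α → x ≤ m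

/-- The poset with parameter `ξ`. -/
def Cond (ξ : I) : Type u := {p : I → Option Bool // IsCond ξ p}

instance (ξ : I) : Preorder (Cond ξ) where
  le p q := ∀ x, q.1 x ≠ none → p.1 x = q.1 x
  le_refl p x _ := rfl
  le_trans p q r h1 h2 x hx := (h1 x (by rw [h2 x hx]; exact hx)).trans (h2 x hx)

theorem Cond.le_def {ξ : I} (p q : Cond ξ) : p ≤ q ↔ ∀ x, q.1 x ≠ none → p.1 x = q.1 x := Iff.rfl

theorem isCond_empty (ξ : I) : IsCond ξ (fun _ => none) :=
  ⟨fun _ h => absurd rfl h, ⟨ξ, fun _ h => absurd rfl h⟩,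
    fun _ hα _ => ⟨ξ, hα, fun _ h => absurd rfl h⟩⟩

instance (ξ : I) : Nonempty (Cond ξ) := ⟨⟨_, isCond_empty ξ⟩⟩

/-- Restriction of a partial function to the points below `η`. -/
def below (η : I) (p : I → Option Bool) : I → Option Bool := fun x => if x < η then p x else none

/-- Restriction of a partial function to the points from `η` on. -/
def above (η : I) (p : I → Option Bool) : I → Option Bool := fun x => if η ≤ x then p x else none

/-- The union of two partial functions (`p` has priority). -/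
def join (p q : I → Option Bool) : I → Option Bool := fun x => (p x).orElse fun _ => q x

theorem below_ne {η : I} {p : I → Option Bool} {x : I} (h : below η p x ≠ none) :
    x < η ∧ p x ≠ none := by
  unfold below at h
  by_cases hx : x < η
  · rw [if_pos hx] at h
    exact ⟨hx, h⟩
  · rw [if_neg hx] at h
    exact absurd rfl h

theorem above_ne {η : I} {p : I → Option Bool} {x : I} (h : above η p x ≠ none) :
    η ≤ x ∧ p x ≠ none := by
  unfold above at h
  by_cases hx : η ≤ x
  · rw [if_pos hx] at h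
    exact ⟨hx, h⟩
  · rw [if_neg hx] at h
    exact absurd rfl h

theorem join_ne {p q : I → Option Bool} {x : I} (h : join p q x ≠ none) :
    p x ≠ none ∨ q x ≠ none := by
  unfold join at h
  by_cases hx : p x = none
  · right
    rw [hx] at h
    exact h
  · left
    exact hx

theorem isCond_below {ξ η : I} {p : I → Option Bool} (hp : IsCond ξ p) :
    IsCond ξ (below η p) := by
  refine ⟨fun x hx => hp.ge x (below_ne hx).2, ?_, ?_⟩
  · obtain ⟨m, hm⟩ := hp.bdd
    exact ⟨m, fun x hx => hm x (below_ne hx).2⟩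
  · intro α hα hr
    obtain ⟨m, hm, hm'⟩ := hp.reg α hα hr
    exact ⟨m, hm, fun x hx => hm' x (below_ne hx).2⟩

theorem below_bdd {ξ η : I} {p : I → Option Bool} (hp : IsCond ξ p) (h : ξ < η) (hη : Reg η) :
    ∃ m < η, Bdd m (below η p) := by
  obtain ⟨m, hm, hm'⟩ := hp.reg η h hη
  exact ⟨m, hm, fun x hx => hm' x (below_ne hx).2 (below_ne hx).1⟩

theorem isCond_above {ξ η : I} {p : I → Option Bool} (hp : IsCond ξ p) (h : ξ ≤ η) :
    IsCond η (above η p) := by
  refine ⟨fun x hx => (above_ne hx).1, ?_, ?_⟩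
  · obtain ⟨m, hm⟩ := hp.bdd
    exact ⟨m, fun x hx => hm x (above_ne hx).2⟩
  · intro α hα hr
    obtain ⟨m, hm, hm'⟩ := hp.reg α (lt_of_le_of_lt h hα) hr
    exact ⟨m, hm, fun x hx => hm' x (above_ne hx).2⟩

/-- The union of a condition bounded below `η` and a condition with parameter `η`. -/
theorem isCond_join {ξ η : I} {p q : I → Option Bool} (hp : IsCond ξ p) (hq : IsCond η q)
    (h : ξ ≤ η) (hb : ∃ m < η, Bdd m p) : IsCond ξ (join p q) := by
  refine ⟨?_, ?_, ?_⟩
  · intro x hx
    rcases join_ne hx with hx | hx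
    · exact hp.ge x hx
    · exact h.trans (hq.ge x hx)
  · obtain ⟨m, _, hm⟩ := hb
    obtain ⟨m', hm'⟩ := hq.bdd
    refine ⟨max m m', fun x hx => ?_⟩
    rcases join_ne hx with hx | hx
    · exact (hm x hx).trans (le_max_left _ _)
    · exact (hm' x hx).trans (le_max_right _ _)
  · intro α hα hr
    obtain ⟨m, hm, hm'⟩ := hp.reg α hα hr
    by_cases hηα : η < α
    · obtain ⟨n, hn, hn'⟩ := hq.reg α hηα hr
      refine ⟨max m n, max_lt hm hn, fun x hx hxα => ?_⟩
      rcases join_ne hx with hx | hx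
      · exact (hm' x hx hxα).trans (le_max_left _ _)
      · exact (hn' x hx hxα).trans (le_max_right _ _)
    · refine ⟨m, hm, fun x hx hxα => ?_⟩
      rcases join_ne hx with hx | hx
      · exact hm' x hx hxα
      · exact absurd (lt_of_le_of_lt (hq.ge x hx) hxα) hηα

theorem join_below_above (η : I) (p : I → Option Bool) : join (below η p) (above η p) = p := by
  funext x
  unfold join below above
  by_cases hx : x < η
  · rw [if_pos hx]
    have hx' : ¬ η ≤ x := not_le.2 hx
    rw [if_neg hx']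
    cases p x <;> rfl
  · rw [if_neg hx]
    have hx' : η ≤ x := not_lt.1 hx
    rw [if_pos hx']
    rfl

/-- Adding a value at a new point. -/
theorem isCond_update {ξ : I} {p : I → Option Bool} (hp : IsCond ξ p) (x : I) (hx : ξ ≤ x)
    (c : Bool) : IsCond ξ (fun y => if y = x then some c else p y) := by
  have key : ∀ y, (if y = x then some c else p y) ≠ none → y = x ∨ p y ≠ none := by
    intro y hy
    by_cases h : y = x
    · exact Or.inl h
    · rw [if_neg h] at hy
      exact Or.inr hy
  refine ⟨?_, ?_, ?_⟩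
  · intro y hy
    rcases key y hy with hy | hy
    · rw [hy]
      exact hx
    · exact hp.ge y hy
  · obtain ⟨m, hm⟩ := hp.bdd
    refine ⟨max m x, fun y hy => ?_⟩
    rcases key y hy with hy | hy
    · rw [hy]
      exact le_max_right _ _
    · exact (hm y hy).trans (le_max_left _ _)
  · intro α hα hr
    obtain ⟨m, hm, hm'⟩ := hp.reg α hα hr
    by_cases hxα : x < α
    · refine ⟨max m x, max_lt hm hxα, fun y hy hyα => ?_⟩
      rcases key y hy with hy | hy
      · rw [hy]
        exact le_max_right _ _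
      · exact (hm' y hy hyα).trans (le_max_left _ _)
    · refine ⟨m, hm, fun y hy hyα => ?_⟩
      rcases key y hy with hy | hy
      · exact absurd (hy ▸ hyα) hxα
      · exact hm' y hy hyα

/-- Closure: a chain of conditions indexed by `j < k`, `k ≤ ξ`, has a lower bound. -/
theorem Cond.closed {U : Ultrafilter I} (h : NormalMeasure U) {ξ : I} (k : I) (hk : k ≤ ξ)
    (p : I → Cond ξ) (hp : ∀ i < k, ∀ j < k, p i ≤ p j ∨ p j ≤ p i) :
    ∃ q : Cond ξ, ∀ j < k, q ≤ p j := by
  classical
  have agree : ∀ x, ∀ i < k, ∀ j < k, (p i).1 x ≠ none → (p j).1 x ≠ none →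
      (p i).1 x = (p j).1 x := by
    intro x i hi j hj hxi hxj
    rcases hp i hi j hj with h1 | h1
    · exact h1 x hxj
    · exact (h1 x hxi).symm
  let q : I → Option Bool := fun x =>
    if h : ∃ j, j < k ∧ (p j).1 x ≠ none then (p h.choose).1 x else none
  have hq : ∀ x, ∀ j < k, (p j).1 x ≠ none → q x = (p j).1 x := by
    intro x j hj hx
    have h1 : ∃ j, j < k ∧ (p j).1 x ≠ none := ⟨j, hj, hx⟩
    have h2 : q x = (p h1.choose).1 x := dif_pos h1
    rw [h2]
    exact agree x _ h1.choose_spec.1 j hj h1.choose_spec.2 hx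
  have hq' : ∀ x, q x ≠ none → ∃ j < k, (p j).1 x ≠ none := by
    intro x hx
    by_contra hcon
    have h1 : ¬ ∃ j, j < k ∧ (p j).1 x ≠ none := hcon
    exact hx (dif_neg h1)
  refine ⟨⟨q, ?_, ?_, ?_⟩, fun j hj x hx => hq x j hj hx⟩
  · intro x hx
    obtain ⟨j, _, hj⟩ := hq' x hx
    exact (p j).2.ge x hj
  · have h1 : ∀ j, ∃ m, Bdd m (p j).1 := fun j => (p j).2.bdd
    choose f hf using h1
    obtain ⟨m, hm⟩ := h.reg_top k f
    refine ⟨m, fun x hx => ?_⟩
    obtain ⟨j, hj, hjx⟩ := hq' x hx
    exact (hf j x hjx).trans (hm j hj)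
  · intro α hα hr
    have h1 : ∀ j, ∃ m, m < α ∧ ∀ x, (p j).1 x ≠ none → x < α → x ≤ m :=
      fun j => (p j).2.reg α hα hr
    choose f hf hf' using h1
    obtain ⟨m, hm, hm'⟩ := hr k (lt_of_le_of_lt hk hα) f (fun j _ => hf j)
    refine ⟨m, hm, fun x hx hxα => ?_⟩
    obtain ⟨j, hj, hjx⟩ := hq' x hx
    exact (hf' j x hjx hxα).trans (hm' j hj)

theorem Cond.card_le {U : Ultrafilter I} (h : NormalMeasure U) (ξ : I) : #(Cond ξ) ≤ #I := by
  refine le_trans ?_ h.card_bdd
  refine Cardinal.mk_le_of_injective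
    (f := fun p : Cond ξ => (⟨p.1, p.2.bdd⟩ : {p : I → Option Bool // ∃ m, Bdd m p})) ?_
  intro p q hpq
  exact Subtype.ext (congrArg (fun z : {p : I → Option Bool // ∃ m, Bdd m p} => z.1) hpq)

end IM
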