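import Pool.Agent.W_MP_0bf392_lc.Frame

/-!
# Closure of the internal relations, and transfer along a functor
-/

universe u v

namespace IM

variable {X : Type v} {F : Frame X}

namespace Frame

theorem cl_congr {R S : Rel X} (hR : F.Cl R) (h : ∀ v, R v ↔ S v) : F.Cl S := by
  have : R = S := by funext v; exact propext (h v)
  exact this ▸ hR

theorem cl_true : F.Cl (fun _ => True) := by
  refine F.cl_congr (F.cl_re F.cl_eq (fun _ => 0)) ?_
  intro v; simp

theorem cl_and {R S : Rel X} (hR : F.Cl R) (hS : F.Cl S) : F.Cl (fun v => R v ∧ S v) := by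
  refine F.cl_congr (F.cl_all (R := fun n => if n = 0 then R else S) ?_) ?_
  · intro n; by_cases hn : n = 0 <;> simp [hn, hR, hS]
  · intro v
    constructor
    · intro h
      exact ⟨by simpa using h 0, by simpa using h 1⟩
    · rintro ⟨h1, h2⟩ n
      by_cases hn : n = 0 <;> simp [hn, h1, h2]

theorem cl_exn {R : ℕ → Rel X} (h : ∀ n, F.Cl (R n)) : F.Cl (fun v => ∃ n, R n v) := by
  refine F.cl_congr (F.cl_not (F.cl_all fun n => F.cl_not (h n))) ?_
  intro v; simp

theorem cl_or {R S : Rel X} (hR : F.Cl R) (hS : F.Cl S) : F.Cl (fun v => R v ∨ S v) := by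
  refine F.cl_congr (F.cl_not (F.cl_and (F.cl_not hR) (F.cl_not hS))) ?_
  intro v; tauto

theorem cl_imp {R S : Rel X} (hR : F.Cl R) (hS : F.Cl S) : F.Cl (fun v => R v → S v) := by
  refine F.cl_congr (F.cl_or (F.cl_not hR) hS) ?_
  intro v; tauto

theorem cl_iff {R S : Rel X} (hR : F.Cl R) (hS : F.Cl S) : F.Cl (fun v => R v ↔ S v) := by
  refine F.cl_congr (F.cl_and (F.cl_imp hR hS) (F.cl_imp hS hR)) ?_
  intro v; tauto

theorem cl_exx {R : X → Rel X} (h : F.Cl (fun v => R (v 0) (fun n => v (n + 1)))) :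
    F.Cl (fun v => ∃ x, R x v) := F.cl_ex h

theorem cl_allx {R : X → Rel X} (h : F.Cl (fun v => R (v 0) (fun n => v (n + 1)))) :
    F.Cl (fun v => ∀ x, R x v) := by
  refine F.cl_congr (F.cl_not (F.cl_ex (F.cl_not h))) ?_
  intro v; simp

/-- `C` is an internal class. -/
def Cl1 (F : Frame X) (C : X → Prop) : Prop := F.Cl (fun v => C (v 0))

/-- `R` is an internal binary relation. -/
def Cl2 (F : Frame X) (R : X → X → Prop) : Prop := F.Cl (fun v => R (v 0) (v 1))

/-- `R` is an internal relation of a sequence and two elements. -/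
def ClS (F : Frame X) (R : (ℕ → X) → X → X → Prop) : Prop :=
  F.Cl (fun v => R (fun n => v (n + 2)) (v 0) (v 1))

theorem Cl1.at {C : X → Prop} (h : F.Cl1 C) (i : ℕ) : F.Cl (fun v => C (v i)) :=
  F.cl_re h (fun _ => i)

theorem Cl2.at {R : X → X → Prop} (h : F.Cl2 R) (i k : ℕ) : F.Cl (fun v => R (v i) (v k)) :=
  F.cl_re h (fun n => if n = 0 then i else k)

theorem ClS.at {R : (ℕ → X) → X → X → Prop} (h : F.ClS R) (σ : ℕ → ℕ) (i k : ℕ) :
    F.Cl (fun v => R (fun n => v (σ n)) (v i) (v k)) :=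
  F.cl_re h (fun n => match n with | 0 => i | 1 => k | n + 2 => σ n)

theorem cl_eq' (i k : ℕ) : F.Cl (fun v => v i = v k) :=
  F.cl_re F.cl_eq (fun n => if n = 0 then i else k)

theorem cl2_mem : F.Cl2 F.E := F.cl_mem

theorem cl2_W : F.Cl2 F.W := F.cl_W

theorem cl2_P : F.Cl2 F.P := F.cl_P

end Frame

namespace Functor'

variable (T : Functor' F)

/-- The image of a class. -/
def J1 (C : X → Prop) (x : X) : Prop := T.J (fun v => C (v 0)) (fun _ => x)

/-- The image of a binary relation. -/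
def J2 (R : X → X → Prop) (x y : X) : Prop :=
  T.J (fun v => R (v 0) (v 1)) (cons x fun _ => y)

/-- The image of a relation of a sequence and two elements. -/
def JS (R : (ℕ → X) → X → X → Prop) (c : ℕ → X) (x y : X) : Prop :=
  T.J (fun v => R (fun n => v (n + 2)) (v 0) (v 1)) (cons x (cons y c))

/-- `R'` is the relation into which `R` is transferred by `T`. -/
structure Tr (T : Functor' F) (R R' : Rel X) : Prop where
  cl : F.Cl R
  iff : ∀ v, (∀ n, T.JN (v n)) → (T.J R v ↔ R' v)

namespace Tr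

variable {T}

theorem congr {R R' S' : Rel X} (h : Tr T R R')
    (h' : ∀ v, (∀ n, T.JN (v n)) → (R' v ↔ S' v)) : Tr T R S' :=
  ⟨h.cl, fun v hv => (h.iff v hv).trans (h' v hv)⟩

theorem congr_left {R S R' : Rel X} (h : Tr T R R') (h' : ∀ v, R v ↔ S v) : Tr T S R' := by
  have : R = S := by funext v; exact propext (h' v)
  exact this ▸ h

theorem not {R R' : Rel X} (h : Tr T R R') : Tr T (fun v => ¬ R v) (fun v => ¬ R' v) :=
  ⟨F.cl_not h.cl, fun v hv => (T.J_not h.cl hv).trans (not_congr (h.iff v hv))⟩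

theorem alln {R R' : ℕ → Rel X} (h : ∀ n, Tr T (R n) (R' n)) :
    Tr T (fun v => ∀ n, R n v) (fun v => ∀ n, R' n v) :=
  ⟨F.cl_all fun n => (h n).cl, fun v hv =>
    (T.J_all (fun n => (h n).cl) hv).trans (forall_congr' fun n => (h n).iff v hv)⟩

theorem and {R R' S S' : Rel X} (h : Tr T R R') (k : Tr T S S') :
    Tr T (fun v => R v ∧ S v) (fun v => R' v ∧ S' v) := by
  have := alln (T := T) (R := fun n => if n = 0 then R else S)
    (R' := fun n => if n = 0 then R' else S') (fun n => by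
      by_cases hn : n = 0 <;> simp [hn, h, k])
  refine (this.congr_left ?_).congr ?_
  · intro v
    constructor
    · intro h
      exact ⟨by simpa using h 0, by simpa using h 1⟩
    · rintro ⟨h1, h2⟩ n
      by_cases hn : n = 0 <;> simp [hn, h1, h2]
  · intro v _
    constructor
    · intro h
      exact ⟨by simpa using h 0, by simpa using h 1⟩
    · rintro ⟨h1, h2⟩ n
      by_cases hn : n = 0 <;> simp [hn, h1, h2]

theorem exn {R R' : ℕ → Rel X} (h : ∀ n, Tr T (R n) (R' n)) :
    Tr T (fun v => ∃ n, R n v) (fun v => ∃ n, R' n v) :=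
  ((alln fun n => (h n).not).not.congr_left (fun v => by simp)).congr (fun v _ => by simp)

theorem or {R R' S S' : Rel X} (h : Tr T R R') (k : Tr T S S') :
    Tr T (fun v => R v ∨ S v) (fun v => R' v ∨ S' v) :=
  (((h.not.and k.not).not).congr_left (fun v => by tauto)).congr (fun v _ => by tauto)

theorem imp {R R' S S' : Rel X} (h : Tr T R R') (k : Tr T S S') :
    Tr T (fun v => R v → S v) (fun v => R' v → S' v) :=
  ((h.not.or k).congr_left (fun v => by tauto)).congr (fun v _ => by tauto)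

theorem iff' {R R' S S' : Rel X} (h : Tr T R R') (k : Tr T S S') :
    Tr T (fun v => R v ↔ S v) (fun v => R' v ↔ S' v) :=
  (((h.imp k).and (k.imp h)).congr_left (fun v => by tauto)).congr (fun v _ => by tauto)

theorem exx {R R' : X → Rel X}
    (h : Tr T (fun v => R (v 0) (fun n => v (n + 1))) (fun v => R' (v 0) (fun n => v (n + 1)))) :
    Tr T (fun v => ∃ x, R x v) (fun v => ∃ x, T.JN x ∧ R' x v) := by
  refine ⟨F.cl_ex h.cl, fun v hv => (T.J_ex h.cl hv).trans ?_⟩
  refine exists_congr fun x => and_congr_right fun hx => ?_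
  exact h.iff (cons x v) (forall_cons.2 ⟨hx, hv⟩)

theorem allx {R R' : X → Rel X}
    (h : Tr T (fun v => R (v 0) (fun n => v (n + 1))) (fun v => R' (v 0) (fun n => v (n + 1)))) :
    Tr T (fun v => ∀ x, R x v) (fun v => ∀ x, T.JN x → R' x v) :=
  ((exx (R := fun x v => ¬ R x v) (R' := fun x v => ¬ R' x v) h.not).not.congr_left
    (fun v => by simp)).congr (fun v _ => by simp)

theorem atR {R : Rel X} (h : F.Cl R) (σ : ℕ → ℕ) :
    Tr T (fun v => R (fun n => v (σ n))) (fun v => T.J R (fun n => v (σ n))) :=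
  ⟨F.cl_re h σ, fun _ hv => T.J_re h σ hv⟩

theorem re {R R' : Rel X} (h : Tr T R R') (σ : ℕ → ℕ) :
    Tr T (fun v => R (fun n => v (σ n))) (fun v => R' (fun n => v (σ n))) :=
  (atR h.cl σ).congr fun _ hv => h.iff _ fun _ => hv _

theorem re_cons {R R' : Rel X} (h : Tr T R R') (i : ℕ) (σ : ℕ → ℕ) :
    Tr T (fun v => R (cons (v i) (fun n => v (σ n))))
      (fun v => R' (cons (v i) (fun n => v (σ n)))) := by
  have e : ∀ v : ℕ → X, (fun n => v (match n with | 0 => i | n + 1 => σ n))
      = cons (v i) (fun n => v (σ n)) := by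
    intro v; funext n; cases n <;> rfl
  have := h.re (fun n => match n with | 0 => i | n + 1 => σ n)
  simpa only [e] using this

theorem re_cons2 {R R' : Rel X} (h : Tr T R R') (i k : ℕ) (σ : ℕ → ℕ) :
    Tr T (fun v => R (cons (v i) (cons (v k) (fun n => v (σ n)))))
      (fun v => R' (cons (v i) (cons (v k) (fun n => v (σ n))))) := by
  have e : ∀ v : ℕ → X, (fun n => v (match n with | 0 => i | 1 => k | n + 2 => σ n))
      = cons (v i) (cons (v k) (fun n => v (σ n))) := by
    intro v; funext n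
    match n with
    | 0 => rfl
    | 1 => rfl
    | n + 2 => rfl
  have := h.re (fun n => match n with | 0 => i | 1 => k | n + 2 => σ n)
  simpa only [e] using this

theorem at1 {C : X → Prop} (h : F.Cl1 C) (i : ℕ) :
    Tr T (fun v => C (v i)) (fun v => T.J1 C (v i)) :=
  atR h (fun _ => i)

theorem at2 {R : X → X → Prop} (h : F.Cl2 R) (i k : ℕ) :
    Tr T (fun v => R (v i) (v k)) (fun v => T.J2 R (v i) (v k)) := by
  refine (atR h (fun n => if n = 0 then i else k)).congr fun v _ => ?_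
  unfold J2
  apply iff_of_eq
  congr 1
  funext n; cases n <;> simp

theorem atS {R : (ℕ → X) → X → X → Prop} (h : F.ClS R) (σ : ℕ → ℕ) (i k : ℕ) :
    Tr T (fun v => R (fun n => v (σ n)) (v i) (v k))
      (fun v => T.JS R (fun n => v (σ n)) (v i) (v k)) := by
  refine (atR h (fun n => match n with | 0 => i | 1 => k | n + 2 => σ n)).congr fun _ _ => ?_
  unfold JS
  apply iff_of_eq
  congr 1
  funext n
  match n with
  | 0 => rfl
  | 1 => rfl
  | n + 2 => rfl

theorem eq (i k : ℕ) : Tr T (fun v => v i = v k) (fun v => v i = v k) := by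
  refine (atR F.cl_eq (fun n => if n = 0 then i else k)).congr fun v hv => ?_
  exact T.J_eq (fun n => hv _)

theorem mem (i k : ℕ) : Tr T (fun v => F.E (v i) (v k)) (fun v => F.E (v i) (v k)) := by
  refine (atR F.cl_mem (fun n => if n = 0 then i else k)).congr fun v hv => ?_
  exact T.J_mem (fun n => hv _)

theorem true : Tr T (fun _ => True) (fun _ => True) :=
  ((eq 0 0).congr_left (fun v => by simp)).congr (fun v _ => by simp)

theorem const (p : Prop) : Tr T (fun _ => p) (fun _ => p) := by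
  by_cases hp : p
  · simpa [hp] using (true (T := T))
  · simpa [hp] using (true (T := T)).not

/-- A parameter becomes its image. -/
theorem par {R R' : Rel X} (h : Tr T R R') (p : X) :
    Tr T (fun v => R (cons p v)) (fun v => R' (cons (T.j p) v)) :=
  ⟨F.cl_par h.cl p, fun v hv => (T.J_par h.cl p hv).trans
    (h.iff _ (forall_cons.2 ⟨T.j_JN p, hv⟩))⟩

/-- Transfer of a valid statement. -/
theorem all_of {R R' : Rel X} (h : Tr T R R') (hR : ∀ v, R v) :
    ∀ v, (∀ n, T.JN (v n)) → R' v := by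
  intro v hv
  rw [← h.iff v hv]
  have h1 : R = fun _ => True := by funext w; simp [hR w]
  rw [h1]
  exact (true.iff _ hv).2 trivial

/-- Transfer of a statement with a parameter. -/
theorem all_par {R R' : Rel X} (h : Tr T R R') (p : X) (hR : ∀ v, R (cons p v)) :
    ∀ v, (∀ n, T.JN (v n)) → R' (cons (T.j p) v) :=
  (h.par p).all_of hR

theorem emb {R R' : Rel X} (h : Tr T R R') (v : ℕ → X) : R v ↔ R' (fun n => T.j (v n)) :=
  (T.J_emb h.cl).trans (h.iff _ fun _ => T.j_JN _)

end Tr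

theorem cl1_JN : F.Cl1 T.JN := by
  have h : F.Cl (fun v : ℕ → X => T.J (fun w => w 0 = w 0) (fun _ => v 0)) :=
    F.cl_re (T.cl_J (F.cl_eq' 0 0)) (fun _ => 0)
  refine F.cl_congr h fun v => ?_
  constructor
  · intro hv
    exact T.supp (F.cl_eq' 0 0) hv 0
  · intro hv
    exact ((Tr.eq (T := T) 0 0).iff (fun _ => v 0) (fun _ => hv)).2 rfl

variable {T}

theorem cl1_J1 {C : X → Prop} (h : F.Cl1 C) : F.Cl1 (T.J1 C) :=
  F.cl_re (T.cl_J h) (fun _ => 0)

theorem cl2_J2 {R : X → X → Prop} (h : F.Cl2 R) : F.Cl2 (T.J2 R) := by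
  refine F.cl_congr (F.cl_re (T.cl_J h) (fun n => if n = 0 then 0 else 1)) fun v => ?_
  unfold J2
  apply iff_of_eq
  congr 1
  funext n; cases n <;> simp

theorem clS_JS {R : (ℕ → X) → X → X → Prop} (h : F.ClS R) : F.ClS (T.JS R) := by
  refine F.cl_congr (F.cl_re (T.cl_J h) (fun n => n)) fun v => ?_
  unfold JS
  apply iff_of_eq
  congr 1
  funext n
  match n with
  | 0 => rfl
  | 1 => rfl
  | n + 2 => rfl

theorem J1_JN {C : X → Prop} (h : F.Cl1 C) {x : X} (hx : T.J1 C x) : T.JN x :=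
  T.supp h hx 0

theorem J2_JN {R : X → X → Prop} (h : F.Cl2 R) {x y : X} (hx : T.J2 R x y) :
    T.JN x ∧ T.JN y :=
  ⟨T.supp h hx 0, T.supp h hx 1⟩

theorem JS_JN {R : (ℕ → X) → X → X → Prop} (h : F.ClS R) {c : ℕ → X} {x y : X}
    (hx : T.JS R c x y) : (∀ n, T.JN (c n)) ∧ T.JN x ∧ T.JN y :=
  ⟨fun n => T.supp h hx (n + 2), T.supp h hx 0, T.supp h hx 1⟩

theorem cl2_j : F.Cl2 (fun x y => y = T.j x) := by
  refine F.cl_congr (T.cl_jsub (F.cl_eq' 1 0) (fun n => n == 0)) fun v => ?_
  simp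

theorem J1_j {C : X → Prop} (h : F.Cl1 C) (x : X) : T.J1 C (T.j x) ↔ C x :=
  ((Tr.at1 h 0).emb (fun _ => x)).symm

theorem J2_j {R : X → X → Prop} (h : F.Cl2 R) (x y : X) : T.J2 R (T.j x) (T.j y) ↔ R x y :=
  ((Tr.at2 h 0 1).emb (cons x fun _ => y)).symm

theorem JS_j {R : (ℕ → X) → X → X → Prop} (h : F.ClS R) (c : ℕ → X) (x y : X) :
    T.JS R (fun n => T.j (c n)) (T.j x) (T.j y) ↔ R c x y := by
  have := ((Tr.atS (T := T) h (fun n => n + 2) 0 1).emb (cons x (cons y c))).symm
  simpa using this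

theorem j_inj {x y : X} (h : T.j x = T.j y) : x = y :=
  ((Tr.eq (T := T) 0 1).emb (cons x fun _ => y)).2 h

theorem j_mem {x y : X} : F.E (T.j x) (T.j y) ↔ F.E x y :=
  ((Tr.mem (T := T) 0 1).emb (cons x fun _ => y)).symm

theorem J2_mem {x y : X} (hx : T.JN x) (hy : T.JN y) : T.J2 F.E x y ↔ F.E x y := by
  have h := T.J_mem (v := cons x fun _ => y) (by intro n; cases n <;> assumption)
  exact h

end Functor'

end IM
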