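import Pool.Agent.W_MP_0bf392_lc.Threads

/-!
# The classes `M_b` satisfy the Axiom of Choice
-/

universe u v

namespace IM

open Functor'

variable {X : Type v} {F : Frame X} {T : Bool → Functor' F} {num : ℕ → X}

/-- `y` is the chosen element of `x`: its code is eventually the least one. -/
def Ch (T : Bool → Functor' F) (num : ℕ → X) (k : ℕ) (b : Word) (c : ℕ → X) (x y : X) : Prop :=
  F.E y x ∧ ∃ m₀ : ℕ, ∀ m, m₀ ≤ m → ∀ y' h h', F.E y' x → O T num m k b c y h →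
    O T num m k b c y' h' → ¬ L T m b h' h

theorem Ch_uniq (hn : IsNum F num) {k : ℕ} {b : Word} {c : ℕ → X} {x y y' : X}
    (hx : Mc T b x) (h : Ch T num k b c x y) (h' : Ch T num k b c x y') : y = y' := by
  obtain ⟨h1, m₁, h2⟩ := h
  obtain ⟨h1', m₂, h2'⟩ := h'
  obtain ⟨g, hg, hO⟩ := O_ex hn (max m₁ m₂) k b c y (Mc_trans b hx h1)
  obtain ⟨g', hg', hO'⟩ := O_ex hn (max m₁ m₂) k b c y' (Mc_trans b hx h1')
  have a1 := h2 _ (le_max_left _ _) y' g g' h1' hO hO'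
  have a2 := h2' _ (le_max_right _ _) y g' g h1 hO' hO
  rcases L_tri _ b hg hg' with h | h | h
  · exact absurd h a2
  · subst h
    exact O_inj hn _ k b c hO hO'
  · exact absurd h a1

theorem Ch_ex (hn : IsNum F num) (k : ℕ) (b : Word) (c : ℕ → X) {x : X}
    (hx : Mc T b x) (hne : ∃ z, F.E z x) : ∃ y, Ch T num k b c x y := by
  obtain ⟨z, hz⟩ := hne
  -- the least code at each level
  have hmin : ∀ m, ∃ h y, F.E y x ∧ O T num m k b c y h ∧ Lv T m b h ∧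
      ∀ y' h', F.E y' x → O T num m k b c y' h' → ¬ L T m b h' h := by
    intro m
    obtain ⟨h, hh, hO⟩ := O_ex hn m k b c z (Mc_trans b hx hz)
    obtain ⟨h₀, ⟨y, hy, hO₀⟩, hm⟩ := (L_wf (T := T) m b).has_min
      {h | ∃ y, F.E y x ∧ O T num m k b c y h} ⟨h, z, hz, hO⟩
    refine ⟨h₀, y, hy, hO₀, ?_, fun y' h' hy' hO' => hm h' ⟨y', hy', hO'⟩⟩
    obtain ⟨h₁, hh₁, hO₁⟩ := O_ex hn m k b c y (Mc_trans b hx hy)
    rw [O_fun hn m k b c hO₀ hO₁]
    exact hh₁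
  choose e y hy hO hLv hle using hmin
  -- the sequence of the least codes is not bad
  have hnb := not_Bad (T := T) b e
  have h1 : ∀ m, Lv T (m + 0) b (e m) := hLv
  have h2 : ∀ m, ∃ e', K T (m + 0) b (e m) e' ∧ ¬ L T (m + 0 + 1) b e' (e (m + 1)) := by
    intro m
    obtain ⟨e', he', hK⟩ := K_ex m b (e m) (hLv m)
    refine ⟨e', hK, fun hL => ?_⟩
    obtain ⟨h'', hh'', hO''⟩ := O_ex hn (m + 1) k b c (y m) (Mc_trans b hx (hy m))
    have a1 := O_le hn m k b c (Mc_trans b hx (hy m)) (hO m) hK hO''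
    have a2 := hle (m + 1) (y m) h'' (hy m) hO''
    rcases L_tri (m + 1) b hh'' (hLv (m + 1)) with h | h | h
    · exact a2 h
    · rw [h] at a1
      exact a1 hL
    · exact a1 (L_trans (m + 1) b hL h)
  have h3 : ∃ n, ∀ m, n ≤ m → ∀ e', K T (m + 0) b (e m) e' →
      ¬ L T (m + 0 + 1) b (e (m + 1)) e' := by
    by_contra hc
    push Not at hc
    exact hnb ⟨h1, h2, fun n => by
      obtain ⟨m, hm, e', hK, hL⟩ := hc n
      exact ⟨m, hm, e', hK, hL⟩⟩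
  obtain ⟨n, hn3⟩ := h3
  have hK : ∀ m, n ≤ m → K T m b (e m) (e (m + 1)) := by
    intro m hm
    obtain ⟨e', he', hKe⟩ := K_ex m b (e m) (hLv m)
    obtain ⟨e'', hK'', hL''⟩ := h2 m
    have : e'' = e' := K_fun m b hK'' hKe
    subst this
    rcases L_tri (m + 1) b he' (hLv (m + 1)) with h | h | h
    · exact absurd h hL''
    · rw [← h]; exact hKe
    · exact absurd h (hn3 m hm _ hKe)
  have hO' : ∀ m, n ≤ m → O T num m k b c (y n) (e m) := by
    intro m hm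
    induction m, hm using Nat.le_induction with
    | base => exact hO n
    | succ m hm ih =>
      obtain ⟨h'', hh'', hO''⟩ := O_ex hn (m + 1) k b c (y n) (Mc_trans b hx (hy n))
      have a1 := O_le hn m k b c (Mc_trans b hx (hy n)) ih (hK m hm) hO''
      have a2 := hle (m + 1) (y n) h'' (hy n) hO''
      rcases L_tri (m + 1) b (hLv (m + 1)) hh'' with h | h | h
      · exact absurd h a1
      · rw [h]; exact hO''
      · exact absurd h a2
  refine ⟨y n, hy n, n, fun m hm y' h h' hy' hh hh' => ?_⟩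
  rw [O_fun hn m k b c hh (hO' m hm)]
  exact hle m y' h' hy' hh'

/-- The relation into which `Ch` is transferred. -/
theorem Tr_Ch (hn : IsNum F num) (k : ℕ) (b : Word) (σ : ℕ → ℕ) (i l : ℕ) :
    Tr (T (b 0)) (fun v => Ch T num k (sh b) (fun n => v (σ n)) (v i) (v l))
      (fun v => F.E (v l) (v i) ∧ ∃ m₀ : ℕ, ∀ m, m₀ ≤ m → ∀ y' h h', F.E y' (v i) →
        (T (b 0)).JS (O T num m k (sh b)) (fun n => v (σ n)) (v l) h →
        (T (b 0)).JS (O T num m k (sh b)) (fun n => v (σ n)) y' h' →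
        ¬ (T (b 0)).J2 (L T m (sh b)) h' h) := by
  refine (Tr.mem l i).and (Tr.exn fun m₀ => Tr.alln fun m => (Tr.const (m₀ ≤ m)).imp ?_)
  have t3 : Tr (T (b 0)) (fun v => ∀ h', F.E (v 1) (v (i + 2)) →
        O T num m k (sh b) (fun n => v (σ n + 2)) (v (l + 2)) (v 0) →
        O T num m k (sh b) (fun n => v (σ n + 2)) (v 1) h' → ¬ L T m (sh b) h' (v 0))
      (fun v => ∀ h', (T (b 0)).JN h' → F.E (v 1) (v (i + 2)) →
        (T (b 0)).JS (O T num m k (sh b)) (fun n => v (σ n + 2)) (v (l + 2)) (v 0) →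
        (T (b 0)).JS (O T num m k (sh b)) (fun n => v (σ n + 2)) (v 1) h' →
        ¬ (T (b 0)).J2 (L T m (sh b)) h' (v 0)) :=
    Tr.allx ((Tr.mem 2 (i + 3)).imp ((Tr.atS (cl_O hn _ _ _) (fun n => σ n + 3) (l + 3) 1).imp
      ((Tr.atS (cl_O hn _ _ _) (fun n => σ n + 3) 2 0).imp (Tr.at2 (cl_L _ _) 0 1).not)))
  have t2 : Tr (T (b 0)) (fun v => ∀ h h', F.E (v 0) (v (i + 1)) →
        O T num m k (sh b) (fun n => v (σ n + 1)) (v (l + 1)) h →
        O T num m k (sh b) (fun n => v (σ n + 1)) (v 0) h' → ¬ L T m (sh b) h' h)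
      (fun v => ∀ h, (T (b 0)).JN h → ∀ h', (T (b 0)).JN h' → F.E (v 0) (v (i + 1)) →
        (T (b 0)).JS (O T num m k (sh b)) (fun n => v (σ n + 1)) (v (l + 1)) h →
        (T (b 0)).JS (O T num m k (sh b)) (fun n => v (σ n + 1)) (v 0) h' →
        ¬ (T (b 0)).J2 (L T m (sh b)) h' h) :=
    Tr.allx (R := fun h v => ∀ h', F.E (v 0) (v (i + 1)) →
        O T num m k (sh b) (fun n => v (σ n + 1)) (v (l + 1)) h →
        O T num m k (sh b) (fun n => v (σ n + 1)) (v 0) h' → ¬ L T m (sh b) h' h)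
      (R' := fun h v => ∀ h', (T (b 0)).JN h' → F.E (v 0) (v (i + 1)) →
        (T (b 0)).JS (O T num m k (sh b)) (fun n => v (σ n + 1)) (v (l + 1)) h →
        (T (b 0)).JS (O T num m k (sh b)) (fun n => v (σ n + 1)) (v 0) h' →
        ¬ (T (b 0)).J2 (L T m (sh b)) h' h) t3
  refine (Tr.allx (R := fun y' v => ∀ h h', F.E y' (v i) →
        O T num m k (sh b) (fun n => v (σ n)) (v l) h →
        O T num m k (sh b) (fun n => v (σ n)) y' h' → ¬ L T m (sh b) h' h)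
      (R' := fun y' v => ∀ h, (T (b 0)).JN h → ∀ h', (T (b 0)).JN h' → F.E y' (v i) →
        (T (b 0)).JS (O T num m k (sh b)) (fun n => v (σ n)) (v l) h →
        (T (b 0)).JS (O T num m k (sh b)) (fun n => v (σ n)) y' h' →
        ¬ (T (b 0)).J2 (L T m (sh b)) h' h) t2).congr fun v hv => ?_
  constructor
  · intro H y' h h' hy' h1 h2
    exact H y' ((T (b 0)).trans (hv i) hy') h (JS_JN (cl_O hn _ _ _) h1).2.2 h'
      (JS_JN (cl_O hn _ _ _) h2).2.2 hy' h1 h2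
  · intro H y' _ h _ h' _ hy' h1 h2
    exact H y' h h' hy' h1 h2

theorem cl_Ch (hn : IsNum F num) (k : ℕ) (b : Word) : F.ClS (Ch T num k b) :=
  (Tr_Ch (T := T) hn k (cons true b) (fun n => n + 2) 0 1).cl

/-- The chosen element is the same for the next level. -/
theorem Ch_inv (hn : IsNum F num) {k : ℕ} {b : Word} {c : ℕ → X} {x y : X}
    (hx : Mc T b x) (hy : (T (b 0)).JN y) :
    (T (b 0)).JS (Ch T num (k + 1) (sh b)) (cons (T (b 0)).s fun n => (T (b 0)).j (c n)) x y ↔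
      Ch T num k b c x y := by
  have hJ : ∀ n, (T (b 0)).JN (cons x (cons y
      (cons (T (b 0)).s fun n => (T (b 0)).j (c n))) n) :=
    forall_cons.2 ⟨Mc_JN hx, forall_cons.2 ⟨hy, forall_cons.2 ⟨s_JN _, fun _ => j_JN _ _⟩⟩⟩
  refine ((Tr_Ch (T := T) hn (k + 1) b (fun n => n + 2) 0 1).iff _ hJ).trans ?_
  refine and_congr_right fun _ => ?_
  constructor
  · rintro ⟨m₀, H⟩
    refine ⟨m₀ + 1, fun m hm y' h h' h1 h2 h3 => ?_⟩
    obtain ⟨m', rfl⟩ : ∃ m', m = m' + 1 := ⟨m - 1, by omega⟩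
    exact H m' (by omega) y' h h' h1 h2 h3
  · rintro ⟨m₀, H⟩
    refine ⟨m₀, fun m hm y' h h' h1 h2 h3 => ?_⟩
    exact H (m + 1) (by omega) y' h h' h1 h2 h3

/-- The choice sets belong to all levels. -/
theorem choice_Lv (hn : IsNum F num) : ∀ (m k : ℕ) (b : Word) (c : ℕ → X) (x : X), Mc T b x →
    ∃ C, Lv T m b C ∧ ∀ y, F.E y C ↔ ∃ z, F.E z x ∧ Ch T num k b c z y
  | 0, k, b, c, x, _ => by
    obtain ⟨w, hw⟩ := F.rk x
    have hcl : F.Cl (fun v => ∃ z, F.E z (v 1) ∧ Ch T num k b (fun n => v (n + 2)) z (v 0)) :=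
      F.cl_exx (F.cl_and (F.cl2_mem.at 0 2) ((cl_Ch (T := T) hn k b).at (fun n => n + 3) 0 1))
    obtain ⟨C, hC⟩ := F.sep hcl (cons x c) w
    refine ⟨C, trivial, fun y => (hC y).trans ⟨fun h => h.2, fun h => ⟨hw y ?_, h⟩⟩⟩
    obtain ⟨z, hz, hy, _⟩ := h
    exact (P_rnk _ _).2 ((rnk_lt hy).trans (rnk_lt hz))
  | m + 1, k, b, c, x, hx => by
    have t1 : Tr (T (b 0)) (fun v => ∀ y, (F.E y (v 0) ↔
          ∃ z, F.E z (v 1) ∧ Ch T num (k + 1) (sh b) (fun n => v (n + 2)) z y))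
        (fun v => ∀ y, (T (b 0)).JN y → (F.E y (v 0) ↔ ∃ z, (T (b 0)).JN z ∧ F.E z (v 1) ∧
          (T (b 0)).JS (Ch T num (k + 1) (sh b)) (fun n => v (n + 2)) z y)) :=
      Tr.allx (R := fun y v => (F.E y (v 0) ↔
          ∃ z, F.E z (v 1) ∧ Ch T num (k + 1) (sh b) (fun n => v (n + 2)) z y))
        (R' := fun y v => (F.E y (v 0) ↔ ∃ z, (T (b 0)).JN z ∧ F.E z (v 1) ∧
          (T (b 0)).JS (Ch T num (k + 1) (sh b)) (fun n => v (n + 2)) z y))
        ((Tr.mem 0 1).iff' (Tr.exx ((Tr.mem 0 3).and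
          (Tr.atS (cl_Ch hn _ _) (fun n => n + 4) 0 1))))
    have t : Tr (T (b 0)) (fun v => Mc T (sh b) (v 0) → ∃ C, Lv T m (sh b) C ∧
          ∀ y, (F.E y C ↔ ∃ z, F.E z (v 0) ∧
            Ch T num (k + 1) (sh b) (fun n => v (n + 1)) z y))
        (fun v => Mc T b (v 0) → ∃ C, (T (b 0)).JN C ∧ (T (b 0)).J1 (Lv T m (sh b)) C ∧
          ∀ y, (T (b 0)).JN y → (F.E y C ↔ ∃ z, (T (b 0)).JN z ∧ F.E z (v 0) ∧
            (T (b 0)).JS (Ch T num (k + 1) (sh b)) (fun n => v (n + 1)) z y)) :=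
      (trM b 0).imp (Tr.exx (R := fun C v => Lv T m (sh b) C ∧
          ∀ y, (F.E y C ↔ ∃ z, F.E z (v 0) ∧
            Ch T num (k + 1) (sh b) (fun n => v (n + 1)) z y))
        (R' := fun C v => (T (b 0)).J1 (Lv T m (sh b)) C ∧
          ∀ y, (T (b 0)).JN y → (F.E y C ↔ ∃ z, (T (b 0)).JN z ∧ F.E z (v 0) ∧
            (T (b 0)).JS (Ch T num (k + 1) (sh b)) (fun n => v (n + 1)) z y))
        ((Tr.at1 (cl_Lv _ _) 0).and t1))
    obtain ⟨C, h1, h2, h3⟩ := t.all_of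
      (fun v hv => choice_Lv hn m (k + 1) (sh b) _ (v 0) hv)
      (cons x (cons (T (b 0)).s fun n => (T (b 0)).j (c n)))
      (forall_cons.2 ⟨Mc_JN hx, forall_cons.2 ⟨s_JN _, fun _ => j_JN _ _⟩⟩) hx
    refine ⟨C, h2, fun y => ?_⟩
    constructor
    · intro hy
      have hJ := (T (b 0)).trans h1 hy
      obtain ⟨z, _, hz, hC⟩ := (h3 y hJ).1 hy
      exact ⟨z, hz, (Ch_inv hn (Mc_trans b hx hz) hJ).1 hC⟩
    · rintro ⟨z, hz, hC⟩
      have hJ : (T (b 0)).JN y := Mc_JN (Mc_trans b (Mc_trans b hx hz) hC.1)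
      exact (h3 y hJ).2 ⟨z, Mc_JN (Mc_trans b hx hz), hz,
        (Ch_inv hn (Mc_trans b hx hz) hJ).2 hC⟩

/-- The Axiom of Choice in `M_b`. -/
theorem Mc_choice (b : Word) (a : X) (ha : Mc T b a) (hne : ∀ x, F.E x a → ∃ y, F.E y x)
    (hdis : ∀ x y, F.E x a → F.E y a → (∃ z, F.E z x ∧ F.E z y) → x = y) :
    ∃ c, Mc T b c ∧ ∀ x, F.E x a → ∃! y, F.E y x ∧ F.E y c := by
  obtain ⟨num, h0, h1⟩ := exists_num F a
  have hn : IsNum F num := ⟨h0, h1⟩
  have h := fun m => choice_Lv (T := T) hn m 0 b (fun _ => a) a ha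
  choose C hC1 hC2 using h
  have hM : Mc T b (C 0) := by
    intro m
    have : C 0 = C m := F.ext _ _ fun z => (hC2 0 z).trans (hC2 m z).symm
    rw [this]
    exact hC1 m
  refine ⟨C 0, hM, fun x hx => ?_⟩
  obtain ⟨y, hy⟩ := Ch_ex hn 0 b (fun _ => a) (Mc_trans b ha hx) (hne x hx)
  refine ⟨y, ⟨hy.1, (hC2 0 y).2 ⟨x, hx, hy⟩⟩, ?_⟩
  rintro y' ⟨hy', hyC⟩
  obtain ⟨z, hz, hz'⟩ := (hC2 0 y').1 hyC
  obtain rfl := hdis x z hx hz ⟨y', hy', hz'.1⟩
  exact Ch_uniq hn (Mc_trans b ha hx) hz' hy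

/-- `M_b` is a model of ZFC. -/
theorem zfc_Mc (b : Word) : IsZFC (fun x y : {x // Mc T b x} => F.E x.1 y.1) :=
  zfc_of_choice b fun a ha h1 h2 => Mc_choice b a ha h1 h2

end IM
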