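import Mathlib

/-!
# ZFC, inner models, embeddings, measurable cardinals

The universe of sets is Mathlib's `ZFSet.{u}`; classes are arbitrary predicates on it.
-/

universe u v

namespace IM

/-- Formulas of the first-order language of set theory; the variables are indexed by `ℕ`. In
`all φ` the bound variable is the variable `0` of `φ` and the others are shifted. -/
inductive Fml : Type
  | mem (i k : ℕ) : Fml
  | eq (i k : ℕ) : Fml
  | neg (φ : Fml) : Fml
  | and (φ ψ : Fml) : Fml
  | all (φ : Fml) : Fml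

/-- The assignment `x, v 0, v 1, …`. -/
def cons {X : Type v} (x : X) (v : ℕ → X) : ℕ → X
  | 0 => x
  | n + 1 => v n

/-- Satisfaction of a formula in the structure `(M, E)` under an assignment. -/
def Fml.Sat {M : Type v} (E : M → M → Prop) : Fml → (ℕ → M) → Prop
  | .mem i k, v => E (v i) (v k)
  | .eq i k, v => v i = v k
  | .neg φ, v => ¬ φ.Sat E v
  | .and φ ψ, v => φ.Sat E v ∧ ψ.Sat E v
  | .all φ, v => ∀ x : M, φ.Sat E (cons x v)

/-- `(M, E)` is a model of ZFC. -/
structure IsZFC {M : Type v} (E : M → M → Prop) : Prop where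
  /-- Extensionality -/
  ext : ∀ a b, (∀ x, E x a ↔ E x b) → a = b
  /-- Foundation -/
  foundation : ∀ a, (∃ x, E x a) → ∃ x, E x a ∧ ∀ y, E y x → ¬ E y a
  /-- Pairing -/
  pairing : ∀ a b, ∃ c, ∀ x, E x c ↔ x = a ∨ x = b
  /-- Union -/
  union : ∀ a, ∃ b, ∀ x, E x b ↔ ∃ y, E y a ∧ E x y
  /-- Power set -/
  powerset : ∀ a, ∃ b, ∀ x, E x b ↔ ∀ y, E y x → E y a
  /-- Infinity -/
  infinity : ∃ a, (∃ e, E e a ∧ ∀ x, ¬ E x e) ∧
    ∀ x, E x a → ∃ y, E y a ∧ ∀ z, E z y ↔ E z x ∨ z = x
  /-- Separation scheme; the formula may use the parameters `v 0, v 1, …` -/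
  separation : ∀ (φ : Fml) (v : ℕ → M) (a : M), ∃ b, ∀ x, E x b ↔ E x a ∧ φ.Sat E (cons x v)
  /-- Replacement scheme; the formula may use the parameters `v 0, v 1, …` -/
  replacement : ∀ (φ : Fml) (v : ℕ → M) (a : M),
    (∀ x, E x a → ∃! y, φ.Sat E (cons x (cons y v))) →
    ∃ b, ∀ y, E y b ↔ ∃ x, E x a ∧ φ.Sat E (cons x (cons y v))
  /-- Choice: for a set `a` of nonempty pairwise disjoint sets there is a set which has exactly
  one element in common with each member of `a` -/
  choice : ∀ a, (∀ x, E x a → ∃ y, E y x) →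
    (∀ x y, E x a → E y a → (∃ z, E z x ∧ E z y) → x = y) →
    ∃ c, ∀ x, E x a → ∃! y, E y x ∧ E y c

/-- The membership relation of a class `M` of sets. -/
def MemOn (M : ZFSet.{u} → Prop) (x y : {x // M x}) : Prop := x.1 ∈ y.1

/-- `M` is an inner model: a transitive class which contains all ordinals and satisfies ZFC. -/
structure InnerModel (M : ZFSet.{u} → Prop) : Prop where
  /-- `M` is transitive -/
  trans : ∀ x y, M x → y ∈ x → M y
  /-- `M` contains all ordinals -/
  ord : ∀ α, α.IsOrdinal → M α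
  /-- `M` satisfies ZFC -/
  zfc : IsZFC (MemOn M)

/-- `M` is countably closed: each function from `ω` into `M` is an element of `M`. -/
def CtblClosed (M : ZFSet.{u} → Prop) : Prop :=
  ∀ f : ZFSet.{u}, (∀ p ∈ f, ∃ n ∈ ZFSet.omega, ∃ y, M y ∧ p = ZFSet.pair n y) →
    (∀ n ∈ ZFSet.omega, ∃! y, ZFSet.pair n y ∈ f) → M f

/-- `i : M → N` is an elementary embedding. -/
def IsEmbedding (M N : ZFSet.{u} → Prop) (i : {x // M x} → {x // N x}) : Prop :=
  ∀ (φ : Fml) (v : ℕ → {x // M x}),
    φ.Sat (MemOn M) v ↔ φ.Sat (MemOn N) (fun n => i (v n))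

/-- The statement whose consistency is asked for: there are two distinct countably closed inner
models `M` and `N` with embeddings `i : M → N` and `j : N → M` which agree on the ordinals. -/
def Statement : Prop :=
  ∃ (M N : ZFSet.{u} → Prop) (i : {x // M x} → {x // N x}) (j : {x // N x} → {x // M x}),
    InnerModel M ∧ InnerModel N ∧ CtblClosed M ∧ CtblClosed N ∧ M ≠ N ∧
    IsEmbedding M N i ∧ IsEmbedding N M j ∧
    ∀ (α : ZFSet.{u}) (hM : M α) (hN : N α), α.IsOrdinal → (i ⟨α, hM⟩).1 = (j ⟨α, hN⟩).1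

open Cardinal in
/-- `κ` is a measurable cardinal: it is uncountable and carries a nonprincipal `κ`-complete
ultrafilter. -/
def IsMeasurable (κ : Cardinal.{u}) : Prop :=
  ℵ₀ < κ ∧ ∃ (A : Type u) (U : Ultrafilter A), #A = κ ∧ (∀ x, {x}ᶜ ∈ U) ∧
    ∀ S : Set (Set A), #S < κ → (∀ s ∈ S, s ∈ U) → ⋂₀ S ∈ U

end IM
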