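import Pool.Agent.W_MP_0bf392_lc.ZF

/-!
# The order on the levels, and the well-foundedness lemma
-/

universe u v

namespace IM

open Functor'

variable {X : Type v} {F : Frame X} (T : Bool → Functor' F)

/-- The embedding of level `m` into level `m + 1`. -/
def K : ℕ → Word → X → X → Prop
  | 0, b => fun x y => y = (T (b 0)).j x
  | m + 1, b => (T (b 0)).J2 (K m (sh b))

/-- The order of level `m`. -/
def L : ℕ → Word → X → X → Prop
  | 0, _ => F.W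
  | m + 1, b => (T (b 0)).J2 (L m (sh b))

variable {T}

theorem cl_K : ∀ m b, F.Cl2 (K T m b)
  | 0, _ => cl2_j
  | m + 1, b => cl2_J2 (cl_K m (sh b))

theorem cl_L : ∀ m b, F.Cl2 (L T m b)
  | 0, _ => F.cl2_W
  | m + 1, b => cl2_J2 (cl_L m (sh b))

theorem seq2_JN {T : Functor' F} {x y : X} (hx : T.JN x) (hy : T.JN y) :
    ∀ n, T.JN (cons x (fun _ => y) n) :=
  forall_cons.2 ⟨hx, fun _ => hy⟩

theorem K_ex : ∀ (m : ℕ) (b : Word) (x : X), Lv T m b x →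
    ∃ y, Lv T (m + 1) b y ∧ K T m b x y
  | 0, b, x, _ => ⟨(T (b 0)).j x, (J1_j (cl_Lv _ _) x).2 trivial, rfl⟩
  | m + 1, b, x, hx => by
    have h : Tr (T (b 0)) (fun v => Lv T m (sh b) (v 0) →
          ∃ y, Lv T (m + 1) (sh b) y ∧ K T m (sh b) (v 0) y)
        (fun v => (T (b 0)).J1 (Lv T m (sh b)) (v 0) → ∃ y, (T (b 0)).JN y ∧
          (T (b 0)).J1 (Lv T (m + 1) (sh b)) y ∧ (T (b 0)).J2 (K T m (sh b)) (v 0) y) :=
      (Tr.at1 (cl_Lv _ _) 0).imp (Tr.exx ((Tr.at1 (cl_Lv _ _) 0).and (Tr.at2 (cl_K _ _) 1 0)))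
    obtain ⟨y, _, h2, h3⟩ := h.all_of (fun v hv => K_ex m (sh b) (v 0) hv) (fun _ => x)
      (fun _ => Lv_JN hx) hx
    exact ⟨y, h2, h3⟩

theorem K_fun : ∀ (m : ℕ) (b : Word) {x y y' : X}, K T m b x y → K T m b x y' → y = y'
  | 0, _, _, _, _, h, h' => h.trans h'.symm
  | m + 1, b, x, y, y', h, h' => by
    have t : Tr (T (b 0)) (fun v => K T m (sh b) (v 0) (v 1) → K T m (sh b) (v 0) (v 2) →
          v 1 = v 2)
        (fun v => (T (b 0)).J2 (K T m (sh b)) (v 0) (v 1) →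
          (T (b 0)).J2 (K T m (sh b)) (v 0) (v 2) → v 1 = v 2) :=
      (Tr.at2 (cl_K _ _) 0 1).imp ((Tr.at2 (cl_K _ _) 0 2).imp (Tr.eq 1 2))
    have h1 := J2_JN (cl_K _ _) h
    have h2 := J2_JN (cl_K _ _) h'
    exact t.all_of (fun v => K_fun m (sh b)) (seq3 x y y')
      (forall_cons.2 ⟨h1.1, forall_cons.2 ⟨h1.2, fun _ => h2.2⟩⟩) h h'

theorem L_tri : ∀ (m : ℕ) (b : Word) {x y : X}, Lv T m b x → Lv T m b y →
    L T m b x y ∨ x = y ∨ L T m b y x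
  | 0, _, x, y, _, _ => by
    have := F.W_wo
    exact trichotomous_of F.W x y
  | m + 1, b, x, y, hx, hy => by
    have t : Tr (T (b 0)) (fun v => Lv T m (sh b) (v 0) → Lv T m (sh b) (v 1) →
          (L T m (sh b) (v 0) (v 1) ∨ v 0 = v 1 ∨ L T m (sh b) (v 1) (v 0)))
        (fun v => (T (b 0)).J1 (Lv T m (sh b)) (v 0) → (T (b 0)).J1 (Lv T m (sh b)) (v 1) →
          ((T (b 0)).J2 (L T m (sh b)) (v 0) (v 1) ∨ v 0 = v 1 ∨
            (T (b 0)).J2 (L T m (sh b)) (v 1) (v 0))) :=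
      (Tr.at1 (cl_Lv _ _) 0).imp ((Tr.at1 (cl_Lv _ _) 1).imp
        ((Tr.at2 (cl_L _ _) 0 1).or ((Tr.eq 0 1).or (Tr.at2 (cl_L _ _) 1 0))))
    exact t.all_of (fun v => L_tri m (sh b)) (cons x fun _ => y)
      (seq2_JN (Lv_JN hx) (Lv_JN hy)) hx hy

theorem L_trans : ∀ (m : ℕ) (b : Word) {x y z : X}, L T m b x y → L T m b y z → L T m b x z
  | 0, _, x, y, z, h, h' => by
    have := F.W_wo
    exact trans_of F.W h h'
  | m + 1, b, x, y, z, h, h' => by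
    have t : Tr (T (b 0)) (fun v => L T m (sh b) (v 0) (v 1) → L T m (sh b) (v 1) (v 2) →
          L T m (sh b) (v 0) (v 2))
        (fun v => (T (b 0)).J2 (L T m (sh b)) (v 0) (v 1) →
          (T (b 0)).J2 (L T m (sh b)) (v 1) (v 2) → (T (b 0)).J2 (L T m (sh b)) (v 0) (v 2)) :=
      (Tr.at2 (cl_L _ _) 0 1).imp ((Tr.at2 (cl_L _ _) 1 2).imp (Tr.at2 (cl_L _ _) 0 2))
    have h1 := J2_JN (cl_L _ _) h
    have h2 := J2_JN (cl_L _ _) h'
    exact t.all_of (fun v => L_trans m (sh b)) (seq3 x y z)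
      (forall_cons.2 ⟨h1.1, forall_cons.2 ⟨h1.2, fun _ => h2.2⟩⟩) h h'

/-- There is no descending sequence. -/
theorem L_desc : ∀ (m : ℕ) (b : Word) (f : ℕ → X), ¬ ∀ n, L T m b (f (n + 1)) (f n)
  | 0, _, f, h => by
    have := F.W_wo
    have hwf : WellFounded F.W := IsWellFounded.wf
    exact (RelEmbedding.wellFounded_iff_isEmpty.1 hwf).elim
      (RelEmbedding.natGT f h)
  | m + 1, b, f, h => by
    have t : Tr (T (b 0)) (fun v => ¬ ∀ n : ℕ, L T m (sh b) (v (n + 1)) (v n))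
        (fun v => ¬ ∀ n : ℕ, (T (b 0)).J2 (L T m (sh b)) (v (n + 1)) (v n)) :=
      (Tr.alln fun n => Tr.at2 (cl_L _ _) (n + 1) n).not
    exact t.all_of (fun v => L_desc m (sh b) v) f (fun n => (J2_JN (cl_L _ _) (h n)).2) h

theorem L_wf (m : ℕ) (b : Word) : WellFounded (L T m b) := by
  rw [wellFounded_iff_isEmpty_descending_chain]
  exact ⟨fun f => L_desc m b f.1 f.2⟩

theorem L_irr (m : ℕ) (b : Word) (x : X) : ¬ L T m b x x := fun h =>
  L_desc m b (fun _ => x) fun _ => h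

theorem K_L : ∀ (m : ℕ) (b : Word) {x y x' y' : X}, K T m b x x' → K T m b y y' →
    L T m b x y → L T (m + 1) b x' y'
  | 0, b, x, y, x', y', h, h', hL => by
    have h1 : x' = (T (b 0)).j x := h
    have h2 : y' = (T (b 0)).j y := h'
    subst h1 h2
    exact (J2_j (cl_L _ _) x y).2 hL
  | m + 1, b, x, y, x', y', h, h', hL => by
    have t : Tr (T (b 0)) (fun v => K T m (sh b) (v 0) (v 2) → K T m (sh b) (v 1) (v 3) →
          L T m (sh b) (v 0) (v 1) → L T (m + 1) (sh b) (v 2) (v 3))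
        (fun v => (T (b 0)).J2 (K T m (sh b)) (v 0) (v 2) →
          (T (b 0)).J2 (K T m (sh b)) (v 1) (v 3) → (T (b 0)).J2 (L T m (sh b)) (v 0) (v 1) →
          (T (b 0)).J2 (L T (m + 1) (sh b)) (v 2) (v 3)) :=
      (Tr.at2 (cl_K _ _) 0 2).imp ((Tr.at2 (cl_K _ _) 1 3).imp
        ((Tr.at2 (cl_L _ _) 0 1).imp (Tr.at2 (cl_L _ _) 2 3)))
    have h1 := J2_JN (cl_K _ _) h
    have h2 := J2_JN (cl_K _ _) h'
    exact t.all_of (fun v => K_L m (sh b)) (cons x (cons y (cons x' fun _ => y')))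
      (forall_cons.2 ⟨h1.1, forall_cons.2 ⟨h2.1, forall_cons.2 ⟨h1.2, fun _ => h2.2⟩⟩⟩) h h' hL

/-! ### Bad sequences -/

/-- Shifted version of `Bad`, which is what `Bad (sh b)` is transferred to. -/
def Bad (T : Bool → Functor' F) (s : ℕ) (b : Word) (e : ℕ → X) : Prop :=
  (∀ m, Lv T (m + s) b (e m)) ∧
  (∀ m, ∃ e', K T (m + s) b (e m) e' ∧ ¬ L T (m + s + 1) b e' (e (m + 1))) ∧
  ∀ n, ∃ m, n ≤ m ∧ ∃ e', K T (m + s) b (e m) e' ∧ L T (m + s + 1) b (e (m + 1)) e'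

theorem tr_Bad (b : Word) (σ : ℕ → ℕ) : Tr (T (b 0))
    (fun v => Bad T 0 (sh b) (fun n => v (σ n))) (fun v => Bad T 1 b (fun n => v (σ n))) := by
  have h1 : Tr (T (b 0)) (fun v => ∀ m, Lv T (m + 0) (sh b) (v (σ m)))
      (fun v => ∀ m, Lv T (m + 1) b (v (σ m))) :=
    Tr.alln fun m => Tr.at1 (cl_Lv _ _) (σ m)
  have h2 : Tr (T (b 0)) (fun v => ∀ m, ∃ e', K T (m + 0) (sh b) (v (σ m)) e' ∧
        ¬ L T (m + 0 + 1) (sh b) e' (v (σ (m + 1))))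
      (fun v => ∀ m, ∃ e', K T (m + 1) b (v (σ m)) e' ∧ ¬ L T (m + 1 + 1) b e' (v (σ (m + 1)))) :=
    (Tr.alln fun m => Tr.exx ((Tr.at2 (cl_K _ _) (σ m + 1) 0).and
      (Tr.at2 (cl_L _ _) 0 (σ (m + 1) + 1)).not)).congr fun v _ =>
        forall_congr' fun m => ⟨fun ⟨e', _, h⟩ => ⟨e', h⟩,
          fun ⟨e', h⟩ => ⟨e', (J2_JN (cl_K _ _) h.1).2, h⟩⟩
  have h3 : Tr (T (b 0)) (fun v => ∀ n, ∃ m, n ≤ m ∧ ∃ e', K T (m + 0) (sh b) (v (σ m)) e' ∧
        L T (m + 0 + 1) (sh b) (v (σ (m + 1))) e')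
      (fun v => ∀ n, ∃ m, n ≤ m ∧ ∃ e', K T (m + 1) b (v (σ m)) e' ∧
        L T (m + 1 + 1) b (v (σ (m + 1))) e') :=
    (Tr.alln fun n => Tr.exn fun m => (Tr.const (n ≤ m)).and
      (Tr.exx ((Tr.at2 (cl_K _ _) (σ m + 1) 0).and
      (Tr.at2 (cl_L _ _) (σ (m + 1) + 1) 0)))).congr fun v _ =>
        forall_congr' fun n => exists_congr fun m => and_congr_right fun _ =>
          ⟨fun ⟨e', _, h⟩ => ⟨e', h⟩, fun ⟨e', h⟩ => ⟨e', (J2_JN (cl_K _ _) h.1).2, h⟩⟩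
  exact h1.and (h2.and h3)

theorem Bad.shift {b : Word} {e : ℕ → X} (h : Bad T 0 b e) : Bad T 1 b (fun n => e (n + 1)) := by
  obtain ⟨h1, h2, h3⟩ := h
  refine ⟨fun m => h1 (m + 1), fun m => h2 (m + 1), fun n => ?_⟩
  obtain ⟨m, hm, h⟩ := h3 (n + 1)
  obtain ⟨m', rfl⟩ : ∃ m', m = m' + 1 := ⟨m - 1, by omega⟩
  exact ⟨m', by omega, h⟩

/-- The well-foundedness lemma. -/
theorem not_Bad (b : Word) (e : ℕ → X) : ¬ Bad T 0 b e := by
  intro hbad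
  have hwf : WellFounded F.W := by
    have := F.W_wo
    exact IsWellFounded.wf
  obtain ⟨μ, ⟨b₀, e₀, hb₀, rfl⟩, hmin⟩ := hwf.has_min
    {μ | ∃ b e, Bad T 0 b e ∧ e 0 = μ} ⟨e 0, b, e, hbad, rfl⟩
  have hmin' : ∀ (b : Word) (e : ℕ → X), Bad T 0 b e → ¬ F.W (e 0) (e₀ 0) :=
    fun b e h => hmin _ ⟨b, e, h, rfl⟩
  clear hmin
  generalize hμ : e₀ 0 = μ at hmin'
  have key0 : ∀ (b : Word) (e : ℕ → X), Bad T 0 b e → e 0 = μ → e 1 = (T (b 0)).j μ := by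
    intro b e hb he
    have t : Tr (T (b 0)) (fun v => Bad T 0 (sh b) (fun n => v (n + 1)) → ¬ F.W (v 1) (v 0))
        (fun v => Bad T 1 b (fun n => v (n + 1)) → ¬ (T (b 0)).J2 F.W (v 1) (v 0)) :=
      (tr_Bad b fun n => n + 1).imp (Tr.at2 F.cl2_W 1 0).not
    have hJ : ∀ n, (T (b 0)).JN (e (n + 1)) := fun n => Lv_JN (hb.1 (n + 1))
    have h1 := t.all_par μ (fun v => hmin' (sh b) v) (fun n => e (n + 1)) hJ hb.shift
    obtain ⟨e', hK, hL⟩ := hb.2.1 0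
    have hK' : e' = (T (b 0)).j (e 0) := hK
    subst hK'
    rw [he] at hL
    have h0 : Lv T 1 b ((T (b 0)).j μ) := (J1_j (cl_Lv _ _) μ).2 trivial
    rcases L_tri 1 b h0 (hb.1 1) with h | h | h
    · exact absurd h hL
    · exact h.symm
    · exact absurd h h1
  have key : ∀ (m : ℕ) (b : Word) (e : ℕ → X), Bad T 0 b e → e 0 = μ →
      K T m b (e m) (e (m + 1)) := by
    intro m
    induction m with
    | zero =>
      intro b e hb he
      show e 1 = (T (b 0)).j (e 0)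
      rw [he]
      exact key0 b e hb he
    | succ m ih =>
      intro b e hb he
      have t : Tr (T (b 0)) (fun v => Bad T 0 (sh b) (fun n => v (n + 1)) → v 1 = v 0 →
            K T m (sh b) (v (m + 1)) (v (m + 2)))
          (fun v => Bad T 1 b (fun n => v (n + 1)) → v 1 = v 0 →
            (T (b 0)).J2 (K T m (sh b)) (v (m + 1)) (v (m + 2))) :=
        (tr_Bad b fun n => n + 1).imp ((Tr.eq 1 0).imp (Tr.at2 (cl_K _ _) _ _))
      have hJ : ∀ n, (T (b 0)).JN (e (n + 1)) := fun n => Lv_JN (hb.1 (n + 1))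
      exact t.all_par μ (fun v hv hv' => ih (sh b) v hv hv') (fun n => e (n + 1)) hJ
        hb.shift (key0 b e hb he)
  obtain ⟨m, _, e', hK, hL⟩ := hb₀.2.2 0
  have := K_fun m b₀ hK (key m b₀ e₀ hb₀ hμ)
  subst this
  exact L_irr _ _ _ hL

end IM
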