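import Pool.Agent.W_MP_0bf392_lc.Calc

/-!
# The classes `M_b` attached to infinite words
-/

universe u v

namespace IM

open Functor'

variable {X : Type v} {F : Frame X}

/-- Infinite words in two letters. -/
abbrev Word := ℕ → Bool

/-- The shift. -/
def sh (b : Word) : Word := fun n => b (n + 1)

/-! ### Ranks -/

/-- The rank of an element of a frame. -/
noncomputable def rnk (F : Frame X) (x : X) : Ordinal.{v} :=
  haveI : IsWellFounded X F.E := ⟨F.wf⟩
  IsWellFounded.rank F.E x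

theorem rnk_lt {x y : X} (h : F.E x y) : rnk F x < rnk F y := by
  have : IsWellFounded X F.E := ⟨F.wf⟩
  exact IsWellFounded.rank_lt_of_rel h

theorem lt_rnk {x : X} {o : Ordinal.{v}} : o < rnk F x ↔ ∃ z, F.E z x ∧ o ≤ rnk F z := by
  have : IsWellFounded X F.E := ⟨F.wf⟩
  constructor
  · intro h
    unfold rnk at h
    rw [IsWellFounded.rank_eq] at h
    by_contra hc
    push Not at hc
    refine absurd h (not_lt.2 (Ordinal.iSup_le fun z => ?_))
    exact Order.succ_le_of_lt (hc z.1 z.2)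
  · rintro ⟨z, hz, h⟩
    exact h.trans_lt (rnk_lt hz)

theorem rnk_le {x : X} {o : Ordinal.{v}} : rnk F x ≤ o ↔ ∀ z, F.E z x → rnk F z < o := by
  rw [← not_lt, lt_rnk]
  push Not
  rfl

/-- A relation with the recursion of `P` on a transitive class compares the ranks. -/
theorem comp_rank {C : X → Prop} (hC : ∀ x z, C x → F.E z x → C z) {R : X → X → Prop}
    (hR : ∀ x y, C x → C y → (R x y ↔ ∃ z, F.E z y ∧ ¬ R z x)) :
    ∀ x y, C x → C y → (R x y ↔ rnk F x < rnk F y) := by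
  have key : ∀ y, ∀ x, C x → C y →
      (R x y ↔ rnk F x < rnk F y) ∧ (R y x ↔ rnk F y < rnk F x) := by
    intro y
    induction y using F.wf.induction with
    | _ y ihy =>
      intro x
      induction x using F.wf.induction with
      | _ x ihx =>
        intro hx hy
        constructor
        · rw [hR x y hx hy, lt_rnk]
          refine exists_congr fun z => and_congr_right fun hz => ?_
          rw [(ihy z hz x hx (hC _ _ hy hz)).2, not_lt]
        · rw [hR y x hy hx, lt_rnk]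
          refine exists_congr fun z => and_congr_right fun hz => ?_
          rw [(ihx z hz (hC _ _ hx hz) hy).1, not_lt]
  exact fun x y hx hy => (key y x hx hy).1

theorem P_rnk (x y : X) : F.P x y ↔ rnk F x < rnk F y :=
  comp_rank (C := fun _ => True) (fun _ _ _ _ => trivial) (fun x y _ _ => F.P_iff x y)
    x y trivial trivial

/-- In a transitive class all ranks below the rank of an element occur. -/
theorem exists_rank {C : X → Prop} (hC : ∀ x z, C x → F.E z x → C z) (y : X) :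
    C y → ∀ o, o ≤ rnk F y → ∃ z, C z ∧ rnk F z = o := by
  induction y using F.wf.induction with
  | _ y ih =>
    intro hy o ho
    rcases ho.lt_or_eq with h | h
    · obtain ⟨z, hz, h'⟩ := lt_rnk.1 h
      exact ih z hz (hC _ _ hy hz) o h'
    · exact ⟨y, hy, h.symm⟩

theorem rnk_j (T : Functor' F) (x : X) : rnk F x ≤ rnk F (T.j x) := by
  induction x using F.wf.induction with
  | _ x ih =>
    rw [rnk_le]
    intro z hz
    exact (ih z hz).trans_lt (rnk_lt (j_mem.2 hz))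

theorem J2_P (T : Functor' F) {x y : X} (hx : T.JN x) (hy : T.JN y) :
    T.J2 F.P x y ↔ F.P x y := by
  rw [P_rnk]
  refine comp_rank (F := F) (C := T.JN) (fun x z hx hz => T.trans hx hz) (fun x y hx hy => ?_)
    x y hx hy
  have h : Tr T (fun v => F.P (v 0) (v 1) ↔ ∃ z, F.E z (v 1) ∧ ¬ F.P z (v 0))
      (fun v => T.J2 F.P (v 0) (v 1) ↔ ∃ z, T.JN z ∧ F.E z (v 1) ∧ ¬ T.J2 F.P z (v 0)) :=
    (Tr.at2 F.cl2_P 0 1).iff' (Tr.exx ((Tr.mem 0 2).and (Tr.at2 F.cl2_P 0 1).not))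
  have := h.all_of (fun v => F.P_iff _ _) (cons x fun _ => y)
    (forall_cons.2 ⟨hx, fun _ => hy⟩)
  refine this.trans (exists_congr fun z => ?_)
  constructor
  · rintro ⟨_, h1, h2⟩
    exact ⟨h1, h2⟩
  · rintro ⟨h1, h2⟩
    exact ⟨T.trans hy h1, h1, h2⟩

/-! ### Levels -/

variable (T : Bool → Functor' F)

/-- The levels `J_{b_0} … J_{b_{m-1}} (X)`. -/
def Lv : ℕ → Word → X → Prop
  | 0, _ => fun _ => True
  | m + 1, b => (T (b 0)).J1 (Lv m (sh b))

/-- The class `M_b`. -/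
def Mc (b : Word) (x : X) : Prop := ∀ m, Lv T m b x

variable {T}

theorem cl_Lv : ∀ m b, F.Cl1 (Lv T m b)
  | 0, _ => F.cl_true
  | m + 1, b => cl1_J1 (cl_Lv m (sh b))

theorem cl_Mc (b : Word) : F.Cl1 (Mc T b) := F.cl_all fun m => cl_Lv m b

theorem Lv_succ (m : ℕ) (b : Word) (x : X) :
    Lv T (m + 1) b x ↔ (T (b 0)).J1 (Lv T m (sh b)) x := Iff.rfl

theorem Lv_JN {m : ℕ} {b : Word} {x : X} (h : Lv T (m + 1) b x) : (T (b 0)).JN x :=
  J1_JN (cl_Lv m (sh b)) h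

theorem Mc_JN {b : Word} {x : X} (h : Mc T b x) : (T (b 0)).JN x := Lv_JN (h 1)

theorem J1_Mc (b : Word) : (T (b 0)).J1 (Mc T (sh b)) = Mc T b := by
  funext x
  apply propext
  by_cases hx : (T (b 0)).JN x
  · have := (Tr.alln (T := T (b 0)) fun m => Tr.at1 (cl_Lv (T := T) m (sh b)) 0).iff
      (fun _ => x) (fun _ => hx)
    refine this.trans ?_
    constructor
    · intro h m
      cases m with
      | zero => trivial
      | succ m => exact h m
    · intro h m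
      exact h (m + 1)
  · exact ⟨fun h => absurd (J1_JN (cl_Mc _) h) hx, fun h => absurd (Mc_JN h) hx⟩

theorem Lv_trans : ∀ (m : ℕ) (b : Word) {x z : X}, Lv T m b x → F.E z x → Lv T m b z
  | 0, _, _, _, _, _ => trivial
  | m + 1, b, x, z, hx, hz => by
    have h : Tr (T (b 0)) (fun v => Lv T m (sh b) (v 0) → F.E (v 1) (v 0) → Lv T m (sh b) (v 1))
        (fun v => (T (b 0)).J1 (Lv T m (sh b)) (v 0) → F.E (v 1) (v 0) →
          (T (b 0)).J1 (Lv T m (sh b)) (v 1)) :=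
      (Tr.at1 (cl_Lv _ _) 0).imp ((Tr.mem 1 0).imp (Tr.at1 (cl_Lv _ _) 1))
    have hJ := Lv_JN hx
    exact h.all_of (fun v h1 h2 => Lv_trans m (sh b) h1 h2) (cons x fun _ => z)
      (forall_cons.2 ⟨hJ, fun _ => (T (b 0)).trans hJ hz⟩) hx hz

theorem Mc_trans (b : Word) {x z : X} (hx : Mc T b x) (hz : F.E z x) : Mc T b z :=
  fun m => Lv_trans m b (hx m) hz

/-- Every rank occurs at every level. -/
theorem Lv_rank : ∀ (m : ℕ) (b : Word) (x : X), ∃ y, Lv T m b y ∧ rnk F y = rnk F x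
  | 0, _, x => ⟨x, trivial, rfl⟩
  | m + 1, b, x => by
    obtain ⟨y, hy, hr⟩ := Lv_rank m (sh b) x
    have h1 : Lv T (m + 1) b ((T (b 0)).j y) := (J1_j (cl_Lv _ _) y).2 hy
    exact exists_rank (fun _ _ => Lv_trans (m + 1) b) _ h1 _
      (hr ▸ rnk_j (T (b 0)) y)

theorem JN_rank (i : Bool) (x : X) : ∃ y, (T i).JN y ∧ rnk F y = rnk F x := by
  obtain ⟨y, hy, h⟩ := Lv_rank (T := T) 1 (fun _ => i) x
  exact ⟨y, Lv_JN hy, h⟩

/-- Countable closure of the levels. -/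
theorem Lv_ctbl : ∀ (m : ℕ) (b : Word) (f : ℕ → X), (∀ n, Lv T m b (f n)) →
    ∀ y, (∀ z, F.E z y ↔ ∃ n, z = f n) → Lv T m b y
  | 0, _, _, _, _, _ => trivial
  | m + 1, b, f, hf, y, hy => by
    have h : Tr (T (b 0)) (fun v => (∀ n, Lv T m (sh b) (v n)) →
          ∃ y, Lv T m (sh b) y ∧ ∀ z, F.E z y ↔ ∃ n : ℕ, z = v n)
        (fun v => (∀ n, (T (b 0)).J1 (Lv T m (sh b)) (v n)) →
          ∃ y, (T (b 0)).JN y ∧ (T (b 0)).J1 (Lv T m (sh b)) y ∧
            ∀ z, (T (b 0)).JN z → (F.E z y ↔ ∃ n : ℕ, z = v n)) :=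
      (Tr.alln fun n => Tr.at1 (cl_Lv _ _) n).imp
        (Tr.exx ((Tr.at1 (cl_Lv _ _) 0).and
          (Tr.allx ((Tr.mem 0 1).iff' (Tr.exn fun n => Tr.eq 0 (n + 2))))))
    obtain ⟨y', _, h2, h3⟩ := h.all_of (fun v hv => by
      obtain ⟨y, hy⟩ := F.ctbl v
      exact ⟨y, Lv_ctbl m (sh b) v hv y hy, hy⟩) f (fun n => Lv_JN (hf n)) hf
    have : y = y' := by
      refine F.ext _ _ fun z => ?_
      constructor
      · intro hz
        obtain ⟨n, rfl⟩ := (hy z).1 hz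
        exact (h3 _ (Lv_JN (hf n))).2 ⟨n, rfl⟩
      · intro hz
        exact (hy z).2 ((h3 z ((T (b 0)).trans (J1_JN (cl_Lv _ _) h2) hz)).1 hz)
    rw [this]
    exact h2

theorem Mc_ctbl (b : Word) (f : ℕ → X) (hf : ∀ n, Mc T b (f n)) :
    ∃ y, Mc T b y ∧ ∀ z, F.E z y ↔ ∃ n, z = f n := by
  obtain ⟨y, hy⟩ := F.ctbl f
  exact ⟨y, fun m => Lv_ctbl m b f (fun n => hf n m) y hy, hy⟩

/-- A family of relations indexed by words which is mapped to itself by the functors. -/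
def Inv (T : Bool → Functor' F) (R : Word → Rel X) : Prop :=
  ∀ b, Tr (T (b 0)) (R (sh b)) (R b)

/-- Invariant relations can be used for separation at all levels. -/
theorem amen {R : Word → Rel X} (hR : Inv T R) : ∀ (m : ℕ) (b : Word) (v : ℕ → X) (x : X),
    (∀ n, Lv T m b (v n)) → Lv T m b x →
    ∃ y, Lv T m b y ∧ ∀ z, F.E z y ↔ F.E z x ∧ R b (cons z v)
  | 0, b, v, x, _, _ => by
    have hcl : F.Cl (R b) := by
      have := (hR (cons true b)).cl
      exact this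
    obtain ⟨y, hy⟩ := F.sep hcl v x
    exact ⟨y, trivial, hy⟩
  | m + 1, b, v, x, hv, hx => by
    have h : Tr (T (b 0)) (fun v => (∀ n, Lv T m (sh b) (v n)) →
          ∃ y, Lv T m (sh b) y ∧ ∀ z, F.E z y ↔ F.E z (v 0) ∧
            R (sh b) (cons z fun n => v (n + 1)))
        (fun v => (∀ n, (T (b 0)).J1 (Lv T m (sh b)) (v n)) →
          ∃ y, (T (b 0)).JN y ∧ (T (b 0)).J1 (Lv T m (sh b)) y ∧
            ∀ z, (T (b 0)).JN z → (F.E z y ↔ F.E z (v 0) ∧ R b (cons z fun n => v (n + 1)))) :=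
      (Tr.alln fun n => Tr.at1 (cl_Lv _ _) n).imp
        (Tr.exx ((Tr.at1 (cl_Lv _ _) 0).and
          (Tr.allx ((Tr.mem 0 1).iff' ((Tr.mem 0 2).and
            (Tr.re_cons (hR b) 0 (fun n => n + 3)))))))
    obtain ⟨y, _, h2, h3⟩ := h.all_of (fun v hv => by
      exact amen hR m (sh b) (fun n => v (n + 1)) (v 0) (fun n => hv (n + 1)) (hv 0))
        (cons x v) (forall_cons.2 ⟨Lv_JN hx, fun n => Lv_JN (hv n)⟩)
        (forall_cons.2 ⟨hx, hv⟩)
    refine ⟨y, h2, fun z => ?_⟩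
    by_cases hz : (T (b 0)).JN z
    · exact h3 z hz
    · constructor
      · intro h
        exact absurd ((T (b 0)).trans (J1_JN (cl_Lv _ _) h2) h) hz
      · rintro ⟨h, _⟩
        exact absurd ((T (b 0)).trans (Lv_JN hx) h) hz

/-- Separation in `M_b` for invariant relations. -/
theorem sepM {R : Word → Rel X} (hR : Inv T R) (b : Word) (v : ℕ → X) (x : X)
    (hv : ∀ n, Mc T b (v n)) (hx : Mc T b x) :
    ∃ y, Mc T b y ∧ ∀ z, F.E z y ↔ F.E z x ∧ R b (cons z v) := by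
  have h : ∀ m, ∃ y, Lv T m b y ∧ ∀ z, F.E z y ↔ F.E z x ∧ R b (cons z v) :=
    fun m => amen hR m b v x (fun n => hv n m) (hx m)
  choose y hy1 hy2 using h
  refine ⟨y 0, fun m => ?_, hy2 0⟩
  have : y 0 = y m := F.ext _ _ fun z => (hy2 0 z).trans (hy2 m z).symm
  rw [this]
  exact hy1 m

/-- Rank segments of `M_b` belong to all levels. -/
theorem rkLv : ∀ (m : ℕ) (b : Word) (x : X),
    ∃ y, Lv T m b y ∧ ∀ z, F.E z y ↔ Mc T b z ∧ F.P z x
  | 0, b, x => by
    obtain ⟨y, hy⟩ := F.rk x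
    obtain ⟨y', hy'⟩ := F.sep (R := fun v => Mc T b (v 0) ∧ F.P (v 0) (v 1))
      (F.cl_and (cl_Mc b) F.cl_P) (fun _ => x) y
    refine ⟨y', trivial, fun z => (hy' z).trans ⟨fun h => h.2, fun h => ⟨hy z h.2, h⟩⟩⟩
  | m + 1, b, x => by
    obtain ⟨x', hx', hr⟩ := JN_rank (T := T) (b 0) x
    have h : Tr (T (b 0)) (fun v => ∃ y, Lv T m (sh b) y ∧
          ∀ z, F.E z y ↔ Mc T (sh b) z ∧ F.P z (v 0))
        (fun v => ∃ y, (T (b 0)).JN y ∧ (T (b 0)).J1 (Lv T m (sh b)) y ∧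
            ∀ z, (T (b 0)).JN z → (F.E z y ↔ (T (b 0)).J1 (Mc T (sh b)) z ∧
              (T (b 0)).J2 F.P z (v 0))) :=
      Tr.exx ((Tr.at1 (cl_Lv _ _) 0).and
          (Tr.allx ((Tr.mem 0 1).iff' ((Tr.at1 (cl_Mc _) 0).and (Tr.at2 F.cl2_P 0 2)))))
    obtain ⟨y, _, h2, h3⟩ := h.all_of (fun v => rkLv m (sh b) (v 0)) (fun _ => x') (fun _ => hx')
    refine ⟨y, h2, fun z => ?_⟩
    by_cases hz : (T (b 0)).JN z
    · rw [h3 z hz, J1_Mc, J2_P _ hz hx', P_rnk, P_rnk, hr]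
    · constructor
      · intro h
        exact absurd ((T (b 0)).trans (J1_JN (cl_Lv _ _) h2) h) hz
      · rintro ⟨h, _⟩
        exact absurd (Mc_JN h) hz

theorem rkM (b : Word) (x : X) : ∃ y, Mc T b y ∧ ∀ z, F.E z y ↔ Mc T b z ∧ F.P z x := by
  have h : ∀ m, ∃ y, Lv T m b y ∧ ∀ z, F.E z y ↔ Mc T b z ∧ F.P z x := fun m => rkLv m b x
  choose y hy1 hy2 using h
  refine ⟨y 0, fun m => ?_, hy2 0⟩
  have : y 0 = y m := F.ext _ _ fun z => (hy2 0 z).trans (hy2 m z).symm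
  rw [this]
  exact hy1 m

/-- Every element of the frame is covered by an element of `M_b`. -/
theorem cover (b : Word) (x : X) : ∃ y, Mc T b y ∧ ∀ z, F.E z x → Mc T b z → F.E z y := by
  obtain ⟨y, hy1, hy2⟩ := rkM (T := T) b x
  exact ⟨y, hy1, fun z hz hM => (hy2 z).2 ⟨hM, (P_rnk _ _).2 (rnk_lt hz)⟩⟩

end IM
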