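import Pool.Agent.W_MP_0bf392_lc.Abs
import Pool.Agent.W_MP_0bf392_lc.BBig
import Pool.Agent.W_MP_0bf392_lc.BDist
import Pool.Agent.W_MP_0bf392_lc.CMain

/-!
# The main theorem
-/

universe u v

namespace IM

theorem statement_of_data {I : Type u} [LinearOrder I] [WellFoundedLT I] {U : Ultrafilter I}
    {D : Type u} [CompleteBooleanAlgebra D] {lam : D → Prop} {e : Bool → (I → D) → D}
    (h : Data U lam e) : Statement.{u} := by
  obtain ⟨z, k, hk, hz, hd⟩ := bdist h
  exact statement_of_frame (bframe h.ult) (fun b => bfun h.ult (h.hom b)) bsmall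
    (bbig h.ult) (fun x hx => bj_ord h x hx) z k hk hz hd

/-- If there is a measurable cardinal `κ` with `2 ^ κ = κ⁺`, then there are two distinct
countably closed inner models with mutual embeddings which agree on the ordinals. -/
theorem main (κ : Cardinal.{u}) (hκ : IsMeasurable κ) (h2 : 2 ^ κ = Order.succ κ) :
    Statement.{u} := by
  obtain ⟨I, _, _, U, D, _, lam, e, h⟩ := exists_data κ hκ h2
  exact statement_of_data h

end IM
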