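import Pool.Agent.W_MP_0bf392_lc.BSet

/-!
# Mixing and fullness
-/

universe u v

namespace IM

namespace BSet

variable {D : Type u} [CompleteBooleanAlgebra D]

/-- Extensional `D`-valued functions of one variable. -/
def Ext1 (R : BSet D → D) : Prop := ∀ x y, beq x y ⊓ R x ≤ R y

/-- Extensional `D`-valued functions of arity `ω`. -/
def ExtR (R : (ℕ → BSet D) → D) : Prop := ∀ v w, (⨅ n, beq (v n) (w n)) ⊓ R v ≤ R w

theorem mixing {ι : Type u} (z : ι → D) (hz : ∀ a b, a ≠ b → z a ⊓ z b = ⊥)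
    (x : ι → BSet D) : ∃ y, ∀ i, z i ≤ beq y (x i) := by
  refine ⟨mk (Σ i, (x i).ty) (fun p => (x p.1).fn p.2) (fun p => z p.1 ⊓ (x p.1).wt p.2),
    fun i => (le_beq_iff _ _ _).2 ⟨fun w => ?_, fun w => ?_⟩⟩
  · rw [bmem, inf_iSup_eq]
    refine iSup_le fun p => ?_
    change z i ⊓ ((z p.1 ⊓ (x p.1).wt p.2) ⊓ beq w ((x p.1).fn p.2)) ≤ bmem w (x i)
    by_cases hp : p.1 = i
    · obtain ⟨k, b⟩ := p
      obtain rfl : k = i := hp
      refine le_trans (le_trans inf_le_right (inf_le_inf_right _ inf_le_right)) ?_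
      exact le_iSup (fun b : (x k).ty => (x k).wt b ⊓ beq w ((x k).fn b)) b
    · have h1 : z i ⊓ ((z p.1 ⊓ (x p.1).wt p.2) ⊓ beq w ((x p.1).fn p.2)) ≤ z i ⊓ z p.1 :=
        inf_le_inf_left _ (le_trans inf_le_left inf_le_left)
      rw [hz i p.1 (fun h => hp h.symm)] at h1
      exact le_trans h1 bot_le
  · rw [bmem, inf_iSup_eq]
    refine iSup_le fun b => ?_
    refine le_trans ?_ (le_iSup (fun p : (Σ i, (x i).ty) =>
      (z p.1 ⊓ (x p.1).wt p.2) ⊓ beq w ((x p.1).fn p.2)) ⟨i, b⟩)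
    rw [inf_assoc]

/-- A small antichain with the same supremum as a (large) family, refining it. -/
theorem refine_family {ι : Type v} (R : ι → D) : ∃ (κ : Type u) (z : κ → D) (f : κ → ι),
    (∀ a b, a ≠ b → z a ⊓ z b = ⊥) ∧ (∀ a, z a ≤ R (f a)) ∧ (⨆ i, R i) = ⨆ a, z a := by
  classical
  let κ : Type u := {d : D // ∃ i, R i = d}
  let f : κ → ι := fun d => d.2.choose
  have hf : ∀ d : κ, R (f d) = d.1 := fun d => d.2.choose_spec
  let lo : κ → D := fun d => ⨆ (e : κ) (_ : WellOrderingRel e d), e.1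
  have hlo : ∀ e d : κ, WellOrderingRel e d → e.1 ≤ lo d := fun e d h =>
    le_iSup₂_of_le e h le_rfl
  let z : κ → D := fun d => d.1 ⊓ (lo d)ᶜ
  have hz : ∀ a b : κ, WellOrderingRel a b → z a ⊓ z b = ⊥ := by
    intro a b h
    rw [eq_bot_iff]
    calc z a ⊓ z b ≤ lo b ⊓ (lo b)ᶜ :=
          inf_le_inf (le_trans inf_le_left (hlo a b h)) inf_le_right
      _ = ⊥ := inf_compl_eq_bot
  refine ⟨κ, z, f, ?_, ?_, ?_⟩
  · intro a b hab
    rcases trichotomous_of (WellOrderingRel (α := κ)) a b with h | h | h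
    · exact hz a b h
    · exact absurd h hab
    · rw [inf_comm]; exact hz b a h
  · intro a
    rw [hf a]
    exact inf_le_left
  · have hwf : WellFounded (WellOrderingRel (α := κ)) := IsWellFounded.wf
    have key : ∀ d : κ, d.1 ≤ ⨆ a, z a := by
      intro d
      induction d using hwf.induction with
      | _ d ih =>
        have h1 : lo d ≤ ⨆ a, z a := iSup₂_le fun e he => ih e he
        calc d.1 = (d.1 ⊓ lo d) ⊔ (d.1 ⊓ (lo d)ᶜ) := by
              rw [← inf_sup_left, sup_compl_eq_top, inf_top_eq]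
          _ ≤ ⨆ a, z a := sup_le (le_trans inf_le_right h1) (le_iSup z d)
    refine le_antisymm (iSup_le fun i => ?_) (iSup_le fun a => ?_)
    · exact key ⟨R i, i, rfl⟩
    · refine le_trans inf_le_left ?_
      rw [← hf a]
      exact le_iSup R (f a)

theorem full1 (R : BSet D → D) (hR : Ext1 R) : ∃ x, (⨆ y, R y) = R x := by
  obtain ⟨κ, z, f, h1, h2, h3⟩ := refine_family R
  obtain ⟨x, hx⟩ := mixing z h1 f
  refine ⟨x, le_antisymm ?_ (le_iSup R x)⟩
  rw [h3]
  refine iSup_le fun a => ?_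
  refine le_trans (le_inf ?_ (h2 a)) (hR (f a) x)
  rw [beq_symm]
  exact hx a

theorem fullR (R : (ℕ → BSet D) → D) (hR : ExtR R) : ∃ v, (⨆ w, R w) = R v := by
  obtain ⟨κ, z, f, h1, h2, h3⟩ := refine_family R
  choose v hv using fun n => mixing z h1 (fun a => f a n)
  refine ⟨v, le_antisymm ?_ (le_iSup R v)⟩
  rw [h3]
  refine iSup_le fun a => ?_
  refine le_trans (le_inf (le_iInf fun n => ?_) (h2 a)) (hR (f a) v)
  rw [beq_symm]
  exact hv n a

end BSet

end IM
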