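import Pool.Agent.W_MP_0bf392_lc.Levels

/-!
# Pairs and function application in a frame
-/

universe u v

namespace IM

open Functor'

variable {X : Type v} {F : Frame X}

theorem IsUp.uniq {p p' x y : X} (h : IsUp F.E p x y) (h' : IsUp F.E p' x y) : p = p' :=
  F.ext _ _ fun z => (h z).trans (h' z).symm

theorem IsUp.inj {p x y x' y' : X} (h : IsUp F.E p x y) (h' : IsUp F.E p x' y') :
    (x = x' ∧ y = y') ∨ (x = y' ∧ y = x') := by
  have h1 : x = x' ∨ x = y' := (h' x).1 ((h x).2 (Or.inl rfl))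
  have h2 : y = x' ∨ y = y' := (h' y).1 ((h y).2 (Or.inr rfl))
  have h3 : x' = x ∨ x' = y := (h x').1 ((h' x').2 (Or.inl rfl))
  have h4 : y' = x ∨ y' = y := (h y').1 ((h' y').2 (Or.inr rfl))
  grind

theorem exists_up (F : Frame X) (x y : X) : ∃ p, IsUp F.E p x y := by
  obtain ⟨p, h⟩ := F.ctbl (fun n => if n = 0 then x else y)
  refine ⟨p, fun z => (h z).trans ?_⟩
  constructor
  · rintro ⟨n, rfl⟩
    by_cases hn : n = 0 <;> simp [hn]
  · rintro (rfl | rfl)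
    · exact ⟨0, by simp⟩
    · exact ⟨1, by simp⟩

theorem exists_pr (F : Frame X) (x y : X) : ∃ p, IsPr F.E p x y := by
  obtain ⟨a, ha⟩ := exists_up F x x
  obtain ⟨b, hb⟩ := exists_up F x y
  obtain ⟨p, hp⟩ := exists_up F a b
  exact ⟨p, a, b, ha, hb, hp⟩

theorem IsPr.uniq {p p' x y : X} (h : IsPr F.E p x y) (h' : IsPr F.E p' x y) : p = p' := by
  obtain ⟨a, b, ha, hb, hp⟩ := h
  obtain ⟨a', b', ha', hb', hp'⟩ := h'
  obtain rfl := ha.uniq ha'
  obtain rfl := hb.uniq hb'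
  exact hp.uniq hp'

theorem IsPr.inj {p x y x' y' : X} (h : IsPr F.E p x y) (h' : IsPr F.E p x' y') :
    x = x' ∧ y = y' := by
  obtain ⟨a, b, ha, hb, hp⟩ := h
  obtain ⟨a', b', ha', hb', hp'⟩ := h'
  rcases hp.inj hp' with ⟨h1, h2⟩ | ⟨h1, h2⟩
  · subst h1 h2
    have e1 := ha.inj ha'
    have e2 := hb.inj hb'
    grind
  · subst h1 h2
    have e1 := ha.inj hb'
    have e2 := hb.inj ha'
    grind

theorem Ap.fun {f x y y' : X} (h : Ap F.E f x y) (h' : Ap F.E f x y') : y = y' := by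
  obtain ⟨⟨p, hp, hf⟩, _⟩ := h
  exact h'.2 y p hp hf

theorem exists_ap (x y : X) : ∃ f, Ap F.E f x y := by
  obtain ⟨p, hp⟩ := exists_pr F x y
  obtain ⟨f, hf⟩ := exists_up F p p
  refine ⟨f, ⟨p, hp, (hf p).2 (Or.inl rfl)⟩, fun y' q hq hqf => ?_⟩
  have : q = p := by simpa using (hf q).1 hqf
  subst this
  exact (hq.inj hp).2

/-- A sequence of distinct elements which is fixed by all functors. -/
theorem exists_num (F : Frame X) (x : X) : ∃ num : ℕ → X, (∀ z, ¬ F.E z (num 0)) ∧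
    ∀ n, IsUp F.E (num (n + 1)) (num n) (num n) := by
  obtain ⟨e, he⟩ := F.sep (R := fun _ => False) (F.cl_congr (F.cl_not F.cl_true) (by simp))
    (fun _ => x) x
  choose s hs using fun y : X => exists_up F y y
  refine ⟨fun n => Nat.rec e (fun _ y => s y) n, fun z hz => ((he z).1 hz).2, fun n => hs _⟩

/-- A sequence with the properties of `exists_num`. -/
structure IsNum (F : Frame X) (num : ℕ → X) : Prop where
  zero : ∀ z, ¬ F.E z (num 0)
  succ : ∀ n, IsUp F.E (num (n + 1)) (num n) (num n)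

theorem IsNum.rnk {num : ℕ → X} (h : IsNum F num) : StrictMono fun n => rnk F (num n) :=
  strictMono_nat_of_lt_succ fun n => rnk_lt ((h.succ n _).2 (Or.inl rfl))

theorem IsNum.inj {num : ℕ → X} (h : IsNum F num) {m n : ℕ} (e : num m = num n) : m = n :=
  h.rnk.injective (congrArg (IM.rnk F) e)

theorem exists_apseq {num : ℕ → X} (hn : IsNum F num) (f : ℕ → X) :
    ∃ e, ∀ k, Ap F.E e (num k) (f k) := by
  choose p hp using fun k => exists_pr F (num k) (f k)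
  obtain ⟨e, he⟩ := F.ctbl p
  refine ⟨e, fun k => ⟨⟨p k, hp k, (he _).2 ⟨k, rfl⟩⟩, fun y' q hq hqe => ?_⟩⟩
  obtain ⟨l, rfl⟩ := (he q).1 hqe
  have h := (hp l).inj hq
  have : l = k := hn.inj h.1
  subst this
  exact h.2.symm

/-! ### Transfer -/

namespace Functor'

variable {T : Functor' F}

theorem Tr.isUp (i k l : ℕ) : Tr T (fun v => IsUp F.E (v i) (v k) (v l))
    (fun v => IsUp F.E (v i) (v k) (v l)) := by
  refine (Tr.allx (R := fun z v => F.E z (v i) ↔ z = v k ∨ z = v l)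
    (R' := fun z v => F.E z (v i) ↔ z = v k ∨ z = v l)
    ((Tr.mem 0 (i + 1)).iff' ((Tr.eq 0 (k + 1)).or (Tr.eq 0 (l + 1))))).congr fun v hv => ?_
  constructor
  · intro h z
    by_cases hz : T.JN z
    · exact h z hz
    · constructor
      · intro hE; exact absurd (T.trans (hv i) hE) hz
      · rintro (rfl | rfl) <;> exact absurd (hv _) hz
  · intro h z _
    exact h z

theorem Tr.isPr (i k l : ℕ) : Tr T (fun v => IsPr F.E (v i) (v k) (v l))
    (fun v => IsPr F.E (v i) (v k) (v l)) := by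
  have h1 : Tr T (fun v => ∃ b, IsUp F.E (v 0) (v (k + 1)) (v (k + 1)) ∧
        IsUp F.E b (v (k + 1)) (v (l + 1)) ∧ IsUp F.E (v (i + 1)) (v 0) b)
      (fun v => ∃ b, T.JN b ∧ IsUp F.E (v 0) (v (k + 1)) (v (k + 1)) ∧
        IsUp F.E b (v (k + 1)) (v (l + 1)) ∧ IsUp F.E (v (i + 1)) (v 0) b) :=
    Tr.exx ((Tr.isUp 1 (k + 2) (k + 2)).and ((Tr.isUp 0 (k + 2) (l + 2)).and
      (Tr.isUp (i + 2) 1 0)))
  refine (Tr.exx (R := fun a v => ∃ b, IsUp F.E a (v k) (v k) ∧ IsUp F.E b (v k) (v l) ∧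
      IsUp F.E (v i) a b) (R' := fun a v => ∃ b, T.JN b ∧ IsUp F.E a (v k) (v k) ∧
      IsUp F.E b (v k) (v l) ∧ IsUp F.E (v i) a b) h1).congr fun v hv => ?_
  constructor
  · rintro ⟨a, _, b, _, h⟩
    exact ⟨a, b, h⟩
  · rintro ⟨a, b, h⟩
    exact ⟨a, T.trans (hv i) ((h.2.2 a).2 (Or.inl rfl)), b,
      T.trans (hv i) ((h.2.2 b).2 (Or.inr rfl)), h⟩

theorem pr_JN {p x y : X} (h : IsPr F.E p x y) (hp : T.JN p) : T.JN x ∧ T.JN y := by
  obtain ⟨a, b, ha, hb, hp'⟩ := h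
  have h1 : T.JN b := T.trans hp ((hp' b).2 (Or.inr rfl))
  exact ⟨T.trans h1 ((hb x).2 (Or.inl rfl)), T.trans h1 ((hb y).2 (Or.inr rfl))⟩

theorem ap_JN {f x y : X} (h : Ap F.E f x y) (hf : T.JN f) : T.JN y := by
  obtain ⟨⟨p, hp, hpf⟩, _⟩ := h
  exact (pr_JN hp (T.trans hf hpf)).2

theorem Tr.ap (i k l : ℕ) : Tr T (fun v => Ap F.E (v i) (v k) (v l))
    (fun v => Ap F.E (v i) (v k) (v l)) := by
  have h1 : Tr T (fun v => ∃ p, IsPr F.E p (v k) (v l) ∧ F.E p (v i))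
      (fun v => ∃ p, IsPr F.E p (v k) (v l) ∧ F.E p (v i)) :=
    (Tr.exx (R := fun p v => IsPr F.E p (v k) (v l) ∧ F.E p (v i))
      (R' := fun p v => IsPr F.E p (v k) (v l) ∧ F.E p (v i))
      ((Tr.isPr 0 (k + 1) (l + 1)).and (Tr.mem 0 (i + 1)))).congr fun v hv =>
      ⟨fun ⟨p, _, h⟩ => ⟨p, h⟩, fun ⟨p, h⟩ => ⟨p, T.trans (hv i) h.2, h⟩⟩
  have h3 : Tr T (fun v => ∀ p, IsPr F.E p (v (k + 1)) (v 0) → F.E p (v (i + 1)) →
        v 0 = v (l + 1))
      (fun v => ∀ p, T.JN p → IsPr F.E p (v (k + 1)) (v 0) → F.E p (v (i + 1)) →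
        v 0 = v (l + 1)) :=
    Tr.allx ((Tr.isPr 0 (k + 2) 1).imp ((Tr.mem 0 (i + 2)).imp (Tr.eq 1 (l + 2))))
  have h2 : Tr T (fun v => ∀ y' p, IsPr F.E p (v k) y' → F.E p (v i) → y' = v l)
      (fun v => ∀ y' p, IsPr F.E p (v k) y' → F.E p (v i) → y' = v l) :=
    (Tr.allx (R := fun y' v => ∀ p, IsPr F.E p (v k) y' → F.E p (v i) → y' = v l)
      (R' := fun y' v => ∀ p, T.JN p → IsPr F.E p (v k) y' → F.E p (v i) → y' = v l)
      h3).congr fun v hv => by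
        constructor
        · intro h y' p hp hpi
          exact h y' (pr_JN hp (T.trans (hv i) hpi)).2 p (T.trans (hv i) hpi) hp hpi
        · intro h y' _ p _ hp hpi
          exact h y' p hp hpi
  exact h1.and h2

theorem ap_j {f x y : X} : Ap F.E (T.j f) (T.j x) (T.j y) ↔ Ap F.E f x y := by
  have := (Tr.ap (T := T) 0 1 2).emb (seq3 f x y)
  exact this.symm

theorem gen' {y : X} (hy : T.JN y) : ∃ f, Ap F.E (T.j f) T.s y := by
  obtain ⟨f, hf⟩ := T.gen hy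
  refine ⟨f, ?_⟩
  exact ((Tr.ap (T := T) 0 1 2).iff (seq3 (T.j f) T.s y)
    (forall_cons.2 ⟨T.j_JN f, forall_cons.2 ⟨T.s_JN, fun _ => hy⟩⟩)).1 hf

theorem j_num {num : ℕ → X} (hn : IsNum F num) (n : ℕ) : T.j (num n) = num n := by
  induction n with
  | zero =>
    refine F.ext _ _ fun z => ⟨fun hz => ?_, fun hz => absurd hz (hn.zero z)⟩
    have h : Tr T (fun v => ¬ F.E (v 1) (v 0)) (fun v => ¬ F.E (v 1) (v 0)) := (Tr.mem 1 0).not
    exact absurd hz (h.all_par (num 0) (fun v => hn.zero (v 0)) (fun _ => z)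
      (fun _ => T.trans (T.j_JN _) hz))
  | succ n ih =>
    have h := ((Tr.isUp (T := T) 0 1 1).emb (cons (num (n + 1)) fun _ => num n)).1 (hn.succ n)
    have h' : IsUp F.E (T.j (num (n + 1))) (T.j (num n)) (T.j (num n)) := h
    rw [ih] at h'
    exact h'.uniq (hn.succ n)

end Functor'

end IM
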