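import Pool.Agent.W_MP_0bf392_lc.Pairs
import Pool.Agent.W_MP_0bf392_lc.Gaifman

/-!
# Threads: codes for the elements of `M_b`
-/

universe u v

namespace IM

open Functor'

variable {X : Type v} {F : Frame X}

section app

/-- Iterated application: `g (c_{k-1}) … (c_0) = e`. -/
def App (F : Frame X) : ℕ → (ℕ → X) → X → X → Prop
  | 0, _, g, e => e = g
  | k + 1, c, g, e => ∃ g', App F k (fun n => c (n + 1)) g g' ∧ Ap F.E g' (c 0) e

theorem App_fun : ∀ (k : ℕ) {c : ℕ → X} {g e e' : X}, App F k c g e → App F k c g e' → e = e'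
  | 0, _, _, _, _, h, h' => h.trans h'.symm
  | k + 1, c, g, e, e', ⟨g₁, h1, h2⟩, ⟨g₂, h3, h4⟩ => by
    obtain rfl := App_fun k h1 h3
    exact h2.fun h4

theorem App_ex : ∀ (k : ℕ) (c : ℕ → X) (e : X), ∃ g, App F k c g e
  | 0, _, e => ⟨e, rfl⟩
  | k + 1, c, e => by
    obtain ⟨g', hg'⟩ := exists_ap (F := F) (c 0) e
    obtain ⟨g, hg⟩ := App_ex k (fun n => c (n + 1)) g'
    exact ⟨g, g', hg, hg'⟩

variable {T : Functor' F}

theorem App_JN : ∀ (k : ℕ) {c : ℕ → X} {g e : X}, App F k c g e → T.JN g → T.JN e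
  | 0, _, _, _, h, hg => by
    have : _ = _ := h
    subst this; exact hg
  | k + 1, _, _, _, ⟨_, h1, h2⟩, hg => ap_JN h2 (App_JN k h1 hg)

theorem Tr_App : ∀ (k : ℕ) (σ : ℕ → ℕ) (i l : ℕ),
    Tr T (fun v => App F k (fun n => v (σ n)) (v i) (v l))
      (fun v => App F k (fun n => v (σ n)) (v i) (v l))
  | 0, _, i, l => Tr.eq l i
  | k + 1, σ, i, l => by
    refine (Tr.exx (R := fun g' v => App F k (fun n => v (σ (n + 1))) (v i) g' ∧
        Ap F.E g' (v (σ 0)) (v l))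
      (R' := fun g' v => App F k (fun n => v (σ (n + 1))) (v i) g' ∧
        Ap F.E g' (v (σ 0)) (v l))
      ((Tr_App k (fun n => σ (n + 1) + 1) (i + 1) 0).and (Tr.ap 0 (σ 0 + 1) (l + 1)))).congr
        fun v hv => ?_
    exact ⟨fun ⟨g', _, h⟩ => ⟨g', h⟩, fun ⟨g', h⟩ => ⟨g', App_JN k h.1 (hv i), h⟩⟩

theorem App_j (k : ℕ) (c : ℕ → X) (g e : X) :
    App F k (fun n => T.j (c n)) (T.j g) (T.j e) ↔ App F k c g e := by
  have := (Tr_App (T := T) k (fun n => n + 2) 0 1).emb (cons g (cons e c))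
  simpa using this.symm

end app

variable (T : Bool → Functor' F)

/-- `e` codes the element `y` of level `m`. -/
def Ev : ℕ → Word → X → X → Prop
  | 0, _ => fun e y => y = e
  | m + 1, b => fun e y =>
    ∃ e', Ap F.E ((T (b 0)).j e) (T (b 0)).s e' ∧ (T (b 0)).J2 (Ev m (sh b)) e' y

variable {T}

theorem cl_Ev : ∀ m b, F.Cl2 (Ev T m b)
  | 0, _ => F.cl_eq' 1 0
  | m + 1, b => by
    have h1 : F.Cl (fun v => Ap F.E (v 2) (v 0) (v 1)) := (Tr.ap (T := T (b 0)) 2 0 1).cl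
    have h2 : F.Cl (fun v => Ap F.E (v 1) (T (b 0)).s (v 0)) := F.cl_par h1 (T (b 0)).s
    have h3 : F.Cl (fun v => Ap F.E ((T (b 0)).j (v 1)) (T (b 0)).s (v 0)) := by
      refine F.cl_congr ((T (b 0)).cl_jsub h2 (fun n => n == 1)) fun v => ?_
      simp
    exact F.cl_exx (F.cl_and h3 ((cl2_J2 (cl_Ev m (sh b))).at 0 2))

theorem Ev_JN {m : ℕ} {b : Word} {e y : X} (h : Ev T (m + 1) b e y) : (T (b 0)).JN y := by
  obtain ⟨e', _, h⟩ := h
  exact (J2_JN (cl_Ev _ _) h).2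

theorem Ev_fun : ∀ (m : ℕ) (b : Word) {e y y' : X}, Ev T m b e y → Ev T m b e y' → y = y'
  | 0, _, _, _, _, h, h' => h.trans h'.symm
  | m + 1, b, e, y, y', ⟨e₁, h1, h2⟩, ⟨e₂, h3, h4⟩ => by
    obtain rfl := h1.fun h3
    have t : Tr (T (b 0)) (fun v => Ev T m (sh b) (v 0) (v 1) → Ev T m (sh b) (v 0) (v 2) →
          v 1 = v 2)
        (fun v => (T (b 0)).J2 (Ev T m (sh b)) (v 0) (v 1) →
          (T (b 0)).J2 (Ev T m (sh b)) (v 0) (v 2) → v 1 = v 2) :=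
      (Tr.at2 (cl_Ev _ _) 0 1).imp ((Tr.at2 (cl_Ev _ _) 0 2).imp (Tr.eq 1 2))
    have j1 := J2_JN (cl_Ev _ _) h2
    have j2 := J2_JN (cl_Ev _ _) h4
    exact t.all_of (fun v => Ev_fun m (sh b)) (seq3 e₁ y y')
      (forall_cons.2 ⟨j1.1, forall_cons.2 ⟨j1.2, fun _ => j2.2⟩⟩) h2 h4

theorem Ev_ex : ∀ (m : ℕ) (b : Word) (y : X), Lv T m b y → ∃ e, Ev T m b e y
  | 0, _, y, _ => ⟨y, rfl⟩
  | m + 1, b, y, hy => by
    have t : Tr (T (b 0)) (fun v => Lv T m (sh b) (v 0) → ∃ e, Ev T m (sh b) e (v 0))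
        (fun v => (T (b 0)).J1 (Lv T m (sh b)) (v 0) →
          ∃ e, (T (b 0)).JN e ∧ (T (b 0)).J2 (Ev T m (sh b)) e (v 0)) :=
      (Tr.at1 (cl_Lv _ _) 0).imp (Tr.exx (Tr.at2 (cl_Ev _ _) 0 1))
    obtain ⟨e', h1, h2⟩ := t.all_of (fun v hv => Ev_ex m (sh b) (v 0) hv) (fun _ => y)
      (fun _ => Lv_JN hy) hy
    obtain ⟨f, hf⟩ := gen' h1
    exact ⟨f, e', hf, h2⟩

/-- `h`, with the parameters `c_0, …, c_{k-1}`, represents `y` at all levels. -/
def Rep (T : Bool → Functor' F) (num : ℕ → X) (k : ℕ) (b : Word) (c : ℕ → X) (h y : X) : Prop :=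
  ∀ m, ∃ g e, Ap F.E h (num (k + m)) g ∧ App F k c g e ∧ Ev T m b e y

variable {num : ℕ → X}

theorem Rep_fun {k : ℕ} {b : Word} {c : ℕ → X} {h y y' : X} (h1 : Rep T num k b c h y)
    (h2 : Rep T num k b c h y') : y = y' := by
  obtain ⟨g, e, a1, a2, a3⟩ := h1 0
  obtain ⟨g', e', b1, b2, b3⟩ := h2 0
  obtain rfl := a1.fun b1
  obtain rfl := App_fun k a2 b2
  exact Ev_fun 0 b a3 b3

theorem Rep_ex (hn : IsNum F num) (k : ℕ) (b : Word) (c : ℕ → X) (y : X) (hy : Mc T b y) :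
    ∃ h, Rep T num k b c h y := by
  choose e he using fun m => Ev_ex m b y (hy m)
  choose g hg using fun m => App_ex (F := F) k c (e m)
  obtain ⟨h, hh⟩ := exists_apseq hn (fun n => g (n - k))
  refine ⟨h, fun m => ⟨g m, e m, ?_, hg m, he m⟩⟩
  have := hh (k + m)
  rwa [Nat.add_sub_cancel_left] at this

theorem Tr_num {T : Functor' F} (hn : IsNum F num) (n i l : ℕ) :
    Tr T (fun v => Ap F.E (v i) (num n) (v l)) (fun v => Ap F.E (v i) (num n) (v l)) := by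
  have := (Tr.ap (T := T) (i + 1) 0 (l + 1)).par (num n)
  simpa only [cons_succ, cons_zero, j_num hn] using this

theorem Tr_Rep (hn : IsNum F num) (k : ℕ) (b : Word) (σ : ℕ → ℕ) (i l : ℕ) :
    Tr (T (b 0)) (fun v => Rep T num k (sh b) (fun n => v (σ n)) (v i) (v l))
      (fun v => ∀ m, ∃ g e, Ap F.E (v i) (num (k + m)) g ∧ App F k (fun n => v (σ n)) g e ∧
        (T (b 0)).J2 (Ev T m (sh b)) e (v l)) := by
  refine Tr.alln fun m => ?_
  have h1 : Tr (T (b 0)) (fun v => ∃ e, Ap F.E (v (i + 1)) (num (k + m)) (v 0) ∧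
        App F k (fun n => v (σ n + 1)) (v 0) e ∧ Ev T m (sh b) e (v (l + 1)))
      (fun v => ∃ e, (T (b 0)).JN e ∧ Ap F.E (v (i + 1)) (num (k + m)) (v 0) ∧
        App F k (fun n => v (σ n + 1)) (v 0) e ∧ (T (b 0)).J2 (Ev T m (sh b)) e (v (l + 1))) :=
    Tr.exx ((Tr_num hn (k + m) (i + 2) 1).and ((Tr_App k (fun n => σ n + 2) 1 0).and
      (Tr.at2 (cl_Ev _ _) 0 (l + 2))))
  refine (Tr.exx (R := fun g v => ∃ e, Ap F.E (v i) (num (k + m)) g ∧
        App F k (fun n => v (σ n)) g e ∧ Ev T m (sh b) e (v l))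
      (R' := fun g v => ∃ e, (T (b 0)).JN e ∧ Ap F.E (v i) (num (k + m)) g ∧
        App F k (fun n => v (σ n)) g e ∧ (T (b 0)).J2 (Ev T m (sh b)) e (v l)) h1).congr
    fun v hv => ?_
  constructor
  · rintro ⟨g, _, e, _, h⟩
    exact ⟨g, e, h⟩
  · rintro ⟨g, e, h⟩
    exact ⟨g, ap_JN h.1 (hv i), e, (J2_JN (cl_Ev _ _) h.2.2).1, h⟩

theorem cl_Rep (hn : IsNum F num) (k : ℕ) (b : Word) : F.ClS (Rep T num k b) :=
  (Tr_Rep (T := T) hn k (cons true b) (fun n => n + 2) 0 1).cl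

/-- A representation persists to the next level. -/
theorem Rep_next (hn : IsNum F num) {k : ℕ} {b : Word} {c : ℕ → X} {h y : X}
    (hy : (T (b 0)).JN y) (hr : Rep T num k b c h y) :
    (T (b 0)).JS (Rep T num (k + 1) (sh b)) (cons (T (b 0)).s fun n => (T (b 0)).j (c n))
      ((T (b 0)).j h) y := by
  have hJ : ∀ n, (T (b 0)).JN (cons ((T (b 0)).j h) (cons y
      (cons (T (b 0)).s fun n => (T (b 0)).j (c n))) n) :=
    forall_cons.2 ⟨j_JN _ _, forall_cons.2 ⟨hy, forall_cons.2 ⟨s_JN _, fun _ => j_JN _ _⟩⟩⟩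
  refine ((Tr_Rep (T := T) hn (k + 1) b (fun n => n + 2) 0 1).iff _ hJ).2 fun m => ?_
  obtain ⟨g, e, h1, h2, e', h3, h4⟩ := hr (m + 1)
  refine ⟨(T (b 0)).j g, e', ?_, ⟨(T (b 0)).j e, ?_, h3⟩, h4⟩
  · have := (ap_j (T := T (b 0))).2 h1
    rw [j_num hn] at this
    have e : k + 1 + m = k + (m + 1) := by omega
    rw [e]
    exact this
  · exact (App_j k c g e).2 h2

/-! ### The code of least order -/

/-- `O m k b c y h`: `h` is the value at level `m` of the function which maps `y` to its least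
code. -/
def O (T : Bool → Functor' F) (num : ℕ → X) : ℕ → ℕ → Word → (ℕ → X) → X → X → Prop
  | 0, k, b => fun c y h => Rep T num k b c h y ∧ ∀ h', F.W h' h → ¬ Rep T num k b c h' y
  | m + 1, k, b => fun c y h => (T (b 0)).JS (O T num m (k + 1) (sh b))
      (cons (T (b 0)).s fun n => (T (b 0)).j (c n)) y h

theorem clS_sub {T : Functor' F} {R : (ℕ → X) → X → X → Prop} (h : F.ClS R) :
    F.ClS (fun c x y => R (cons T.s fun n => T.j (c n)) x y) := by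
  have h1 : F.Cl (fun v => R (cons (v 0) fun n => v (n + 3)) (v 1) (v 2)) := by
    refine F.cl_congr (h.at (fun n => match n with | 0 => 0 | n + 1 => n + 3) 1 2) fun v => ?_
    apply iff_of_eq
    congr 1
    funext n
    cases n <;> rfl
  have h2 : F.Cl (fun v => R (cons T.s fun n => v (n + 2)) (v 0) (v 1)) := F.cl_par h1 T.s
  refine F.cl_congr (T.cl_jsub h2 (fun n => !(n == 0 || n == 1))) fun v => ?_
  simp

theorem cl_O (hn : IsNum F num) : ∀ m k b, F.ClS (O T num m k b)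
  | 0, k, b => by
    refine F.cl_and ?_ (F.cl_allx (F.cl_imp (F.cl2_W.at 0 2) (F.cl_not ?_)))
    · exact (cl_Rep (T := T) hn k b).at (fun n => n + 2) 1 0
    · exact (cl_Rep (T := T) hn k b).at (fun n => n + 3) 0 1
  | m + 1, k, b => clS_sub (clS_JS (cl_O hn m (k + 1) (sh b)))

theorem O_ex (hn : IsNum F num) : ∀ (m k : ℕ) (b : Word) (c : ℕ → X) (y : X), Mc T b y →
    ∃ h, Lv T m b h ∧ O T num m k b c y h
  | 0, k, b, c, y, hy => by
    have hwf : WellFounded F.W := by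
      have := F.W_wo
      exact IsWellFounded.wf
    obtain ⟨h, hh⟩ := Rep_ex hn k b c y hy
    obtain ⟨h₀, h1, h2⟩ := hwf.has_min {h | Rep T num k b c h y} ⟨h, hh⟩
    exact ⟨h₀, trivial, h1, fun h' hW hR => h2 h' hR hW⟩
  | m + 1, k, b, c, y, hy => by
    have t : Tr (T (b 0)) (fun v => Mc T (sh b) (v 0) → ∃ h, Lv T m (sh b) h ∧
          O T num m (k + 1) (sh b) (fun n => v (n + 1)) (v 0) h)
        (fun v => Mc T b (v 0) → ∃ h, (T (b 0)).JN h ∧ (T (b 0)).J1 (Lv T m (sh b)) h ∧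
          (T (b 0)).JS (O T num m (k + 1) (sh b)) (fun n => v (n + 1)) (v 0) h) :=
      (trM b 0).imp (Tr.exx ((Tr.at1 (cl_Lv _ _) 0).and
        (Tr.atS (cl_O hn _ _ _) (fun n => n + 2) 1 0)))
    obtain ⟨h, _, h1, h2⟩ := t.all_of (fun v hv => O_ex hn m (k + 1) (sh b) _ (v 0) hv)
      (cons y (cons (T (b 0)).s fun n => (T (b 0)).j (c n)))
      (forall_cons.2 ⟨Mc_JN hy, forall_cons.2 ⟨s_JN _, fun _ => j_JN _ _⟩⟩) hy
    exact ⟨h, h1, h2⟩

theorem O_fun (hn : IsNum F num) : ∀ (m k : ℕ) (b : Word) (c : ℕ → X) {y h h' : X},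
    O T num m k b c y h → O T num m k b c y h' → h = h'
  | 0, k, b, c, y, h, h', ⟨h1, h2⟩, ⟨h3, h4⟩ => by
    have := F.W_wo
    rcases trichotomous_of F.W h h' with hW | hW | hW
    · exact absurd h1 (h4 _ hW)
    · exact hW
    · exact absurd h3 (h2 _ hW)
  | m + 1, k, b, c, y, h, h', h1, h2 => by
    have t : Tr (T (b 0)) (fun v =>
          O T num m (k + 1) (sh b) (fun n => v (n + 3)) (v 0) (v 1) →
          O T num m (k + 1) (sh b) (fun n => v (n + 3)) (v 0) (v 2) → v 1 = v 2)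
        (fun v => (T (b 0)).JS (O T num m (k + 1) (sh b)) (fun n => v (n + 3)) (v 0) (v 1) →
          (T (b 0)).JS (O T num m (k + 1) (sh b)) (fun n => v (n + 3)) (v 0) (v 2) →
          v 1 = v 2) :=
      (Tr.atS (cl_O hn _ _ _) (fun n => n + 3) 0 1).imp
        ((Tr.atS (cl_O hn _ _ _) (fun n => n + 3) 0 2).imp (Tr.eq 1 2))
    have j1 := JS_JN (cl_O hn _ _ _) h1
    have j2 := JS_JN (cl_O hn _ _ _) h2
    exact t.all_of (fun v => O_fun hn m (k + 1) (sh b) _)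
      (cons y (cons h (cons h' (cons (T (b 0)).s fun n => (T (b 0)).j (c n)))))
      (forall_cons.2 ⟨j1.2.1, forall_cons.2 ⟨j1.2.2, forall_cons.2 ⟨j2.2.2, j1.1⟩⟩⟩) h1 h2

theorem O_inj (hn : IsNum F num) : ∀ (m k : ℕ) (b : Word) (c : ℕ → X) {y y' h : X},
    O T num m k b c y h → O T num m k b c y' h → y = y'
  | 0, k, b, c, y, y', h, ⟨h1, _⟩, ⟨h3, _⟩ => Rep_fun h1 h3
  | m + 1, k, b, c, y, y', h, h1, h2 => by
    have t : Tr (T (b 0)) (fun v =>
          O T num m (k + 1) (sh b) (fun n => v (n + 3)) (v 0) (v 2) →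
          O T num m (k + 1) (sh b) (fun n => v (n + 3)) (v 1) (v 2) → v 0 = v 1)
        (fun v => (T (b 0)).JS (O T num m (k + 1) (sh b)) (fun n => v (n + 3)) (v 0) (v 2) →
          (T (b 0)).JS (O T num m (k + 1) (sh b)) (fun n => v (n + 3)) (v 1) (v 2) →
          v 0 = v 1) :=
      (Tr.atS (cl_O hn _ _ _) (fun n => n + 3) 0 2).imp
        ((Tr.atS (cl_O hn _ _ _) (fun n => n + 3) 1 2).imp (Tr.eq 0 1))
    have j1 := JS_JN (cl_O hn _ _ _) h1
    have j2 := JS_JN (cl_O hn _ _ _) h2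
    exact t.all_of (fun v => O_inj hn m (k + 1) (sh b) _)
      (cons y (cons y' (cons h (cons (T (b 0)).s fun n => (T (b 0)).j (c n)))))
      (forall_cons.2 ⟨j1.2.1, forall_cons.2 ⟨j2.2.1, forall_cons.2 ⟨j1.2.2, j1.1⟩⟩⟩) h1 h2

/-- The codes do not increase along the levels. -/
theorem O_le (hn : IsNum F num) : ∀ (m k : ℕ) (b : Word) (c : ℕ → X) {y h h' h'' : X},
    Mc T b y → O T num m k b c y h → K T m b h h' → O T num (m + 1) k b c y h'' →
    ¬ L T (m + 1) b h' h''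
  | 0, k, b, c, y, h, h', h'', hy, h1, h2, h3 => by
    have h2' : h' = (T (b 0)).j h := h2
    subst h2'
    have t : Tr (T (b 0)) (fun v =>
          O T num 0 (k + 1) (sh b) (fun n => v (n + 3)) (v 0) (v 2) →
          Rep T num (k + 1) (sh b) (fun n => v (n + 3)) (v 1) (v 0) → ¬ F.W (v 1) (v 2))
        (fun v => (T (b 0)).JS (O T num 0 (k + 1) (sh b)) (fun n => v (n + 3)) (v 0) (v 2) →
          (T (b 0)).JS (Rep T num (k + 1) (sh b)) (fun n => v (n + 3)) (v 1) (v 0) →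
          ¬ (T (b 0)).J2 F.W (v 1) (v 2)) :=
      (Tr.atS (cl_O hn _ _ _) (fun n => n + 3) 0 2).imp
        ((Tr.atS (cl_Rep hn _ _) (fun n => n + 3) 1 0).imp (Tr.at2 F.cl2_W 1 2).not)
    have j1 := JS_JN (cl_O hn _ _ _) h3
    have hr := Rep_next hn (Mc_JN hy) h1.1
    exact t.all_of (fun v a1 a2 a3 => a1.2 _ a3 a2)
      (cons y (cons ((T (b 0)).j h) (cons h'' (cons (T (b 0)).s fun n => (T (b 0)).j (c n)))))
      (forall_cons.2 ⟨j1.2.1, forall_cons.2 ⟨j_JN _ _, forall_cons.2 ⟨j1.2.2, j1.1⟩⟩⟩) h3 hr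
  | m + 1, k, b, c, y, h, h', h'', hy, h1, h2, h3 => by
    have t : Tr (T (b 0)) (fun v => Mc T (sh b) (v 0) →
          O T num m (k + 1) (sh b) (fun n => v (n + 4)) (v 0) (v 1) →
          K T m (sh b) (v 1) (v 2) →
          O T num (m + 1) (k + 1) (sh b) (fun n => v (n + 4)) (v 0) (v 3) →
          ¬ L T (m + 1) (sh b) (v 2) (v 3))
        (fun v => Mc T b (v 0) →
          (T (b 0)).JS (O T num m (k + 1) (sh b)) (fun n => v (n + 4)) (v 0) (v 1) →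
          (T (b 0)).J2 (K T m (sh b)) (v 1) (v 2) →
          (T (b 0)).JS (O T num (m + 1) (k + 1) (sh b)) (fun n => v (n + 4)) (v 0) (v 3) →
          ¬ (T (b 0)).J2 (L T (m + 1) (sh b)) (v 2) (v 3)) :=
      (trM b 0).imp ((Tr.atS (cl_O hn _ _ _) (fun n => n + 4) 0 1).imp
        ((Tr.at2 (cl_K _ _) 1 2).imp ((Tr.atS (cl_O hn _ _ _) (fun n => n + 4) 0 3).imp
          (Tr.at2 (cl_L _ _) 2 3).not)))
    have j1 := JS_JN (cl_O hn _ _ _) h1
    have j2 := J2_JN (cl_K _ _) h2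
    have j3 := JS_JN (cl_O hn _ _ _) h3
    exact t.all_of (fun v => O_le hn m (k + 1) (sh b) _)
      (cons y (cons h (cons h' (cons h'' (cons (T (b 0)).s fun n => (T (b 0)).j (c n))))))
      (forall_cons.2 ⟨j1.2.1, forall_cons.2 ⟨j2.1, forall_cons.2 ⟨j2.2,
        forall_cons.2 ⟨j3.2.2, j1.1⟩⟩⟩⟩) hy h1 h2 h3

end IM
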